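import Pool.Agent.Work.MP_a8fbd7_nt.EX.ASM2.Stmts

set_option autoImplicit false

namespace Pool.Agent.Work.MP_a8fbd7_nt.EX.ASM2

open Pool.Agent.Work.MP_a8fbd7_nt.OX
open Filter

/-- from the core statement to the exceptional set without constants -/
theorem fin_of_YCo (h : StYCo) :
    ∃ E : Set ℕ, (∀ N : ℕ, ((E ∩ Set.Icc 1 N).ncard : ℝ) ≤ (N : ℝ) ^ (21 / 200 : ℝ)) ∧
      ∃ n0 : ℕ, ∀ n : ℕ, n0 ≤ n → n ∉ E →
        (n : ℝ) / (250 * Real.log n) ≤ (((Finset.Icc (n ^ 2 - n) (n ^ 2)).filter Nat.Prime).card : ℝ) ∧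
        (n : ℝ) / (250 * Real.log n) ≤ (((Finset.Icc (n ^ 2) (n ^ 2 + n)).filter Nat.Prime).card : ℝ) := by
  obtain ⟨C, hC1, hC⟩ := h
  have hlim : Tendsto (fun x : ℝ => x ^ (1 / 10000 : ℝ)) atTop atTop :=
    tendsto_rpow_atTop (by norm_num)
  obtain ⟨X, hX⟩ := Filter.eventually_atTop.1 (hlim.eventually_ge_atTop C)
  set n0 : ℕ := max 2 ⌈X⌉₊ with hn0
  refine ⟨{n : ℕ | n0 ≤ n ∧ ((FIN.cA n : ℝ) < n / (250 * Real.log n) ∨ (FIN.cB n : ℝ) < n / (250 * Real.log n))},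
    ?_, n0, ?_⟩
  · intro N
    rcases Nat.lt_or_ge N n0 with hN | hN
    · have he : ({n : ℕ | n0 ≤ n ∧ ((FIN.cA n : ℝ) < n / (250 * Real.log n) ∨ (FIN.cB n : ℝ) < n / (250 * Real.log n))} ∩
          Set.Icc 1 N) = ∅ := by
        ext n
        simp only [Set.mem_inter_iff, Set.mem_setOf_eq, Set.mem_Icc, Set.mem_empty_iff_false, iff_false]
        rintro ⟨⟨h1, _⟩, h2, h3⟩
        omega
      rw [he, Set.ncard_empty]
      simp only [Nat.cast_zero]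
      positivity
    · have hN2 : 2 ≤ N := le_trans (le_max_left _ _) hN
      have hN1 : 1 ≤ N := by omega
      have hNX : X ≤ (N : ℝ) := by
        have h1 : ⌈X⌉₊ ≤ N := le_trans (le_max_right _ _) hN
        exact le_trans (Nat.le_ceil X) (by exact_mod_cast h1)
      have hNpos : (0 : ℝ) < N := by exact_mod_cast hN1
      have hsub : ({n : ℕ | n0 ≤ n ∧ ((FIN.cA n : ℝ) < n / (250 * Real.log n) ∨ (FIN.cB n : ℝ) < n / (250 * Real.log n))} ∩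
          Set.Icc 1 N) ⊆ {n : ℕ | 1 ≤ n ∧ n ≤ N ∧ ((FIN.cA n : ℝ) < n / (250 * Real.log n) ∨
            (FIN.cB n : ℝ) < n / (250 * Real.log n))} := by
        rintro n ⟨⟨_, h2⟩, h3⟩
        exact ⟨h3.1, h3.2, h2⟩
      have hfin : {n : ℕ | 1 ≤ n ∧ n ≤ N ∧ ((FIN.cA n : ℝ) < n / (250 * Real.log n) ∨
            (FIN.cB n : ℝ) < n / (250 * Real.log n))}.Finite :=
        (Set.finite_Icc 1 N).subset (fun n hn => ⟨hn.1, hn.2.1⟩)
      have h1 : ((({n : ℕ | n0 ≤ n ∧ ((FIN.cA n : ℝ) < n / (250 * Real.log n) ∨ (FIN.cB n : ℝ) < n / (250 * Real.log n))} ∩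
          Set.Icc 1 N).ncard : ℕ) : ℝ) ≤ C * (N : ℝ) ^ r12 :=
        le_trans (by exact_mod_cast Set.ncard_le_ncard hsub hfin) (hC N hN1)
      refine h1.trans ?_
      have h2 : C ≤ (N : ℝ) ^ (1 / 10000 : ℝ) := hX _ hNX
      calc C * (N : ℝ) ^ r12 ≤ (N : ℝ) ^ (1 / 10000 : ℝ) * (N : ℝ) ^ r12 := by gcongr
        _ = (N : ℝ) ^ (21 / 200 : ℝ) := by
            rw [← Real.rpow_add hNpos]
            norm_num [r12]
  · intro n hn hnE
    simp only [Set.mem_setOf_eq, not_and, not_or, not_lt] at hnE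
    obtain ⟨h1, h2⟩ := hnE hn
    exact ⟨h1, h2⟩

end Pool.Agent.Work.MP_a8fbd7_nt.EX.ASM2
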