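import Mathlib
import Pool.Agent.Work.MP_a8fbd7_nt.EX.ASM.Stmts
import Pool.Agent.Work.MP_a8fbd7_nt.EX.CELL.Stmts2

/-!
MP_a8fbd7_nt, block EX, second wave, part ASM2 (assembly at the exponents `r2 = .1047`, `c2 = 17/75`, final exponent `21/200`): definitions and statements of the items, each with its proof in the docstring.
Modelled on `EX/ASM` (first wave, four variables); now five variables `n_0, .., n_4` (`u : Fin 5 → Option ℕ`, `v : Fin (5 S) → Option ℕ`).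

THE SIEVE.  `R = rg z`, `z = zz c2 T`.  `g = (37/12) R - (16/9) R² + (67/108) R³ - (7/72)(R⁴ - α⁴) + (47/108) F5`, where `F5 n` counts the `n = n_0 n_1 n_2 n_3 n_4` with all `n_i` `z`-rough, `n_0 > n_1 > n_2, n_3, n_4 > 1`, `n_2 n_3 n_4 < T`, `n_0 > T^(1/2)`,
with a smooth weight `Wf`.  Boxes of this kind are accessible: groups `{u 0, u 1}` and `{u 2, u 3, u 4}`.  On squarefree rough `n` with `J` prime factors the part without `α`, `F5` is `q_J = 1, 0, -11/18, 0, -47/18, -170/3, -8291/18, -8260/3` (`J = 1, .., 8`), and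
`F5 n ≤ 6 S(J,5)` (`S(J,5) = 1, 15, 140, 1050` for `J = 5, .., 8`: partitions of a `J`-set into five blocks; two largest blocks first, the other three in any order), so `q_J + (47/108) F5 n ≤ 0` for `J ≥ 2`.  Total loss `.951 < 1` (true value), `≤ .99` proved.
-/

set_option autoImplicit false

open MeasureTheory Set Filter Topology

noncomputable section

namespace Pool.Agent.Work.MP_a8fbd7_nt.EX.ASM2

open Pool.Agent.Work.MP_56b8f5_nt.UC (IsWt Bl Dp Om psi eta Sep)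
open Pool.Agent.Work.MP_a8fbd7_nt.OX
open Pool.Agent.Work.MP_a8fbd7_nt.OX.ID (Rough roughOne pb rg)
open Pool.Agent.Work.MP_a8fbd7_nt.OX.ASM
open Pool.Agent.Work.MP_a8fbd7_nt.EX
open Pool.Agent.Work.MP_a8fbd7_nt.EX.CELL (r2 c2)
open Pool.Agent.Work.MP_a8fbd7_nt.EX.ASM (al bw sqr aJ)

/-! ### Definitions -/

/-- exponent after the union over the boxes, `.1049 < 21/200` -/
def r12 : ℝ := 1049 / 10000

/-- box function -/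
def BX5 (y z : ℕ) {n : ℕ} (u : Fin 5 → Option ℕ) (v : Fin n → Option ℕ) : ArithmeticFunction ℝ :=
  (∏ i, ms y (u i)) * ∏ r, ps y z (v r)

/-- box function with sieve weights in the long slots -/
def BXA5 (y z : ℕ) (T κ : ℝ) (lw : Fin 5 → ℕ → ℝ) {n : ℕ} (u : Fin 5 → Option ℕ) (v : Fin n → Option ℕ) : ArithmeticFunction ℝ :=
  (∏ i, msA y T κ (lw i) (u i)) * ∏ r, ps y z (v r)

/-- total scale of a box -/
def PX5 {n : ℕ} (u : Fin 5 → Option ℕ) (v : Fin n → Option ℕ) : ℝ := (∏ i, sc (u i)) * ∏ r, sc (v r)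

/-- the variable to which the prime slot `r` belongs -/
def own5 {S : ℕ} (r : Fin (5 * S)) : Fin 5 := (finProdFinEquiv.symm r).1

open Classical in
/-- scale of the variable `i` -/
def svr5 {S : ℕ} (u : Fin 5 → Option ℕ) (v : Fin (5 * S) → Option ℕ) (i : Fin 5) : ℝ :=
  sc (u i) * ∏ r ∈ Finset.univ.filter (fun r => own5 r = i), sc (v r)

/-- not all of the variables `0, .., 3` are near `T^(1/2)` -/
def kept5 (T κ1 : ℝ) {S : ℕ} (u : Fin 5 → Option ℕ) (v : Fin (5 * S) → Option ℕ) : Prop :=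
  ¬ ∀ i : Fin 5, i.val < 4 → T ^ (1 / 2 - κ1) ≤ svr5 u v i ∧ svr5 u v i ≤ T ^ (1 / 2 + κ1)

open Classical in
/-- number of used prime slots of the variable `i` -/
def nsi5 {S : ℕ} (v : Fin (5 * S) → Option ℕ) (i : Fin 5) : ℕ :=
  (Finset.univ.filter (fun r : Fin (5 * S) => own5 r = i ∧ (v r).isSome)).card

/-- the variable `i` is not used -/
def triv5 {S : ℕ} (u : Fin 5 → Option ℕ) (v : Fin (5 * S) → Option ℕ) (i : Fin 5) : Prop :=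
  u i = none ∧ ∀ r : Fin (5 * S), own5 r = i → v r = none

/-- `0` for `t ≤ 0`, `t` for `0 ≤ t ≤ 1`, `1` for `t ≥ 1` -/
def clip (t : ℝ) : ℝ := max 0 (min 1 t)

/-- weight of the five-variable boxes as a function of the sizes `x i = log n_i / log T`; Lipschitz, values in `[0, 1]` -/
def Wf (κ : ℝ) (x : Fin 5 → ℝ) : ℝ :=
  clip ((x 0 - x 1) / κ) * clip ((x 1 - x 2) / κ) * clip ((x 1 - x 3) / κ) * clip ((x 1 - x 4) / κ) *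
    clip ((1 - x 2 - x 3 - x 4) / κ) * clip ((x 0 - 1 / 2 - κ) / κ) *
    clip ((x 2 - 1 / 5) / κ) * clip ((x 3 - 1 / 5) / κ) * clip ((x 4 - 1 / 5) / κ)

open Classical in
/-- coefficient of the box `(u, v)` -/
def ccX5 (T κ1 : ℝ) {S : ℕ} (u : Fin 5 → Option ℕ) (v : Fin (5 * S) → Option ℕ) : ℝ :=
  (∏ i, (-1 : ℝ) ^ nsi5 v i * ((S - nsi5 v i).factorial : ℝ) / (S.factorial : ℝ)) *
    ((if ∀ i : Fin 5, 1 ≤ i.val → triv5 u v i then (37 / 12 : ℝ) else 0) -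
      (if ∀ i : Fin 5, 2 ≤ i.val → triv5 u v i then (16 / 9 : ℝ) else 0) +
      (if ∀ i : Fin 5, 3 ≤ i.val → triv5 u v i then (67 / 108 : ℝ) else 0) -
      (if kept5 T κ1 u v ∧ triv5 u v 4 then (7 / 72 : ℝ) else 0) +
      47 / 108 * Wf κ1 (fun i => Real.log (svr5 u v i) / Real.log T))

/-- bound for `|ccX5|` -/
def cwX5 {S : ℕ} (v : Fin (5 * S) → Option ℕ) : ℝ := 7 * ∏ i, ((S - nsi5 v i).factorial : ℝ) / (S.factorial : ℝ)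

/-- the slots `2, 3, 4` have total length `≤ T`, or slot `4` is not used -/
def Gp (T : ℝ) (u : Fin 5 → Option ℕ) : Prop := u 4 = none ∨ sc (u 2) * sc (u 3) * sc (u 4) ≤ T

/-- the five-variable term -/
def F5 (z : ℕ) (T κ : ℝ) (n : ℕ) : ℝ :=
  ∑ g ∈ Nat.finMulAntidiag 5 n, (∏ i, rg z (g i)) * Wf κ (fun i => Real.log (g i) / Real.log T)

/-- the sieve function `g` -/
def gX5 (z : ℕ) (T κ1 : ℝ) (n : ℕ) : ℝ :=
  37 / 12 * rg z n - 16 / 9 * (rg z ^ 2) n + 67 / 108 * (rg z ^ 3) n - 7 / 72 * ((rg z ^ 4) n - (al z T κ1 ^ 4) n) +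
    47 / 108 * F5 z T κ1 n

/-- `log((k+1)/k)` -/
def Lk (k : ℕ) : ℝ := Real.log (((k : ℝ) + 1) / (k : ℝ))

/-- upper bound for the relative density of products of `n + 1` primes `> z`, times `n!`; cells of width `1/450` (`c2 · 450 = 102`, `(2 - c2) · 450 = 798`) -/
def mass2 (n : ℕ) : ℝ := ∑ f ∈ (Fintype.piFinset (fun _ : Fin n => Finset.Icc (102 : ℕ) 798)).filter (fun f => ∑ i, f i ≤ 798),
  ∏ i, Lk (f i)

/-- lower bound for the density of `F5` on numbers with five prime factors, cells of width `1/300` (`c2 · 300 = 68`); `k1` is the cell of `n_1`, `k2, k3, k4` those of `n_2, n_3, n_4`, `n_0` is the remaining prime -/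
def mass5a : ℝ := ∑ k2 ∈ Finset.Icc (68 : ℕ) 160, ∑ k3 ∈ Finset.Icc (68 : ℕ) 160, ∑ k4 ∈ Finset.Icc (68 : ℕ) 160, ∑ k1 ∈ Finset.Icc (68 : ℕ) 300,
  if k2 + k3 + k4 ≤ 296 ∧ max k2 (max k3 k4) + 2 ≤ k1 ∧ 2 * k1 + k2 + k3 + k4 ≤ 594 then
    Lk k2 * Lk k3 * Lk k4 * Lk k1 * (600 / (600 - ((k1 + k2 + k3 + k4 : ℕ) : ℝ))) else 0

/-- the same for six prime factors, `n_0 = p p'`, `p' < p`, `k5` is the cell of `p'` -/
def mass6a : ℝ := ∑ k2 ∈ Finset.Icc (68 : ℕ) 160, ∑ k3 ∈ Finset.Icc (68 : ℕ) 160, ∑ k4 ∈ Finset.Icc (68 : ℕ) 160, ∑ k1 ∈ Finset.Icc (68 : ℕ) 300,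
  ∑ k5 ∈ Finset.Icc (68 : ℕ) 300,
  if k2 + k3 + k4 ≤ 296 ∧ max k2 (max k3 k4) + 2 ≤ k1 ∧ 2 * k1 + k2 + k3 + k4 ≤ 594 ∧ k1 + k2 + k3 + k4 + 2 * k5 ≤ 593 then
    Lk k2 * Lk k3 * Lk k4 * Lk k1 * Lk k5 * (600 / (600 - ((k1 + k2 + k3 + k4 + k5 : ℕ) : ℝ))) else 0

/-- the same for six prime factors, `n_1 = p p'`, `p' < p`, cells `k5 < k1` -/
def mass6b : ℝ := ∑ k2 ∈ Finset.Icc (68 : ℕ) 160, ∑ k3 ∈ Finset.Icc (68 : ℕ) 160, ∑ k4 ∈ Finset.Icc (68 : ℕ) 160, ∑ k1 ∈ Finset.Icc (68 : ℕ) 300,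
  ∑ k5 ∈ Finset.Icc (68 : ℕ) 300,
  if k2 + k3 + k4 ≤ 296 ∧ max k2 (max k3 k4) + 2 ≤ k1 + k5 ∧ k5 < k1 ∧ 2 * k1 + k2 + k3 + k4 + 2 * k5 ≤ 592 then
    Lk k2 * Lk k3 * Lk k4 * Lk k1 * Lk k5 * (600 / (600 - ((k1 + k2 + k3 + k4 + k5 : ℕ) : ℝ))) else 0

/-! ### Part 1: boxes (copies of the first wave, `EX/ASM`) -/

/-- ITEM YRg (copy of `EX/ASM/I_XRg.lean`; uses StPd). -/
def StYRg : Prop := ∀ w : ℝ → ℝ, IsWt w → ∀ n : ℕ, ∃ C : ℝ, 1 ≤ C ∧ ∀ (T κ x T' : ℝ) (y z : ℕ) (lw : Fin 5 → ℕ → ℝ) (u : Fin 5 → Option ℕ)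
  (v : Fin n → Option ℕ), 1 ≤ T → 1 ≤ T' → T ^ 2 ≤ x → x ≤ 4 * T ^ 2 →
  (SW w (BX5 y z u v) x T' ≠ 0 ∨ SW w (BXA5 y z T κ lw u v) x T' ≠ 0) → T ^ 2 / C ≤ PX5 u v ∧ PX5 u v ≤ C * T ^ 2

/-- ITEM YBB (copy of `EX/ASM/I_XBB.lean`; uses `StCellXB r2 c2`, StF4, StPd, StYRg, StSa).  Groups: slots `u 0`, `u 1` in group `0` (product `≤ T^(1+2κ)`), `u 2`, `u 3`, `u 4` in group `1` (by `Gp` and no long slot: product `≤ T^(1+2κ)`), primes in group `2`. -/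
def StYBB : Prop := ∀ β : ℝ, 0 < β → β ≤ 1 / 20 → ∃ κ : ℝ, 0 < κ ∧ κ ≤ β / 100 ∧ ∀ w : ℝ → ℝ, IsWt w → ∀ η A : ℝ, 0 < η → η ≤ 1 / 20 →
  0 < A → ∃ B0 : ℝ, 1 ≤ B0 ∧ ∀ B : ℝ, B0 ≤ B → ∃ C : ℝ, 1 ≤ C ∧
  ∀ (T : ℝ) (u : Fin 5 → Option ℕ) (v : Fin (5 * SS η) → Option ℕ), C ≤ T → (∀ i, ¬ Lg T κ (u i)) → Gp T u → T ^ β ≤ ∏ r, sc (v r) →
  PackLe T (fun x => 1 / Real.log T ^ A ≤ |DD w (BX5 (zz η T) (zz c2 T) u v) x T (Real.log T ^ B)|) (C * T ^ r2)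

/-- ITEM YAA (copy of `EX/ASM/I_XAA.lean`, `RedA.lean`; uses `StCellXA r2 c2`, StF4, StPd, StYRg, StRp, StTb, UC.StKp).  Groups as in YBB: a slot of `{2, 3, 4}` longer than `T^(1/2+κ3)` is replaced by a block of length `≤ T^(1/2)`, so group `1` has total length `≤ T^(1+2κ3)` if
`u 4 = none` and `≤ T` otherwise.  At most three slots are longer than `T^(1/2+κ3)`. -/
def StYAA : Prop := ∀ κ2 : ℝ, 0 < κ2 → κ2 ≤ 1 / 20 → ∃ κ3 κ' : ℝ, 0 < κ3 ∧ κ3 ≤ κ2 / 10 ∧ 0 < κ' ∧ κ' ≤ κ3 / 10 ∧ ∀ w : ℝ → ℝ, IsWt w →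
  ∀ η A : ℝ, 0 < η → η ≤ κ' → 0 < A → ∃ B0 : ℝ, 1 ≤ B0 ∧ ∀ B : ℝ, B0 ≤ B → ∃ C : ℝ, 1 ≤ C ∧
  ∀ (T : ℝ) (u : Fin 5 → Option ℕ) (v : Fin (5 * SS η) → Option ℕ) (lw : Fin 5 → ℕ → ℝ), C ≤ T → (∃ i, Lg T κ2 (u i)) → Gp T u →
  (∀ i d, |lw i d| ≤ 2) → (∀ i d, lw i d ≠ 0 → 1 ≤ d ∧ (d : ℝ) ≤ T ^ κ') →
  PackLe T (fun x => 1 / Real.log T ^ A ≤
    |DD w (BXA5 (zz η T) (zz c2 T) T κ3 lw u v) x T (Real.log T ^ B)|) (C * T ^ r2)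

open Classical in
/-- ITEM YV1 (copy of `EX/ASM/I_XV1.lean`). -/
def StYV1 : Prop := ∀ (T κ D C0 E : ℝ) (y z n0 : ℕ) (lp lm : ℕ → ℝ) (u : Fin 5 → Option ℕ) (v : Fin n0 → Option ℕ) (n : ℕ), 3 ≤ T → 0 < κ →
  IsSv y D C0 E lp lm →
  |BX5 y z u v n - BXA5 y z T κ (fun _ => lp) u v n| ≤ ∑ i ∈ Finset.univ.filter (fun i => Lg T κ (u i)),
    BXA5 y z T κ (Function.update (fun _ => lp) i (fun d => lp d - lm d)) u v n ∧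
  ∀ i : Fin 5, 0 ≤ BXA5 y z T κ (Function.update (fun _ => lp) i (fun d => lp d - lm d)) u v n

open Classical in
/-- ITEM YSE (copy of `EX/ASM/I_XSE.lean`; uses StMa, StIn, StPd, StYRg).  Four other `u`-slots, `exp(5 ∑ 1/p)`: total `(C/η)^(4+5+1)`, times `O(1/η)` for the scales of the long slot. -/
def StYSE : Prop := ∀ w : ℝ → ℝ, IsWt w → (∀ u, 0 ≤ w u) → ∀ C0 : ℝ, 1 ≤ C0 → ∃ C3 : ℝ, 1 ≤ C3 ∧ ∀ η κ3 κ' E B : ℝ, 0 < η → η ≤ 1 / 20 →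
  0 < κ3 → κ3 ≤ 1 / 20 → 0 < κ' → κ' ≤ 1 / 20 → 0 < E → 1 ≤ B → ∃ C : ℝ, 1 ≤ C ∧
  ∀ (T x : ℝ) (lp lm : ℕ → ℝ), C ≤ T → T ^ 2 ≤ x → x ≤ 4 * T ^ 2 → IsSv (zz η T) (T ^ κ') C0 E lp lm →
  ∑ u ∈ Bx 5 T, ∑ v ∈ Bx (5 * SS η) T, cwX5 v * ∑ i ∈ Finset.univ.filter (fun i => Lg T κ3 (u i)),
    Real.log T ^ B / x * SW w (BXA5 (zz η T) (zz c2 T) T κ3 (Function.update (fun _ => lp) i (fun d => lp d - lm d)) u v) x
      (Real.log T ^ B) ≤ (C3 / η) ^ 16 * E / Real.log T + C / Real.log T ^ 2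

/-- ITEM YSh (the boxes with non-zero coefficient; arithmetic).  If `ccX5 ≠ 0` then `triv5 u v 4` or `Wf ≠ 0` (a trivial variable has scale `1`, size `0`, so `Wf = 0` if `triv5 u v 4`; if `triv5 u v 4` and the box is not kept, then none of the variables `0, .., 3` is trivial (their scales are
`≥ T^(1/2-κ1) > 1`), all four `if`s are `0`, `Wf = 0`, `ccX5 = 0`).  `Gp`: if `triv5 u v 4` then `u 4 = none`; if `Wf ≠ 0` then `svr5 2 · svr5 3 · svr5 4 < T` and `sc (u i) ≤ svr5 u v i` (all scales are `≥ 1`).  Primes: if `Wf ≠ 0` then `svr5 0 > T^(1/2+κ1)`, `sc (u 0) ≤ T^(1/2+κ2)`, so the primes of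
variable `0` have total scale `≥ T^(κ1-κ2)`; if `triv5 u v 4` and the box is kept: as in `EX/ASM/I_XSh.lean` (`sc (u 4) = 1`). -/
def StYSh : Prop := ∀ (κ1 κ2 T : ℝ) (S : ℕ) (u : Fin 5 → Option ℕ) (v : Fin (5 * S) → Option ℕ), 0 < κ1 → κ1 ≤ 1 / 20 → 0 < κ2 → κ2 ≤ κ1 / 100 →
  1 < T → ccX5 T κ1 u v ≠ 0 → Gp T u ∧
    ((∀ i, ¬ Lg T κ2 (u i)) → T ^ (2 - κ1 / 100) ≤ PX5 u v → T ^ (κ1 / 2) ≤ ∏ r, sc (v r))

/-- ITEM YCc: `|ccX5| ≤ cwX5` (`37/12 + 16/9 + 67/108 + 7/72 + 47/108 < 7`, `0 ≤ Wf ≤ 1`). -/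
def StYCc : Prop := ∀ (T κ1 : ℝ) (S : ℕ) (u : Fin 5 → Option ℕ) (v : Fin (5 * S) → Option ℕ), |ccX5 T κ1 u v| ≤ cwX5 v

/-! ### Part 2: the identity -/

/-- ITEM YEx (expansion of `g` into boxes; compare `EX/ASM/I_XEx.lean`, whose one-variable functions `R~`, `α~` and estimates are reused; `c2` instead of `cE`, the slots of variable `4` are empty in the part without `Wf`).  NEW: the part `F5`.
`∑_{(u,v)} (∏ c) Wf(log svr / log T) BX5(n) = ∑_g ∑_{boxes} ∏_i [c BX_i](g_i) · Wf(log svr_i/log T)`, sum over the ordered factorizations `g` of `n`.  If `BX_i(g_i) ≠ 0` then `|log svr_i - log g_i| ≤ (S+1) log 2`, and `Wf κ1` is Lipschitz (constant `27/κ1` in the sup norm, product of nine functions with values in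
`[0,1]` and Lipschitz constant `≤ 3/κ1`), so replacing `log svr_i` by `log g_i` costs `≤ (C/log T) ∏ ∑|c BX_i|(g_i) ≤ (C/log T) ∏ rg y (g_i)`, in total `(C/log T) (rg y ^ 5) n`.  Then `∑_{boxes} ∏ [c BX_i](g_i) = ∏ R~(g_i)`, `|R~ - R| ≤ C sqr y · rg y`, telescoping: error `≤ C sqr y n`
(`n` has at most `S` prime factors `> y` with multiplicity, so at most `5^S` factorizations into rough factors). -/
def StYEx : Prop := ∀ η κ1 : ℝ, 0 < η → η ≤ 1 / 20 → 0 < κ1 → κ1 ≤ 1 / 20 → ∃ C : ℝ, 1 ≤ C ∧ ∀ (T : ℝ) (n : ℕ), C ≤ T → 2 ≤ n →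
  (n : ℝ) ≤ T ^ (2 + 1 / 50 : ℝ) →
  |gX5 (zz c2 T) T κ1 n - ∑ u ∈ Bx 5 T, ∑ v ∈ Bx (5 * SS η) T, ccX5 T κ1 u v * BX5 (zz η T) (zz c2 T) u v n| ≤
    C * (sqr (zz η T) n + (bw (zz η T) T κ1 (2 ^ (SS η + 1)) * rg (zz η T) ^ 3) n + (rg (zz η T) ^ 5) n / Real.log T)

/-- ITEM YPw (copy of `EX/ASM/I_XPw.lean`; `n ≤ T^(2+1/50) < z^9` as `9 · 17/75 = 2.04`).  Values of `(37/12) 1^J - (16/9) 2^J + (67/108) 3^J - (7/72) 4^J`, `J = 1, .., 8`: `1, 0, -11/18, 0, -47/18, -170/3, -8291/18, -8260/3`.  For non-rough `n`: `F5 = 0`; for non-squarefree rough `n`: `F5 ≤ 5^8`. -/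
def StYPw : Prop := ∃ C : ℝ, 1 ≤ C ∧ ∀ (T κ1 : ℝ) (n : ℕ), C ≤ T → T ≤ n → (n : ℝ) ≤ T ^ (2 + 1 / 50 : ℝ) →
  |gX5 (zz c2 T) T κ1 n - (pr n - 11 / 18 * aJ (zz c2 T) 3 n - 47 / 18 * aJ (zz c2 T) 5 n - 170 / 3 * aJ (zz c2 T) 6 n -
    8291 / 18 * aJ (zz c2 T) 7 n - 8260 / 3 * aJ (zz c2 T) 8 n + 7 / 72 * (al (zz c2 T) T κ1 ^ 4) n +
    47 / 108 * F5 (zz c2 T) T κ1 n)| ≤ C * sqr (zz c2 T) n

/-- ITEM YF5 (pointwise bound for `F5`).  `T ≥ C`, `n ≤ T^(2+1/50) < z^9`.  If `n` is not `z`-rough, `F5 n = 0`.  If `n` is rough and has a square factor, `F5 n ≤ 5^8`.  Let `n` be rough, squarefree, `J = Ω n ≤ 8`.  `Wf ≤ 1` and `Wf ≠ 0` only if `g 0 > g 1 > g 2, g 3, g 4 > 1`; let `N` be the number of such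
factorizations `g`.  Place `g 0`, `g 1` at any two of the five positions (20 ways) and `g 2, g 3, g 4` in this order at the other ones: an injection (the two largest factors and their positions can be read off), so `20 N ≤` number of factorizations into five factors `> 1`
`= (roughOne z ^ 5) n = 5^J - 5·4^J + 10·3^J - 10·2^J + 5` (`roughOne z = rg z - 1`, `(rg z ^ k) n = k^J`) `= 0, 120, 1800, 16800, 126000` for `J ≤ 4`, `5, 6, 7, 8`; so `N ≤ 0, 6, 90, 840, 6300`. -/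
def StYF5 : Prop := ∃ C : ℝ, 1 ≤ C ∧ ∀ (T κ : ℝ) (n : ℕ), C ≤ T → 0 < κ → T ≤ n → (n : ℝ) ≤ T ^ (2 + 1 / 50 : ℝ) →
  F5 (zz c2 T) T κ n ≤ 6 * aJ (zz c2 T) 5 n + 90 * aJ (zz c2 T) 6 n + 840 * aJ (zz c2 T) 7 n + 6300 * aJ (zz c2 T) 8 n + C * sqr (zz c2 T) n

/-! ### Part 3: what is dropped -/

/-- ITEM YDr (copy of `EX/ASM/I_XDr.lean` with `c2`). -/
def StYDr : Prop := ∀ w : ℝ → ℝ, IsWt w → (∀ u, 0 ≤ w u) → ∃ C1 : ℝ, 1 ≤ C1 ∧ ∀ κ1 : ℝ, 0 < κ1 → κ1 ≤ 1 / 20 → ∃ C : ℝ, 1 ≤ C ∧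
  ∀ T T' x : ℝ, C ≤ T → 1 ≤ T' → T' ≤ T → T ^ 2 ≤ x → x ≤ 4 * T ^ 2 →
  T' / x * SW w (fun n => (al (zz c2 T) T κ1 ^ 4) n) x T' ≤ C1 * κ1 / Real.log T

/-- ITEM YRo (rough numbers in short windows).  `(rg y ^ 5) n ≤ 5^(Ω n) 1_rough ≤ 5^S` (`n ≤ C T² < y^(S+1)`), and the number of `y`-rough `n` in an interval of length `h ≥ T/C ≥ y³` is `≤ 3 h / log y` (`OX/SV/Drop.lean`, `OX/ID/RoughSieve.lean`). -/
def StYRo : Prop := ∀ w : ℝ → ℝ, IsWt w → (∀ u, 0 ≤ w u) → ∀ η : ℝ, 0 < η → η ≤ 1 / 20 → ∃ C : ℝ, 1 ≤ C ∧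
  ∀ T T' x : ℝ, C ≤ T → 1 ≤ T' → T' ≤ T → T ^ 2 ≤ x → x ≤ 4 * T ^ 2 →
  T' / x * SW w (fun n => (rg (zz η T) ^ 5) n) x T' ≤ C / Real.log T

/-- ITEM YLi (primes and boxes; uses StYEx, StYPw, StYF5, `EX.ASM.StXSq`, StYDr, `EX.ASM.StXBd`, StYRo; copy of `EX/ASM/I_XLi.lean`).  First inequality: `∑ cc BX ≤ g + err ≤ pr + (7/72) α⁴ + err` (YF5: `-(47/18) aJ5 + (47/108) 6 aJ5 = 0`, `-170/3 + (47/108) 90 < 0`, `-8291/18 + (47/108) 840 < 0`,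
`-8260/3 + (47/108) 6300 < 0`). -/
def StYLi : Prop := ∀ w : ℝ → ℝ, IsWt w → (∀ u, 0 ≤ w u) → ∃ C1 : ℝ, 1 ≤ C1 ∧ ∀ η κ1 : ℝ, 0 < η → η ≤ 1 / 20 → 0 < κ1 → κ1 ≤ 1 / 20 → ∃ C : ℝ, 1 ≤ C ∧
  ∀ T T' x : ℝ, C ≤ T → 1 ≤ T' → T' ≤ T → T ^ 2 ≤ x → x ≤ 4 * T ^ 2 →
  (∑ u ∈ Bx 5 T, ∑ v ∈ Bx (5 * SS η) T, ccX5 T κ1 u v * (T' / x * SW w (BX5 (zz η T) (zz c2 T) u v) x T')) ≤
    T' / x * SW w pr x T' + C1 * κ1 / Real.log T + C / Real.log T ^ 2 ∧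
  T' / x * SW w pr x T' - 11 / 18 * (T' / x * SW w (aJ (zz c2 T) 3) x T') - 47 / 18 * (T' / x * SW w (aJ (zz c2 T) 5) x T') -
    170 / 3 * (T' / x * SW w (aJ (zz c2 T) 6) x T') - 8291 / 18 * (T' / x * SW w (aJ (zz c2 T) 7) x T') -
    8260 / 3 * (T' / x * SW w (aJ (zz c2 T) 8) x T') + 47 / 108 * (T' / x * SW w (F5 (zz c2 T) T κ1) x T') - C / Real.log T ^ 2 ≤
    ∑ u ∈ Bx 5 T, ∑ v ∈ Bx (5 * SS η) T, ccX5 T κ1 u v * (T' / x * SW w (BX5 (zz η T) (zz c2 T) u v) x T')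

/-! ### Part 4: almost primes in long windows -/

open Classical in
/-- ITEM YMe (Mertens in cells, two-sided; uses ZF.StPnt and partial summation; compare `EX/ASM/I_XMe.lean`). -/
def StYMe : Prop := ∀ (N : ℕ) (δ : ℝ), 1 ≤ N → 0 < δ → ∃ C : ℝ, 1 ≤ C ∧ ∀ (T : ℝ) (j : ℕ), C ≤ T → N ≤ 5 * j → j ≤ 2 * N →
  |∑ p ∈ (Finset.Ioc ⌊T ^ ((j : ℝ) / N)⌋₊ ⌊T ^ (((j : ℝ) + 1) / N)⌋₊).filter Nat.Prime, (1 : ℝ) / p - Lk j| ≤ δ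

/-- ITEM YAl (copy of `EX/ASM/I_XAl.lean`; uses `EX.ASM.StXPN`, StYMe with `N = 450`, `EX.ASM.StXSq`). -/
def StYAl : Prop := ∀ w : ℝ → ℝ, IsWt w → (∀ u, 0 ≤ w u) → ∀ B δ : ℝ, 1 ≤ B → 0 < δ → ∃ C : ℝ, 1 ≤ C ∧ ∀ T x : ℝ, C ≤ T → T ^ 2 ≤ x → x ≤ 4 * T ^ 2 →
  ∀ J : ℕ, 3 ≤ J → J ≤ 8 →
  Real.log x * (Real.log T ^ B / x * SW w (aJ (zz c2 T) J) x (Real.log T ^ B)) ≤ mass2 (J - 1) / ((J - 1).factorial : ℝ) * Iw w + δ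

/-- ITEM YLo (lower bound for `F5` in long windows; uses `EX.ASM.StXPN`, StYMe with `N = 300`).  `T1 = (log T)^B`.  All summands of `F5` are `≥ 0`.  FIVE PRIMES (`mass5a`): for cells `(k1, .., k4)` satisfying the condition and primes `p_i ∈ (⌊T^(k_i/300)⌋, ⌊T^((k_i+1)/300)⌋]`, `P = p_1 p_2 p_3 p_4`, and a prime `p_0` with
`w((p_0 P/x)^T1) ≠ 0` (so `p_0 = (x/P)(1 + O(1/T1))`, `log p_0/log T ∈ [2 - (K+4)/300 - c, 2 - K/300 + c]`, `K = ∑ k_i`, `c = C/log T`): `n = p_0 P` and the factorization `g = (p_0, p_1, .., p_4)` has `Wf κ1 = 1`: `x_0 - x_1 ≥ (600 - K - 4 - k1 - 1)/300 - c ≥ 1/300 - c`, `x_1 - x_i ≥ (k1 - k_i - 1)/300 ≥ 1/300`,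
`1 - x_2 - x_3 - x_4 ≥ 1/300`, `x_0 ≥ (x_0 + x_1)/2 ≥ (2 - c - 299/300)/2 ≥ 1/2 + 1/600 - c`, `x_i ≥ 68/300`; `κ1 ≤ 1/2000`.  Different tuples give different pairs `(n, g)`.  By StXPN (lower bound, `x/P ≥ T^(1/5)`): `∑_{p_0} w((p_0 P/x)^T1) ≥ (x/(P T1)) (Iw w - δ')/log(x/P)`, and `log x/log(x/P) ≥ 600/(600 - K) - δ'`
(`log x ≥ 2 log T`, `log(x/P) ≤ (2 - K/300) log T + log 4`).  StYMe: `∑ 1/P ≥ ∏ (Lk k_i - δ')`.  SIX PRIMES (`mass6a`): the same with `n_0 = p_0 p_5`, `p_5 < p_0` because `log p_0/log T ≥ 2 - (K+5)/300 - c > (k5+1)/300`, `K = ∑_{i ≤ 5} k_i`; `x_0 = 2 - (x_1 + .. + x_4) + O(c)` as before; the factorization `g 0 = p_0 p_5` determines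
`p_5 < p_0`.  (`mass6b`): `n_1 = p_1 p_5`, `p_5 < p_1` (different cells), `x_1 ∈ [(k1+k5)/300, (k1+k5+2)/300]`, `x_1 - x_i ≥ (k1 + k5 - k_i - 1)/300`, `x_0 - x_1 ≥ (600 - K - 5 - k1 - k5 - 2)/300 - c ≥ 1/300 - c`.  The three families have different numbers of prime factors of `g 0`, `g 1`: add up. -/
def StYLo : Prop := ∀ w : ℝ → ℝ, IsWt w → (∀ u, 0 ≤ w u) → ∀ B δ κ1 : ℝ, 1 ≤ B → 0 < δ → 0 < κ1 → κ1 ≤ 1 / 2000 → ∃ C : ℝ, 1 ≤ C ∧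
  ∀ T x : ℝ, C ≤ T → T ^ 2 ≤ x → x ≤ 4 * T ^ 2 →
  (mass5a + mass6a + mass6b) * Iw w - δ ≤ Real.log x * (Real.log T ^ B / x * SW w (F5 (zz c2 T) T κ1) x (Real.log T ^ B))

/-- ITEM YNu (the numerical constant; true value of the left side for these cells `.981`).  Upper bounds for `mass2` by Kronecker substitution as in `EX/ASM/I_XNu.lean` (`11/18 mass2 2/2 = .8734`, `47/18 mass2 4/24 = .1365`, `170/3 mass2 5/120 = .1303`, `8291/18 mass2 6/720 = .0099`, `8260/3 mass2 7/5040 = .00002`, sum `1.1502`).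
Lower bound for `mass5a + mass6a + mass6b` (`.2281 + .141 + .0197 = .388`, times `47/108`: `.169`): organise as `∑_{s, m} T[s][m] G[s][m]`, `s = k2+k3+k4`, `m = max`, `T[s][m] = ∑ Lk k2 Lk k3 Lk k4` (`T[.][m]` are the digits of `P_m^3 - P_{m-1}^3`, `P_m = ∑_{k ≤ m} Lk k B^k`), `G[s][m] = ∑_{q ≥ m+2} (..)` a suffix sum
(`q = k1`, resp. `q = k1 + k5`); about `10^4` operations with natural numbers (lower bounds `⌊10^12 · 2/(2k+1)⌋` for `Lk k`).  No `native_decide`. -/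
def StYNu : Prop := 11 / 18 * (mass2 2 / 2) + 47 / 18 * (mass2 4 / 24) + 170 / 3 * (mass2 5 / 120) + 8291 / 18 * (mass2 6 / 720) +
  8260 / 3 * (mass2 7 / 5040) - 47 / 108 * (mass5a + mass6a + mass6b) ≤ 99 / 100

/-! ### Part 5: the theorem -/

/-- ITEM YMn (main theorem for smooth windows; copy of `EX/ASM/I_XMn.lean`; uses StYBB, StYAA, StYSh, StYCc, StYRg, StYV1, StSv, StYSE, StYLi, `EX.ASM.StXPN`, StYAl, StYLo, StYNu).  `κ1 ≤ 1/2000` with `C1 κ1 ≤ δ/100`; boxes with `ccX5 = 0` are irrelevant; for the others StYSh gives `Gp` and the hypothesis of YBB. -/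
def StYMn : Prop := ∀ w : ℝ → ℝ, IsWt w → (∀ u, 0 ≤ w u) → ∀ δ : ℝ, 0 < δ → ∃ C : ℝ, 1 ≤ C ∧ ∀ T : ℝ, C ≤ T →
  PackLe T (fun x => Real.log x * (T / x * SW w pr x T) < Iw w / 100 - δ) (C * T ^ r12)

/-- ITEM YCo (copy of `EX/ASM/I_XCo.lean`; `1/200` instead of `1/50`, so `n/(250 log n)`). -/
def StYCo : Prop := ∃ C : ℝ, 1 ≤ C ∧ ∀ N : ℕ, 1 ≤ N →
  (({n : ℕ | 1 ≤ n ∧ n ≤ N ∧ ((FIN.cA n : ℝ) < n / (250 * Real.log n) ∨ (FIN.cB n : ℝ) < n / (250 * Real.log n))}.ncard : ℕ) : ℝ) ≤ C * (N : ℝ) ^ r12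

/-- ITEM YGa (copy of `EX/ASM/I_XGa.lean`; `r12/2 = .05245 < 21/400`). -/
def StYGa : Prop := ∀ lam : ℝ, 0 < lam → lam ≤ 1 → ∃ C : ℝ, 1 ≤ C ∧ ∀ X : ℕ, 1 ≤ X →
  ∀ G : Finset (ℕ × ℕ), (∀ g ∈ G, g.1.Prime ∧ g.2.Prime ∧ g.1 < g.2 ∧ g.1 ≤ X ∧ (∀ q : ℕ, q.Prime → g.1 < q → g.2 ≤ q) ∧
    lam * Real.sqrt g.1 ≤ (g.2 : ℝ) - g.1) →
  (G.card : ℝ) ≤ C * (X : ℝ) ^ (21 / 400 : ℝ) ∧ ∑ g ∈ G, ((g.2 : ℝ) - g.1) ≤ C * (X : ℝ) ^ (221 / 400 : ℝ)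

end Pool.Agent.Work.MP_a8fbd7_nt.EX.ASM2
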