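import Mathlib
import Pool.Agent.Work.MP_a8fbd7_nt.EX.ASM2.Stmts
import Pool.Agent.Work.MP_a8fbd7_nt.EX.ASM.I_XAl
import Pool.Agent.Work.MP_a8fbd7_nt.OX.ASM.Win

/-!
MP_a8fbd7_nt, EX/ASM2, item YAl: almost primes in long windows (copy of `EX/ASM/I_XAl.lean` with 450 cells and `c2` instead of `cE`).
-/

set_option autoImplicit false

open MeasureTheory Set Filter Topology

noncomputable section

namespace Pool.Agent.Work.MP_a8fbd7_nt.EX.ASM2

open Pool.Agent.Work.MP_56b8f5_nt.UC (IsWt)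
open Pool.Agent.Work.MP_a8fbd7_nt.OX
open Pool.Agent.Work.MP_a8fbd7_nt.OX.ID (Rough roughOne pb rg)
open Pool.Agent.Work.MP_a8fbd7_nt.OX.ASM
open Pool.Agent.Work.MP_a8fbd7_nt.EX
open Pool.Agent.Work.MP_a8fbd7_nt.EX.CELL (r2 c2)
open Pool.Agent.Work.MP_a8fbd7_nt.EX.ASM (al bw sqr aJ)
open Pool.Agent.Work.MP_a8fbd7_nt.EX.ASM.XAl_aux (pz lz pz_apply lz_apply pz_nonneg lz_nonneg pzk_nonneg SW_sum SW_fJ_le stepA ar_T ar_cube ar_A ar_pr ar_Q ar_fin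
  ar_last ev_log)

namespace YAl_aux

open Classical in
/-- primes in the cell `j` -/
def cell (T : ℝ) (j : ℕ) : Finset ℕ :=
  (Finset.Ioc ⌊T ^ ((j : ℝ) / 450)⌋₊ ⌊T ^ (((j : ℝ) + 1) / 450)⌋₊).filter Nat.Prime

/-- index of the cell of `p` -/
def ci (T : ℝ) (p : ℕ) : ℕ := ⌈450 * Real.log p / Real.log T⌉₊ - 1

theorem ci_spec {T : ℝ} (hT : 1 < T) {p : ℕ} (hp : 2 ≤ p) :
    T ^ ((ci T p : ℝ) / 450) < p ∧ (p : ℝ) ≤ T ^ (((ci T p : ℝ) + 1) / 450) := by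
  have hL : 0 < Real.log T := Real.log_pos hT
  have hp2 : (2 : ℝ) ≤ p := by exact_mod_cast hp
  have hp0 : (0 : ℝ) < p := by linarith
  have hlp : 0 < Real.log p := Real.log_pos (by linarith)
  have hT0 : 0 < T := by linarith
  set u : ℝ := 450 * Real.log p / Real.log T with hu
  have hu0 : 0 < u := by positivity
  have h1 : 1 ≤ ⌈u⌉₊ := Nat.one_le_ceil_iff.2 hu0
  have h2 : ((ci T p : ℕ) : ℝ) = (⌈u⌉₊ : ℝ) - 1 := by
    rw [ci, Nat.cast_sub h1]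
    simp [hu]
  have h3 : u ≤ ⌈u⌉₊ := Nat.le_ceil u
  have h4 : (⌈u⌉₊ : ℝ) < u + 1 := Nat.ceil_lt_add_one hu0.le
  have hlu : Real.log p = u / 450 * Real.log T := by
    rw [hu]
    field_simp
  constructor
  · rw [← Real.log_lt_log_iff (by positivity) hp0, Real.log_rpow hT0, hlu, h2]
    apply mul_lt_mul_of_pos_right _ hL
    linarith
  · rw [← Real.log_le_log_iff hp0 (by positivity), Real.log_rpow hT0, hlu, h2]
    apply mul_le_mul_of_nonneg_right _ hL.le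
    linarith

theorem mem_cell {T : ℝ} (hT : 1 < T) {p : ℕ} (hp : p.Prime) : p ∈ cell T (ci T p) := by
  have h := ci_spec hT hp.two_le
  unfold cell
  rw [Finset.mem_filter, Finset.mem_Ioc]
  exact ⟨⟨(Nat.floor_lt (by positivity)).2 h.1, Nat.le_floor h.2⟩, hp⟩

/-- the index set of `mass` -/
def FF (k : ℕ) : Finset (Fin k → ℕ) :=
  (Fintype.piFinset (fun _ : Fin k => Finset.Icc (102 : ℕ) 798)).filter (fun f => ∑ i, f i ≤ 798)

theorem ci_mem {T D : ℝ} (hT1 : 1 < T) (hD : 0 < D) (hT : (8 * D) ^ (450 : ℝ) < T) {k : ℕ} {g : Fin k → ℕ}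
    (hg : ∀ i, (g i).Prime ∧ zz c2 T < g i) (hY : ((∏ i, g i : ℕ) : ℝ) ≤ 8 * D * T ^ ((798 : ℝ) / 450)) :
    (fun i => ci T (g i)) ∈ FF k := by
  have hT0 : 0 < T := by linarith
  have hL : 0 < Real.log T := Real.log_pos hT1
  have h1 : ∀ i, 102 ≤ ci T (g i) := by
    intro i
    have h2 := (ci_spec hT1 (hg i).1.two_le).2
    have h3 : T ^ c2 < g i := by
      have := (hg i).2
      unfold zz at this
      exact (Nat.floor_lt (by positivity)).1 this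
    have h4 : T ^ c2 < T ^ (((ci T (g i) : ℝ) + 1) / 450) := h3.trans_le h2
    rw [Real.rpow_lt_rpow_left_iff hT1] at h4
    unfold c2 at h4
    have h5 : (102 : ℝ) < (ci T (g i) : ℝ) + 1 := by linarith
    have h6 : 102 < ci T (g i) + 1 := by exact_mod_cast h5
    omega
  have h2 : ∑ i, ci T (g i) ≤ 798 := by
    by_contra hc
    push_neg at hc
    have h3 : T ^ ((∑ i, (ci T (g i) : ℝ)) / 450) ≤ ((∏ i, g i : ℕ) : ℝ) := by
      push_cast
      have e : T ^ ((∑ i, (ci T (g i) : ℝ)) / 450) = ∏ i, T ^ ((ci T (g i) : ℝ) / 450) := by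
        rw [Finset.sum_div, Real.rpow_sum_of_pos hT0]
      rw [e]
      exact Finset.prod_le_prod (fun i _ => by positivity) (fun i _ => (ci_spec hT1 (hg i).1.two_le).1.le)
    have h4 : (799 : ℝ) ≤ ∑ i, (ci T (g i) : ℝ) := by
      have : 799 ≤ ∑ i, ci T (g i) := hc
      exact_mod_cast this
    have h5 : T ^ ((799 : ℝ) / 450) ≤ T ^ ((∑ i, (ci T (g i) : ℝ)) / 450) := by
      apply Real.rpow_le_rpow_of_exponent_le hT1.le
      linarith
    have h6 : T ^ ((799 : ℝ) / 450) = T ^ ((1 : ℝ) / 450) * T ^ ((798 : ℝ) / 450) := by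
      rw [← Real.rpow_add hT0]
      norm_num
    have h7 : T ^ ((1 : ℝ) / 450) * T ^ ((798 : ℝ) / 450) ≤ 8 * D * T ^ ((798 : ℝ) / 450) := by
      rw [← h6]
      exact (h5.trans h3).trans hY
    have h8 : T ^ ((1 : ℝ) / 450) ≤ 8 * D := le_of_mul_le_mul_right h7 (by positivity)
    have h9 : 8 * D < T ^ ((1 : ℝ) / 450) := by
      have := Real.rpow_lt_rpow (by positivity) hT (z := (1 : ℝ) / 450) (by norm_num)
      rwa [← Real.rpow_mul (by positivity), show (450 : ℝ) * (1 / 450) = 1 by norm_num, Real.rpow_one] at this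
    linarith
  unfold FF
  rw [Finset.mem_filter, Fintype.mem_piFinset]
  refine ⟨fun i => ?_, h2⟩
  rw [Finset.mem_Icc]
  refine ⟨h1 i, ?_⟩
  exact (Finset.single_le_sum (f := fun i => ci T (g i)) (fun _ _ => Nat.zero_le _) (Finset.mem_univ i)).trans h2

open Classical in
theorem sum_cells {T D ε : ℝ} (hT1 : 1 < T) (hD : 0 < D) (hT : (8 * D) ^ (450 : ℝ) < T) (k Y : ℕ)
    (hY : (Y : ℝ) ≤ 8 * D * T ^ ((798 : ℝ) / 450)) (hMe : ∀ j : ℕ, 102 ≤ j → j ≤ 900 →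
      ∑ p ∈ cell T j, (1 : ℝ) / p ≤ Lk j + ε) :
    ∑ a ∈ Finset.Icc 1 Y, (pz (zz c2 T) ^ k) a / (a : ℝ) ≤
      ∑ f ∈ FF k, ∏ i, (Lk (f i) + ε) := by
  set z := zz c2 T with hz
  set S : Finset ((_ : ℕ) × (Fin k → ℕ)) := (Finset.Icc 1 Y).sigma (fun a =>
    (Nat.finMulAntidiag k a).filter (fun g => ∀ i, (g i).Prime ∧ z < g i)) with hS
  have h1 : ∑ a ∈ Finset.Icc 1 Y, (pz z ^ k) a / (a : ℝ) = ∑ x ∈ S, ∏ i, (1 : ℝ) / (x.2 i) := by
    rw [hS, Finset.sum_sigma]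
    refine Finset.sum_congr rfl fun a _ => ?_
    rw [Win.pow_apply, Finset.sum_div, Finset.sum_filter]
    refine Finset.sum_congr rfl fun g hg => ?_
    rw [Nat.mem_finMulAntidiag] at hg
    split_ifs with h
    · have e : ∏ i, pz z (g i) = 1 := Finset.prod_eq_one fun i _ => by rw [pz_apply, if_pos (h i)]
      rw [e, ← hg.1]
      push_cast
      rw [Finset.prod_div_distrib, Finset.prod_const_one]
    · push_neg at h
      obtain ⟨i, hi⟩ := h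
      have e : ∏ i, pz z (g i) = 0 := by
        apply Finset.prod_eq_zero (Finset.mem_univ i)
        rw [pz_apply, if_neg]
        rintro ⟨h2, h3⟩
        exact absurd (hi h2) (not_le.2 h3)
      rw [e, zero_div]
  set ι : ((_ : ℕ) × (Fin k → ℕ)) → ((_ : Fin k → ℕ) × (Fin k → ℕ)) := fun x => ⟨fun i => ci T (x.2 i), x.2⟩ with hι
  have h2 : ∑ x ∈ S, ∏ i, (1 : ℝ) / (x.2 i) = ∑ y ∈ S.image ι, ∏ i, (1 : ℝ) / (y.2 i) := by
    rw [Finset.sum_image]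
    intro x hx x' hx' he
    have hx := Finset.mem_coe.1 hx
    have hx' := Finset.mem_coe.1 hx'
    rw [hS, Finset.mem_sigma, Finset.mem_filter, Nat.mem_finMulAntidiag] at hx hx'
    have h3 : x.2 = x'.2 := by
      have := congrArg (fun y : ((_ : Fin k → ℕ) × (Fin k → ℕ)) => y.2) he
      exact this
    obtain ⟨a, g⟩ := x
    obtain ⟨a', g'⟩ := x'
    dsimp only at h3 hx hx' ⊢
    subst h3
    have : a = a' := by rw [← hx.2.1.1, ← hx'.2.1.1]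
    rw [this]
  have h3 : ∑ y ∈ S.image ι, ∏ i, (1 : ℝ) / (y.2 i) ≤
      ∑ y ∈ (FF k).sigma (fun f => Fintype.piFinset (fun i => cell T (f i))), ∏ i, (1 : ℝ) / (y.2 i) := by
    apply Finset.sum_le_sum_of_subset_of_nonneg
    · intro y hy
      rw [Finset.mem_image] at hy
      obtain ⟨x, hx, rfl⟩ := hy
      rw [hS, Finset.mem_sigma, Finset.mem_filter, Nat.mem_finMulAntidiag, Finset.mem_Icc] at hx
      rw [Finset.mem_sigma, Fintype.mem_piFinset]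
      refine ⟨?_, fun i => mem_cell hT1 (hx.2.2 i).1⟩
      apply ci_mem hT1 hD hT hx.2.2
      rw [hx.2.1.1]
      refine le_trans ?_ hY
      exact_mod_cast hx.1.2
    · intro y _ _
      exact Finset.prod_nonneg fun i _ => by positivity
  have h4 : ∑ y ∈ (FF k).sigma (fun f => Fintype.piFinset (fun i => cell T (f i))), ∏ i, (1 : ℝ) / (y.2 i) =
      ∑ f ∈ FF k, ∏ i, ∑ p ∈ cell T (f i), (1 : ℝ) / p := by
    rw [Finset.sum_sigma]
    refine Finset.sum_congr rfl fun f _ => ?_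
    rw [Finset.prod_univ_sum]
  rw [h1, h2]
  refine h3.trans ?_
  rw [h4]
  refine Finset.sum_le_sum fun f hf => ?_
  unfold FF at hf
  rw [Finset.mem_filter, Fintype.mem_piFinset] at hf
  apply Finset.prod_le_prod
  · intro i _
    exact Finset.sum_nonneg fun p _ => by positivity
  · intro i _
    have := Finset.mem_Icc.1 (hf.1 i)
    exact hMe (f i) this.1 (by omega)

theorem mass_eq (k : ℕ) : mass2 k = ∑ f ∈ FF k, ∏ i, Lk (f i) := rfl

theorem mass_nonneg (k : ℕ) : 0 ≤ mass2 k := by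
  rw [mass_eq]
  refine Finset.sum_nonneg fun f _ => Finset.prod_nonneg fun i _ => ?_
  unfold Lk
  rcases Nat.eq_zero_or_pos (f i) with h | h
  · rw [h]
    simp
  · have h0 : (0 : ℝ) < f i := by exact_mod_cast h
    apply Real.log_nonneg
    rw [le_div_iff₀ h0]
    linarith

theorem mass_cont (δ : ℝ) (hδ : 0 < δ) : ∃ ε : ℝ, 0 < ε ∧ ∀ k : ℕ, k < 8 →
    ∑ f ∈ FF k, ∏ i, (Lk (f i) + ε) ≤ mass2 k + δ := by
  have h1 : ∀ k : ℕ, ∀ᶠ ε in 𝓝 (0 : ℝ), ∑ f ∈ FF k, ∏ i, (Lk (f i) + ε) < mass2 k + δ := by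
    intro k
    have hc : Continuous fun ε : ℝ => ∑ f ∈ FF k, ∏ i, (Lk (f i) + ε) := by fun_prop
    have h2 := hc.tendsto 0
    have h3 : ∑ f ∈ FF k, ∏ i, (Lk (f i) + 0) = mass2 k := by
      rw [mass_eq]
      simp only [add_zero]
    rw [h3] at h2
    exact h2.eventually (gt_mem_nhds (by linarith))
  have h2 : ∀ᶠ ε in 𝓝 (0 : ℝ), ∀ k ∈ Finset.range 8,
      ∑ f ∈ FF k, ∏ i, (Lk (f i) + ε) < mass2 k + δ := by
    rw [Filter.eventually_all_finset]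
    exact fun k _ => h1 k
  have h3 : ∀ᶠ ε in 𝓝[>] (0 : ℝ), ∀ k ∈ Finset.range 8,
      ∑ f ∈ FF k, ∏ i, (Lk (f i) + ε) < mass2 k + δ := h2.filter_mono nhdsWithin_le_nhds
  obtain ⟨ε, h4, h5⟩ := (h3.and self_mem_nhdsWithin).exists
  exact ⟨ε, h5, fun k hk => (h4 k (Finset.mem_range.2 hk)).le⟩

theorem ar_q {T x D q z : ℝ} (hTone : 1 < T) (hD : 0 < D) (hT5 : (8 * D) ^ (450 : ℝ) < T) (hz0 : 0 < z)
    (hz2 : T ^ c2 / 2 ≤ z) (hq0 : 0 < q) (h3 : q ≤ D * x / z) : T ^ ((1 : ℝ) / 5) ≤ x / q := by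
  have hTp : 0 < T := by linarith
  have h4 : z / D ≤ x / q := by
    rw [div_le_div_iff₀ hD hq0]
    rw [le_div_iff₀ hz0] at h3
    linarith
  refine le_trans ?_ h4
  rw [le_div_iff₀ hD]
  have h5 : T ^ ((1 : ℝ) / 5) * T ^ ((1 : ℝ) / 450) ≤ T ^ c2 := by
    rw [← Real.rpow_add hTp]
    apply Real.rpow_le_rpow_of_exponent_le hTone.le
    norm_num [c2]
  have h9 : 8 * D < T ^ ((1 : ℝ) / 450) := by
    have := Real.rpow_lt_rpow (by positivity) hT5 (z := (1 : ℝ) / 450) (by norm_num)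
    rwa [← Real.rpow_mul (by positivity), show (450 : ℝ) * (1 / 450) = 1 by norm_num, Real.rpow_one] at this
  have h10 : 0 < T ^ ((1 : ℝ) / 5) := by positivity
  have h11 : T ^ ((1 : ℝ) / 5) * (8 * D) ≤ T ^ ((1 : ℝ) / 5) * T ^ ((1 : ℝ) / 450) := mul_le_mul_of_nonneg_left h9.le h10.le
  have h12 : 0 ≤ T ^ ((1 : ℝ) / 5) * D := by positivity
  have e : T ^ ((1 : ℝ) / 5) * (8 * D) = 8 * (T ^ ((1 : ℝ) / 5) * D) := by ring
  rw [e] at h11
  linarith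

theorem stepB {w : ℝ → ℝ} (hw0 : ∀ u, 0 ≤ w u) {T T1 x D I1 mm : ℝ} (z k : ℕ) (hTone : 1 < T) (hD : 1 ≤ D) (hT5 : (8 * D) ^ (450 : ℝ) < T)
    (hz1 : 1 ≤ z) (hz2 : T ^ c2 / 2 ≤ (z : ℝ)) (hx2 : x ≤ 4 * T ^ 2) (hx0 : 0 < x) (hT10 : 0 < T1) (hI1 : 0 ≤ I1)
    (hsup : ∀ x' : ℝ, 0 < x' → ∀ n : ℕ, w (((n : ℝ) / x') ^ T1) ≠ 0 → 0 < n ∧ (n : ℝ) ≤ D * x')
    (hPN : ∀ X : ℝ, T ^ ((1 : ℝ) / 5) ≤ X → X ≤ 4 * T ^ 2 → Real.log X * (T1 / X * SW w pr X T1) ≤ I1)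
    (hC : ∑ q ∈ Finset.Icc 1 ⌊D * x / z⌋₊, (pz z ^ k) q / (q : ℝ) ≤ mm) :
    SW w (fun n => (lz z * pz z ^ k) n) x T1 ≤ (1 + 5 * Real.log D / Real.log T) * I1 * (x / T1) * mm := by
  have hTp : 0 < T := by linarith
  have hD0 : 0 < D := by linarith
  have hz0 : (0 : ℝ) < z := by exact_mod_cast hz1
  have hL0 : 0 < Real.log T := Real.log_pos hTone
  have hlD : 0 ≤ Real.log D := Real.log_nonneg hD
  refine (SW_fJ_le hw0 hx0 hD hsup z k hz1).trans ?_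
  have h1 : ∑ q ∈ Finset.Icc 1 ⌊D * x / z⌋₊, (pz z ^ k) q * ((Real.log (x / q) + Real.log D) * SW w pr (x / q) T1) ≤
      ∑ q ∈ Finset.Icc 1 ⌊D * x / z⌋₊, (1 + 5 * Real.log D / Real.log T) * I1 * (x / T1) * ((pz z ^ k) q / (q : ℝ)) := by
    refine Finset.sum_le_sum fun q hq => ?_
    rw [Finset.mem_Icc] at hq
    have hq1 : (1 : ℝ) ≤ q := by exact_mod_cast hq.1
    have hq0 : (0 : ℝ) < q := by linarith
    have hqY : (q : ℝ) ≤ D * x / z := (by exact_mod_cast hq.2 : (q : ℝ) ≤ (⌊D * x / z⌋₊ : ℕ)).trans (Nat.floor_le (by positivity))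
    have hxq : 0 < x / q := by positivity
    have h2 : T ^ ((1 : ℝ) / 5) ≤ x / q := ar_q hTone hD0 hT5 hz0 hz2 hq0 hqY
    have h3 : x / q ≤ 4 * T ^ 2 := (div_le_self hx0.le hq1).trans hx2
    have h4 := hPN (x / q) h2 h3
    have h5 : Real.log T / 5 ≤ Real.log (x / q) := by
      have h6 := Real.log_le_log (by positivity) h2
      rw [Real.log_rpow hTp] at h6
      linarith
    have hS0 : 0 ≤ SW w pr (x / q) T1 := tsum_nonneg fun n => mul_nonneg (by unfold pr; split_ifs <;> norm_num) (hw0 _)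
    have h6 := ar_pr hxq hT10 h4
    have h7 : Real.log (x / q) + Real.log D ≤ (1 + 5 * Real.log D / Real.log T) * Real.log (x / q) := by
      have h8 : Real.log D ≤ 5 * Real.log D / Real.log T * Real.log (x / q) := by
        calc Real.log D = 5 * Real.log D / Real.log T * (Real.log T / 5) := by field_simp
          _ ≤ 5 * Real.log D / Real.log T * Real.log (x / q) := mul_le_mul_of_nonneg_left h5 (by positivity)
      have e : (1 + 5 * Real.log D / Real.log T) * Real.log (x / q) =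
          Real.log (x / q) + 5 * Real.log D / Real.log T * Real.log (x / q) := by ring
      rw [e]
      exact add_le_add_right h8 _
    have hk0 := pzk_nonneg z k q
    have hbL : 0 ≤ 1 + 5 * Real.log D / Real.log T := by positivity
    calc (pz z ^ k) q * ((Real.log (x / q) + Real.log D) * SW w pr (x / q) T1) ≤
        (pz z ^ k) q * ((1 + 5 * Real.log D / Real.log T) * Real.log (x / q) * SW w pr (x / q) T1) :=
          mul_le_mul_of_nonneg_left (mul_le_mul_of_nonneg_right h7 hS0) hk0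
      _ = (pz z ^ k) q * ((1 + 5 * Real.log D / Real.log T) * (Real.log (x / q) * SW w pr (x / q) T1)) := by ring
      _ ≤ (pz z ^ k) q * ((1 + 5 * Real.log D / Real.log T) * ((x / q) / T1 * I1)) :=
          mul_le_mul_of_nonneg_left (mul_le_mul_of_nonneg_left h6 hbL) hk0
      _ = (1 + 5 * Real.log D / Real.log T) * I1 * (x / T1) * ((pz z ^ k) q / (q : ℝ)) := by ring
  refine h1.trans ?_
  rw [← Finset.mul_sum]
  exact mul_le_mul_of_nonneg_left hC (by positivity)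

theorem ar_Y {T x D z : ℝ} (hTp : 0 < T) (hD : 0 < D) (hz0 : 0 < z) (hz2 : T ^ c2 / 2 ≤ z) (hx2 : x ≤ 4 * T ^ 2) :
    D * x / z ≤ 8 * D * T ^ ((798 : ℝ) / 450) := by
  rw [div_le_iff₀ hz0]
  have h1 : T ^ 2 = T ^ ((798 : ℝ) / 450) * T ^ c2 := by
    rw [← Real.rpow_add hTp, ← Real.rpow_natCast]
    congr 1
    norm_num [c2]
  have h2 : D * x ≤ D * (4 * T ^ 2) := mul_le_mul_of_nonneg_left hx2 hD.le
  have h3 : 8 * D * T ^ ((798 : ℝ) / 450) * (T ^ c2 / 2) ≤ 8 * D * T ^ ((798 : ℝ) / 450) * z :=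
    mul_le_mul_of_nonneg_left hz2 (by positivity)
  refine le_trans h2 (le_trans (le_of_eq ?_) h3)
  rw [h1]
  ring

theorem ar_z {T : ℝ} (hT32 : 32 ≤ T) : 1 ≤ zz c2 T ∧ T ^ c2 / 2 ≤ (zz c2 T : ℝ) := by
  have hTone : 1 < T := by linarith
  have hTc2 : 2 ≤ T ^ c2 := by
    have h1 : (2 : ℝ) = (32 : ℝ) ^ ((1 : ℝ) / 5) := by
      rw [show (32 : ℝ) = 2 ^ (5 : ℝ) by norm_num, ← Real.rpow_mul (by norm_num)]
      norm_num
    calc (2 : ℝ) = (32 : ℝ) ^ ((1 : ℝ) / 5) := h1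
      _ ≤ T ^ ((1 : ℝ) / 5) := Real.rpow_le_rpow (by norm_num) hT32 (by norm_num)
      _ ≤ T ^ c2 := Real.rpow_le_rpow_of_exponent_le hTone.le (by norm_num [c2])
  have hz2 : T ^ c2 / 2 ≤ (zz c2 T : ℝ) := by
    have := Nat.sub_one_lt_floor (T ^ c2)
    unfold zz
    linarith
  refine ⟨?_, hz2⟩
  have : (1 : ℝ) ≤ (zz c2 T : ℝ) := by linarith
  exact_mod_cast this

end YAl_aux

open YAl_aux in
theorem iYAl (hPN : Pool.Agent.Work.MP_a8fbd7_nt.EX.ASM.StXPN) (hMe : StYMe)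
    (hSq : Pool.Agent.Work.MP_a8fbd7_nt.EX.ASM.StXSq) : StYAl := by
  intro w hw hw0 B δ hB hδ
  obtain ⟨C0, hC0, _, hwin⟩ := Win.window w hw
  have hC00 : 0 < C0 := by linarith
  obtain ⟨D, hD⟩ : ∃ D : ℝ, D = 1 + C0 := ⟨_, rfl⟩
  have hD1 : 1 ≤ D := by linarith
  have hD0 : 0 < D := by linarith
  have hI : 0 ≤ Iw w := by
    unfold Iw
    exact setIntegral_nonneg measurableSet_Ioi fun u hu => div_nonneg (hw0 u) (le_of_lt hu)
  obtain ⟨M, hMdef⟩ : ∃ M : ℝ, M = ∑ k ∈ Finset.range 8, mass2 k := ⟨_, rfl⟩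
  have hM0 : 0 ≤ M := by
    rw [hMdef]
    exact Finset.sum_nonneg fun k _ => mass_nonneg k
  have hMk : ∀ k, k < 8 → mass2 k ≤ M := fun k hk => by
    rw [hMdef]
    exact Finset.single_le_sum (fun i _ => mass_nonneg i) (Finset.mem_range.2 hk)
  have hP0 : 0 < M + Iw w + 2 := by linarith
  obtain ⟨δ1, hδ1def⟩ : ∃ δ1 : ℝ, δ1 = min 1 (δ / (8 * (M + Iw w + 2))) := ⟨_, rfl⟩
  have hδ1 : 0 < δ1 := by
    rw [hδ1def]
    exact lt_min one_pos (by positivity)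
  have hδ11 : δ1 ≤ 1 := by
    rw [hδ1def]
    exact min_le_left _ _
  have hδ12 : δ1 * (M + Iw w + 2) ≤ δ / 8 := by
    have h1 : δ1 ≤ δ / (8 * (M + Iw w + 2)) := by
      rw [hδ1def]
      exact min_le_right _ _
    calc δ1 * (M + Iw w + 2) ≤ δ / (8 * (M + Iw w + 2)) * (M + Iw w + 2) := mul_le_mul_of_nonneg_right h1 hP0.le
      _ = δ / 8 := by field_simp
  obtain ⟨ε, hε, hmass⟩ := mass_cont δ1 hδ1
  obtain ⟨C1, hC1, hPN'⟩ := hPN w hw hw0 B δ1 hB hδ1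
  obtain ⟨C2, hC2, hMe'⟩ := hMe 450 ε (by norm_num) hε
  obtain ⟨C3, hC3, hSq'⟩ := hSq w hw hw0 c2 (by norm_num [c2]) (by norm_num [c2])
  have ha0 : 0 ≤ Real.log C0 := Real.log_nonneg hC0
  have hb0 : 0 ≤ 5 * Real.log D := mul_nonneg (by norm_num) (Real.log_nonneg hD1)
  obtain ⟨Kf, hKf⟩ : ∃ Kf : ℝ, Kf = (Real.log C0 + 5 * Real.log D + Real.log C0 * (5 * Real.log D)) * ((Iw w + 1) * (M + 1)) +
    3 * (1 + Real.log C0) * C3 := ⟨_, rfl⟩
  have hev : ∀ᶠ T : ℝ in atTop, C1 ≤ T ∧ C2 ≤ T ∧ C3 ≤ T ∧ C0 ≤ T ∧ 4 * D ≤ T ∧ 32 ≤ T ∧ (8 * D) ^ (450 : ℝ) < T ∧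
      Real.log T ^ B ≤ T ∧ 1 ≤ Real.log T ∧ 2 * Kf / δ ≤ Real.log T := by
    filter_upwards [eventually_ge_atTop C1, eventually_ge_atTop C2, eventually_ge_atTop C3, eventually_ge_atTop C0,
      eventually_ge_atTop (4 * D), eventually_ge_atTop (32 : ℝ), eventually_gt_atTop ((8 * D) ^ (450 : ℝ)), ev_log B,
      Real.tendsto_log_atTop.eventually_ge_atTop 1, Real.tendsto_log_atTop.eventually_ge_atTop (2 * Kf / δ)]
      with T h1 h2 h3 h4 h5 h6 h7 h8 h9 h10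
    exact ⟨h1, h2, h3, h4, h5, h6, h7, h8, h9, h10⟩
  obtain ⟨C', hC'⟩ := eventually_atTop.1 hev
  refine ⟨max 1 C', le_max_left _ _, ?_⟩
  intro T x hT hx1 hx2 J hJ3 hJ8
  obtain ⟨hT1, hT2, hT3, hT0', hT4, hT32, hT5, hTB, hL1, hLK⟩ := hC' T ((le_max_right _ _).trans hT)
  obtain ⟨k, rfl⟩ : ∃ k, J = k + 1 := ⟨J - 1, by omega⟩
  have hk8 : k < 8 := by omega
  rw [Nat.add_sub_cancel]
  have hL0 : 0 < Real.log T := by linarith
  have hTp : 0 < T := by linarith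
  have hTone : 1 < T := by linarith
  obtain ⟨T1, hT1def⟩ : ∃ T1 : ℝ, T1 = Real.log T ^ B := ⟨_, rfl⟩
  have hT11 : 1 ≤ T1 := by
    rw [hT1def]
    exact Real.one_le_rpow hL1 (by linarith)
  have hT10 : 0 < T1 := by linarith
  have hx0 : 0 < x := lt_of_lt_of_le (by positivity) hx1
  obtain ⟨hz1, hz2⟩ := ar_z hT32
  have hz0 : (0 : ℝ) < (zz c2 T : ℝ) := by exact_mod_cast hz1
  have hsup : ∀ x' : ℝ, 0 < x' → ∀ n : ℕ, w (((n : ℝ) / x') ^ T1) ≠ 0 → 0 < n ∧ (n : ℝ) ≤ D * x' := by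
    intro x' hx' n hn
    obtain ⟨x1, h1, h2, h3⟩ := hwin x' T1 hx' hT11
    obtain ⟨h4, h5⟩ := h3 n hn
    have h6 : 0 < x' / C0 := by positivity
    have h7 : (0 : ℝ) < n := by linarith
    refine ⟨by exact_mod_cast h7, ?_⟩
    have h8 : x' / T1 ≤ x' := div_le_self hx'.le hT11
    have h9 : C0 * (x' / T1) ≤ C0 * x' := mul_le_mul_of_nonneg_left h8 hC00.le
    rw [hD, add_mul, one_mul]
    linarith
  have hlo : ∀ n : ℕ, w (((n : ℝ) / x) ^ T1) ≠ 0 → x / C0 ≤ n := by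
    intro n hn
    obtain ⟨x1, h1, h2, h3⟩ := hwin x T1 hx0 hT11
    exact h1.trans (h3 n hn).1.le
  have hf : (1 : ℝ) ≤ (k.factorial : ℝ) := by exact_mod_cast Nat.factorial_pos k
  have hf0 : (0 : ℝ) < (k.factorial : ℝ) := by linarith
  have hA := stepA hw0 (zz c2 T) k hTone hC0 hD0 hT0' hT4 hx1 hx2 hx0 (hsup x hx0) hlo
  have hY : ((⌊D * x / (zz c2 T : ℝ)⌋₊ : ℕ) : ℝ) ≤ 8 * D * T ^ ((798 : ℝ) / 450) :=
    (Nat.floor_le (by positivity)).trans (ar_Y hTp hD0 hz0 hz2 hx2)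
  have hCe : ∑ q ∈ Finset.Icc 1 ⌊D * x / (zz c2 T : ℝ)⌋₊, (pz (zz c2 T) ^ k) q / (q : ℝ) ≤ mass2 k + δ1 := by
    refine (sum_cells hTone hD0 hT5 k _ hY (ε := ε) ?_).trans (hmass k hk8)
    intro j hj1 hj2
    have h1 := (abs_le.1 (hMe' T j hT2 (by omega) (by omega))).2
    have e : ((450 : ℕ) : ℝ) = 450 := by norm_num
    rw [e] at h1
    unfold cell
    linarith
  have hPN2 : ∀ X : ℝ, T ^ ((1 : ℝ) / 5) ≤ X → X ≤ 4 * T ^ 2 → Real.log X * (T1 / X * SW w pr X T1) ≤ Iw w + δ1 := by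
    intro X h1 h2
    have h3 := (abs_le.1 (hPN' T X hT1 h1 h2)).2
    rw [← hT1def] at h3
    linarith
  have hB' := stepB hw0 (zz c2 T) k hTone hD1 hT5 hz1 hz2 hx2 hx0 hT10 (by linarith : 0 ≤ Iw w + δ1) hsup hPN2 hCe
  have hS := hSq' T T1 x hT3 hT11 (hT1def ▸ hTB) hx1 hx2
  have hQ := ar_Q hI hδ1 hδ11 hδ (mass_nonneg k) (hMk k hk8) hδ12 hf
  have hfin := ar_fin hT10 hx0 ha0 hL0 hf0 hA hB' hS
  have hQ0 : 0 ≤ (Iw w + δ1) * (mass2 k + δ1) / (k.factorial : ℝ) := by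
    have := mass_nonneg k
    positivity
  have hlast := ar_last ha0 hb0 hL1 hQ0 hQ.1 (by linarith : 0 ≤ C3)
  rw [← hKf] at hlast
  have hKL : Kf / Real.log T ≤ δ / 2 := by
    rw [div_le_iff₀ hL0]
    rw [div_le_iff₀ hδ] at hLK
    linarith
  rw [← hT1def]
  have hQ2 := hQ.2
  linarith

end Pool.Agent.Work.MP_a8fbd7_nt.EX.ASM2
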