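import Mathlib
import Pool.Agent.Work.MP_a8fbd7_nt.EX.ASM2.Stmts

/-!
MP_a8fbd7_nt, block EX/ASM2, item YCc: bound for the coefficients of the boxes (five variables).
-/

set_option autoImplicit false

noncomputable section

namespace Pool.Agent.Work.MP_a8fbd7_nt.EX.ASM2

open Pool.Agent.Work.MP_a8fbd7_nt.OX
open Pool.Agent.Work.MP_a8fbd7_nt.OX.ASM
open Pool.Agent.Work.MP_a8fbd7_nt.EX

namespace YCc_aux

theorem abs_term (s a b : ℕ) :
    |(-1 : ℝ) ^ s * (a.factorial : ℝ) / (b.factorial : ℝ)| = (a.factorial : ℝ) / (b.factorial : ℝ) := by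
  rw [abs_div, abs_mul, abs_pow, abs_neg, abs_one, one_pow, one_mul, Nat.abs_cast, Nat.abs_cast]

theorem clip_nonneg (t : ℝ) : 0 ≤ clip t := le_max_left _ _

theorem clip_le_one (t : ℝ) : clip t ≤ 1 := max_le zero_le_one (min_le_left _ _)

theorem mul01 {a b : ℝ} (ha : 0 ≤ a ∧ a ≤ 1) (hb : 0 ≤ b ∧ b ≤ 1) : 0 ≤ a * b ∧ a * b ≤ 1 :=
  ⟨mul_nonneg ha.1 hb.1, mul_le_one₀ ha.2 hb.1 hb.2⟩

theorem clip01 (t : ℝ) : 0 ≤ clip t ∧ clip t ≤ 1 := ⟨clip_nonneg t, clip_le_one t⟩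

theorem Wf01 (κ : ℝ) (x : Fin 5 → ℝ) : 0 ≤ Wf κ x ∧ Wf κ x ≤ 1 := by
  unfold Wf
  exact mul01 (mul01 (mul01 (mul01 (mul01 (mul01 (mul01 (mul01 (clip01 _) (clip01 _)) (clip01 _)) (clip01 _))
    (clip01 _)) (clip01 _)) (clip01 _)) (clip01 _)) (clip01 _)

end YCc_aux

open YCc_aux in
theorem iYCc : StYCc := by
  intro T κ1 S u v
  unfold ccX5 cwX5
  rw [abs_mul, Finset.abs_prod, mul_comm]
  have h1 : ∏ i : Fin 5, |(-1 : ℝ) ^ nsi5 v i * ((S - nsi5 v i).factorial : ℝ) / (S.factorial : ℝ)| =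
      ∏ i : Fin 5, ((S - nsi5 v i).factorial : ℝ) / (S.factorial : ℝ) :=
    Finset.prod_congr rfl fun i _ => abs_term _ _ _
  rw [h1]
  have hW := Wf01 κ1 (fun i => Real.log (svr5 u v i) / Real.log T)
  generalize Wf κ1 (fun i => Real.log (svr5 u v i) / Real.log T) = W at hW ⊢
  obtain ⟨hW0, hW1⟩ := hW
  refine mul_le_mul_of_nonneg_right ?_ ?_
  · split_ifs <;> rw [abs_le] <;> constructor <;> nlinarith
  · exact Finset.prod_nonneg fun i _ => by positivity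

end Pool.Agent.Work.MP_a8fbd7_nt.EX.ASM2
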