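import Pool.Agent.Work.MP_a8fbd7_nt.EX.ASM2.Stmts
import Pool.Agent.Work.MP_a8fbd7_nt.OX.ASM.I_Co

/-!
MP_a8fbd7_nt, block EX, second wave, part ASM2, item YCo: from smooth windows to lower bounds for the counts `A(n)`, `B(n)`.
-/

set_option autoImplicit false

open MeasureTheory Set Filter Topology

noncomputable section

namespace Pool.Agent.Work.MP_a8fbd7_nt.EX.ASM2

open Pool.Agent.Work.MP_56b8f5_nt.UC (IsWt Bl Dp Om psi eta Sep)
open Pool.Agent.Work.MP_a8fbd7_nt.OX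
open Pool.Agent.Work.MP_a8fbd7_nt.OX.ID (Rough roughOne pb rg)
open Pool.Agent.Work.MP_a8fbd7_nt.OX.ASM
open Pool.Agent.Work.MP_a8fbd7_nt.EX
open Pool.Agent.Work.MP_a8fbd7_nt.EX.CELL (r2 c2)
open Pool.Agent.Work.MP_a8fbd7_nt.EX.ASM (al bw sqr aJ)

namespace YCo_aux

/-- lower bound for one count -/
lemma one_count (T I S c : ℝ) (n : ℕ) (hT : 2 ≤ T) (hn : T ≤ n) (hI : 1 - 4 * (1 / 1000) ≤ I) (h2 : S ≤ c)
    (hS : I / 100 - 1 / 1000 ≤ Real.log ((n : ℝ) ^ 2) * (T / (n : ℝ) ^ 2 * S)) :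
    (n : ℝ) / (250 * Real.log n) ≤ c := by
  have hT0 : 0 < T := by linarith
  have hn2 : (2 : ℝ) ≤ n := hT.trans hn
  have hn0 : (0 : ℝ) < n := by linarith
  have hlog : Real.log ((n : ℝ) ^ 2) = 2 * Real.log n := by rw [Real.log_pow]; push_cast; ring
  have hl : 0 < Real.log (n : ℝ) := Real.log_pos (by linarith)
  rw [hlog] at hS
  have h1 : (8 / 1000 : ℝ) ≤ 2 * Real.log n * (T / (n : ℝ) ^ 2 * S) := by linarith
  have hc : (0 : ℝ) ≤ S := by
    by_contra hcon
    push Not at hcon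
    have : 2 * Real.log n * (T / (n : ℝ) ^ 2 * S) ≤ 0 :=
      mul_nonpos_of_nonneg_of_nonpos (by positivity) (mul_nonpos_of_nonneg_of_nonpos (by positivity) hcon.le)
    linarith
  have h3 : 2 * Real.log n * (T / (n : ℝ) ^ 2 * S) ≤ 2 * Real.log n * (c / n) := by
    apply mul_le_mul_of_nonneg_left _ (by positivity)
    have h4 : T / (n : ℝ) ^ 2 ≤ 1 / n := by
      rw [div_le_div_iff₀ (by positivity) hn0]
      nlinarith
    calc T / (n : ℝ) ^ 2 * S ≤ 1 / n * c := mul_le_mul h4 h2 hc (by positivity)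
      _ = c / n := by ring
  rw [div_le_iff₀ (by positivity)]
  have h5 : (8 / 1000 : ℝ) ≤ 2 * Real.log n * (c / n) := h1.trans h3
  have h6 : 2 * Real.log n * (c / n) = 2 * Real.log n * c / n := by ring
  rw [h6, le_div_iff₀ hn0] at h5
  linarith

end YCo_aux

open YCo_aux in
open Classical in
/-- **ITEM YCo.** -/
theorem iYCo (hMn : StYMn) (hWt : StWt) : StYCo := by
  have hτ : (0 : ℝ) < 1 / 1000 := by norm_num
  obtain ⟨w2, w2a, w2b, w2c, w2d, w2e, w2f⟩ := hWt (1 / 1000) (1 - 3 * (1 / 1000)) (1 / 1000) (by norm_num) hτ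
  obtain ⟨w4, w4a, w4b, w4c, w4d, w4e, w4f⟩ := hWt (-1 + 3 * (1 / 1000)) (-(1 / 1000)) (1 / 1000) (by norm_num) hτ
  obtain ⟨C2, C2a, C2b⟩ := hMn w2 w2a (fun u => (w2b u).1) (1 / 1000) hτ
  obtain ⟨C4, C4a, C4b⟩ := hMn w4 w4a (fun u => (w4b u).1) (1 / 1000) hτ
  have hr1 : (0 : ℝ) < r12 := by unfold r12; norm_num
  set K0 : ℝ := C2 + C4 + 1000 with hK0
  obtain ⟨K, hK⟩ := Co_aux.count (fun n => (FIN.cA n : ℝ) < n / (250 * Real.log n) ∨ (FIN.cB n : ℝ) < n / (250 * Real.log n))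
    r12 (1 + 1 / 1000) K0 (C2 + C4) hr1 (by norm_num) (by linarith) (by
      intro T hT E hE
      have hT1 : 1000 ≤ T := by linarith
      have hT0 : 0 < T := by linarith
      have hb2 := C2b T (by linarith)
      have hb4 := C4b T (by linarith)
      set P : (ℝ → ℝ) → ℝ → Prop := fun w x => Real.log x * (T / x * SW w pr x T) < Iw w / 100 - 1 / 1000 with hPdef
      have hcov : E ⊆ (E.filter fun n : ℕ => P w2 ((n : ℝ) ^ 2)) ∪ (E.filter fun n : ℕ => P w4 ((n : ℝ) ^ 2)) := by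
        intro n hn
        obtain ⟨h1, h2, h3⟩ := hE n hn
        by_contra hcon
        simp only [Finset.mem_union, Finset.mem_filter, hn, true_and, not_or] at hcon
        obtain ⟨g2, g4⟩ := hcon
        simp only [hPdef, not_lt] at g2 g4
        rcases h3 with h3 | h3
        · refine absurd h3 (not_lt.2 ?_)
          refine one_count T (Iw w4) (SW w4 pr ((n : ℝ) ^ 2) T) (FIN.cA n) n (by linarith) h1 (by linarith) ?_ g4
          refine Co_aux.A_lo w4 (1 / 1000) T n hT0 hτ h1 h2 (fun u => (w4b u).2) (fun u hu => ?_)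
          have := w4d u hu
          rw [show (-1 + 3 * (1 / 1000) - 1 / 1000 : ℝ) = -1 + 2 * (1 / 1000) by ring,
            show (-(1 / 1000) + 1 / 1000 : ℝ) = 0 by ring] at this
          exact this
        · refine absurd h3 (not_lt.2 ?_)
          refine one_count T (Iw w2) (SW w2 pr ((n : ℝ) ^ 2) T) (FIN.cB n) n (by linarith) h1 (by linarith) ?_ g2
          refine Co_aux.B_lo w2 (1 / 1000) T n hT0 hτ (by norm_num) h1 h2 (by linarith) (fun u => (w2b u).2) (fun u hu => ?_)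
          have := w2d u hu
          rw [show (1 / 1000 - 1 / 1000 : ℝ) = 0 by ring,
            show (1 - 3 * (1 / 1000) + 1 / 1000 : ℝ) = 1 - 2 * (1 / 1000) by ring] at this
          exact this
      have hcard := (Finset.card_le_card hcov).trans (Finset.card_union_le _ _)
      have hcard' : (E.card : ℝ) ≤ ((E.filter fun n : ℕ => P w2 ((n : ℝ) ^ 2)).card : ℝ) +
          ((E.filter fun n : ℕ => P w4 ((n : ℝ) ^ 2)).card : ℝ) := by
        exact_mod_cast hcard
      have hsub : ∀ (w : ℝ → ℝ) (B : ℝ), PackLe T (P w) B → ((E.filter fun n : ℕ => P w ((n : ℝ) ^ 2)).card : ℝ) ≤ B := by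
        intro w B hw
        refine Co_aux.blk T B (P w) hT0 hw _ ?_
        intro n hn
        rw [Finset.mem_filter] at hn
        obtain ⟨h1, h2, h3⟩ := hE n hn.1
        exact ⟨h1, h2.trans (by nlinarith), hn.2⟩
      have k2 := hsub w2 _ hb2
      have k4 := hsub w4 _ hb4
      linarith)
  refine ⟨max K 1, le_max_right _ _, fun N hN => ?_⟩
  have h1 := hK N hN
  have h2 : {n : ℕ | 1 ≤ n ∧ n ≤ N ∧ ((FIN.cA n : ℝ) < n / (250 * Real.log n) ∨ (FIN.cB n : ℝ) < n / (250 * Real.log n))} =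
      (((Finset.Icc 1 N).filter fun n => (FIN.cA n : ℝ) < n / (250 * Real.log n) ∨ (FIN.cB n : ℝ) < n / (250 * Real.log n) : Finset ℕ) : Set ℕ) := by
    ext n
    simp only [Set.mem_ofPred_eq, Finset.coe_filter, Finset.mem_Icc]
    tauto
  rw [h2, Set.ncard_coe_finset]
  have h3 : K * (N : ℝ) ^ r12 ≤ max K 1 * (N : ℝ) ^ r12 := mul_le_mul_of_nonneg_right (le_max_left _ _) (by positivity)
  refine le_trans (le_of_eq ?_) (h1.trans h3)
  congr!

end Pool.Agent.Work.MP_a8fbd7_nt.EX.ASM2
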