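import Pool.Agent.Work.MP_a8fbd7_nt.EX.ASM2.Stmts
import Pool.Agent.Work.MP_a8fbd7_nt.EX.ASM.I_XEx
import Pool.Agent.Work.MP_a8fbd7_nt.OX.ASM.Win

/-!
MP_a8fbd7_nt, block EX/ASM2, item YEx: expansion of the sieve function `g` (five variables) into boxes.
-/

set_option autoImplicit false

noncomputable section

namespace Pool.Agent.Work.MP_a8fbd7_nt.EX.ASM2

open Finset
open Pool.Agent.Work.MP_a8fbd7_nt.OX
open Pool.Agent.Work.MP_a8fbd7_nt.OX.ID (Rough roughOne pb rg rg_apply exErr exErr_pos af_sum af_smul af_sub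
  Dom dom_rg dom_pb pair_ne)
open Pool.Agent.Work.MP_a8fbd7_nt.OX.ASM
open Pool.Agent.Work.MP_a8fbd7_nt.OX.ASM.V1_aux (NN nn_one nn_prod nn_ms nn_ps)
open Pool.Agent.Work.MP_a8fbd7_nt.EX
open Pool.Agent.Work.MP_a8fbd7_nt.EX.CELL (r2 c2)
open Pool.Agent.Work.MP_a8fbd7_nt.EX.ASM (al bw sqr aJ)
open Pool.Agent.Work.MP_a8fbd7_nt.EX.ASM.XEx_aux (B1 c1 OO Rt ins At triv_sum Dm nn_rg nn_pow E1 E1_apply nn_E1 nn_bw
  sqr_nonneg sqr_mono E1_mul_le C0 C0_nonneg nn_B1 sum_abs Rt_apply Rt_abs At_abs Rt_rg B1_supp al_nn al_le rg_le cst al_At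
  fin_bd)

namespace YEx_aux

/-! ### The slots of one variable -/

/-- the part of `v` belonging to the variable `i` -/
def pt {S : ℕ} (v : Fin (5 * S) → Option ℕ) (i : Fin 5) : Fin S → Option ℕ := fun s => v (finProdFinEquiv (i, s))

theorem own_mk {S : ℕ} (i : Fin 5) (s : Fin S) : own5 (finProdFinEquiv (i, s)) = i := by
  unfold own5
  rw [Equiv.symm_apply_apply]

theorem prod_all {S : ℕ} {M : Type*} [CommMonoid M] (f : Fin (5 * S) → M) :
    ∏ r, f r = ∏ i : Fin 5, ∏ s : Fin S, f (finProdFinEquiv (i, s)) := by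
  rw [← Equiv.prod_comp finProdFinEquiv, Fintype.prod_prod_type]

theorem sum_all {S : ℕ} {M : Type*} [AddCommMonoid M] (f : Fin (5 * S) → M) :
    ∑ r, f r = ∑ i : Fin 5, ∑ s : Fin S, f (finProdFinEquiv (i, s)) := by
  rw [← Equiv.sum_comp finProdFinEquiv, Fintype.sum_prod_type]

open Classical in
theorem prod_own {S : ℕ} (f : Fin (5 * S) → ℝ) (i : Fin 5) :
    ∏ r ∈ univ.filter (fun r => own5 r = i), f r = ∏ s : Fin S, f (finProdFinEquiv (i, s)) := by
  rw [prod_filter, prod_all, prod_eq_single i]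
  · exact prod_congr rfl fun s _ => by rw [if_pos (own_mk i s)]
  · intro j _ hj
    exact prod_eq_one fun s _ => by rw [if_neg (by rw [own_mk]; exact hj)]
  · intro h
    exact absurd (mem_univ i) h

theorem nsi_eq {S : ℕ} (v : Fin (5 * S) → Option ℕ) (i : Fin 5) : nsi5 v i = ns (pt v i) := by
  classical
  unfold nsi5 ns
  rw [card_filter, card_filter, sum_all, sum_eq_single i]
  · refine sum_congr rfl fun s _ => ?_
    unfold pt
    simp only [own_mk, true_and]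
  · intro j _ hj
    refine sum_eq_zero fun s _ => ?_
    rw [if_neg]
    rintro ⟨h, -⟩
    rw [own_mk] at h
    exact hj h
  · intro h
    exact absurd (mem_univ i) h

theorem triv_iff {S : ℕ} (u : Fin 5 → Option ℕ) (v : Fin (5 * S) → Option ℕ) (i : Fin 5) :
    triv5 u v i ↔ u i = none ∧ ∀ s, pt v i s = none := by
  unfold triv5 pt
  constructor
  · rintro ⟨h1, h2⟩
    exact ⟨h1, fun s => h2 _ (own_mk i s)⟩
  · rintro ⟨h1, h2⟩
    refine ⟨h1, fun r hr => ?_⟩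
    obtain ⟨⟨j, s⟩, rfl⟩ := finProdFinEquiv.surjective r
    rw [own_mk] at hr
    subst hr
    exact h2 s

theorem svr_eq {S : ℕ} (u : Fin 5 → Option ℕ) (v : Fin (5 * S) → Option ℕ) (i : Fin 5) :
    svr5 u v i = sc (u i) * ∏ s, sc (pt v i s) := by
  unfold svr5
  rw [prod_own]
  rfl

/-! ### Boxes -/

theorem BX_eq (y z : ℕ) {S : ℕ} (u : Fin 5 → Option ℕ) (v : Fin (5 * S) → Option ℕ) :
    BX5 y z u v = ∏ i, B1 y z (u i) (pt v i) := by
  unfold BX5 B1
  rw [prod_mul_distrib, prod_all]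
  rfl

theorem sum_pt {S : ℕ} (T : ℝ) {M : Type*} [AddCommMonoid M] (F : (Fin 5 → Fin S → Option ℕ) → M) :
    ∑ v ∈ Bx (5 * S) T, F (pt v) = ∑ v' ∈ Fintype.piFinset (fun _ : Fin 5 => Bx S T), F v' := by
  refine sum_nbij' (fun v => pt v) (fun v' r => v' (finProdFinEquiv.symm r).1 (finProdFinEquiv.symm r).2) ?_ ?_ ?_ ?_ ?_
  · intro v hv
    unfold Bx at hv ⊢
    simp only [Fintype.mem_piFinset] at hv ⊢
    intro i s
    exact hv _
  · intro v' hv
    unfold Bx at hv ⊢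
    simp only [Fintype.mem_piFinset] at hv ⊢
    intro r
    exact hv _ _
  · intro v _
    funext r
    show v (finProdFinEquiv ((finProdFinEquiv.symm r).1, (finProdFinEquiv.symm r).2)) = v r
    rw [Prod.mk.eta, Equiv.apply_symm_apply]
  · intro v' _
    funext i s
    show v' (finProdFinEquiv.symm (finProdFinEquiv (i, s))).1 (finProdFinEquiv.symm (finProdFinEquiv (i, s))).2 = v' i s
    rw [Equiv.symm_apply_apply]
  · intro v _
    rfl

theorem box_sum (S : ℕ) (T : ℝ) {M : Type*} [CommSemiring M] (h : Fin 5 → Option ℕ → (Fin S → Option ℕ) → M) :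
    ∑ u ∈ Bx 5 T, ∑ v ∈ Bx (5 * S) T, ∏ i, h i (u i) (pt v i) = ∏ i, ∑ o ∈ OO T, ∑ v0 ∈ Bx S T, h i o v0 := by
  unfold Bx
  rw [Finset.prod_univ_sum (fun _ : Fin 5 => OO T)
    (fun i o => ∑ v0 ∈ Fintype.piFinset fun _ : Fin S => Finset.insertNone (Finset.range (LL T)), h i o v0)]
  refine sum_congr rfl fun u _ => ?_
  rw [Finset.prod_univ_sum (fun _ : Fin 5 => Fintype.piFinset fun _ : Fin S => Finset.insertNone (Finset.range (LL T)))
    (fun i v0 => h i (u i) v0)]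
  exact sum_pt T (fun v' => ∏ i, h i (u i) (v' i))

theorem box_prod (y z S : ℕ) (T : ℝ) (n : ℕ) (φ : Fin 5 → Option ℕ → (Fin S → Option ℕ) → ℝ) :
    ∑ u ∈ Bx 5 T, ∑ v ∈ Bx (5 * S) T, (∏ i, φ i (u i) (pt v i)) * BX5 y z u v n =
      (∏ i, ∑ o ∈ OO T, ∑ v0 ∈ Bx S T, φ i o v0 • B1 y z o v0) n := by
  rw [← box_sum S T (fun i o v0 => φ i o v0 • B1 y z o v0), af_sum]
  refine sum_congr rfl fun u _ => ?_
  rw [af_sum]
  refine sum_congr rfl fun v _ => ?_
  rw [BX_eq, ← af_smul]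
  congr 1
  rw [Finset.prod_smul]

open Classical in
theorem key_pow (y z S : ℕ) (T : ℝ) (n k : ℕ) (hk : k ≤ 5) :
    ∑ u ∈ Bx 5 T, ∑ v ∈ Bx (5 * S) T, ((∏ i, c1 (pt v i)) * (if ∀ i : Fin 5, k ≤ i.val → triv5 u v i then 1 else 0)) *
      BX5 y z u v n = (Rt y z S T ^ k) n := by
  set φ : Fin 5 → Option ℕ → (Fin S → Option ℕ) → ℝ := fun i o v0 =>
    c1 v0 * (if (k ≤ i.val → (o = none ∧ ∀ s, v0 s = none)) then 1 else 0) with hφ
  have h1 : ∀ (u : Fin 5 → Option ℕ) (v : Fin (5 * S) → Option ℕ), (∏ i, c1 (pt v i)) *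
      (if ∀ i : Fin 5, k ≤ i.val → triv5 u v i then (1 : ℝ) else 0) = ∏ i, φ i (u i) (pt v i) := by
    intro u v
    rw [hφ]
    simp only
    rw [prod_mul_distrib, Finset.prod_ite_zero, prod_const_one]
    congr 1
    have : (∀ i : Fin 5, k ≤ i.val → triv5 u v i) ↔
        ∀ i ∈ (univ : Finset (Fin 5)), k ≤ i.val → u i = none ∧ ∀ s, pt v i s = none := by
      constructor
      · intro h i _ hi
        exact (triv_iff u v i).1 (h i hi)
      · intro h i hi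
        exact (triv_iff u v i).2 (h i (mem_univ i) hi)
    by_cases hc : ∀ i : Fin 5, k ≤ i.val → triv5 u v i
    · rw [if_pos hc, if_pos (this.1 hc)]
    · rw [if_neg hc, if_neg fun h => hc (this.2 h)]
  rw [sum_congr rfl fun u _ => sum_congr rfl fun v _ => by rw [h1 u v], box_prod y z S T n φ]
  congr 1
  have h2 : ∀ i : Fin 5, ∑ o ∈ OO T, ∑ v0 ∈ Bx S T, φ i o v0 • B1 y z o v0 = if i.val < k then Rt y z S T else 1 := by
    intro i
    by_cases hi : i.val < k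
    · rw [if_pos hi]
      unfold Rt
      refine sum_congr rfl fun o _ => sum_congr rfl fun v0 _ => ?_
      rw [hφ]
      simp only
      rw [if_pos (fun h => absurd h (by omega)), mul_one]
    · rw [if_neg hi, ← triv_sum y z S T]
      refine sum_congr rfl fun o _ => sum_congr rfl fun v0 _ => ?_
      rw [hφ]
      simp only
      have hk' : k ≤ i.val := by omega
      by_cases hc : o = none ∧ ∀ s, v0 s = none
      · rw [if_pos hc, if_pos (fun _ => hc)]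
      · rw [if_neg hc, if_neg (fun h => hc (h hk'))]
  rw [prod_congr rfl fun i _ => h2 i, Finset.prod_ite, prod_const, prod_const_one, mul_one]
  congr 1
  rw [Fin.card_filter_val_lt]
  omega

open Classical in
theorem key_ins (y z S : ℕ) (T κ1 : ℝ) (n : ℕ) :
    ∑ u ∈ Bx 5 T, ∑ v ∈ Bx (5 * S) T, ((∏ i, c1 (pt v i)) * (if ¬ kept5 T κ1 u v ∧ triv5 u v 4 then 1 else 0)) *
      BX5 y z u v n = (At y z S T κ1 ^ 4) n := by
  set φ : Fin 5 → Option ℕ → (Fin S → Option ℕ) → ℝ := fun i o v0 =>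
    c1 v0 * (if ((i.val < 4 → ins T κ1 o v0) ∧ (4 ≤ i.val → (o = none ∧ ∀ s, v0 s = none))) then 1 else 0) with hφ
  have h1 : ∀ (u : Fin 5 → Option ℕ) (v : Fin (5 * S) → Option ℕ), (∏ i, c1 (pt v i)) *
      (if ¬ kept5 T κ1 u v ∧ triv5 u v 4 then (1 : ℝ) else 0) = ∏ i, φ i (u i) (pt v i) := by
    intro u v
    rw [hφ]
    simp only
    rw [prod_mul_distrib, Finset.prod_ite_zero, prod_const_one]
    congr 1
    have : (¬ kept5 T κ1 u v ∧ triv5 u v 4) ↔ ∀ i ∈ (univ : Finset (Fin 5)), (i.val < 4 → ins T κ1 (u i) (pt v i)) ∧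
        (4 ≤ i.val → (u i = none ∧ ∀ s, pt v i s = none)) := by
      unfold kept5 ins
      simp only [svr_eq, mem_univ, true_implies, not_not]
      constructor
      · rintro ⟨h1, h2⟩ i
        refine ⟨fun hi => h1 i hi, fun hi => ?_⟩
        have h4 : i = 4 := by
          apply Fin.ext
          have := i.isLt
          show i.val = 4
          omega
        rw [h4]
        exact (triv_iff u v 4).1 h2
      · intro h
        exact ⟨fun i hi => (h i).1 hi, (triv_iff u v 4).2 ((h 4).2 (le_refl 4))⟩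
    by_cases hc : ¬ kept5 T κ1 u v ∧ triv5 u v 4
    · rw [if_pos hc, if_pos (this.1 hc)]
    · rw [if_neg hc, if_neg (fun h => hc (this.2 h))]
  rw [sum_congr rfl fun u _ => sum_congr rfl fun v _ => by rw [h1 u v], box_prod y z S T n φ]
  congr 1
  have h2 : ∀ i : Fin 5, ∑ o ∈ OO T, ∑ v0 ∈ Bx S T, φ i o v0 • B1 y z o v0 = if i.val < 4 then At y z S T κ1 else 1 := by
    intro i
    by_cases hi : i.val < 4
    · rw [if_pos hi]
      unfold At
      refine sum_congr rfl fun o _ => sum_congr rfl fun v0 _ => ?_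
      rw [hφ]
      simp only
      by_cases hc : ins T κ1 o v0
      · rw [if_pos hc, if_pos ⟨fun _ => hc, fun h => absurd h (by omega)⟩]
      · rw [if_neg hc, if_neg (fun h => hc (h.1 hi))]
    · rw [if_neg hi, ← triv_sum y z S T]
      refine sum_congr rfl fun o _ => sum_congr rfl fun v0 _ => ?_
      rw [hφ]
      simp only
      have hk' : 4 ≤ i.val := by omega
      by_cases hc : o = none ∧ ∀ s, v0 s = none
      · rw [if_pos hc, if_pos ⟨fun h => absurd h hi, fun _ => hc⟩]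
      · rw [if_neg hc, if_neg (fun h => hc (h.2 hk'))]
  rw [prod_congr rfl fun i _ => h2 i, Finset.prod_ite, prod_const, prod_const_one, mul_one]
  congr 1

/-- the part with the weight `Wf` -/
def GW (y z S : ℕ) (T κ1 : ℝ) (n : ℕ) : ℝ :=
  ∑ u ∈ Bx 5 T, ∑ v ∈ Bx (5 * S) T, ((∏ i, c1 (pt v i)) * Wf κ1 (fun i => Real.log (svr5 u v i) / Real.log T)) *
    BX5 y z u v n

open Classical in
/-- **the expansion** -/
theorem sum_ccX (y z S : ℕ) (T κ1 : ℝ) (n : ℕ) :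
    ∑ u ∈ Bx 5 T, ∑ v ∈ Bx (5 * S) T, ccX5 T κ1 u v * BX5 y z u v n =
      37 / 12 * Rt y z S T n - 16 / 9 * (Rt y z S T ^ 2) n + 67 / 108 * (Rt y z S T ^ 3) n -
        7 / 72 * ((Rt y z S T ^ 4) n - (At y z S T κ1 ^ 4) n) + 47 / 108 * GW y z S T κ1 n := by
  have k1 := key_pow y z S T n 1 (by norm_num)
  have k2 := key_pow y z S T n 2 (by norm_num)
  have k3 := key_pow y z S T n 3 (by norm_num)
  have k4 := key_pow y z S T n 4 (by norm_num)
  have k5 := key_ins y z S T κ1 n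
  rw [pow_one] at k1
  rw [← k1, ← k2, ← k3, ← k4, ← k5]
  unfold GW
  simp only [mul_sum, ← sum_sub_distrib, ← sum_add_distrib]
  refine sum_congr rfl fun u _ => sum_congr rfl fun v _ => ?_
  have hc : ∏ i, (-1 : ℝ) ^ nsi5 v i * ((S - nsi5 v i).factorial : ℝ) / (S.factorial : ℝ) = ∏ i, c1 (pt v i) := by
    refine prod_congr rfl fun i _ => ?_
    unfold c1
    rw [nsi_eq]
  unfold ccX5
  rw [hc]
  have h4 : (∀ i : Fin 5, 4 ≤ i.val → triv5 u v i) ↔ triv5 u v 4 := by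
    constructor
    · intro h
      exact h 4 (le_refl 4)
    · intro h i hi
      have h4 : i = 4 := by
        apply Fin.ext
        have := i.isLt
        show i.val = 4
        omega
      rw [h4]
      exact h
  have hite : ∀ (P : Prop) [Decidable P] (a : ℝ), (if P then a else 0) = a * (if P then 1 else 0) := by
    intro P _ a
    split_ifs <;> simp
  have hk : (if kept5 T κ1 u v ∧ triv5 u v 4 then (1 : ℝ) else 0) =
      (if ∀ i : Fin 5, 4 ≤ i.val → triv5 u v i then (1 : ℝ) else 0) - (if ¬ kept5 T κ1 u v ∧ triv5 u v 4 then (1 : ℝ) else 0) := by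
    by_cases ht : triv5 u v 4
    · by_cases hk : kept5 T κ1 u v
      · rw [if_pos ⟨hk, ht⟩, if_pos (h4.2 ht), if_neg (fun h => h.1 hk), sub_zero]
      · rw [if_neg (fun h => hk h.1), if_pos (h4.2 ht), if_pos ⟨hk, ht⟩, sub_self]
    · rw [if_neg (fun h => ht h.2), if_neg (fun h => ht (h4.1 h)), if_neg (fun h => ht h.2), sub_zero]
  rw [hite _ (37 / 12), hite _ (16 / 9), hite _ (67 / 108), hite _ (7 / 72), hk]
  ring

/-! ### The weight -/

theorem clip01 (t : ℝ) : 0 ≤ clip t ∧ clip t ≤ 1 := ⟨le_max_left _ _, max_le zero_le_one (min_le_left _ _)⟩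

theorem mul01 {a b : ℝ} (ha : 0 ≤ a ∧ a ≤ 1) (hb : 0 ≤ b ∧ b ≤ 1) : 0 ≤ a * b ∧ a * b ≤ 1 :=
  ⟨mul_nonneg ha.1 hb.1, mul_le_one₀ ha.2 hb.1 hb.2⟩

theorem Wf01 (κ : ℝ) (x : Fin 5 → ℝ) : 0 ≤ Wf κ x ∧ Wf κ x ≤ 1 := by
  unfold Wf
  exact mul01 (mul01 (mul01 (mul01 (mul01 (mul01 (mul01 (mul01 (clip01 _) (clip01 _)) (clip01 _)) (clip01 _))
    (clip01 _)) (clip01 _)) (clip01 _)) (clip01 _)) (clip01 _)

theorem clip_lip (s t : ℝ) : |clip s - clip t| ≤ |s - t| := by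
  unfold clip
  have h1 := abs_max_sub_max_le_max 0 (min 1 s) 0 (min 1 t)
  have h2 := abs_min_sub_min_le_max 1 s 1 t
  rw [sub_self, abs_zero, max_eq_right (abs_nonneg (min 1 s - min 1 t))] at h1
  rw [sub_self, abs_zero, max_eq_right (abs_nonneg (s - t))] at h2
  exact h1.trans h2

theorem clip_div {κ s t d : ℝ} (hκ : 0 < κ) (h : |s - t| ≤ d) : |clip (s / κ) - clip (t / κ)| ≤ d / κ := by
  refine (clip_lip _ _).trans ?_
  rw [← sub_div, abs_div, abs_of_pos hκ]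
  exact div_le_div_of_nonneg_right h hκ.le

theorem lip_mul {a b a' b' A B : ℝ} (ha' : 0 ≤ a' ∧ a' ≤ 1) (hb : 0 ≤ b ∧ b ≤ 1) (h1 : |a - a'| ≤ A)
    (h2 : |b - b'| ≤ B) : |a * b - a' * b'| ≤ A + B := by
  have h3 : a * b - a' * b' = (a - a') * b + a' * (b - b') := by ring
  rw [h3]
  refine (abs_add_le _ _).trans (add_le_add ?_ ?_)
  · rw [abs_mul, abs_of_nonneg hb.1]
    calc |a - a'| * b ≤ |a - a'| * 1 := mul_le_mul_of_nonneg_left hb.2 (abs_nonneg _)
      _ ≤ A := by rw [mul_one]; exact h1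
  · rw [abs_mul, abs_of_nonneg ha'.1]
    calc a' * |b - b'| ≤ 1 * |b - b'| := mul_le_mul_of_nonneg_right ha'.2 (abs_nonneg _)
      _ ≤ B := by rw [one_mul]; exact h2

theorem Wf_lip {κ d : ℝ} (hκ : 0 < κ) (x x' : Fin 5 → ℝ) (h : ∀ i, |x i - x' i| ≤ d) :
    |Wf κ x - Wf κ x'| ≤ 15 * d / κ := by
  have e0 := abs_le.1 (h 0)
  have e1 := abs_le.1 (h 1)
  have e2 := abs_le.1 (h 2)
  have e3 := abs_le.1 (h 3)
  have e4 := abs_le.1 (h 4)
  have f1 : |clip ((x 0 - x 1) / κ) - clip ((x' 0 - x' 1) / κ)| ≤ 2 * d / κ :=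
    clip_div hκ (abs_le.2 ⟨by linarith, by linarith⟩)
  have f2 : |clip ((x 1 - x 2) / κ) - clip ((x' 1 - x' 2) / κ)| ≤ 2 * d / κ :=
    clip_div hκ (abs_le.2 ⟨by linarith, by linarith⟩)
  have f3 : |clip ((x 1 - x 3) / κ) - clip ((x' 1 - x' 3) / κ)| ≤ 2 * d / κ :=
    clip_div hκ (abs_le.2 ⟨by linarith, by linarith⟩)
  have f4 : |clip ((x 1 - x 4) / κ) - clip ((x' 1 - x' 4) / κ)| ≤ 2 * d / κ :=
    clip_div hκ (abs_le.2 ⟨by linarith, by linarith⟩)
  have f5 : |clip ((1 - x 2 - x 3 - x 4) / κ) - clip ((1 - x' 2 - x' 3 - x' 4) / κ)| ≤ 3 * d / κ :=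
    clip_div hκ (abs_le.2 ⟨by linarith, by linarith⟩)
  have f6 : |clip ((x 0 - 1 / 2 - κ) / κ) - clip ((x' 0 - 1 / 2 - κ) / κ)| ≤ d / κ :=
    clip_div hκ (abs_le.2 ⟨by linarith, by linarith⟩)
  have f7 : |clip ((x 2 - 1 / 5) / κ) - clip ((x' 2 - 1 / 5) / κ)| ≤ d / κ :=
    clip_div hκ (abs_le.2 ⟨by linarith, by linarith⟩)
  have f8 : |clip ((x 3 - 1 / 5) / κ) - clip ((x' 3 - 1 / 5) / κ)| ≤ d / κ :=
    clip_div hκ (abs_le.2 ⟨by linarith, by linarith⟩)
  have f9 : |clip ((x 4 - 1 / 5) / κ) - clip ((x' 4 - 1 / 5) / κ)| ≤ d / κ :=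
    clip_div hκ (abs_le.2 ⟨by linarith, by linarith⟩)
  have g2 := mul01 (clip01 ((x' 0 - x' 1) / κ)) (clip01 ((x' 1 - x' 2) / κ))
  have g3 := mul01 g2 (clip01 ((x' 1 - x' 3) / κ))
  have g4 := mul01 g3 (clip01 ((x' 1 - x' 4) / κ))
  have g5 := mul01 g4 (clip01 ((1 - x' 2 - x' 3 - x' 4) / κ))
  have g6 := mul01 g5 (clip01 ((x' 0 - 1 / 2 - κ) / κ))
  have g7 := mul01 g6 (clip01 ((x' 2 - 1 / 5) / κ))
  have g8 := mul01 g7 (clip01 ((x' 3 - 1 / 5) / κ))
  have h2 := lip_mul (clip01 _) (clip01 _) f1 f2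
  have h3 := lip_mul g2 (clip01 _) h2 f3
  have h4 := lip_mul g3 (clip01 _) h3 f4
  have h5 := lip_mul g4 (clip01 _) h4 f5
  have h6 := lip_mul g5 (clip01 _) h5 f6
  have h7 := lip_mul g6 (clip01 _) h6 f7
  have h8 := lip_mul g7 (clip01 _) h7 f8
  have h9 := lip_mul g8 (clip01 _) h8 f9
  unfold Wf
  refine h9.trans (le_of_eq ?_)
  ring

/-! ### Products of arithmetic functions -/

/-- products of arithmetic functions as sums over tuples -/
theorem prod_apply : ∀ (k n : ℕ) (f : Fin k → ArithmeticFunction ℝ),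
    (∏ i, f i) n = ∑ g ∈ Nat.finMulAntidiag k n, ∏ i, f i (g i)
  | 0, n, f => by
    rw [Fin.prod_univ_zero, ArithmeticFunction.one_apply]
    split_ifs with h
    · subst h
      rw [Nat.finMulAntidiag_one]
      simp
    · rw [Nat.finMulAntidiag_zero_left h]
      simp
  | k + 1, n, f => by
    rw [Fin.prod_univ_succ, ArithmeticFunction.mul_apply]
    simp_rw [prod_apply k _ (fun i => f i.succ), Finset.mul_sum]
    rw [Finset.sum_sigma']
    refine Finset.sum_bij' (fun (x : (_ : ℕ × ℕ) × (Fin k → ℕ)) _ => (Fin.cons x.1.1 x.2 : Fin (k + 1) → ℕ))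
      (fun (g : Fin (k + 1) → ℕ) _ => (⟨(g 0, ∏ i, g (Fin.succ i)), Fin.tail g⟩ : (_ : ℕ × ℕ) × (Fin k → ℕ)))
      ?_ ?_ ?_ ?_ ?_
    · rintro ⟨⟨a, b⟩, g⟩ h
      simp only [Finset.mem_sigma, Nat.mem_divisorsAntidiagonal, Nat.mem_finMulAntidiag] at h ⊢
      rw [Fin.prod_univ_succ]
      simp only [Fin.cons_zero, Fin.cons_succ]
      refine ⟨?_, h.1.2⟩
      rw [h.2.1, h.1.1]
    · intro g h
      simp only [Finset.mem_sigma, Nat.mem_divisorsAntidiagonal, Nat.mem_finMulAntidiag] at h ⊢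
      rw [Fin.prod_univ_succ] at h
      refine ⟨⟨h.1, h.2⟩, rfl, ?_⟩
      intro h0
      rw [h0, mul_zero] at h
      exact h.2 h.1.symm
    · rintro ⟨⟨a, b⟩, g⟩ h
      simp only [Finset.mem_sigma, Nat.mem_divisorsAntidiagonal, Nat.mem_finMulAntidiag] at h ⊢
      simp only [Fin.cons_zero, Fin.cons_succ, Fin.tail_cons]
      rw [h.2.1]
    · intro g h
      simp only [Fin.cons_self_tail]
    · rintro ⟨⟨a, b⟩, g⟩ h
      rw [Fin.prod_univ_succ]
      simp only [Fin.cons_zero, Fin.cons_succ]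

theorem prod_tele {ι : Type} (I : Finset ι) (a b R : ι → ℝ) (e : ℝ) (ha : ∀ i ∈ I, |a i| ≤ R i)
    (hb : ∀ i ∈ I, |b i| ≤ R i) (hd : ∀ i ∈ I, |a i - b i| ≤ e * R i) :
    |∏ i ∈ I, a i - ∏ i ∈ I, b i| ≤ I.card * e * ∏ i ∈ I, R i := by
  classical
  induction I using Finset.induction_on with
  | empty => simp
  | insert j s hj ih =>
    rw [prod_insert hj, prod_insert hj, prod_insert hj, card_insert_of_notMem hj]
    have ih' := ih (fun i hi => ha i (mem_insert_of_mem hi)) (fun i hi => hb i (mem_insert_of_mem hi))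
      (fun i hi => hd i (mem_insert_of_mem hi))
    have h1 := ha j (mem_insert_self j s)
    have h2 := hd j (mem_insert_self j s)
    have hR : 0 ≤ R j := (abs_nonneg _).trans h1
    have hb' : |∏ i ∈ s, b i| ≤ ∏ i ∈ s, R i := by
      rw [abs_prod]
      exact prod_le_prod (fun i _ => abs_nonneg _) fun i hi => hb i (mem_insert_of_mem hi)
    have h3 : a j * ∏ i ∈ s, a i - b j * ∏ i ∈ s, b i =
        a j * (∏ i ∈ s, a i - ∏ i ∈ s, b i) + (a j - b j) * ∏ i ∈ s, b i := by ring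
    rw [h3]
    refine (abs_add_le _ _).trans ?_
    rw [abs_mul, abs_mul]
    have h4 := mul_le_mul h1 ih' (abs_nonneg _) hR
    have h5 := mul_le_mul h2 hb' (abs_nonneg _) ((abs_nonneg _).trans h2)
    refine (add_le_add h4 h5).trans (le_of_eq ?_)
    push_cast
    ring

/-! ### The five-variable term -/

theorem log_svr {y z S m : ℕ} (o : Option ℕ) (v0 : Fin S → Option ℕ) (h : B1 y z o v0 m ≠ 0) :
    |Real.log (sc o * ∏ s, sc (v0 s)) - Real.log m| ≤ (S : ℝ) + 1 := by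
  obtain ⟨h1, h2⟩ := B1_supp o v0 m h
  have hσ0 : 0 < sc o * ∏ s, sc (v0 s) := mul_pos (Rg_aux.sc_pos o) (prod_pos fun s _ => Rg_aux.sc_pos _)
  generalize sc o * ∏ s, sc (v0 s) = σ at h1 h2 hσ0 ⊢
  have hK : (0 : ℝ) < 2 ^ (S + 1) := by positivity
  have hm : (0 : ℝ) < m := lt_of_lt_of_le (div_pos hσ0 hK) h1
  have hl2 : Real.log 2 ≤ 1 := by
    have := Real.log_two_lt_d9
    linarith
  have hlK : Real.log ((2 : ℝ) ^ (S + 1)) ≤ (S : ℝ) + 1 := by
    rw [Real.log_pow]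
    push_cast
    have : (0 : ℝ) ≤ (S : ℝ) + 1 := by positivity
    calc ((S : ℝ) + 1) * Real.log 2 ≤ ((S : ℝ) + 1) * 1 := mul_le_mul_of_nonneg_left hl2 this
      _ = _ := mul_one _
  rw [div_le_iff₀ hK] at h1
  have h3 := Real.log_le_log hσ0 h1
  have h4 := Real.log_le_log hm h2
  rw [Real.log_mul hm.ne' hK.ne'] at h3
  rw [Real.log_mul hK.ne' hσ0.ne'] at h4
  rw [abs_le]
  constructor <;> linarith

/-- the middle sum: weight at the sizes of the factors, box functions `R~` -/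
def MS (y z S : ℕ) (T κ1 : ℝ) (n : ℕ) : ℝ :=
  ∑ g ∈ Nat.finMulAntidiag 5 n, (∏ i, Rt y z S T (g i)) * Wf κ1 (fun i => Real.log (g i) / Real.log T)

theorem GW_eq (y z S : ℕ) (T κ1 : ℝ) (n : ℕ) :
    GW y z S T κ1 n = ∑ g ∈ Nat.finMulAntidiag 5 n, ∑ u ∈ Bx 5 T, ∑ v ∈ Bx (5 * S) T,
      (∏ i, (c1 (pt v i) * B1 y z (u i) (pt v i) (g i))) * Wf κ1 (fun i => Real.log (svr5 u v i) / Real.log T) := by
  have e1 : ∀ (u : Fin 5 → Option ℕ) (v : Fin (5 * S) → Option ℕ),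
      ((∏ i, c1 (pt v i)) * Wf κ1 (fun i => Real.log (svr5 u v i) / Real.log T)) * BX5 y z u v n =
      ∑ g ∈ Nat.finMulAntidiag 5 n, (∏ i, (c1 (pt v i) * B1 y z (u i) (pt v i) (g i))) *
        Wf κ1 (fun i => Real.log (svr5 u v i) / Real.log T) := by
    intro u v
    rw [BX_eq, prod_apply, mul_sum]
    refine sum_congr rfl fun g _ => ?_
    rw [prod_mul_distrib]
    ring
  unfold GW
  rw [sum_congr rfl fun u _ => (sum_congr rfl fun v _ => e1 u v).trans sum_comm, sum_comm]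

theorem MS_eq (y z S : ℕ) (T κ1 : ℝ) (n : ℕ) :
    MS y z S T κ1 n = ∑ g ∈ Nat.finMulAntidiag 5 n, ∑ u ∈ Bx 5 T, ∑ v ∈ Bx (5 * S) T,
      (∏ i, (c1 (pt v i) * B1 y z (u i) (pt v i) (g i))) * Wf κ1 (fun i => Real.log (g i) / Real.log T) := by
  unfold MS
  refine sum_congr rfl fun g _ => ?_
  have h1 := box_sum S T (fun i o v0 => c1 v0 * B1 y z o v0 (g i))
  rw [prod_congr rfl fun i _ => Rt_apply y z S (g i) T, ← h1, sum_mul]
  exact sum_congr rfl fun u _ => sum_mul _ _ _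

theorem GW_step {y z S L n : ℕ} {T κ1 : ℝ} (hy : 1 ≤ y) (hL : LL T = L + 1) (hn : n ≤ 2 ^ L) (hny : n ≤ y ^ (S + 1))
    (hlT : 0 < Real.log T) (hκ : 0 < κ1) :
    |GW y z S T κ1 n - MS y z S T κ1 n| ≤
      15 * (((S : ℝ) + 1) / Real.log T) / κ1 * (C0 S ^ 5 * (rg y ^ 5) n) := by
  set K := 15 * (((S : ℝ) + 1) / Real.log T) / κ1 with hK
  have hK0 : 0 ≤ K := by positivity
  rw [GW_eq, MS_eq, ← sum_sub_distrib]
  have hb : ∀ g ∈ Nat.finMulAntidiag 5 n,
      |∑ u ∈ Bx 5 T, ∑ v ∈ Bx (5 * S) T, (∏ i, (c1 (pt v i) * B1 y z (u i) (pt v i) (g i))) *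
          Wf κ1 (fun i => Real.log (svr5 u v i) / Real.log T) -
        ∑ u ∈ Bx 5 T, ∑ v ∈ Bx (5 * S) T, (∏ i, (c1 (pt v i) * B1 y z (u i) (pt v i) (g i))) *
          Wf κ1 (fun i => Real.log (g i) / Real.log T)| ≤ K * (C0 S ^ 5 * ∏ i, rg y (g i)) := by
    intro g hg
    rw [Nat.mem_finMulAntidiag] at hg
    have hgd : ∀ i, g i ∣ n := fun i => hg.1 ▸ dvd_prod_of_mem g (mem_univ i)
    have hgn : ∀ i, g i ≤ n := fun i => Nat.le_of_dvd (Nat.pos_of_ne_zero hg.2) (hgd i)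
    have ht : ∀ (u : Fin 5 → Option ℕ) (v : Fin (5 * S) → Option ℕ),
        |(∏ i, (c1 (pt v i) * B1 y z (u i) (pt v i) (g i))) * Wf κ1 (fun i => Real.log (svr5 u v i) / Real.log T) -
          (∏ i, (c1 (pt v i) * B1 y z (u i) (pt v i) (g i))) * Wf κ1 (fun i => Real.log (g i) / Real.log T)| ≤
        (∏ i, (|c1 (pt v i)| * B1 y z (u i) (pt v i) (g i))) * K := by
      intro u v
      have hp : |∏ i, (c1 (pt v i) * B1 y z (u i) (pt v i) (g i))| =
          ∏ i, (|c1 (pt v i)| * B1 y z (u i) (pt v i) (g i)) := by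
        rw [abs_prod]
        exact prod_congr rfl fun i _ => by rw [abs_mul, abs_of_nonneg (nn_B1 y z _ _ _)]
      rw [← mul_sub, abs_mul, hp]
      by_cases h0 : ∀ i, B1 y z (u i) (pt v i) (g i) ≠ 0
      · refine mul_le_mul_of_nonneg_left ?_ (prod_nonneg fun i _ => mul_nonneg (abs_nonneg _) (nn_B1 y z _ _ _))
        refine Wf_lip hκ _ _ fun i => ?_
        rw [← sub_div, abs_div, abs_of_pos hlT, svr_eq]
        exact div_le_div_of_nonneg_right (log_svr (u i) (pt v i) (h0 i)) hlT.le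
      · push Not at h0
        obtain ⟨i, hi⟩ := h0
        have : ∏ i, (|c1 (pt v i)| * B1 y z (u i) (pt v i) (g i)) = 0 := by
          apply prod_eq_zero (mem_univ i)
          rw [hi, mul_zero]
        rw [this, zero_mul, zero_mul]
    rw [← sum_sub_distrib]
    refine (abs_sum_le_sum_abs _ _).trans ?_
    have h2 : ∀ u ∈ Bx 5 T, |∑ v ∈ Bx (5 * S) T, (∏ i, (c1 (pt v i) * B1 y z (u i) (pt v i) (g i))) *
          Wf κ1 (fun i => Real.log (svr5 u v i) / Real.log T) -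
        ∑ v ∈ Bx (5 * S) T, (∏ i, (c1 (pt v i) * B1 y z (u i) (pt v i) (g i))) *
          Wf κ1 (fun i => Real.log (g i) / Real.log T)| ≤
        ∑ v ∈ Bx (5 * S) T, (∏ i, (|c1 (pt v i)| * B1 y z (u i) (pt v i) (g i))) * K := by
      intro u _
      rw [← sum_sub_distrib]
      exact (abs_sum_le_sum_abs _ _).trans (sum_le_sum fun v _ => ht u v)
    refine (sum_le_sum h2).trans ?_
    have h3 := box_sum S T (fun i o v0 => |c1 v0| * B1 y z o v0 (g i))
    have h4 : ∑ u ∈ Bx 5 T, ∑ v ∈ Bx (5 * S) T, (∏ i, (|c1 (pt v i)| * B1 y z (u i) (pt v i) (g i))) * K =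
        K * ∏ i, ∑ o ∈ OO T, ∑ v0 ∈ Bx S T, |c1 v0| * B1 y z o v0 (g i) := by
      rw [← h3, mul_comm K, sum_mul]
      exact sum_congr rfl fun u _ => (sum_mul _ _ _).symm
    rw [h4]
    refine mul_le_mul_of_nonneg_left ?_ hK0
    have h5 : C0 S ^ 5 * ∏ i, rg y (g i) = ∏ i : Fin 5, (C0 S * rg y (g i)) := by
      rw [prod_mul_distrib, prod_const, card_univ, Fintype.card_fin]
    rw [h5]
    refine prod_le_prod (fun i _ => sum_nonneg fun o _ => sum_nonneg fun v0 _ =>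
      mul_nonneg (abs_nonneg _) (nn_B1 y z _ _ _)) fun i _ => ?_
    exact sum_abs hy hL ((hgn i).trans hn) ((hgn i).trans hny)
  refine (abs_sum_le_sum_abs _ _).trans ((sum_le_sum hb).trans (le_of_eq ?_))
  rw [Win.pow_apply, mul_sum, mul_sum]

theorem F5_step {y z S L n : ℕ} {T κ1 c : ℝ} (hy : 1 ≤ y) (hyz : y ≤ z) (hL : LL T = L + 1) (hn : n ≤ 2 ^ L)
    (hny : n ≤ y ^ (S + 1)) (hc1 : 1 ≤ c) (hc2 : C0 S ≤ c) (hc3 : exErr S 1 ≤ c) :
    |F5 z T κ1 n - MS y z S T κ1 n| ≤ 5 * c ^ 5 * 5 ^ S * sqr y n := by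
  unfold F5 MS
  rw [← sum_sub_distrib]
  have hs := sqr_nonneg y n
  have hb : ∀ g ∈ Nat.finMulAntidiag 5 n,
      |(∏ i, rg z (g i)) * Wf κ1 (fun i => Real.log (g i) / Real.log T) -
        (∏ i, Rt y z S T (g i)) * Wf κ1 (fun i => Real.log (g i) / Real.log T)| ≤
      5 * sqr y n * c ^ 5 * ∏ i, rg y (g i) := by
    intro g hg
    rw [Nat.mem_finMulAntidiag] at hg
    have hgd : ∀ i, g i ∣ n := fun i => hg.1 ▸ dvd_prod_of_mem g (mem_univ i)
    have hgn : ∀ i, g i ≤ n := fun i => Nat.le_of_dvd (Nat.pos_of_ne_zero hg.2) (hgd i)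
    have hW := Wf01 κ1 (fun i => Real.log (g i) / Real.log T)
    rw [← sub_mul, abs_mul, abs_of_nonneg hW.1]
    have h1 := prod_tele (univ : Finset (Fin 5)) (fun i => rg z (g i)) (fun i => Rt y z S T (g i))
      (fun i => c * rg y (g i)) (sqr y n)
      (fun i _ => by
        rw [abs_of_nonneg (nn_rg z _)]
        have h1 := rg_le hyz (g i)
        have h2 := nn_rg y (g i)
        nlinarith)
      (fun i _ => (Rt_abs hy hL ((hgn i).trans hn) ((hgn i).trans hny)).trans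
        (mul_le_mul_of_nonneg_right hc2 (nn_rg y _)))
      (fun i _ => by
        refine (Rt_rg hy hyz hL ((hgn i).trans hn) ((hgn i).trans hny)).trans ?_
        rw [E1_apply]
        have h1 : sqr y (g i) ≤ sqr y n := sqr_mono (hgd i)
        have h2 := nn_rg y (g i)
        have h3 : sqr y (g i) * rg y (g i) ≤ sqr y n * rg y (g i) := mul_le_mul_of_nonneg_right h1 h2
        calc exErr S 1 * (sqr y (g i) * rg y (g i)) ≤ c * (sqr y n * rg y (g i)) :=
              mul_le_mul hc3 h3 (mul_nonneg (sqr_nonneg y _) h2) (by linarith)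
          _ = sqr y n * (c * rg y (g i)) := by ring)
    have h2 : ((univ : Finset (Fin 5)).card : ℝ) * sqr y n * ∏ i : Fin 5, (c * rg y (g i)) =
        5 * sqr y n * c ^ 5 * ∏ i, rg y (g i) := by
      rw [prod_mul_distrib, prod_const, card_univ, Fintype.card_fin]
      push_cast
      ring
    rw [h2] at h1
    calc |∏ i, rg z (g i) - ∏ i, Rt y z S T (g i)| * Wf κ1 (fun i => Real.log (g i) / Real.log T)
        ≤ |∏ i, rg z (g i) - ∏ i, Rt y z S T (g i)| * 1 := mul_le_mul_of_nonneg_left hW.2 (abs_nonneg _)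
      _ ≤ _ := by
        rw [mul_one]
        exact h1
  refine (abs_sum_le_sum_abs _ _).trans ((sum_le_sum hb).trans ?_)
  rw [← mul_sum, ← Win.pow_apply]
  have h3 : (rg y ^ 5) n ≤ ((5 : ℕ) : ℝ) ^ S := ((dom_rg y).pow (k := 5)).le_pow (by norm_num) hy hny
  push_cast at h3
  have h4 : 0 ≤ 5 * sqr y n * c ^ 5 := by
    have : 0 ≤ c ^ 5 := by positivity
    positivity
  calc 5 * sqr y n * c ^ 5 * (rg y ^ 5) n ≤ 5 * sqr y n * c ^ 5 * 5 ^ S := mul_le_mul_of_nonneg_left h3 h4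
    _ = 5 * c ^ 5 * 5 ^ S * sqr y n := by ring

end YEx_aux

open YEx_aux

theorem iYEx : StYEx := by
  classical
  intro η κ1 hη hη2 hκ hκ2
  set S := SS η with hS
  set c := cst S with hc
  have c0 := C0_nonneg S
  have e0 := (exErr_pos S 1).le
  have hc1 : 1 ≤ c := by
    rw [hc]
    unfold cst
    linarith
  have hc2 : C0 S ≤ c := by
    rw [hc]
    unfold cst
    linarith
  have hc3 : exErr S 1 ≤ c := by
    rw [hc]
    unfold cst
    linarith
  have hcp : 0 ≤ c := by linarith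
  set A1 := 24 * c ^ 4 * 4 ^ S with hA1
  set A2 := 5 * c ^ 5 * 5 ^ S with hA2
  set A3 := 15 * ((S : ℝ) + 1) / κ1 * c ^ 5 with hA3
  have hA1p : 0 ≤ A1 := by positivity
  have hA2p : 0 ≤ A2 := by positivity
  have hA3p : 0 ≤ A3 := by positivity
  refine ⟨max (2 ^ (2 * (S + 1))) (A1 + A2 + A3), ?_, ?_⟩
  · exact le_trans (one_le_pow₀ (by norm_num)) (le_max_left _ _)
  intro T n hT hn2 hn
  have hT2 : (2 : ℝ) ^ (2 * (S + 1)) ≤ T := (le_max_left _ _).trans hT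
  have hT0 : 1 ≤ T := (one_le_pow₀ (by norm_num)).trans hT2
  have hTp : 0 < T := by linarith
  have hT4 : (2 : ℝ) ≤ T := by
    refine le_trans ?_ hT2
    calc (2 : ℝ) = 2 ^ 1 := (pow_one _).symm
      _ ≤ 2 ^ (2 * (S + 1)) := pow_le_pow_right₀ (by norm_num) (by omega)
  have hlT : 0 < Real.log T := Real.log_pos (by linarith)
  have hcE : η ≤ c2 := by
    unfold c2
    linarith
  have hn' : (n : ℝ) ≤ T ^ (2 + 1 / 20 : ℝ) :=
    hn.trans (Real.rpow_le_rpow_of_exponent_le hT0 (by norm_num))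
  set y := zz η T with hy
  set z := zz c2 T with hz
  have hy1 : 1 ≤ y := zz_pos hη.le hT0
  have hyz : y ≤ z := zz_mono hcE hT0
  have hny : n ≤ y ^ (S + 1) := by
    apply le_zz_pow hη.le hT0 hn'
    have h1 : (2 : ℝ) ^ (S + 1) ≤ T ^ (1 / 2 : ℝ) := by
      rw [← Real.sqrt_eq_rpow]
      apply Real.le_sqrt_of_sq_le
      rw [← pow_mul, mul_comm]
      exact hT2
    have h2 : 3 ≤ η * S := by
      have : 3 / η ≤ (S : ℝ) := by
        rw [hS]
        exact Nat.le_ceil _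
      rw [div_le_iff₀ hη] at this
      linarith
    calc T ^ (2 + 1 / 20 : ℝ) * 2 ^ (S + 1) ≤ T ^ (2 + 1 / 20 : ℝ) * T ^ (1 / 2 : ℝ) :=
          mul_le_mul_of_nonneg_left h1 (by positivity)
      _ = T ^ (2 + 1 / 20 + 1 / 2 : ℝ) := (Real.rpow_add hTp _ _).symm
      _ ≤ T ^ (η * ((S + 1 : ℕ) : ℝ)) := by
          apply Real.rpow_le_rpow_of_exponent_le hT0
          push_cast
          linarith
  have hnL : n ≤ 2 ^ ⌈3 * Real.log T⌉₊ := le_two_pow hT0 hn'
  set L := ⌈3 * Real.log T⌉₊ with hL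
  have hLL : LL T = L + 1 := rfl
  set E0 : ArithmeticFunction ℝ := E1 y + bw y T κ1 (2 ^ (S + 1)) with hE0
  have hE0n : NN E0 := (nn_E1 y).add (nn_bw y T κ1 _)
  have d1 : Dm n (rg z) (c • rg y) := by
    intro m _
    rw [af_smul, abs_of_nonneg (nn_rg z m)]
    have h1 := rg_le hyz m
    have h2 := nn_rg y m
    nlinarith
  have d2 : Dm n (Rt y z S T) (c • rg y) := by
    intro m hm
    rw [af_smul]
    exact (Rt_abs hy1 hLL (hm.trans hnL) (hm.trans hny)).trans (mul_le_mul_of_nonneg_right hc2 (nn_rg y m))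
  have d3 : Dm n (rg z - Rt y z S T) (c • E0) := by
    intro m hm
    rw [af_smul, af_sub, hE0, ArithmeticFunction.add_apply]
    refine (Rt_rg hy1 hyz hLL (hm.trans hnL) (hm.trans hny)).trans ?_
    have h1 := nn_E1 y m
    have h2 := nn_bw y T κ1 (2 ^ (S + 1)) m
    calc exErr S 1 * E1 y m ≤ c * E1 y m := mul_le_mul_of_nonneg_right hc3 h1
      _ ≤ c * (E1 y m + bw y T κ1 (2 ^ (S + 1)) m) := mul_le_mul_of_nonneg_left (by linarith) hcp
  have d4 : Dm n (al z T κ1) (c • rg y) := by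
    intro m _
    rw [af_smul, abs_of_nonneg (al_nn z T κ1 m)]
    have h1 := al_le hyz T κ1 m
    have h2 := nn_rg y m
    nlinarith
  have d5 : Dm n (At y z S T κ1) (c • rg y) := by
    intro m hm
    rw [af_smul]
    exact (At_abs κ1 hy1 hLL (hm.trans hnL) (hm.trans hny)).trans (mul_le_mul_of_nonneg_right hc2 (nn_rg y m))
  have d6 : Dm n (al z T κ1 - At y z S T κ1) (c • E0) := by
    intro m hm
    rw [af_smul, af_sub, hE0, ArithmeticFunction.add_apply]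
    exact al_At hy1 hyz hLL (hm.trans hnL) (hm.trans hny) hT0 hκ
  have b1 := fin_bd hc1 hE0n d1 d2 d3 0 (by norm_num)
  have b2 := fin_bd hc1 hE0n d1 d2 d3 1 (by norm_num)
  have b3 := fin_bd hc1 hE0n d1 d2 d3 2 (by norm_num)
  have b4 := fin_bd hc1 hE0n d1 d2 d3 3 (by norm_num)
  have b5 := fin_bd hc1 hE0n d4 d5 d6 3 (by norm_num)
  rw [zero_add, pow_one, pow_one] at b1
  norm_num only at b2 b3 b4 b5
  have b6 := GW_step (z := z) hy1 hLL hnL hny hlT hκ
  have b7 := F5_step (κ1 := κ1) hy1 hyz hLL hnL hny hc1 hc2 hc3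
  rw [sum_ccX]
  set X := (E0 * rg y ^ 3) n with hX
  have hX0 : 0 ≤ X := hE0n.mul (nn_pow (nn_rg y) 3) n
  set U := sqr y n with hU
  set V := (bw y T κ1 (2 ^ (S + 1)) * rg y ^ 3) n with hV
  set Q := (rg y ^ 5) n with hQ
  have hU0 : 0 ≤ U := sqr_nonneg y n
  have hV0 : 0 ≤ V := (nn_bw y T κ1 _).mul (nn_pow (nn_rg y) 3) n
  have hQ0 : 0 ≤ Q := nn_pow (nn_rg y) 5 n
  have hQl : 0 ≤ Q / Real.log T := div_nonneg hQ0 hlT.le
  have hXe : X ≤ 4 ^ S * (U + V) := by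
    have h1 : X = (E1 y * rg y ^ 3) n + V := by
      rw [hX, hE0, add_mul, ArithmeticFunction.add_apply]
    have h2 := E1_mul_le hy1 hny
    have h4 : (1 : ℝ) ≤ 4 ^ S := one_le_pow₀ (by norm_num)
    rw [h1, mul_add]
    have h5 : 1 * V ≤ 4 ^ S * V := mul_le_mul_of_nonneg_right h4 hV0
    linarith
  set W := 4 * c ^ 4 * X with hW
  have hW0 : 0 ≤ W := by positivity
  have hW2 : 6 * W ≤ A1 * (U + V) := by
    have h8 : 24 * c ^ 4 * X ≤ 24 * c ^ 4 * (4 ^ S * (U + V)) :=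
      mul_le_mul_of_nonneg_left hXe (by positivity)
    rw [hW, hA1]
    linarith
  have hG : 15 * (((S : ℝ) + 1) / Real.log T) / κ1 * (C0 S ^ 5 * Q) ≤ A3 * (Q / Real.log T) := by
    have h1 : C0 S ^ 5 ≤ c ^ 5 := pow_le_pow_left₀ c0 hc2 5
    have h2 : 15 * (((S : ℝ) + 1) / Real.log T) / κ1 * (C0 S ^ 5 * Q) =
        15 * ((S : ℝ) + 1) / κ1 * (Q / Real.log T) * C0 S ^ 5 := by ring
    have h3 : A3 * (Q / Real.log T) = 15 * ((S : ℝ) + 1) / κ1 * (Q / Real.log T) * c ^ 5 := by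
      rw [hA3]
      ring
    rw [h2, h3]
    exact mul_le_mul_of_nonneg_left h1 (by positivity)
  have b6' := b6.trans hG
  have b7' : |F5 z T κ1 n - MS y z S T κ1 n| ≤ A2 * U := b7
  have hmain : |gX5 z T κ1 n - (37 / 12 * Rt y z S T n - 16 / 9 * (Rt y z S T ^ 2) n + 67 / 108 * (Rt y z S T ^ 3) n -
      7 / 72 * ((Rt y z S T ^ 4) n - (At y z S T κ1 ^ 4) n) + 47 / 108 * GW y z S T κ1 n)| ≤
      6 * W + A2 * U + A3 * (Q / Real.log T) := by
    have he : gX5 z T κ1 n - (37 / 12 * Rt y z S T n - 16 / 9 * (Rt y z S T ^ 2) n + 67 / 108 * (Rt y z S T ^ 3) n -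
        7 / 72 * ((Rt y z S T ^ 4) n - (At y z S T κ1 ^ 4) n) + 47 / 108 * GW y z S T κ1 n) =
        37 / 12 * (rg z n - Rt y z S T n) - 16 / 9 * ((rg z ^ 2) n - (Rt y z S T ^ 2) n) +
          67 / 108 * ((rg z ^ 3) n - (Rt y z S T ^ 3) n) - 7 / 72 * ((rg z ^ 4) n - (Rt y z S T ^ 4) n) +
          7 / 72 * ((al z T κ1 ^ 4) n - (At y z S T κ1 ^ 4) n) +
          47 / 108 * (F5 z T κ1 n - MS y z S T κ1 n) - 47 / 108 * (GW y z S T κ1 n - MS y z S T κ1 n) := by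
      unfold gX5
      ring
    rw [he]
    have hAU : 0 ≤ A2 * U := mul_nonneg hA2p hU0
    have hAQ : 0 ≤ A3 * (Q / Real.log T) := mul_nonneg hA3p hQl
    rw [abs_le] at b1 b2 b3 b4 b5 b6' b7' ⊢
    constructor <;> linarith [b1.1, b1.2, b2.1, b2.2, b3.1, b3.2, b4.1, b4.2, b5.1, b5.2, b6'.1, b6'.2, b7'.1, b7'.2]
  refine hmain.trans ?_
  have hfin : 6 * W + A2 * U + A3 * (Q / Real.log T) ≤ (A1 + A2 + A3) * (U + V + Q / Real.log T) := by
    have h1 : 0 ≤ A1 * (Q / Real.log T) := mul_nonneg hA1p hQl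
    have h2 : 0 ≤ A2 * (V + Q / Real.log T) := mul_nonneg hA2p (add_nonneg hV0 hQl)
    have h3 : 0 ≤ A3 * (U + V) := mul_nonneg hA3p (add_nonneg hU0 hV0)
    nlinarith
  exact hfin.trans (mul_le_mul_of_nonneg_right (le_max_right _ _) (add_nonneg (add_nonneg hU0 hV0) hQl))

end Pool.Agent.Work.MP_a8fbd7_nt.EX.ASM2
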