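import Mathlib
import Pool.Agent.Work.MP_a8fbd7_nt.EX.ASM2.Stmts
import Pool.Agent.Work.MP_a8fbd7_nt.EX.ASM.I_XPw

/-!
MP_a8fbd7_nt, EX/ASM2, item YPw: pointwise values of the sieve function `g`.
-/

set_option autoImplicit false

noncomputable section

namespace Pool.Agent.Work.MP_a8fbd7_nt.EX.ASM2

open Pool.Agent.Work.MP_56b8f5_nt.UC (IsWt Bl Dp Om psi eta Sep)
open Pool.Agent.Work.MP_a8fbd7_nt.OX
open Pool.Agent.Work.MP_a8fbd7_nt.OX.ID (Rough roughOne pb rg rg_apply)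
open Pool.Agent.Work.MP_a8fbd7_nt.OX.ASM
open Pool.Agent.Work.MP_a8fbd7_nt.EX
open Pool.Agent.Work.MP_a8fbd7_nt.EX.CELL (r2 c2)
open Pool.Agent.Work.MP_a8fbd7_nt.EX.ASM (al bw sqr aJ)
open Pool.Agent.Work.MP_a8fbd7_nt.EX.ASM.XPw_aux (rg_pow_sqfree rg_pow_not rg_pow_bd sqr_nonneg' aJ_bd pr_bd)

namespace YPw_aux

open ArithmeticFunction Finset
open scoped ArithmeticFunction.Omega

theorem core {z n : ℕ} (hz : 1 ≤ z) (hzn : z < n) (hn : n ≤ z ^ (8 + 1)) :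
    |37 / 12 * rg z n - 16 / 9 * (rg z ^ 2) n + 67 / 108 * (rg z ^ 3) n - 7 / 72 * (rg z ^ 4) n -
      (pr n - 11 / 18 * aJ z 3 n - 47 / 18 * aJ z 5 n - 170 / 3 * aJ z 6 n - 8291 / 18 * aJ z 7 n -
        8260 / 3 * aJ z 8 n)| ≤
      2 ^ 100 * sqr z n := by
  classical
  have hs0 := sqr_nonneg' z n
  have hn0 : n ≠ 0 := by omega
  by_cases hR : Rough z n
  · by_cases hs : Squarefree n
    · refine le_trans (le_of_eq ?_) (mul_nonneg (by norm_num) hs0)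
      rw [abs_eq_zero]
      have h1 : rg z n = 1 := by rw [rg_apply, if_pos ⟨hn0, hR⟩]
      have hJ8 : Ω n ≤ 8 := hR.cardFactors_le hz (by omega) hn
      have hJ1 : 1 ≤ Ω n := by
        rw [Nat.one_le_iff_ne_zero]
        intro h0
        rcases cardFactors_eq_zero_iff_eq_zero_or_one.1 h0 with h' | h'
        · exact hn0 h'
        · omega
      have hpr : pr n = if Ω n = 1 then 1 else 0 := by
        unfold pr
        by_cases hp : n.Prime
        · rw [if_pos hp, if_pos (cardFactors_eq_one_iff_prime.2 hp)]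
        · rw [if_neg hp, if_neg fun h => hp (cardFactors_eq_one_iff_prime.1 h)]
      have haJ : ∀ J, aJ z J n = if Ω n = J then 1 else 0 := by
        intro J
        unfold aJ
        by_cases hJ : Ω n = J
        · rw [if_pos ⟨hR, hJ⟩, if_pos hJ]
        · rw [if_neg fun h => hJ h.2, if_neg hJ]
      rw [h1, rg_pow_sqfree z 2 hs hR, rg_pow_sqfree z 3 hs hR, rg_pow_sqfree z 4 hs hR, hpr, haJ, haJ, haJ, haJ, haJ]
      generalize Ω n = J at hJ8 hJ1 ⊢
      interval_cases J <;> norm_num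
    · have hsq : sqr z n = 1 := by
        unfold sqr
        rw [if_pos]
        rw [Nat.squarefree_iff_prime_squarefree] at hs
        push Not at hs
        obtain ⟨p, hp, hpn⟩ := hs
        exact ⟨p, hp, hR p hp ((Dvd.intro _ rfl).trans hpn), by rw [pow_two]; exact hpn⟩
      rw [hsq, mul_one, abs_le]
      have b1 := rg_pow_bd (k := 1) hz le_rfl hn
      have b2 := rg_pow_bd (k := 2) hz (by norm_num) hn
      have b3 := rg_pow_bd (k := 3) hz (by norm_num) hn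
      have b4 := rg_pow_bd (k := 4) hz (by norm_num) hn
      have c3 := aJ_bd z 3 n
      have c5 := aJ_bd z 5 n
      have c6 := aJ_bd z 6 n
      have c7 := aJ_bd z 7 n
      have c8 := aJ_bd z 8 n
      have c0 := pr_bd n
      rw [pow_one] at b1
      push_cast at b1 b2 b3 b4
      norm_num at b1 b2 b3 b4
      constructor <;> linarith [b1.1, b1.2, b2.1, b2.2, b3.1, b3.2, b4.1, b4.2, c3.1, c3.2, c5.1, c5.2, c6.1, c6.2,
        c7.1, c7.2, c8.1, c8.2, c0.1, c0.2]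
  · refine le_trans (le_of_eq ?_) (mul_nonneg (by norm_num) hs0)
    have h1 : rg z n = 0 := by rw [rg_apply, if_neg fun h => hR h.2]
    have hpr : pr n = 0 := by
      unfold pr
      rw [if_neg]
      intro hp
      apply hR
      intro q hq hqn
      rw [(Nat.prime_dvd_prime_iff_eq hq hp).1 hqn]
      exact hzn
    have haJ : ∀ J, aJ z J n = 0 := by
      intro J
      unfold aJ
      rw [if_neg fun h => hR h.1]
    rw [h1, rg_pow_not z 2 hR, rg_pow_not z 3 hR, rg_pow_not z 4 hR, hpr, haJ, haJ, haJ, haJ, haJ]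
    norm_num

theorem z_bd {T : ℝ} (hT : 2 ^ 450 ≤ T) : 1 ≤ zz c2 T ∧ ((zz c2 T : ℕ) : ℝ) < T ∧
    T ^ (2 + 1 / 50 : ℝ) ≤ ((zz c2 T : ℕ) : ℝ) ^ 9 := by
  have hT0 : 0 < T := lt_of_lt_of_le (by positivity) hT
  have hT2 : (2 : ℝ) ≤ T := by
    refine le_trans ?_ hT
    calc (2 : ℝ) = 2 ^ 1 := (pow_one 2).symm
      _ ≤ 2 ^ 450 := pow_le_pow_right₀ (by norm_num) (by norm_num)
  have hT1 : 1 ≤ T := le_trans (by norm_num) hT2
  have hc : c2 = 17 / 75 := rfl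
  set X : ℝ := T ^ c2 with hX
  have hX0 : 0 < X := Real.rpow_pos_of_pos hT0 _
  have h2 : (2 : ℝ) ≤ X := by
    have h3 : ((2 : ℝ) ^ (450 : ℕ)) ^ c2 ≤ X := Real.rpow_le_rpow (by positivity) hT (by rw [hc]; norm_num)
    refine le_trans ?_ h3
    rw [← Real.rpow_natCast, ← Real.rpow_mul (by norm_num), hc]
    calc (2 : ℝ) = 2 ^ (1 : ℝ) := (Real.rpow_one 2).symm
      _ ≤ _ := Real.rpow_le_rpow_of_exponent_le (by norm_num) (by norm_num)
  have hfl : ((zz c2 T : ℕ) : ℝ) ≤ X := by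
    unfold zz
    exact Nat.floor_le hX0.le
  have hfl2 : X < ((zz c2 T : ℕ) : ℝ) + 1 := by
    unfold zz
    exact Nat.lt_floor_add_one _
  have hz1 : (1 : ℝ) < ((zz c2 T : ℕ) : ℝ) + 1 := by linarith
  refine ⟨?_, ?_, ?_⟩
  · have h4 : (0 : ℝ) < ((zz c2 T : ℕ) : ℝ) := by linarith
    exact_mod_cast h4
  · refine hfl.trans_lt ?_
    calc X < T ^ (1 : ℝ) := Real.rpow_lt_rpow_of_exponent_lt (lt_of_lt_of_le (by norm_num) hT2) (by rw [hc]; norm_num)
      _ = T := Real.rpow_one T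
  · have h5 : X / 2 ≤ ((zz c2 T : ℕ) : ℝ) := by linarith
    have h6 : (X / 2) ^ 9 ≤ ((zz c2 T : ℕ) : ℝ) ^ 9 := pow_le_pow_left₀ (by positivity) h5 9
    refine le_trans ?_ h6
    rw [div_pow, le_div_iff₀ (by positivity)]
    have h7 : (2 : ℝ) ^ 9 ≤ T ^ (1 / 50 : ℝ) := by
      have h3 : ((2 : ℝ) ^ (450 : ℕ)) ^ (1 / 50 : ℝ) ≤ T ^ (1 / 50 : ℝ) :=
        Real.rpow_le_rpow (by positivity) hT (by norm_num)
      refine le_trans (le_of_eq ?_) h3
      rw [← Real.rpow_natCast, ← Real.rpow_natCast, ← Real.rpow_mul (by norm_num)]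
      norm_num
    calc T ^ (2 + 1 / 50 : ℝ) * 2 ^ 9 ≤ T ^ (2 + 1 / 50 : ℝ) * T ^ (1 / 50 : ℝ) := by gcongr
      _ = T ^ (2 + 1 / 50 + 1 / 50 : ℝ) := (Real.rpow_add hT0 _ _).symm
      _ ≤ T ^ (c2 * (9 : ℕ) : ℝ) := Real.rpow_le_rpow_of_exponent_le hT1 (by rw [hc]; norm_num)
      _ = X ^ 9 := by rw [hX, Real.rpow_mul hT0.le, Real.rpow_natCast]

end YPw_aux

open YPw_aux in
theorem iYPw : StYPw := by
  refine ⟨2 ^ 450, one_le_pow₀ (by norm_num), ?_⟩
  intro T κ1 n hT hTn hn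
  obtain ⟨h1, h2, h3⟩ := z_bd hT
  have h4 : zz c2 T < n := by exact_mod_cast h2.trans_le hTn
  have h5 : n ≤ zz c2 T ^ (8 + 1) := by
    have : (n : ℝ) ≤ ((zz c2 T : ℕ) : ℝ) ^ (8 + 1) := hn.trans h3
    exact_mod_cast this
  have h6 := (core h1 h4 h5).trans (mul_le_mul_of_nonneg_right
    (pow_le_pow_right₀ (by norm_num : (1 : ℝ) ≤ 2) (by norm_num : 100 ≤ 450)) (sqr_nonneg' (zz c2 T) n))
  unfold gX5
  refine le_trans (le_of_eq ?_) h6
  congr 1
  ring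

end Pool.Agent.Work.MP_a8fbd7_nt.EX.ASM2
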