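import Mathlib
import Pool.Agent.Work.MP_a8fbd7_nt.EX.ASM2.Stmts
import Pool.Agent.Work.MP_a8fbd7_nt.EX.ASM2.I_YPw
import Pool.Agent.Work.MP_a8fbd7_nt.OX.ASM.Win

/-!
MP_a8fbd7_nt, EX/ASM2, item YF5: pointwise bound for the five-variable term `F5`.
-/

set_option autoImplicit false

noncomputable section

namespace Pool.Agent.Work.MP_a8fbd7_nt.EX.ASM2

open Pool.Agent.Work.MP_56b8f5_nt.UC (IsWt Bl Dp Om psi eta Sep)
open Pool.Agent.Work.MP_a8fbd7_nt.OX
open Pool.Agent.Work.MP_a8fbd7_nt.OX.ID (Rough roughOne pb rg rg_apply rg_eq roughOne_apply)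
open Pool.Agent.Work.MP_a8fbd7_nt.OX.ASM
open Pool.Agent.Work.MP_a8fbd7_nt.EX
open Pool.Agent.Work.MP_a8fbd7_nt.EX.CELL (r2 c2)
open Pool.Agent.Work.MP_a8fbd7_nt.EX.ASM (al bw sqr aJ)
open Pool.Agent.Work.MP_a8fbd7_nt.EX.ASM.XPw_aux (rg_pow_sqfree rg_pow_not rg_pow_bd sqr_nonneg' aJ_bd pr_bd)

namespace YF5_aux

open ArithmeticFunction Finset
open scoped ArithmeticFunction.Omega

theorem clip_nonneg (t : ℝ) : 0 ≤ clip t := le_max_left _ _

theorem clip_le (t : ℝ) : clip t ≤ 1 := max_le (by norm_num) (min_le_left _ _)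

theorem clip_pos {t : ℝ} (h : clip t ≠ 0) : 0 < t := by
  by_contra h0
  apply h
  unfold clip
  exact max_eq_left ((min_le_right _ _).trans (not_lt.1 h0))

theorem Wf_nonneg (κ : ℝ) (x : Fin 5 → ℝ) : 0 ≤ Wf κ x := by
  unfold Wf
  have h := clip_nonneg
  repeat' apply mul_nonneg
  all_goals apply h

theorem mul_le_one' {a b : ℝ} (ha : a ≤ 1) (hb0 : 0 ≤ b) (hb : b ≤ 1) : a * b ≤ 1 := by
  nlinarith

theorem Wf_le (κ : ℝ) (x : Fin 5 → ℝ) : Wf κ x ≤ 1 := by
  unfold Wf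
  refine mul_le_one' ?_ (clip_nonneg _) (clip_le _)
  refine mul_le_one' ?_ (clip_nonneg _) (clip_le _)
  refine mul_le_one' ?_ (clip_nonneg _) (clip_le _)
  refine mul_le_one' ?_ (clip_nonneg _) (clip_le _)
  refine mul_le_one' ?_ (clip_nonneg _) (clip_le _)
  refine mul_le_one' ?_ (clip_nonneg _) (clip_le _)
  refine mul_le_one' ?_ (clip_nonneg _) (clip_le _)
  exact mul_le_one' (clip_le _) (clip_nonneg _) (clip_le _)

theorem Wf_ne {κ : ℝ} (hκ : 0 < κ) {x : Fin 5 → ℝ} (h : Wf κ x ≠ 0) :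
    x 1 < x 0 ∧ x 2 < x 1 ∧ x 3 < x 1 ∧ x 4 < x 1 ∧ 1 / 5 < x 2 ∧ 1 / 5 < x 3 ∧ 1 / 5 < x 4 := by
  unfold Wf at h
  simp only [mul_ne_zero_iff] at h
  obtain ⟨⟨⟨⟨⟨⟨⟨⟨h1, h2⟩, h3⟩, h4⟩, h5⟩, h6⟩, h7⟩, h8⟩, h9⟩ := h
  have key : ∀ a : ℝ, clip (a / κ) ≠ 0 → 0 < a := by
    intro a ha
    have := clip_pos ha
    rwa [lt_div_iff₀ hκ, zero_mul] at this
  have e1 := key _ h1
  have e2 := key _ h2
  have e3 := key _ h3
  have e4 := key _ h4
  have e7 := key _ h7
  have e8 := key _ h8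
  have e9 := key _ h9
  refine ⟨?_, ?_, ?_, ?_, ?_, ?_, ?_⟩ <;> linarith

/-- factorizations into five rough factors `≥ 2` -/
def Pset (z n : ℕ) : Finset (Fin 5 → ℕ) :=
  (Nat.finMulAntidiag 5 n).filter fun g => ∀ i, roughOne z (g i) = 1

/-- the ordered ones -/
def Qset (z n : ℕ) : Finset (Fin 5 → ℕ) :=
  (Pset z n).filter fun g => g 1 < g 0 ∧ g 2 < g 1 ∧ g 3 < g 1 ∧ g 4 < g 1

theorem roughOne_01 (z n : ℕ) : roughOne z n = 0 ∨ roughOne z n = 1 := by
  classical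
  rw [roughOne_apply]
  split_ifs
  · exact Or.inr rfl
  · exact Or.inl rfl

theorem rg_01 (z n : ℕ) : rg z n = 0 ∨ rg z n = 1 := by
  classical
  rw [rg_apply]
  split_ifs
  · exact Or.inr rfl
  · exact Or.inl rfl

theorem pow5_eq (z n : ℕ) : (roughOne z ^ 5) n = (Pset z n).card := by
  classical
  rw [Win.pow_apply, Pset, Finset.card_filter]
  push_cast
  refine sum_congr rfl ?_
  intro g _
  split_ifs with h
  · exact prod_eq_one fun i _ => h i
  · push Not at h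
    obtain ⟨i, hi⟩ := h
    exact prod_eq_zero (mem_univ i) ((roughOne_01 z (g i)).resolve_right hi)

theorem perm_card (a b : Fin 5) :
    ((univ : Finset (Equiv.Perm (Fin 5))).filter fun σ => σ 0 = a ∧ σ 1 = b).card ≤ 6 := by
  revert a b
  decide +kernel

theorem mem_P {z n : ℕ} {g : Fin 5 → ℕ} : g ∈ Pset z n ↔ (∏ i, g i = n ∧ n ≠ 0) ∧ ∀ i, roughOne z (g i) = 1 := by
  rw [Pset, Finset.mem_filter, Nat.mem_finMulAntidiag]

theorem mem_P_comp {z n : ℕ} {g : Fin 5 → ℕ} (σ : Equiv.Perm (Fin 5)) (hg : g ∈ Pset z n) :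
    (fun i => g (σ i)) ∈ Pset z n := by
  rw [mem_P] at hg ⊢
  refine ⟨⟨?_, hg.1.2⟩, fun i => hg.2 (σ i)⟩
  rw [← hg.1.1]
  exact Equiv.prod_comp σ g

theorem mem_Q {z n : ℕ} {g : Fin 5 → ℕ} : g ∈ Qset z n ↔
    g ∈ Pset z n ∧ (g 1 < g 0 ∧ g 2 < g 1 ∧ g 3 < g 1 ∧ g 4 < g 1) := by
  rw [Qset, Finset.mem_filter]

theorem top_of_Q {z n : ℕ} {g : Fin 5 → ℕ} (hg : g ∈ Qset z n) :
    (∀ i, i ≠ 0 → g i < g 0) ∧ (∀ i, i ≠ 0 → i ≠ 1 → g i < g 1) := by
  rw [mem_Q] at hg
  obtain ⟨-, h1, h2, h3, h4⟩ := hg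
  constructor
  · intro i hi
    fin_cases i
    · exact absurd rfl hi
    · exact h1
    · exact h2.trans h1
    · exact h3.trans h1
    · exact h4.trans h1
  · intro i hi hi1
    fin_cases i
    · exact absurd rfl hi
    · exact absurd rfl hi1
    · exact h2
    · exact h3
    · exact h4

theorem same_top {z n : ℕ} {g : Fin 5 → ℕ} {σ τ : Equiv.Perm (Fin 5)}
    (hs : (fun i => g (σ i)) ∈ Qset z n) (ht : (fun i => g (τ i)) ∈ Qset z n) :
    σ 0 = τ 0 ∧ σ 1 = τ 1 := by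
  obtain ⟨s0, s1⟩ := top_of_Q hs
  obtain ⟨t0, t1⟩ := top_of_Q ht
  have h0 : σ 0 = τ 0 := by
    by_contra hne
    have a1 := s0 (σ.symm (τ 0)) fun h => hne ((Equiv.symm_apply_eq σ).1 h).symm
    have a2 := t0 (τ.symm (σ 0)) fun h => hne ((Equiv.symm_apply_eq τ).1 h)
    simp only [Equiv.apply_symm_apply] at a1 a2
    omega
  refine ⟨h0, ?_⟩
  by_contra hne
  have a1 := s1 (σ.symm (τ 1)) (by
      intro h
      have : τ 1 = τ 0 := by rw [(Equiv.symm_apply_eq σ).1 h, h0]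
      exact absurd (τ.injective this) (by decide)) fun h => hne ((Equiv.symm_apply_eq σ).1 h).symm
  have a2 := t1 (τ.symm (σ 1)) (by
      intro h
      have : σ 1 = σ 0 := by rw [(Equiv.symm_apply_eq τ).1 h, h0]
      exact absurd (σ.injective this) (by decide)) fun h => hne ((Equiv.symm_apply_eq τ).1 h)
  simp only [Equiv.apply_symm_apply] at a1 a2
  omega

theorem twenty (z n : ℕ) : 20 * (Qset z n).card ≤ (Pset z n).card := by
  classical
  have h1 : ∑ σ : Equiv.Perm (Fin 5), ∑ g ∈ Pset z n, (if (fun i => g (σ i)) ∈ Qset z n then 1 else 0) =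
      120 * (Qset z n).card := by
    have h2 : ∀ σ ∈ (univ : Finset (Equiv.Perm (Fin 5))),
        ∑ g ∈ Pset z n, (if (fun i => g (σ i)) ∈ Qset z n then 1 else 0) = (Qset z n).card := by
      intro σ _
      rw [← Finset.card_filter]
      refine Finset.card_bij' (fun g _ => fun i => g (σ i)) (fun g _ => fun i => g (σ.symm i)) ?_ ?_ ?_ ?_
      · intro g hg
        exact (Finset.mem_filter.1 hg).2
      · intro g hg
        rw [Finset.mem_filter]
        refine ⟨mem_P_comp σ.symm (mem_Q.1 hg).1, ?_⟩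
        simpa using hg
      · intro g _
        funext i
        simp
      · intro g _
        funext i
        simp
    rw [sum_congr rfl h2, sum_const, card_univ, Fintype.card_perm, Fintype.card_fin, smul_eq_mul]
    rfl
  rw [sum_comm] at h1
  have h3 : ∑ g ∈ Pset z n, ∑ σ : Equiv.Perm (Fin 5), (if (fun i => g (σ i)) ∈ Qset z n then 1 else 0) ≤
      ∑ g ∈ Pset z n, 6 := by
    refine sum_le_sum ?_
    intro g _
    rw [← Finset.card_filter]
    rcases Finset.eq_empty_or_nonempty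
      ((univ : Finset (Equiv.Perm (Fin 5))).filter fun σ => (fun i => g (σ i)) ∈ Qset z n) with h | ⟨τ, hτ⟩
    · rw [h]
      simp
    · refine le_trans (Finset.card_le_card ?_) (perm_card (τ 0) (τ 1))
      intro σ hσ
      rw [Finset.mem_filter] at hσ hτ ⊢
      exact ⟨hσ.1, same_top hσ.2 hτ.2⟩
  rw [sum_const, smul_eq_mul] at h3
  omega

theorem F5_le_pow {z : ℕ} {T κ : ℝ} {n : ℕ} : F5 z T κ n ≤ (rg z ^ 5) n := by
  rw [Win.pow_apply]
  unfold F5
  refine sum_le_sum ?_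
  intro g _
  have h0 : 0 ≤ ∏ i, rg z (g i) := prod_nonneg fun i _ => by rcases rg_01 z (g i) with h | h <;> rw [h]; norm_num
  exact mul_le_of_le_one_right h0 (Wf_le _ _)

theorem F5_le_card {z : ℕ} {T κ : ℝ} {n : ℕ} (hT : 1 < T) (hκ : 0 < κ) : F5 z T κ n ≤ (Qset z n).card := by
  classical
  have hL : 0 < Real.log T := Real.log_pos hT
  have hQ : ((Qset z n).card : ℝ) = ∑ g ∈ Nat.finMulAntidiag 5 n, if g ∈ Qset z n then (1 : ℝ) else 0 := by
    rw [Finset.sum_ite_mem, Finset.sum_const, nsmul_eq_mul, mul_one]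
    congr 2
    ext g
    rw [Finset.mem_inter]
    constructor
    · intro h
      refine ⟨?_, h⟩
      rw [Nat.mem_finMulAntidiag]
      exact (mem_P.1 (mem_Q.1 h).1).1
    · exact fun h => h.2
  rw [hQ]
  unfold F5
  refine sum_le_sum ?_
  intro g hg
  rw [Nat.mem_finMulAntidiag] at hg
  have hg0 : ∀ i, 0 < g i := by
    intro i
    rw [Nat.pos_iff_ne_zero]
    intro h
    apply hg.2
    rw [← hg.1]
    exact prod_eq_zero (mem_univ i) h
  have h0 : 0 ≤ ∏ i, rg z (g i) := prod_nonneg fun i _ => by rcases rg_01 z (g i) with h | h <;> rw [h]; norm_num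
  have h1 : ∏ i, rg z (g i) ≤ 1 := prod_le_one (fun i _ => by rcases rg_01 z (g i) with h | h <;> rw [h]; norm_num)
    fun i _ => by rcases rg_01 z (g i) with h | h <;> rw [h]; norm_num
  split_ifs with h
  · exact mul_le_one' h1 (Wf_nonneg _ _) (Wf_le _ _)
  · refine le_of_eq ?_
    by_contra hne
    apply h
    obtain ⟨hne1, hne2⟩ := mul_ne_zero_iff.1 hne
    obtain ⟨a1, a2, a3, a4, a5, a6, a7⟩ := Wf_ne hκ hne2
    have key : ∀ i j, Real.log (g i) / Real.log T < Real.log (g j) / Real.log T → g i < g j := by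
      intro i j hij
      rw [div_lt_div_iff_of_pos_right hL] at hij
      by_contra hle
      have : Real.log (g j) ≤ Real.log (g i) :=
        Real.log_le_log (by exact_mod_cast hg0 j) (by exact_mod_cast not_lt.1 hle)
      linarith
    have key2 : ∀ i, 1 / 5 < Real.log (g i) / Real.log T → 2 ≤ g i := by
      intro i hi
      by_contra hle
      have h1 : g i = 1 := by
        have := hg0 i
        omega
      rw [h1, Nat.cast_one, Real.log_one, zero_div] at hi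
      norm_num at hi
    have b1 := key 1 0 a1
    have b2 := key 2 1 a2
    have b3 := key 3 1 a3
    have b4 := key 4 1 a4
    have b5 := key2 2 a5
    have b6 := key2 3 a6
    have b7 := key2 4 a7
    have h2 : ∀ i, 2 ≤ g i := by
      intro i
      fin_cases i
      · show 2 ≤ g 0
        omega
      · show 2 ≤ g 1
        omega
      · exact b5
      · exact b6
      · exact b7
    rw [mem_Q, mem_P]
    refine ⟨⟨hg, ?_⟩, b1, b2, b3, b4⟩
    intro i
    have h3 : rg z (g i) ≠ 0 := by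
      intro h3
      exact hne1 (prod_eq_zero (mem_univ i) h3)
    rw [rg_apply] at h3
    rw [roughOne_apply, if_pos]
    refine ⟨h2 i, ?_⟩
    by_contra h4
    apply h3
    rw [if_neg fun h5 => h4 h5.2]

theorem pow5_val {z n : ℕ} (hn1 : n ≠ 1) (hs : Squarefree n) (hR : Rough z n) :
    (roughOne z ^ 5) n = 5 ^ Ω n - 5 * 4 ^ Ω n + 10 * 3 ^ Ω n - 10 * 2 ^ Ω n + 5 := by
  have h1 : (1 : ArithmeticFunction ℝ) n = 0 := by
    rw [one_apply, if_neg hn1]
  have e : roughOne z ^ 5 + (rg z ^ 4 + rg z ^ 4 + rg z ^ 4 + rg z ^ 4 + rg z ^ 4) +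
      (rg z ^ 2 + rg z ^ 2 + rg z ^ 2 + rg z ^ 2 + rg z ^ 2 + rg z ^ 2 + rg z ^ 2 + rg z ^ 2 + rg z ^ 2 + rg z ^ 2) + 1 =
      rg z ^ 5 + (rg z ^ 3 + rg z ^ 3 + rg z ^ 3 + rg z ^ 3 + rg z ^ 3 + rg z ^ 3 + rg z ^ 3 + rg z ^ 3 + rg z ^ 3 + rg z ^ 3) +
      (rg z ^ 1 + rg z ^ 1 + rg z ^ 1 + rg z ^ 1 + rg z ^ 1) := by
    rw [rg_eq]
    ring
  have e' := congrArg (fun f : ArithmeticFunction ℝ => f n) e
  simp only [ArithmeticFunction.add_apply, h1] at e'
  rw [rg_pow_sqfree z 1 hs hR, rg_pow_sqfree z 2 hs hR, rg_pow_sqfree z 3 hs hR, rg_pow_sqfree z 4 hs hR,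
    rg_pow_sqfree z 5 hs hR] at e'
  push_cast at e'
  rw [one_pow] at e'
  linarith

end YF5_aux

open YF5_aux ArithmeticFunction in
open scoped ArithmeticFunction.Omega in
theorem iYF5 : StYF5 := by
  classical
  refine ⟨2 ^ 450, one_le_pow₀ (by norm_num), ?_⟩
  intro T κ n hT hκ hTn hn
  obtain ⟨hz, hzT, h3⟩ := YPw_aux.z_bd hT
  have hzn : zz c2 T < n := by exact_mod_cast hzT.trans_le hTn
  have hn9 : n ≤ zz c2 T ^ (8 + 1) := by
    have : (n : ℝ) ≤ ((zz c2 T : ℕ) : ℝ) ^ (8 + 1) := hn.trans h3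
    exact_mod_cast this
  have hT1 : 1 < T := by
    refine lt_of_lt_of_le ?_ hT
    exact one_lt_pow₀ (by norm_num) (by norm_num)
  set z := zz c2 T with hzdef
  have hs0 := sqr_nonneg' z n
  have c5 := (aJ_bd z 5 n).1
  have c6 := (aJ_bd z 6 n).1
  have c7 := (aJ_bd z 7 n).1
  have c8 := (aJ_bd z 8 n).1
  have hC : (0 : ℝ) ≤ 2 ^ 450 * sqr z n := mul_nonneg (by positivity) hs0
  have hM : ((5 : ℕ) : ℝ) ^ 8 ≤ 2 ^ 450 := by
    have e1 : ((5 : ℕ) : ℝ) ^ 8 ≤ 2 ^ 20 := by norm_num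
    exact e1.trans (pow_le_pow_right₀ (by norm_num) (by norm_num))
  clear hT h3 hn hTn hzT
  generalize (2 : ℝ) ^ 450 = M at hC hM ⊢
  by_cases hR : Rough z n
  · by_cases hs : Squarefree n
    · have hJ8 : Ω n ≤ 8 := hR.cardFactors_le hz (by omega) hn9
      have hJ1 : 1 ≤ Ω n := by
        rw [Nat.one_le_iff_ne_zero]
        intro h0
        rcases cardFactors_eq_zero_iff_eq_zero_or_one.1 h0 with h' | h' <;> omega
      have haJ : ∀ J, aJ z J n = if Ω n = J then 1 else 0 := by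
        intro J
        unfold aJ
        by_cases hJ : Ω n = J
        · rw [if_pos ⟨hR, hJ⟩, if_pos hJ]
        · rw [if_neg fun h => hJ h.2, if_neg hJ]
      have h5 := pow5_val (z := z) (by omega) hs hR
      rw [pow5_eq] at h5
      have h6 : (20 : ℝ) * (Qset z n).card ≤ (Pset z n).card := by exact_mod_cast twenty z n
      have h7 := F5_le_card (z := z) (n := n) hT1 hκ
      refine le_trans h7 ?_
      refine le_trans ?_ (le_add_of_nonneg_right hC)
      rw [haJ, haJ, haJ, haJ]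
      rw [h5] at h6
      clear h7
      generalize ((Qset z n).card : ℝ) = q at h6 ⊢
      generalize Ω n = J at hJ8 hJ1 h6 ⊢
      interval_cases J <;> norm_num at h6 ⊢ <;> linarith
    · have hsq : sqr z n = 1 := by
        unfold sqr
        rw [if_pos]
        rw [Nat.squarefree_iff_prime_squarefree] at hs
        push Not at hs
        obtain ⟨p, hp, hpn⟩ := hs
        exact ⟨p, hp, hR p hp ((Dvd.intro _ rfl).trans hpn), by rw [pow_two]; exact hpn⟩
      have b5 := (rg_pow_bd (k := 5) hz (by norm_num) hn9).2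
      have h7 : F5 z T κ n ≤ (rg z ^ 5) n := F5_le_pow
      rw [hsq, mul_one]
      linarith
  · have h7 : F5 z T κ n ≤ (rg z ^ 5) n := F5_le_pow
    rw [rg_pow_not z 5 hR] at h7
    linarith

end Pool.Agent.Work.MP_a8fbd7_nt.EX.ASM2
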