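import Mathlib
import Pool.Agent.Work.MP_a8fbd7_nt.EX.ASM2.Stmts
import Pool.Agent.Work.MP_a8fbd7_nt.EX.ASM.I_XLi

/-!
MP_a8fbd7_nt, block EX, second wave, part ASM2, item YLi: primes in windows and boxes.
Statement: helper89.  Proof: helper19 (modelled on EX/ASM/I_XLi.lean by helper30).
-/

set_option autoImplicit false

open MeasureTheory Set Filter Topology

noncomputable section

namespace Pool.Agent.Work.MP_a8fbd7_nt.EX.ASM2

open Pool.Agent.Work.MP_56b8f5_nt.UC (IsWt Bl Dp Om psi eta Sep)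
open Pool.Agent.Work.MP_a8fbd7_nt.OX
open Pool.Agent.Work.MP_a8fbd7_nt.OX.ID (Rough roughOne pb rg)
open Pool.Agent.Work.MP_a8fbd7_nt.OX.ASM
open Pool.Agent.Work.MP_a8fbd7_nt.EX
open Pool.Agent.Work.MP_a8fbd7_nt.EX.CELL (r2 c2)
open Pool.Agent.Work.MP_a8fbd7_nt.EX.ASM (al bw sqr aJ)
open Pool.Agent.Work.MP_a8fbd7_nt.EX.ASM.XLi_aux (rg_nonneg al_nonneg pow_nonneg_apply aJ_nonneg)

namespace YLi_aux

theorem final1 (L S P a3 a5 a6 a7 a8 q F bS zS bB rS CE CP CF CS CZ CB CR C1 κ Ct : ℝ) (hL : 0 ≤ L)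
    (hCE : 0 ≤ CE) (hCP : 0 ≤ CP) (hCF : 0 ≤ CF)
    (ha3 : 0 ≤ a3) (ha6 : 0 ≤ a6) (ha7 : 0 ≤ a7) (ha8 : 0 ≤ a8)
    (hk : 0 ≤ C1 * κ / L)
    (h : S ≤ P - 11 / 18 * a3 - 47 / 18 * a5 - 170 / 3 * a6 - 8291 / 18 * a7 - 8260 / 3 * a8 + 7 / 72 * q +
      47 / 108 * F + CP * zS + CE * (bS + bB + rS / L))
    (hF : F ≤ 6 * a5 + 90 * a6 + 840 * a7 + 6300 * a8 + CF * zS)
    (hq : q ≤ C1 * κ / L) (hb : bS ≤ CS / L ^ 2) (hz : zS ≤ CZ / L ^ 2) (hB : bB ≤ CB / L ^ 2)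
    (hR : rS ≤ CR / L)
    (hCt : (CP + CF) * CZ + CE * (CS + CB + CR) ≤ Ct) (hz0 : 0 ≤ zS) : S ≤ P + C1 * κ / L + Ct / L ^ 2 := by
  have h0 : rS / L ≤ CR / L ^ 2 := by
    calc rS / L ≤ CR / L / L := div_le_div_of_nonneg_right hR hL
      _ = CR / L ^ 2 := by rw [div_div, pow_two]
  have h1 : (CP + CF) * zS ≤ (CP + CF) * (CZ / L ^ 2) := mul_le_mul_of_nonneg_left hz (by linarith)
  have h2 : CE * (bS + bB + rS / L) ≤ CE * (CS / L ^ 2 + CB / L ^ 2 + CR / L ^ 2) :=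
    mul_le_mul_of_nonneg_left (add_le_add (add_le_add hb hB) h0) hCE
  have h3 : ((CP + CF) * CZ + CE * (CS + CB + CR)) / L ^ 2 ≤ Ct / L ^ 2 :=
    div_le_div_of_nonneg_right hCt (by positivity)
  have h4 : ((CP + CF) * CZ + CE * (CS + CB + CR)) / L ^ 2 =
      (CP + CF) * (CZ / L ^ 2) + CE * (CS / L ^ 2 + CB / L ^ 2 + CR / L ^ 2) := by
    ring
  have h5 : 0 ≤ CF * zS := mul_nonneg hCF hz0
  have h6 : (CP + CF) * zS = CP * zS + CF * zS := by ring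
  linarith

theorem final2 (L S P a3 a5 a6 a7 a8 q F bS zS bB rS CE CP CF CS CZ CB CR Ct : ℝ) (hL : 0 ≤ L)
    (hCE : 0 ≤ CE) (hCP : 0 ≤ CP) (hCF : 0 ≤ CF) (hCZ : 0 ≤ CZ) (hq : 0 ≤ q)
    (h : P - 11 / 18 * a3 - 47 / 18 * a5 - 170 / 3 * a6 - 8291 / 18 * a7 - 8260 / 3 * a8 + 7 / 72 * q +
      47 / 108 * F - CP * zS - CE * (bS + bB + rS / L) ≤ S)
    (hb : bS ≤ CS / L ^ 2) (hz : zS ≤ CZ / L ^ 2) (hB : bB ≤ CB / L ^ 2) (hR : rS ≤ CR / L)
    (hCt : (CP + CF) * CZ + CE * (CS + CB + CR) ≤ Ct) :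
    P - 11 / 18 * a3 - 47 / 18 * a5 - 170 / 3 * a6 - 8291 / 18 * a7 - 8260 / 3 * a8 +
      47 / 108 * F - Ct / L ^ 2 ≤ S := by
  have h0 : rS / L ≤ CR / L ^ 2 := by
    calc rS / L ≤ CR / L / L := div_le_div_of_nonneg_right hR hL
      _ = CR / L ^ 2 := by rw [div_div, pow_two]
  have h1 : CP * zS ≤ CP * (CZ / L ^ 2) := mul_le_mul_of_nonneg_left hz hCP
  have h2 : CE * (bS + bB + rS / L) ≤ CE * (CS / L ^ 2 + CB / L ^ 2 + CR / L ^ 2) :=
    mul_le_mul_of_nonneg_left (add_le_add (add_le_add hb hB) h0) hCE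
  have h3 : ((CP + CF) * CZ + CE * (CS + CB + CR)) / L ^ 2 ≤ Ct / L ^ 2 :=
    div_le_div_of_nonneg_right hCt (by positivity)
  have h4 : ((CP + CF) * CZ + CE * (CS + CB + CR)) / L ^ 2 =
      CP * (CZ / L ^ 2) + CF * (CZ / L ^ 2) + CE * (CS / L ^ 2 + CB / L ^ 2 + CR / L ^ 2) := by
    ring
  have h5 : 0 ≤ CF * (CZ / L ^ 2) := by positivity
  linarith

end YLi_aux

open Classical Li_aux YLi_aux in
theorem iYLi (hEx : StYEx) (hPw : StYPw) (hF5 : StYF5) (hSq : Pool.Agent.Work.MP_a8fbd7_nt.EX.ASM.StXSq)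
    (hDr : StYDr) (hBd : Pool.Agent.Work.MP_a8fbd7_nt.EX.ASM.StXBd) (hRo : StYRo) : StYLi := by
  intro w hw hw0
  obtain ⟨C1, hC1, hDr'⟩ := hDr w hw hw0
  obtain ⟨CP, hCP, hP⟩ := hPw
  obtain ⟨CF, hCF, hF⟩ := hF5
  refine ⟨C1, hC1, ?_⟩
  intro η κ1 hη hη2 hκ hκ2
  obtain ⟨CE, hCE, hE⟩ := hEx η κ1 hη hη2 hκ hκ2
  obtain ⟨CD, hCD, hD⟩ := hDr' κ1 hκ hκ2
  obtain ⟨CS, hCS, hS⟩ := hSq w hw hw0 η hη (by linarith)
  obtain ⟨CZ, hCZ, hZ⟩ := hSq w hw hw0 c2 (by norm_num [c2]) (by norm_num [c2])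
  obtain ⟨CR, hCR, hR⟩ := hRo w hw hw0 η hη hη2
  obtain ⟨CB, hCB, hB⟩ := hBd w hw hw0 η κ1 (2 ^ (SS η + 1)) hη hη2 hκ hκ2
    (one_le_pow₀ (by norm_num))
  obtain ⟨a, b, ha, hab, hs⟩ := hw.supp
  have hma : 0 < min a 1 := lt_min ha one_pos
  have hmb : 1 ≤ max b 1 := le_max_right _ _
  have p1 : 0 ≤ 2 / min a 1 := by positivity
  have p2 : 0 ≤ (4 * max b 1) ^ 50 := by positivity
  have p3 : 0 ≤ (CP + CF) * CZ + CE * (CS + CB + CR) := by positivity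
  refine ⟨CE + CP + CF + CD + CS + CZ + CB + CR + ((CP + CF) * CZ + CE * (CS + CB + CR)) + 2 / min a 1 +
    (4 * max b 1) ^ 50, by linarith, ?_⟩
  intro T T' x hT hT'1 hT'2 hx hx4
  have hTE : CE ≤ T := by linarith
  have hTP : CP ≤ T := by linarith
  have hTF : CF ≤ T := by linarith
  have hTR : CR ≤ T := by linarith
  have hTD : CD ≤ T := by linarith
  have hTS : CS ≤ T := by linarith
  have hTZ : CZ ≤ T := by linarith
  have hTB : CB ≤ T := by linarith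
  have hTa : 2 / min a 1 ≤ T := by linarith
  have hTb : (4 * max b 1) ^ 50 ≤ T := by linarith
  have hT2 : 2 ≤ T := by linarith
  have hT1 : 1 ≤ T := by linarith
  have hT0 : 0 < T := by linarith
  have hx0 : 0 < x := by nlinarith
  have hlog : 0 ≤ Real.log T := Real.log_nonneg hT1
  set y : ℕ := zz η T with hy
  set z : ℕ := zz c2 T with hz
  set Wt : ℕ → ℝ := fun n => w (((n : ℝ) / x) ^ T') with hWt
  have hWt0 : ∀ n, 0 ≤ Wt n := fun n => hw0 _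
  -- the window
  have hwin : ∀ n : ℕ, Wt n ≠ 0 → T ≤ n ∧ (n : ℝ) ≤ T ^ (2 + 1 / 50 : ℝ) := by
    intro n hn
    obtain ⟨h1, h2⟩ := window ha hs hT1 hT'1 hx hx4 hn
    constructor
    · have h3 : T ≤ min a 1 * T ^ 2 := by
        rw [div_le_iff₀ hma] at hTa
        have h5 : T * 1 ≤ T * (T * min a 1) := by
          apply mul_le_mul_of_nonneg_left _ hT0.le
          linarith
        nlinarith
      exact h3.trans h1
    · refine h2.trans ?_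
      have h3 : 4 * max b 1 ≤ T ^ (1 / 50 : ℝ) := by
        have h4 : ((4 * max b 1) ^ 50 : ℝ) ^ (1 / 50 : ℝ) ≤ T ^ (1 / 50 : ℝ) :=
          Real.rpow_le_rpow (by positivity) hTb (by norm_num)
        have h5 : ((4 * max b 1) ^ 50 : ℝ) ^ (1 / 50 : ℝ) = 4 * max b 1 := by
          rw [← Real.rpow_natCast, ← Real.rpow_mul (by positivity)]
          norm_num
        rwa [h5] at h4
      have h6 : T ^ (2 + 1 / 50 : ℝ) = T ^ 2 * T ^ (1 / 50 : ℝ) := by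
        rw [Real.rpow_add hT0]
        congr 1
        exact_mod_cast Real.rpow_natCast T 2
      rw [h6]
      nlinarith [sq_nonneg T]
  set I : Finset ℕ := (Finset.Icc 2 ⌊T ^ (2 + 1 / 50 : ℝ)⌋₊).filter (fun n => T ≤ (n : ℝ)) with hI
  have hout : ∀ n : ℕ, n ∉ I → w (((n : ℝ) / x) ^ T') = 0 := by
    intro n hn
    by_contra h
    obtain ⟨h1, h2⟩ := hwin n h
    apply hn
    rw [hI, Finset.mem_filter, Finset.mem_Icc]
    refine ⟨⟨?_, Nat.le_floor h2⟩, h1⟩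
    exact_mod_cast hT2.trans h1
  have hmem : ∀ n ∈ I, 2 ≤ n ∧ T ≤ (n : ℝ) ∧ (n : ℝ) ≤ T ^ (2 + 1 / 50 : ℝ) := by
    intro n hn
    rw [hI, Finset.mem_filter, Finset.mem_Icc] at hn
    exact ⟨hn.1.1, hn.2, (Nat.le_floor_iff (by positivity)).1 hn.1.2⟩
  have hSW : ∀ c : ℕ → ℝ, SW w c x T' = ∑ n ∈ I, c n * Wt n := fun c => SW_eq I hout c
  -- the functions
  set bB : ℕ → ℝ := fun n => (bw y T κ1 (2 ^ (SS η + 1)) * rg y ^ 3) n with hbB
  set ro : ℕ → ℝ := fun n => (al z T κ1 ^ 4) n with hro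
  set r5 : ℕ → ℝ := fun n => (rg y ^ 5) n with hr5
  set Sn : ℕ → ℝ := fun n => ∑ u ∈ Bx 5 T, ∑ v ∈ Bx (5 * SS η) T, ccX5 T κ1 u v * BX5 y z u v n with hSn
  have hS1 := hS T T' x hTS hT'1 hT'2 hx hx4
  have hZ1 := hZ T T' x hTZ hT'1 hT'2 hx hx4
  have hB1 := hB T T' x hTB hT'1 hT'2 hx hx4
  have hD1 := hD T T' x hTD hT'1 hT'2 hx hx4
  have hR1 := hR T T' x hTR hT'1 hT'2 hx hx4
  have hTx : 0 ≤ T' / x := by positivity
  -- the sum over the boxes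
  have hlin : ∑ u ∈ Bx 5 T, ∑ v ∈ Bx (5 * SS η) T, ccX5 T κ1 u v * (T' / x * SW w (BX5 y z u v) x T') =
      T' / x * SW w Sn x T' := by
    have h2 : ∀ n : ℕ, Sn n * Wt n =
        ∑ u ∈ Bx 5 T, ∑ v ∈ Bx (5 * SS η) T, ccX5 T κ1 u v * (BX5 y z u v n * Wt n) := by
      intro n
      rw [hSn]
      simp only
      rw [Finset.sum_mul]
      refine Finset.sum_congr rfl fun u _ => ?_
      rw [Finset.sum_mul]
      exact Finset.sum_congr rfl fun v _ => by ring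
    have h3 : ∑ n ∈ I, ∑ u ∈ Bx 5 T, ∑ v ∈ Bx (5 * SS η) T, ccX5 T κ1 u v * (BX5 y z u v n * Wt n) =
        ∑ u ∈ Bx 5 T, ∑ v ∈ Bx (5 * SS η) T, ∑ n ∈ I, ccX5 T κ1 u v * (BX5 y z u v n * Wt n) := by
      rw [Finset.sum_comm]
      exact Finset.sum_congr rfl fun u _ => Finset.sum_comm
    rw [hSW Sn]
    simp only [h2]
    rw [h3, Finset.mul_sum]
    refine Finset.sum_congr rfl fun u _ => ?_
    rw [Finset.mul_sum]
    refine Finset.sum_congr rfl fun v _ => ?_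
    rw [hSW, ← Finset.mul_sum]
    ring
  -- pointwise inequalities
  have hpt : ∀ n ∈ I, |Sn n - (pr n - 11 / 18 * aJ z 3 n - 47 / 18 * aJ z 5 n - 170 / 3 * aJ z 6 n - 8291 / 18 * aJ z 7 n -
      8260 / 3 * aJ z 8 n + 7 / 72 * ro n + 47 / 108 * F5 z T κ1 n)| ≤ CP * sqr z n + CE * (sqr y n + bB n + r5 n / Real.log T) := by
    intro n hn
    obtain ⟨h1, h2, h3⟩ := hmem n hn
    have h4 := hE T n hTE h1 h3
    have h5 := hP T κ1 n hTP h2 h3
    have h6 : |gX5 z T κ1 n - Sn n| ≤ CE * (sqr y n + bB n + r5 n / Real.log T) := h4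
    have h7 : |gX5 z T κ1 n - (pr n - 11 / 18 * aJ z 3 n - 47 / 18 * aJ z 5 n - 170 / 3 * aJ z 6 n -
        8291 / 18 * aJ z 7 n - 8260 / 3 * aJ z 8 n + 7 / 72 * ro n + 47 / 108 * F5 z T κ1 n)| ≤ CP * sqr z n := h5
    rw [abs_le] at h6 h7 ⊢
    constructor <;> linarith [h6.1, h6.2, h7.1, h7.2]
  -- linearity
  have hdv : SW w (fun n => r5 n / Real.log T) x T' = SW w r5 x T' / Real.log T := by
    rw [hSW, hSW, Finset.sum_div]
    exact Finset.sum_congr rfl fun n _ => by ring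
  have hFc : SW w (F5 z T κ1) x T' ≤ 6 * SW w (aJ z 5) x T' + 90 * SW w (aJ z 6) x T' +
      840 * SW w (aJ z 7) x T' + 6300 * SW w (aJ z 8) x T' + CF * SW w (sqr z) x T' := by
    simp only [hSW, Finset.mul_sum, ← Finset.sum_add_distrib]
    refine Finset.sum_le_sum fun n hn => ?_
    obtain ⟨h1, h2, h3⟩ := hmem n hn
    have h4 := mul_le_mul_of_nonneg_right (hF T κ1 n hTF hκ h2 h3) (hWt0 n)
    refine h4.trans (le_of_eq ?_)
    ring
  have hcomb : SW w Sn x T' ≤ SW w pr x T' - 11 / 18 * SW w (aJ z 3) x T' - 47 / 18 * SW w (aJ z 5) x T' -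
      170 / 3 * SW w (aJ z 6) x T' - 8291 / 18 * SW w (aJ z 7) x T' - 8260 / 3 * SW w (aJ z 8) x T' +
      7 / 72 * SW w ro x T' + 47 / 108 * SW w (F5 z T κ1) x T' + CP * SW w (sqr z) x T' +
      CE * (SW w (sqr y) x T' + SW w bB x T' + SW w (fun n => r5 n / Real.log T) x T') := by
    simp only [hSW, Finset.mul_sum, ← Finset.sum_add_distrib, ← Finset.sum_sub_distrib]
    refine Finset.sum_le_sum fun n hn => ?_
    have h1 := (abs_le.1 (hpt n hn)).2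
    have h2 : Sn n ≤ pr n - 11 / 18 * aJ z 3 n - 47 / 18 * aJ z 5 n - 170 / 3 * aJ z 6 n - 8291 / 18 * aJ z 7 n -
      8260 / 3 * aJ z 8 n + 7 / 72 * ro n + 47 / 108 * F5 z T κ1 n +
      (CP * sqr z n + CE * (sqr y n + bB n + r5 n / Real.log T)) := by linarith
    have h3 := mul_le_mul_of_nonneg_right h2 (hWt0 n)
    refine h3.trans (le_of_eq ?_)
    ring
  have hcomb2 : SW w pr x T' - 11 / 18 * SW w (aJ z 3) x T' - 47 / 18 * SW w (aJ z 5) x T' -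
      170 / 3 * SW w (aJ z 6) x T' - 8291 / 18 * SW w (aJ z 7) x T' - 8260 / 3 * SW w (aJ z 8) x T' +
      7 / 72 * SW w ro x T' + 47 / 108 * SW w (F5 z T κ1) x T' - CP * SW w (sqr z) x T' -
      CE * (SW w (sqr y) x T' + SW w bB x T' + SW w (fun n => r5 n / Real.log T) x T') ≤ SW w Sn x T' := by
    simp only [hSW, Finset.mul_sum, ← Finset.sum_add_distrib, ← Finset.sum_sub_distrib]
    refine Finset.sum_le_sum fun n hn => ?_
    have h1 := (abs_le.1 (hpt n hn)).1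
    have h2 : pr n - 11 / 18 * aJ z 3 n - 47 / 18 * aJ z 5 n - 170 / 3 * aJ z 6 n - 8291 / 18 * aJ z 7 n -
      8260 / 3 * aJ z 8 n + 7 / 72 * ro n + 47 / 108 * F5 z T κ1 n -
      (CP * sqr z n + CE * (sqr y n + bB n + r5 n / Real.log T)) ≤ Sn n := by linarith
    have h3 := mul_le_mul_of_nonneg_right h2 (hWt0 n)
    refine le_trans (le_of_eq ?_) h3
    ring
  rw [hdv] at hcomb hcomb2
  have hnn : ∀ c : ℕ → ℝ, (∀ n, 0 ≤ c n) → 0 ≤ T' / x * SW w c x T' := by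
    intro c hc
    apply mul_nonneg hTx
    rw [hSW]
    exact Finset.sum_nonneg fun n _ => mul_nonneg (hc n) (hWt0 n)
  have hsq0 : ∀ n, 0 ≤ sqr z n := by
    intro n
    unfold sqr
    split_ifs <;> norm_num
  rw [hlin]
  constructor
  · refine final1 (Real.log T) _ (T' / x * SW w pr x T') (T' / x * SW w (aJ z 3) x T')
      (T' / x * SW w (aJ z 5) x T') (T' / x * SW w (aJ z 6) x T') (T' / x * SW w (aJ z 7) x T')
      (T' / x * SW w (aJ z 8) x T') (T' / x * SW w ro x T') (T' / x * SW w (F5 z T κ1) x T')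
      (T' / x * SW w (sqr y) x T') (T' / x * SW w (sqr z) x T')
      (T' / x * SW w bB x T') (T' / x * SW w r5 x T') CE CP CF CS CZ CB CR C1 κ1 _ hlog (by linarith)
      (by linarith) (by linarith)
      (hnn _ (aJ_nonneg z 3)) (hnn _ (aJ_nonneg z 6)) (hnn _ (aJ_nonneg z 7))
      (hnn _ (aJ_nonneg z 8)) (by positivity) ?_ ?_ hD1 hS1 hZ1 hB1 hR1 (by linarith) (hnn _ hsq0)
    · have h1 := mul_le_mul_of_nonneg_left hcomb hTx
      refine h1.trans (le_of_eq ?_)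
      ring
    · have h1 := mul_le_mul_of_nonneg_left hFc hTx
      refine h1.trans (le_of_eq ?_)
      ring
  · refine final2 (Real.log T) _ (T' / x * SW w pr x T') (T' / x * SW w (aJ z 3) x T')
      (T' / x * SW w (aJ z 5) x T') (T' / x * SW w (aJ z 6) x T') (T' / x * SW w (aJ z 7) x T')
      (T' / x * SW w (aJ z 8) x T') (T' / x * SW w ro x T') (T' / x * SW w (F5 z T κ1) x T')
      (T' / x * SW w (sqr y) x T') (T' / x * SW w (sqr z) x T')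
      (T' / x * SW w bB x T') (T' / x * SW w r5 x T') CE CP CF CS CZ CB CR _ hlog (by linarith)
      (by linarith) (by linarith) (by linarith)
      (hnn _ (fun n => pow_nonneg_apply _ (al_nonneg z T κ1) 4 n)) ?_ hS1 hZ1 hB1 hR1 (by linarith)
    have h1 := mul_le_mul_of_nonneg_left hcomb2 hTx
    refine le_trans (le_of_eq ?_) h1
    ring

end Pool.Agent.Work.MP_a8fbd7_nt.EX.ASM2
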