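import Mathlib
import Pool.Agent.Work.MP_a8fbd7_nt.EX.ASM2.Stmts
import Pool.Agent.Work.MP_a8fbd7_nt.EX.ASM.I_XAl
import Pool.Agent.Work.MP_a8fbd7_nt.OX.ASM.Win

/-!
MP_a8fbd7_nt, EX/ASM2, item YLo: lower bound for `F5` in long windows.
-/

set_option autoImplicit false
set_option linter.constructorNameAsVariable false

open MeasureTheory Set Filter Topology

noncomputable section

namespace Pool.Agent.Work.MP_a8fbd7_nt.EX.ASM2

open Pool.Agent.Work.MP_56b8f5_nt.UC (IsWt)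
open Pool.Agent.Work.MP_a8fbd7_nt.OX
open Pool.Agent.Work.MP_a8fbd7_nt.OX.ID (Rough roughOne pb rg)
open Pool.Agent.Work.MP_a8fbd7_nt.OX.ASM
open Pool.Agent.Work.MP_a8fbd7_nt.EX
open Pool.Agent.Work.MP_a8fbd7_nt.EX.CELL (r2 c2)
open Pool.Agent.Work.MP_a8fbd7_nt.EX.ASM (al bw sqr aJ)
open Pool.Agent.Work.MP_a8fbd7_nt.EX.ASM.XAl_aux (SW_sum ev_log)

namespace YLo_aux

open Classical in
/-- primes in the cell `j` -/
def cell (T : ℝ) (j : ℕ) : Finset ℕ :=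
  (Finset.Ioc ⌊T ^ ((j : ℝ) / 300)⌋₊ ⌊T ^ (((j : ℝ) + 1) / 300)⌋₊).filter Nat.Prime

theorem mem_cell {T : ℝ} (hT : 1 < T) {j p : ℕ} (h : p ∈ cell T j) :
    p.Prime ∧ (j : ℝ) / 300 * Real.log T < Real.log p ∧ Real.log p ≤ ((j : ℝ) + 1) / 300 * Real.log T := by
  have hT0 : 0 < T := by linarith
  unfold cell at h
  rw [Finset.mem_filter, Finset.mem_Ioc] at h
  have hp0 : (0 : ℝ) < p := by exact_mod_cast h.2.pos
  have h1 : T ^ ((j : ℝ) / 300) < p := (Nat.floor_lt (by positivity)).1 h.1.1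
  have h2 : (p : ℝ) ≤ T ^ (((j : ℝ) + 1) / 300) :=
    (by exact_mod_cast h.1.2 : (p : ℝ) ≤ (⌊T ^ (((j : ℝ) + 1) / 300)⌋₊ : ℕ)).trans (Nat.floor_le (by positivity))
  refine ⟨h.2, ?_, ?_⟩
  · have := Real.log_lt_log (by positivity) h1
    rwa [Real.log_rpow hT0] at this
  · have := Real.log_le_log hp0 h2
    rwa [Real.log_rpow hT0] at this

theorem cell_inj {T : ℝ} (hT : 1 < T) {j j' p : ℕ} (h : p ∈ cell T j) (h' : p ∈ cell T j') : j = j' := by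
  have hL : 0 < Real.log T := Real.log_pos hT
  have key : ∀ a b : ℕ, p ∈ cell T a → p ∈ cell T b → ¬ a < b := by
    intro a b ha hb hab
    have h1 := (mem_cell hT ha).2.2
    have h2 := (mem_cell hT hb).2.1
    have h3 : ((a : ℝ) + 1) / 300 * Real.log T ≤ (b : ℝ) / 300 * Real.log T := by
      apply mul_le_mul_of_nonneg_right _ hL.le
      have : (a : ℝ) + 1 ≤ b := by exact_mod_cast hab
      linarith
    linarith
  exact le_antisymm (not_lt.1 (key _ _ h' h)) (not_lt.1 (key _ _ h h'))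

theorem SW_nonneg {w : ℝ → ℝ} (hw0 : ∀ u, 0 ≤ w u) (x T1 : ℝ) : 0 ≤ SW w pr x T1 :=
  tsum_nonneg fun n => mul_nonneg (by unfold pr; split_ifs <;> norm_num) (hw0 _)

/-! ### one family -/

/-- pairs `(n, g)` -/
def YY (N : ℕ) : Finset ((_ : ℕ) × (Fin 5 → ℕ)) := (Finset.Icc 1 N).sigma (fun n => Nat.finMulAntidiag 5 n)

open Classical in
theorem family {ι : Type} {m : ℕ} {w : ℝ → ℝ} (hw0 : ∀ u, 0 ≤ w u) {T x T1 D : ℝ} (hT : 1 < T) (hx : 0 < x) (hD : 1 ≤ D)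
    (hsup : ∀ x' : ℝ, 0 < x' → ∀ n : ℕ, w (((n : ℝ) / x') ^ T1) ≠ 0 → 0 < n ∧ (n : ℝ) ≤ D * x')
    (s : Finset ι) (c : ι → Fin m → ℕ) (hc : ∀ a ∈ s, ∀ a' ∈ s, c a = c a' → a = a')
    (Φ : (Fin m → ℕ) → ℕ → (Fin 5 → ℕ)) (Ψ : (Fin 5 → ℕ) → (Fin m → ℕ) × ℕ) (cls : (Fin 5 → ℕ) → ℕ × ℕ) (c0 : ℕ × ℕ)
    (φ : (Fin 5 → ℕ) → ℝ) (hφ : ∀ g, 0 ≤ φ g)
    (hΦ : ∀ a ∈ s, ∀ q ∈ Fintype.piFinset (fun i => cell T (c a i)), ∀ p : ℕ, p.Prime →
      w ((((p * ∏ i, q i : ℕ) : ℝ) / x) ^ T1) ≠ 0 →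
      ∏ i, Φ q p i = p * ∏ i, q i ∧ φ (Φ q p) = 1 ∧ cls (Φ q p) = c0 ∧ Ψ (Φ q p) = (q, p)) :
    ∑ a ∈ s, ∑ q ∈ Fintype.piFinset (fun i => cell T (c a i)), SW w pr (x / ((∏ i, q i : ℕ) : ℝ)) T1 ≤
      ∑ y ∈ (YY ⌊D * x⌋₊).filter (fun y => cls y.2 = c0), φ y.2 * w (((y.1 : ℝ) / x) ^ T1) := by
  set N := ⌊D * x⌋₊ with hN
  have hD0 : 0 < D := by linarith
  set Bs : Finset ((_ : ι) × ((_ : Fin m → ℕ) × ℕ)) := s.sigma (fun a => (Fintype.piFinset (fun i => cell T (c a i))).sigma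
    (fun _ => (Finset.Icc 1 N).filter Nat.Prime)) with hBs
  set F : ((_ : ι) × ((_ : Fin m → ℕ) × ℕ)) → ℝ := fun b => w ((((b.2.2 * ∏ i, b.2.1 i : ℕ) : ℝ) / x) ^ T1) with hF
  have h1 : ∑ a ∈ s, ∑ q ∈ Fintype.piFinset (fun i => cell T (c a i)), SW w pr (x / ((∏ i, q i : ℕ) : ℝ)) T1 = ∑ b ∈ Bs, F b := by
    rw [hBs, Finset.sum_sigma]
    refine Finset.sum_congr rfl fun a _ => ?_
    rw [Finset.sum_sigma]
    refine Finset.sum_congr rfl fun q hq => ?_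
    rw [Fintype.mem_piFinset] at hq
    have hP : 1 ≤ ∏ i, q i := Finset.prod_pos fun i _ => (mem_cell hT (hq i)).1.pos
    have hP1 : (1 : ℝ) ≤ ((∏ i, q i : ℕ) : ℝ) := by exact_mod_cast hP
    have hP0 : (0 : ℝ) < ((∏ i, q i : ℕ) : ℝ) := by linarith
    have hxP : 0 < x / ((∏ i, q i : ℕ) : ℝ) := by positivity
    have hle : ⌊D * (x / ((∏ i, q i : ℕ) : ℝ))⌋₊ ≤ N := by
      apply Nat.floor_le_floor
      apply mul_le_mul_of_nonneg_left _ hD0.le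
      exact div_le_self hx.le hP1
    rw [SW_sum (hsup _ hxP) _ hle, Finset.sum_filter]
    refine Finset.sum_congr rfl fun p _ => ?_
    unfold pr
    have e : ((p : ℝ) / (x / ((∏ i, q i : ℕ) : ℝ))) = (((p * ∏ i, q i : ℕ) : ℝ) / x) := by
      rw [div_div_eq_mul_div]
      push_cast
      ring
    rw [e, hF]
    dsimp only
    split_ifs <;> simp
  rw [h1]
  have h2 : ∑ b ∈ Bs, F b = ∑ b ∈ Bs.filter (fun b => F b ≠ 0), F b := (Finset.sum_filter_ne_zero Bs).symm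
  rw [h2]
  set Θ : ((_ : ι) × ((_ : Fin m → ℕ) × ℕ)) → ((_ : ℕ) × (Fin 5 → ℕ)) := fun b => ⟨b.2.2 * ∏ i, b.2.1 i, Φ b.2.1 b.2.2⟩ with hΘ
  have hmem : ∀ b ∈ Bs.filter (fun b => F b ≠ 0), b.1 ∈ s ∧ (∀ i, b.2.1 i ∈ cell T (c b.1 i)) ∧ b.2.2.Prime ∧ F b ≠ 0 := by
    intro b hb
    rw [Finset.mem_filter, hBs, Finset.mem_sigma, Finset.mem_sigma, Fintype.mem_piFinset, Finset.mem_filter] at hb
    exact ⟨hb.1.1, hb.1.2.1, hb.1.2.2.2, hb.2⟩
  have hkey : ∀ b ∈ Bs.filter (fun b => F b ≠ 0), ∏ i, Φ b.2.1 b.2.2 i = b.2.2 * ∏ i, b.2.1 i ∧ φ (Φ b.2.1 b.2.2) = 1 ∧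
      cls (Φ b.2.1 b.2.2) = c0 ∧ Ψ (Φ b.2.1 b.2.2) = (b.2.1, b.2.2) := by
    intro b hb
    obtain ⟨hb1, hb2, hb3, hb4⟩ := hmem b hb
    exact hΦ b.1 hb1 b.2.1 (Fintype.mem_piFinset.2 hb2) b.2.2 hb3 hb4
  have h3 : ∑ b ∈ Bs.filter (fun b => F b ≠ 0), F b =
      ∑ y ∈ (Bs.filter (fun b => F b ≠ 0)).image Θ, φ y.2 * w (((y.1 : ℝ) / x) ^ T1) := by
    rw [Finset.sum_image]
    · refine Finset.sum_congr rfl fun b hb => ?_
      rw [hΘ]
      dsimp only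
      rw [(hkey b hb).2.1, one_mul, hF]
    · intro b hb b' hb' he
      have hb := Finset.mem_coe.1 hb
      have hb' := Finset.mem_coe.1 hb'
      have e1 : Φ b.2.1 b.2.2 = Φ b'.2.1 b'.2.2 := by
        have := congrArg (fun y : ((_ : ℕ) × (Fin 5 → ℕ)) => y.2) he
        exact this
      have e2 : (b.2.1, b.2.2) = (b'.2.1, b'.2.2) := by
        rw [← (hkey b hb).2.2.2, ← (hkey b' hb').2.2.2, e1]
      have e3 : b.2.1 = b'.2.1 := congrArg Prod.fst e2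
      have e4 : b.2.2 = b'.2.2 := congrArg Prod.snd e2
      obtain ⟨hb1, hb2, hb3, hb4⟩ := hmem b hb
      obtain ⟨hb1', hb2', hb3', hb4'⟩ := hmem b' hb'
      have e5 : b.1 = b'.1 := by
        apply hc _ hb1 _ hb1'
        funext i
        apply cell_inj hT (hb2 i)
        rw [e3]
        exact hb2' i
      obtain ⟨a, q, p⟩ := b
      obtain ⟨a', q', p'⟩ := b'
      dsimp only at e3 e4 e5
      subst e3 e4 e5
      rfl
  rw [h3]
  apply Finset.sum_le_sum_of_subset_of_nonneg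
  · intro y hy
    rw [Finset.mem_image] at hy
    obtain ⟨b, hb, rfl⟩ := hy
    obtain ⟨hb1, hb2, hb3, hb4⟩ := hmem b hb
    obtain ⟨k1, k2, k3, k4⟩ := hkey b hb
    have hn := hsup x hx _ hb4
    rw [Finset.mem_filter]
    refine ⟨?_, k3⟩
    unfold YY
    rw [Finset.mem_sigma, Finset.mem_Icc, Nat.mem_finMulAntidiag]
    refine ⟨⟨hn.1, Nat.le_floor hn.2⟩, k1, hn.1.ne'⟩
  · intro y _ _
    exact mul_nonneg (hφ _) (hw0 _)

/-- three classes -/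
theorem three {Υ : Type} {Y : Finset Υ} {F : Υ → ℝ} (hF : ∀ y ∈ Y, 0 ≤ F y) (cls : Υ → ℕ × ℕ) (c1 c2' c3 : ℕ × ℕ) (h12 : c1 ≠ c2')
    (h13 : c1 ≠ c3) (h23 : c2' ≠ c3) :
    ∑ y ∈ Y.filter (fun y => cls y = c1), F y + ∑ y ∈ Y.filter (fun y => cls y = c2'), F y +
      ∑ y ∈ Y.filter (fun y => cls y = c3), F y ≤ ∑ y ∈ Y, F y := by
  rw [Finset.sum_filter, Finset.sum_filter, Finset.sum_filter, ← Finset.sum_add_distrib, ← Finset.sum_add_distrib]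
  refine Finset.sum_le_sum fun y hy => ?_
  have := hF y hy
  by_cases k1 : cls y = c1
  · have k2 : ¬ cls y = c2' := fun h => h12 (k1.symm.trans h)
    have k3 : ¬ cls y = c3 := fun h => h13 (k1.symm.trans h)
    simp [k1, h12, h13]
  · by_cases k2 : cls y = c2'
    · have k3 : ¬ cls y = c3 := fun h => h23 (k2.symm.trans h)
      simp [k2, h12.symm, h23]
    · by_cases k3 : cls y = c3
      · simp [k3, h13.symm, h23.symm]
      · simp [k1, k2, k3, this]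

/-! ### the weight -/

theorem clip_one {t : ℝ} (h : 1 ≤ t) : clip t = 1 := by
  unfold clip
  rw [min_eq_left h, max_eq_right zero_le_one]

theorem clip_nonneg (t : ℝ) : 0 ≤ clip t := le_max_left _ _

theorem Wf_nonneg (κ : ℝ) (x : Fin 5 → ℝ) : 0 ≤ Wf κ x := by
  unfold Wf
  have h := clip_nonneg
  exact mul_nonneg (mul_nonneg (mul_nonneg (mul_nonneg (mul_nonneg (mul_nonneg (mul_nonneg (mul_nonneg (h _) (h _)) (h _)) (h _)) (h _))
    (h _)) (h _)) (h _)) (h _)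

theorem Wf_one {κ L : ℝ} {y : Fin 5 → ℝ} (hκ : 0 < κ) (hκ1 : κ ≤ 1 / 2000) (hL : 0 < L) (h01 : L / 2000 ≤ y 0 - y 1)
    (h12 : L / 2000 ≤ y 1 - y 2) (h13 : L / 2000 ≤ y 1 - y 3) (h14 : L / 2000 ≤ y 1 - y 4) (hs : L / 2000 ≤ L - y 2 - y 3 - y 4)
    (h0 : L / 2 + L / 1000 ≤ y 0) (h2 : L / 5 + L / 2000 ≤ y 2) (h3 : L / 5 + L / 2000 ≤ y 3) (h4 : L / 5 + L / 2000 ≤ y 4) :
    Wf κ (fun i => y i / L) = 1 := by
  have key : ∀ t : ℝ, L / 2000 ≤ t * L → 1 ≤ t / κ := by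
    intro t ht
    rw [le_div_iff₀ hκ, one_mul]
    have : 1 / 2000 ≤ t := by
      by_contra hc
      push Not at hc
      have := mul_lt_mul_of_pos_right hc hL
      linarith
    linarith
  have e : ∀ i, y i / L * L = y i := fun _ => div_mul_cancel₀ _ hL.ne'
  unfold Wf
  dsimp only
  rw [clip_one (key _ _), clip_one (key _ _), clip_one (key _ _), clip_one (key _ _), clip_one (key _ _), clip_one (key _ _),
    clip_one (key _ _), clip_one (key _ _), clip_one (key _ _)]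
  · norm_num
  · rw [sub_mul, e]
    linarith
  · rw [sub_mul, e]
    linarith
  · rw [sub_mul, e]
    linarith
  · rw [sub_mul, sub_mul, e]
    have : κ * L ≤ L / 2000 := by
      have := mul_le_mul_of_nonneg_right hκ1 hL.le
      linarith
    linarith
  · rw [sub_mul, sub_mul, sub_mul, e, e, e]
    linarith
  · rw [sub_mul, e, e]
    linarith
  · rw [sub_mul, e, e]
    linarith
  · rw [sub_mul, e, e]
    linarith
  · rw [sub_mul, e, e]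
    linarith

/-- the summand of `F5` -/
def ph (z : ℕ) (T κ : ℝ) (g : Fin 5 → ℕ) : ℝ := (∏ i, rg z (g i)) * Wf κ (fun i => Real.log (g i) / Real.log T)

theorem rg_nonneg (z n : ℕ) : 0 ≤ rg z n := by
  rw [OX.ID.rg_apply]
  split_ifs <;> norm_num

theorem ph_nonneg (z : ℕ) (T κ : ℝ) (g : Fin 5 → ℕ) : 0 ≤ ph z T κ g :=
  mul_nonneg (Finset.prod_nonneg fun _ _ => rg_nonneg z _) (Wf_nonneg _ _)

theorem rg_one {z n : ℕ} (h0 : n ≠ 0) (h : Rough z n) : rg z n = 1 := by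
  rw [OX.ID.rg_apply, if_pos ⟨h0, h⟩]

theorem rough_prime {z p : ℕ} (hp : p.Prime) (h : z < p) : Rough z p := by
  intro q hq hqp
  rw [(Nat.prime_dvd_prime_iff_eq hq hp).1 hqp]
  exact h

theorem z_lt {T : ℝ} (hT : 1 < T) {p : ℕ} (hp : p.Prime) (h : 68 / 300 * Real.log T < Real.log p) : zz c2 T < p := by
  have hT0 : 0 < T := by linarith
  have hp0 : (0 : ℝ) < p := by exact_mod_cast hp.pos
  unfold zz
  rw [Nat.floor_lt (by positivity), ← Real.log_lt_log_iff (by positivity) hp0, Real.log_rpow hT0]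
  unfold c2
  norm_num at h ⊢
  linarith

theorem minFac_mul {p q : ℕ} (hp : p.Prime) (hq : q.Prime) (h : q < p) : (p * q).minFac = q := by
  have h1 : (p * q).minFac ≤ q := Nat.minFac_le_of_dvd hq.two_le (Dvd.intro_left p rfl)
  have h2 : (p * q).minFac.Prime := Nat.minFac_prime (by
    have := hp.two_le
    have := hq.two_le
    nlinarith)
  rcases (Nat.Prime.dvd_mul h2).1 (Nat.minFac_dvd (p * q)) with h3 | h3
  · rw [(Nat.prime_dvd_prime_iff_eq h2 hp).1 h3] at h1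
    omega
  · exact (Nat.prime_dvd_prime_iff_eq h2 hq).1 h3

/-- class of a tuple -/
def cls (g : Fin 5 → ℕ) : ℕ × ℕ := (ArithmeticFunction.cardFactors (g 0), ArithmeticFunction.cardFactors (g 1))

theorem Om_prime {p : ℕ} (hp : p.Prime) : ArithmeticFunction.cardFactors p = 1 := ArithmeticFunction.cardFactors_apply_prime hp

theorem Om_two {p q : ℕ} (hp : p.Prime) (hq : q.Prime) : ArithmeticFunction.cardFactors (p * q) = 2 := by
  rw [ArithmeticFunction.cardFactors_mul hp.ne_zero hq.ne_zero, Om_prime hp, Om_prime hq]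

/-! ### the three families: cells -/

/-- cells of the first family, `(k2, k3, k4, k1)` -/
def s5 : Finset (ℕ × ℕ × ℕ × ℕ) :=
  (Finset.Icc 68 160 ×ˢ Finset.Icc 68 160 ×ˢ Finset.Icc 68 160 ×ˢ Finset.Icc 68 300).filter
    (fun k => k.1 + k.2.1 + k.2.2.1 ≤ 296 ∧ max k.1 (max k.2.1 k.2.2.1) + 2 ≤ k.2.2.2 ∧ 2 * k.2.2.2 + k.1 + k.2.1 + k.2.2.1 ≤ 594)

def f5 (k : ℕ × ℕ × ℕ × ℕ) : Fin 4 → ℕ := ![k.2.2.2, k.1, k.2.1, k.2.2.1]

/-- cells of the second family, `(k2, k3, k4, k1, k5)` -/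
def s6 : Finset (ℕ × ℕ × ℕ × ℕ × ℕ) :=
  (Finset.Icc 68 160 ×ˢ Finset.Icc 68 160 ×ˢ Finset.Icc 68 160 ×ˢ Finset.Icc 68 300 ×ˢ Finset.Icc 68 300).filter
    (fun k => k.1 + k.2.1 + k.2.2.1 ≤ 296 ∧ max k.1 (max k.2.1 k.2.2.1) + 2 ≤ k.2.2.2.1 ∧ 2 * k.2.2.2.1 + k.1 + k.2.1 + k.2.2.1 ≤ 594 ∧
      k.2.2.2.1 + k.1 + k.2.1 + k.2.2.1 + 2 * k.2.2.2.2 ≤ 593)

def f6 (k : ℕ × ℕ × ℕ × ℕ × ℕ) : Fin 5 → ℕ := ![k.2.2.2.1, k.1, k.2.1, k.2.2.1, k.2.2.2.2]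

/-- cells of the third family -/
def s7 : Finset (ℕ × ℕ × ℕ × ℕ × ℕ) :=
  (Finset.Icc 68 160 ×ˢ Finset.Icc 68 160 ×ˢ Finset.Icc 68 160 ×ˢ Finset.Icc 68 300 ×ˢ Finset.Icc 68 300).filter
    (fun k => k.1 + k.2.1 + k.2.2.1 ≤ 296 ∧ max k.1 (max k.2.1 k.2.2.1) + 2 ≤ k.2.2.2.1 + k.2.2.2.2 ∧ k.2.2.2.2 < k.2.2.2.1 ∧
      2 * k.2.2.2.1 + k.1 + k.2.1 + k.2.2.1 + 2 * k.2.2.2.2 ≤ 592)

/-- density of a family of cells -/
def dens {ι : Type} {m : ℕ} (s : Finset ι) (c : ι → Fin m → ℕ) : ℝ :=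
  ∑ a ∈ s, (∏ i, Lk (c a i)) * (600 / (600 - ((∑ i, c a i : ℕ) : ℝ)))

theorem mass5_eq : mass5a = dens s5 f5 := by
  unfold mass5a dens s5
  rw [Finset.sum_filter, Finset.sum_product]
  refine Finset.sum_congr rfl fun k2 _ => ?_
  rw [Finset.sum_product]
  refine Finset.sum_congr rfl fun k3 _ => ?_
  rw [Finset.sum_product]
  refine Finset.sum_congr rfl fun k4 _ => ?_
  refine Finset.sum_congr rfl fun k1 _ => ?_
  dsimp only
  split_ifs with h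
  · unfold f5
    rw [Fin.prod_univ_four, Fin.sum_univ_four]
    simp only [Matrix.cons_val_zero, Matrix.cons_val_one, Matrix.cons_val]
    ring
  · rfl

theorem mass6_eq : mass6a = dens s6 f6 := by
  unfold mass6a dens s6
  rw [Finset.sum_filter, Finset.sum_product]
  refine Finset.sum_congr rfl fun k2 _ => ?_
  rw [Finset.sum_product]
  refine Finset.sum_congr rfl fun k3 _ => ?_
  rw [Finset.sum_product]
  refine Finset.sum_congr rfl fun k4 _ => ?_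
  rw [Finset.sum_product]
  refine Finset.sum_congr rfl fun k1 _ => ?_
  refine Finset.sum_congr rfl fun k5 _ => ?_
  dsimp only
  split_ifs with h
  · unfold f6
    rw [Fin.prod_univ_five, Fin.sum_univ_five]
    simp only [Matrix.cons_val_zero, Matrix.cons_val_one, Matrix.cons_val]
    ring
  · rfl

theorem mass7_eq : mass6b = dens s7 f6 := by
  unfold mass6b dens s7
  rw [Finset.sum_filter, Finset.sum_product]
  refine Finset.sum_congr rfl fun k2 _ => ?_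
  rw [Finset.sum_product]
  refine Finset.sum_congr rfl fun k3 _ => ?_
  rw [Finset.sum_product]
  refine Finset.sum_congr rfl fun k4 _ => ?_
  rw [Finset.sum_product]
  refine Finset.sum_congr rfl fun k1 _ => ?_
  refine Finset.sum_congr rfl fun k5 _ => ?_
  dsimp only
  split_ifs with h
  · unfold f6
    rw [Fin.prod_univ_five, Fin.sum_univ_five]
    simp only [Matrix.cons_val_zero, Matrix.cons_val_one, Matrix.cons_val]
    ring
  · rfl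

/-! ### the three families: tuples -/

theorem log_n {m : ℕ} {p : ℕ} {q : Fin m → ℕ} (hp : p.Prime) (hq : ∀ i, (q i).Prime) :
    Real.log (((p * ∏ i, q i : ℕ) : ℕ) : ℝ) = Real.log p + ∑ i, Real.log (q i) := by
  have h0 : (p : ℝ) ≠ 0 := by exact_mod_cast hp.ne_zero
  have h1 : ∀ i ∈ (Finset.univ : Finset (Fin m)), (q i : ℝ) ≠ 0 := fun i _ => by exact_mod_cast (hq i).ne_zero
  push_cast
  rw [Real.log_mul h0 (Finset.prod_ne_zero_iff.2 h1), Real.log_prod h1]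

def Φ5 (q : Fin 4 → ℕ) (p : ℕ) : Fin 5 → ℕ := ![p, q 0, q 1, q 2, q 3]
def Ψ5 (g : Fin 5 → ℕ) : (Fin 4 → ℕ) × ℕ := (![g 1, g 2, g 3, g 4], g 0)
def Φ6 (q : Fin 5 → ℕ) (p : ℕ) : Fin 5 → ℕ := ![p * q 4, q 0, q 1, q 2, q 3]
def Ψ6 (g : Fin 5 → ℕ) : (Fin 5 → ℕ) × ℕ := (![g 1, g 2, g 3, g 4, (g 0).minFac], g 0 / (g 0).minFac)
def Φ7 (q : Fin 5 → ℕ) (p : ℕ) : Fin 5 → ℕ := ![p, q 0 * q 4, q 1, q 2, q 3]
def Ψ7 (g : Fin 5 → ℕ) : (Fin 5 → ℕ) × ℕ := (![g 1 / (g 1).minFac, g 2, g 3, g 4, (g 1).minFac], g 0)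

theorem fam5 {T κ : ℝ} (hT : 1 < T) (hκ : 0 < κ) (hκ1 : κ ≤ 1 / 2000) {a : ℕ × ℕ × ℕ × ℕ} (ha : a ∈ s5) {q : Fin 4 → ℕ}
    (hq : ∀ i, q i ∈ cell T (f5 a i)) {p : ℕ} (hp : p.Prime)
    (hn : 2 * Real.log T - Real.log T / 3000 ≤ Real.log (((p * ∏ i, q i : ℕ) : ℕ) : ℝ)) :
    ∏ i, Φ5 q p i = p * ∏ i, q i ∧ ph (zz c2 T) T κ (Φ5 q p) = 1 ∧ cls (Φ5 q p) = (1, 1) ∧ Ψ5 (Φ5 q p) = (q, p) := by
  have hL : 0 < Real.log T := Real.log_pos hT
  obtain ⟨k2, k3, k4, k1⟩ := a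
  simp only [s5, Finset.mem_filter, Finset.mem_product, Finset.mem_Icc] at ha
  have e0 : f5 (k2, k3, k4, k1) 0 = k1 := rfl
  have e1 : f5 (k2, k3, k4, k1) 1 = k2 := rfl
  have e2 : f5 (k2, k3, k4, k1) 2 = k3 := rfl
  have e3 : f5 (k2, k3, k4, k1) 3 = k4 := rfl
  have q0 := mem_cell hT (hq 0)
  have q1 := mem_cell hT (hq 1)
  have q2 := mem_cell hT (hq 2)
  have q3 := mem_cell hT (hq 3)
  rw [e0] at q0
  rw [e1] at q1
  rw [e2] at q2
  rw [e3] at q3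
  rw [log_n hp (fun i => (mem_cell hT (hq i)).1), Fin.sum_univ_four] at hn
  set L := Real.log T with hLdef
  have zl : ∀ {p : ℕ}, p.Prime → 68 / 300 * L < Real.log p → zz c2 T < p := fun hp h => z_lt hT hp h
  have ha' : (k2 + k3 + k4 ≤ 296) ∧ (k2 + 2 ≤ k1) ∧ (k3 + 2 ≤ k1) ∧ (k4 + 2 ≤ k1) ∧ 2 * k1 + k2 + k3 + k4 ≤ 594 := by omega
  obtain ⟨b1, b2, b3, b4, b5⟩ := ha'
  have c1 : ((k2 : ℝ) + k3 + k4) * L ≤ 296 * L := mul_le_mul_of_nonneg_right (by exact_mod_cast b1) hL.le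
  have c2' : ((k2 : ℝ) + 2) * L ≤ k1 * L := mul_le_mul_of_nonneg_right (by exact_mod_cast b2) hL.le
  have c3 : ((k3 : ℝ) + 2) * L ≤ k1 * L := mul_le_mul_of_nonneg_right (by exact_mod_cast b3) hL.le
  have c4 : ((k4 : ℝ) + 2) * L ≤ k1 * L := mul_le_mul_of_nonneg_right (by exact_mod_cast b4) hL.le
  have c5 : (2 * (k1 : ℝ) + k2 + k3 + k4) * L ≤ 594 * L := mul_le_mul_of_nonneg_right (by exact_mod_cast b5) hL.le
  have d2 : (68 : ℝ) * L ≤ k2 * L := mul_le_mul_of_nonneg_right (by exact_mod_cast ha.1.1.1) hL.le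
  have d3 : (68 : ℝ) * L ≤ k3 * L := mul_le_mul_of_nonneg_right (by exact_mod_cast ha.1.2.1.1) hL.le
  have d4 : (68 : ℝ) * L ≤ k4 * L := mul_le_mul_of_nonneg_right (by exact_mod_cast ha.1.2.2.1.1) hL.le
  have d1 : (68 : ℝ) * L ≤ k1 * L := mul_le_mul_of_nonneg_right (by exact_mod_cast ha.1.2.2.2.1) hL.le
  have g01 : L / 2000 ≤ Real.log p - Real.log (q 0) := by linarith [q0.2.1, q0.2.2, q1.2.1, q1.2.2, q2.2.1, q2.2.2, q3.2.1, q3.2.2]
  have g0 : L / 2 + L / 1000 ≤ Real.log p := by linarith [q0.2.1, q0.2.2, q1.2.1, q1.2.2, q2.2.1, q2.2.2, q3.2.1, q3.2.2]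
  have zp : zz c2 T < p := zl hp (by linarith)
  have z0 : zz c2 T < q 0 := zl q0.1 (by linarith [q0.2.1])
  have z1 : zz c2 T < q 1 := zl q1.1 (by linarith [q1.2.1])
  have z2 : zz c2 T < q 2 := zl q2.1 (by linarith [q2.2.1])
  have z3 : zz c2 T < q 3 := zl q3.1 (by linarith [q3.2.1])
  refine ⟨?_, ?_, ?_, ?_⟩
  · unfold Φ5
    rw [Fin.prod_univ_five, Fin.prod_univ_four]
    simp only [Matrix.cons_val_zero, Matrix.cons_val_one, Matrix.cons_val]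
    ring
  · unfold ph
    rw [Fin.prod_univ_five]
    have r0 : rg (zz c2 T) (Φ5 q p 0) = 1 := rg_one hp.ne_zero (rough_prime hp zp)
    have r1 : rg (zz c2 T) (Φ5 q p 1) = 1 := rg_one q0.1.ne_zero (rough_prime q0.1 z0)
    have r2 : rg (zz c2 T) (Φ5 q p 2) = 1 := rg_one q1.1.ne_zero (rough_prime q1.1 z1)
    have r3 : rg (zz c2 T) (Φ5 q p 3) = 1 := rg_one q2.1.ne_zero (rough_prime q2.1 z2)
    have r4 : rg (zz c2 T) (Φ5 q p 4) = 1 := rg_one q3.1.ne_zero (rough_prime q3.1 z3)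
    rw [r0, r1, r2, r3, r4, Wf_one (y := fun i => Real.log (Φ5 q p i)) hκ hκ1 hL]
    · norm_num
    · exact g01
    · show L / 2000 ≤ Real.log (q 0) - Real.log (q 1)
      linarith [q0.2.1, q1.2.2]
    · show L / 2000 ≤ Real.log (q 0) - Real.log (q 2)
      linarith [q0.2.1, q2.2.2]
    · show L / 2000 ≤ Real.log (q 0) - Real.log (q 3)
      linarith [q0.2.1, q3.2.2]
    · show L / 2000 ≤ L - Real.log (q 1) - Real.log (q 2) - Real.log (q 3)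
      linarith [q1.2.2, q2.2.2, q3.2.2]
    · exact g0
    · show L / 5 + L / 2000 ≤ Real.log (q 1)
      linarith [q1.2.1]
    · show L / 5 + L / 2000 ≤ Real.log (q 2)
      linarith [q2.2.1]
    · show L / 5 + L / 2000 ≤ Real.log (q 3)
      linarith [q3.2.1]
  · show (ArithmeticFunction.cardFactors p, ArithmeticFunction.cardFactors (q 0)) = (1, 1)
    rw [Om_prime hp, Om_prime q0.1]
  · unfold Ψ5
    apply Prod.ext
    · funext i
      fin_cases i <;> rfl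
    · rfl

theorem fam6 {T κ : ℝ} (hT : 1 < T) (hκ : 0 < κ) (hκ1 : κ ≤ 1 / 2000) {a : ℕ × ℕ × ℕ × ℕ × ℕ} (ha : a ∈ s6) {q : Fin 5 → ℕ}
    (hq : ∀ i, q i ∈ cell T (f6 a i)) {p : ℕ} (hp : p.Prime)
    (hn : 2 * Real.log T - Real.log T / 3000 ≤ Real.log (((p * ∏ i, q i : ℕ) : ℕ) : ℝ)) :
    ∏ i, Φ6 q p i = p * ∏ i, q i ∧ ph (zz c2 T) T κ (Φ6 q p) = 1 ∧ cls (Φ6 q p) = (2, 1) ∧ Ψ6 (Φ6 q p) = (q, p) := by
  have hL : 0 < Real.log T := Real.log_pos hT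
  obtain ⟨k2, k3, k4, k1, k5⟩ := a
  simp only [s6, Finset.mem_filter, Finset.mem_product, Finset.mem_Icc] at ha
  have e0 : f6 (k2, k3, k4, k1, k5) 0 = k1 := rfl
  have e1 : f6 (k2, k3, k4, k1, k5) 1 = k2 := rfl
  have e2 : f6 (k2, k3, k4, k1, k5) 2 = k3 := rfl
  have e3 : f6 (k2, k3, k4, k1, k5) 3 = k4 := rfl
  have e4 : f6 (k2, k3, k4, k1, k5) 4 = k5 := rfl
  have q0 := mem_cell hT (hq 0)
  have q1 := mem_cell hT (hq 1)
  have q2 := mem_cell hT (hq 2)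
  have q3 := mem_cell hT (hq 3)
  have q4 := mem_cell hT (hq 4)
  rw [e0] at q0
  rw [e1] at q1
  rw [e2] at q2
  rw [e3] at q3
  rw [e4] at q4
  rw [log_n hp (fun i => (mem_cell hT (hq i)).1), Fin.sum_univ_five] at hn
  set L := Real.log T with hLdef
  have zl : ∀ {p : ℕ}, p.Prime → 68 / 300 * L < Real.log p → zz c2 T < p := fun hp h => z_lt hT hp h
  have ha' : (k2 + k3 + k4 ≤ 296) ∧ (k2 + 2 ≤ k1) ∧ (k3 + 2 ≤ k1) ∧ (k4 + 2 ≤ k1) ∧ 2 * k1 + k2 + k3 + k4 ≤ 594 ∧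
      k1 + k2 + k3 + k4 + 2 * k5 ≤ 593 := by omega
  obtain ⟨b1, b2, b3, b4, b5, b6⟩ := ha'
  have c1 : ((k2 : ℝ) + k3 + k4) * L ≤ 296 * L := mul_le_mul_of_nonneg_right (by exact_mod_cast b1) hL.le
  have c2' : ((k2 : ℝ) + 2) * L ≤ k1 * L := mul_le_mul_of_nonneg_right (by exact_mod_cast b2) hL.le
  have c3 : ((k3 : ℝ) + 2) * L ≤ k1 * L := mul_le_mul_of_nonneg_right (by exact_mod_cast b3) hL.le
  have c4 : ((k4 : ℝ) + 2) * L ≤ k1 * L := mul_le_mul_of_nonneg_right (by exact_mod_cast b4) hL.le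
  have c5 : (2 * (k1 : ℝ) + k2 + k3 + k4) * L ≤ 594 * L := mul_le_mul_of_nonneg_right (by exact_mod_cast b5) hL.le
  have c6 : ((k1 : ℝ) + k2 + k3 + k4 + 2 * k5) * L ≤ 593 * L := mul_le_mul_of_nonneg_right (by exact_mod_cast b6) hL.le
  have d2 : (68 : ℝ) * L ≤ k2 * L := mul_le_mul_of_nonneg_right (by exact_mod_cast ha.1.1.1) hL.le
  have d3 : (68 : ℝ) * L ≤ k3 * L := mul_le_mul_of_nonneg_right (by exact_mod_cast ha.1.2.1.1) hL.le
  have d4 : (68 : ℝ) * L ≤ k4 * L := mul_le_mul_of_nonneg_right (by exact_mod_cast ha.1.2.2.1.1) hL.le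
  have d1 : (68 : ℝ) * L ≤ k1 * L := mul_le_mul_of_nonneg_right (by exact_mod_cast ha.1.2.2.2.1.1) hL.le
  have d5 : (68 : ℝ) * L ≤ k5 * L := mul_le_mul_of_nonneg_right (by exact_mod_cast ha.1.2.2.2.2.1) hL.le
  have g40 : Real.log (q 4) < Real.log p := by linarith [q0.2.1, q0.2.2, q1.2.1, q1.2.2, q2.2.1, q2.2.2, q3.2.1, q3.2.2, q4.2.1, q4.2.2]
  have hqp : q 4 < p := by
    have h1 : (q 4 : ℝ) < p := (Real.log_lt_log_iff (by exact_mod_cast q4.1.pos) (by exact_mod_cast hp.pos)).1 g40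
    exact_mod_cast h1
  have g01 : L / 2000 ≤ (Real.log p + Real.log (q 4)) - Real.log (q 0) := by
    linarith [q0.2.1, q0.2.2, q1.2.1, q1.2.2, q2.2.1, q2.2.2, q3.2.1, q3.2.2, q4.2.1, q4.2.2]
  have g0 : L / 2 + L / 1000 ≤ Real.log p + Real.log (q 4) := by
    linarith [q0.2.1, q0.2.2, q1.2.1, q1.2.2, q2.2.1, q2.2.2, q3.2.1, q3.2.2, q4.2.1, q4.2.2]
  have hlog : Real.log ((p * q 4 : ℕ) : ℝ) = Real.log p + Real.log (q 4) := by
    push_cast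
    exact Real.log_mul (by exact_mod_cast hp.ne_zero) (by exact_mod_cast q4.1.ne_zero)
  have hz4 : zz c2 T < q 4 := zl q4.1 (by linarith [q4.2.1])
  have z0 : zz c2 T < q 0 := zl q0.1 (by linarith [q0.2.1])
  have z1 : zz c2 T < q 1 := zl q1.1 (by linarith [q1.2.1])
  have z2 : zz c2 T < q 2 := zl q2.1 (by linarith [q2.2.1])
  have z3 : zz c2 T < q 3 := zl q3.1 (by linarith [q3.2.1])
  refine ⟨?_, ?_, ?_, ?_⟩
  · unfold Φ6
    rw [Fin.prod_univ_five, Fin.prod_univ_five]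
    simp only [Matrix.cons_val_zero, Matrix.cons_val_one, Matrix.cons_val]
    ring
  · unfold ph
    rw [Fin.prod_univ_five]
    have r0 : rg (zz c2 T) (Φ6 q p 0) = 1 := rg_one (mul_ne_zero hp.ne_zero q4.1.ne_zero)
      ((rough_prime hp (hz4.trans hqp)).mul (rough_prime q4.1 hz4))
    have r1 : rg (zz c2 T) (Φ6 q p 1) = 1 := rg_one q0.1.ne_zero (rough_prime q0.1 z0)
    have r2 : rg (zz c2 T) (Φ6 q p 2) = 1 := rg_one q1.1.ne_zero (rough_prime q1.1 z1)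
    have r3 : rg (zz c2 T) (Φ6 q p 3) = 1 := rg_one q2.1.ne_zero (rough_prime q2.1 z2)
    have r4 : rg (zz c2 T) (Φ6 q p 4) = 1 := rg_one q3.1.ne_zero (rough_prime q3.1 z3)
    rw [r0, r1, r2, r3, r4, Wf_one (y := fun i => Real.log (Φ6 q p i)) hκ hκ1 hL]
    · norm_num
    · show L / 2000 ≤ Real.log ((p * q 4 : ℕ) : ℝ) - Real.log (q 0)
      rw [hlog]
      exact g01
    · show L / 2000 ≤ Real.log (q 0) - Real.log (q 1)
      linarith [q0.2.1, q1.2.2]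
    · show L / 2000 ≤ Real.log (q 0) - Real.log (q 2)
      linarith [q0.2.1, q2.2.2]
    · show L / 2000 ≤ Real.log (q 0) - Real.log (q 3)
      linarith [q0.2.1, q3.2.2]
    · show L / 2000 ≤ L - Real.log (q 1) - Real.log (q 2) - Real.log (q 3)
      linarith [q1.2.2, q2.2.2, q3.2.2]
    · show L / 2 + L / 1000 ≤ Real.log ((p * q 4 : ℕ) : ℝ)
      rw [hlog]
      exact g0
    · show L / 5 + L / 2000 ≤ Real.log (q 1)
      linarith [q1.2.1]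
    · show L / 5 + L / 2000 ≤ Real.log (q 2)
      linarith [q2.2.1]
    · show L / 5 + L / 2000 ≤ Real.log (q 3)
      linarith [q3.2.1]
  · show (ArithmeticFunction.cardFactors (p * q 4), ArithmeticFunction.cardFactors (q 0)) = (2, 1)
    rw [Om_two hp q4.1, Om_prime q0.1]
  · have hm : (p * q 4).minFac = q 4 := minFac_mul hp q4.1 hqp
    have hd : p * q 4 / q 4 = p := Nat.mul_div_cancel _ q4.1.pos
    show ((![q 0, q 1, q 2, q 3, (p * q 4).minFac] : Fin 5 → ℕ), p * q 4 / (p * q 4).minFac) = (q, p)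
    rw [hm, hd]
    apply Prod.ext
    · funext i
      fin_cases i <;> rfl
    · rfl

theorem fam7 {T κ : ℝ} (hT : 1 < T) (hκ : 0 < κ) (hκ1 : κ ≤ 1 / 2000) {a : ℕ × ℕ × ℕ × ℕ × ℕ} (ha : a ∈ s7) {q : Fin 5 → ℕ}
    (hq : ∀ i, q i ∈ cell T (f6 a i)) {p : ℕ} (hp : p.Prime)
    (hn : 2 * Real.log T - Real.log T / 3000 ≤ Real.log (((p * ∏ i, q i : ℕ) : ℕ) : ℝ)) :
    ∏ i, Φ7 q p i = p * ∏ i, q i ∧ ph (zz c2 T) T κ (Φ7 q p) = 1 ∧ cls (Φ7 q p) = (1, 2) ∧ Ψ7 (Φ7 q p) = (q, p) := by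
  have hL : 0 < Real.log T := Real.log_pos hT
  obtain ⟨k2, k3, k4, k1, k5⟩ := a
  simp only [s7, Finset.mem_filter, Finset.mem_product, Finset.mem_Icc] at ha
  have e0 : f6 (k2, k3, k4, k1, k5) 0 = k1 := rfl
  have e1 : f6 (k2, k3, k4, k1, k5) 1 = k2 := rfl
  have e2 : f6 (k2, k3, k4, k1, k5) 2 = k3 := rfl
  have e3 : f6 (k2, k3, k4, k1, k5) 3 = k4 := rfl
  have e4 : f6 (k2, k3, k4, k1, k5) 4 = k5 := rfl
  have q0 := mem_cell hT (hq 0)
  have q1 := mem_cell hT (hq 1)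
  have q2 := mem_cell hT (hq 2)
  have q3 := mem_cell hT (hq 3)
  have q4 := mem_cell hT (hq 4)
  rw [e0] at q0
  rw [e1] at q1
  rw [e2] at q2
  rw [e3] at q3
  rw [e4] at q4
  rw [log_n hp (fun i => (mem_cell hT (hq i)).1), Fin.sum_univ_five] at hn
  set L := Real.log T with hLdef
  have zl : ∀ {p : ℕ}, p.Prime → 68 / 300 * L < Real.log p → zz c2 T < p := fun hp h => z_lt hT hp h
  have ha' : (k2 + k3 + k4 ≤ 296) ∧ (k2 + 2 ≤ k1 + k5) ∧ (k3 + 2 ≤ k1 + k5) ∧ (k4 + 2 ≤ k1 + k5) ∧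
      2 * k1 + k2 + k3 + k4 + 2 * k5 ≤ 592 ∧ k5 + 1 ≤ k1 := by omega
  obtain ⟨b1, b2, b3, b4, b5, b6⟩ := ha'
  have c1 : ((k2 : ℝ) + k3 + k4) * L ≤ 296 * L := mul_le_mul_of_nonneg_right (by exact_mod_cast b1) hL.le
  have c2' : ((k2 : ℝ) + 2) * L ≤ (k1 + k5) * L := mul_le_mul_of_nonneg_right (by exact_mod_cast b2) hL.le
  have c3 : ((k3 : ℝ) + 2) * L ≤ (k1 + k5) * L := mul_le_mul_of_nonneg_right (by exact_mod_cast b3) hL.le
  have c4 : ((k4 : ℝ) + 2) * L ≤ (k1 + k5) * L := mul_le_mul_of_nonneg_right (by exact_mod_cast b4) hL.le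
  have c5 : (2 * (k1 : ℝ) + k2 + k3 + k4 + 2 * k5) * L ≤ 592 * L := mul_le_mul_of_nonneg_right (by exact_mod_cast b5) hL.le
  have c6 : ((k5 : ℝ) + 1) * L ≤ k1 * L := mul_le_mul_of_nonneg_right (by exact_mod_cast b6) hL.le
  have d2 : (68 : ℝ) * L ≤ k2 * L := mul_le_mul_of_nonneg_right (by exact_mod_cast ha.1.1.1) hL.le
  have d3 : (68 : ℝ) * L ≤ k3 * L := mul_le_mul_of_nonneg_right (by exact_mod_cast ha.1.2.1.1) hL.le
  have d4 : (68 : ℝ) * L ≤ k4 * L := mul_le_mul_of_nonneg_right (by exact_mod_cast ha.1.2.2.1.1) hL.le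
  have d1 : (68 : ℝ) * L ≤ k1 * L := mul_le_mul_of_nonneg_right (by exact_mod_cast ha.1.2.2.2.1.1) hL.le
  have d5 : (68 : ℝ) * L ≤ k5 * L := mul_le_mul_of_nonneg_right (by exact_mod_cast ha.1.2.2.2.2.1) hL.le
  have g40 : Real.log (q 4) < Real.log (q 0) := by linarith [q0.2.1, q4.2.2]
  have hqp : q 4 < q 0 := by
    have h1 : (q 4 : ℝ) < q 0 := (Real.log_lt_log_iff (by exact_mod_cast q4.1.pos) (by exact_mod_cast q0.1.pos)).1 g40
    exact_mod_cast h1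
  have g01 : L / 2000 ≤ Real.log p - (Real.log (q 0) + Real.log (q 4)) := by
    linarith [q0.2.1, q0.2.2, q1.2.1, q1.2.2, q2.2.1, q2.2.2, q3.2.1, q3.2.2, q4.2.1, q4.2.2]
  have g0 : L / 2 + L / 1000 ≤ Real.log p := by
    linarith [q0.2.1, q0.2.2, q1.2.1, q1.2.2, q2.2.1, q2.2.2, q3.2.1, q3.2.2, q4.2.1, q4.2.2]
  have hlog : Real.log ((q 0 * q 4 : ℕ) : ℝ) = Real.log (q 0) + Real.log (q 4) := by
    push_cast
    exact Real.log_mul (by exact_mod_cast q0.1.ne_zero) (by exact_mod_cast q4.1.ne_zero)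
  have hz4 : zz c2 T < q 4 := zl q4.1 (by linarith [q4.2.1])
  have zp : zz c2 T < p := zl hp (by linarith)
  have z0 : zz c2 T < q 0 := zl q0.1 (by linarith [q0.2.1])
  have z1 : zz c2 T < q 1 := zl q1.1 (by linarith [q1.2.1])
  have z2 : zz c2 T < q 2 := zl q2.1 (by linarith [q2.2.1])
  have z3 : zz c2 T < q 3 := zl q3.1 (by linarith [q3.2.1])
  refine ⟨?_, ?_, ?_, ?_⟩
  · unfold Φ7
    rw [Fin.prod_univ_five, Fin.prod_univ_five]
    simp only [Matrix.cons_val_zero, Matrix.cons_val_one, Matrix.cons_val]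
    ring
  · unfold ph
    rw [Fin.prod_univ_five]
    have r0 : rg (zz c2 T) (Φ7 q p 0) = 1 := rg_one hp.ne_zero (rough_prime hp zp)
    have r1 : rg (zz c2 T) (Φ7 q p 1) = 1 := rg_one (mul_ne_zero q0.1.ne_zero q4.1.ne_zero)
      ((rough_prime q0.1 (hz4.trans hqp)).mul (rough_prime q4.1 hz4))
    have r2 : rg (zz c2 T) (Φ7 q p 2) = 1 := rg_one q1.1.ne_zero (rough_prime q1.1 z1)
    have r3 : rg (zz c2 T) (Φ7 q p 3) = 1 := rg_one q2.1.ne_zero (rough_prime q2.1 z2)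
    have r4 : rg (zz c2 T) (Φ7 q p 4) = 1 := rg_one q3.1.ne_zero (rough_prime q3.1 z3)
    rw [r0, r1, r2, r3, r4, Wf_one (y := fun i => Real.log (Φ7 q p i)) hκ hκ1 hL]
    · norm_num
    · show L / 2000 ≤ Real.log p - Real.log ((q 0 * q 4 : ℕ) : ℝ)
      rw [hlog]
      exact g01
    · show L / 2000 ≤ Real.log ((q 0 * q 4 : ℕ) : ℝ) - Real.log (q 1)
      rw [hlog]
      linarith [q0.2.1, q4.2.1, q1.2.2]
    · show L / 2000 ≤ Real.log ((q 0 * q 4 : ℕ) : ℝ) - Real.log (q 2)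
      rw [hlog]
      linarith [q0.2.1, q4.2.1, q2.2.2]
    · show L / 2000 ≤ Real.log ((q 0 * q 4 : ℕ) : ℝ) - Real.log (q 3)
      rw [hlog]
      linarith [q0.2.1, q4.2.1, q3.2.2]
    · show L / 2000 ≤ L - Real.log (q 1) - Real.log (q 2) - Real.log (q 3)
      linarith [q1.2.2, q2.2.2, q3.2.2]
    · exact g0
    · show L / 5 + L / 2000 ≤ Real.log (q 1)
      linarith [q1.2.1]
    · show L / 5 + L / 2000 ≤ Real.log (q 2)
      linarith [q2.2.1]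
    · show L / 5 + L / 2000 ≤ Real.log (q 3)
      linarith [q3.2.1]
  · show (ArithmeticFunction.cardFactors p, ArithmeticFunction.cardFactors (q 0 * q 4)) = (1, 2)
    rw [Om_two q0.1 q4.1, Om_prime hp]
  · have hm : (q 0 * q 4).minFac = q 4 := minFac_mul q0.1 q4.1 hqp
    have hd : q 0 * q 4 / q 4 = q 0 := Nat.mul_div_cancel _ q4.1.pos
    show ((![q 0 * q 4 / (q 0 * q 4).minFac, q 1, q 2, q 3, (q 0 * q 4).minFac] : Fin 5 → ℕ), p) = (q, p)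
    rw [hm, hd]
    apply Prod.ext
    · funext i
      fin_cases i <;> rfl
    · rfl

/-! ### lower bound for a family -/

theorem Lk_nonneg (j : ℕ) : 0 ≤ Lk j := by
  unfold Lk
  rcases Nat.eq_zero_or_pos j with h | h
  · rw [h]
    simp
  · have h0 : (0 : ℝ) < j := by exact_mod_cast h
    apply Real.log_nonneg
    rw [le_div_iff₀ h0]
    linarith

/-- perturbed lower bound -/
def psiE (I : ℝ) {ι : Type} {m : ℕ} (s : Finset ι) (c : ι → Fin m → ℕ) (ε : ℝ) : ℝ :=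
  ∑ a ∈ s, (∏ i, max (Lk (c a i) - ε) 0) * (600 / (600 - ((∑ i, c a i : ℕ) : ℝ)) * (1 - ε) * max (I - ε) 0)

theorem psiE_cont {I : ℝ} (hI : 0 ≤ I) {ι : Type} {m : ℕ} (s : Finset ι) (c : ι → Fin m → ℕ) {δ : ℝ} (hδ : 0 < δ) :
    ∃ ε : ℝ, 0 < ε ∧ ε ≤ 1 / 2 ∧ dens s c * I - δ ≤ psiE I s c ε := by
  have hc : Continuous fun ε : ℝ => psiE I s c ε := by
    unfold psiE
    fun_prop
  have h2 := hc.tendsto 0
  have h3 : psiE I s c 0 = dens s c * I := by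
    unfold psiE dens
    rw [Finset.sum_mul]
    refine Finset.sum_congr rfl fun a _ => ?_
    have e : ∏ i, max (Lk (c a i) - 0) 0 = ∏ i, Lk (c a i) :=
      Finset.prod_congr rfl fun i _ => by rw [sub_zero, max_eq_left (Lk_nonneg _)]
    rw [e, sub_zero, sub_zero, max_eq_left hI]
    ring
  rw [h3] at h2
  have h4 : ∀ᶠ ε in 𝓝 (0 : ℝ), dens s c * I - δ < psiE I s c ε := h2.eventually (lt_mem_nhds (by linarith))
  have h5 : ∀ᶠ ε in 𝓝[>] (0 : ℝ), dens s c * I - δ < psiE I s c ε := h4.filter_mono nhdsWithin_le_nhds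
  have h6 : ∀ᶠ ε in 𝓝[>] (0 : ℝ), ε ≤ 1 / 2 := by
    filter_upwards [Ioc_mem_nhdsGT (show (0 : ℝ) < 1 / 2 by norm_num)] with ε hε
    exact hε.2
  obtain ⟨ε, ⟨h7, h8⟩, h9⟩ := ((h5.and h6).and self_mem_nhdsWithin).exists
  exact ⟨ε, h9, h8, h7.le⟩

/-- one summand -/
theorem ar_one {x P T1 S ℓ ρ I : ℝ} (hx : 0 < x) (hP : 0 < P) (hT1 : 0 < T1) (hℓ : 0 < ℓ) (hI : 0 ≤ I) (hlx0 : 0 ≤ Real.log x) (hlx : ρ * ℓ ≤ Real.log x)
    (h : I ≤ ℓ * (T1 / (x / P) * S)) : 1 / P * (ρ * I) ≤ Real.log x * (T1 / x * S) := by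
  have hρ : 0 ≤ I / ℓ := div_nonneg hI hℓ.le
  have h1 : I / ℓ ≤ T1 / (x / P) * S := by
    rw [div_le_iff₀ hℓ]
    linarith
  have h2 : T1 / (x / P) * S = P * (T1 / x * S) := by
    rw [div_div_eq_mul_div]
    ring
  rw [h2] at h1
  have h3 : 1 / P * (I / ℓ) ≤ T1 / x * S := by
    calc 1 / P * (I / ℓ) ≤ 1 / P * (P * (T1 / x * S)) := mul_le_mul_of_nonneg_left h1 (by positivity)
      _ = T1 / x * S := by field_simp
  have h4 : 0 ≤ 1 / P * (I / ℓ) := by positivity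
  calc 1 / P * (ρ * I) = (ρ * ℓ) * (1 / P * (I / ℓ)) := by field_simp
    _ ≤ Real.log x * (1 / P * (I / ℓ)) := mul_le_mul_of_nonneg_right hlx h4
    _ ≤ Real.log x * (T1 / x * S) := mul_le_mul_of_nonneg_left h3 hlx0

theorem ar_rho {K lx L ε l4 ℓ : ℝ} (hK : K ≤ 530) (hε : 0 < ε) (hε2 : ε ≤ 1 / 2) (hL : 0 < L)
    (h1 : 2 * L ≤ lx) (h2 : lx ≤ 2 * L + l4) (h3 : 530 * l4 ≤ 140 * ε * L) (hℓ : ℓ ≤ lx - K / 300 * L) :
    600 / (600 - K) * (1 - ε) * ℓ ≤ lx := by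
  have hK6 : 0 < 600 - K := by linarith
  have h4 : (1 - ε) * ℓ ≤ (1 - ε) * (lx - K / 300 * L) := mul_le_mul_of_nonneg_left hℓ (by linarith)
  have h5 : K * (lx - 2 * L) ≤ 530 * l4 := by
    calc K * (lx - 2 * L) ≤ 530 * (lx - 2 * L) := mul_le_mul_of_nonneg_right hK (by linarith)
      _ ≤ 530 * l4 := by linarith
  have hεL : 0 < ε * L := mul_pos hε hL
  have h6 : K * (ε * L) ≤ 530 * (ε * L) := mul_le_mul_of_nonneg_right hK hεL.le
  have h7 : ε * (2 * L) ≤ ε * lx := mul_le_mul_of_nonneg_left h1 hε.le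
  have h8 : 600 * ((1 - ε) * (lx - K / 300 * L)) ≤ (600 - K) * lx := by
    have e : (600 - K) * lx - 600 * ((1 - ε) * (lx - K / 300 * L)) =
        600 * (ε * lx) - K * (lx - 2 * L) - 2 * (K * (ε * L)) := by ring
    have h9 : 0 ≤ 600 * (ε * lx) - K * (lx - 2 * L) - 2 * (K * (ε * L)) := by
      nlinarith [h5, h6, h7, h3]
    linarith
  calc 600 / (600 - K) * (1 - ε) * ℓ = 600 * ((1 - ε) * ℓ) / (600 - K) := by ring
    _ ≤ lx := by
      rw [div_le_iff₀ hK6]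
      linarith

theorem lemA (hPN : Pool.Agent.Work.MP_a8fbd7_nt.EX.ASM.StXPN) (hMe : StYMe) {w : ℝ → ℝ} (hw : IsWt w) (hw0 : ∀ u, 0 ≤ w u)
    (hI : 0 ≤ Iw w) {B : ℝ} (hB : 1 ≤ B) {ι : Type} {m : ℕ} (s : Finset ι) (c : ι → Fin m → ℕ)
    (h60 : ∀ a ∈ s, ∀ i, 60 ≤ c a i ∧ c a i ≤ 600) (hs : ∀ a ∈ s, ∑ i, c a i + m ≤ 530) {δ : ℝ} (hδ : 0 < δ) :
    ∃ C : ℝ, 1 ≤ C ∧ ∀ T x : ℝ, C ≤ T → T ^ 2 ≤ x → x ≤ 4 * T ^ 2 →
      dens s c * Iw w - δ ≤ Real.log x * (Real.log T ^ B / x *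
        ∑ a ∈ s, ∑ q ∈ Fintype.piFinset (fun i => cell T (c a i)), SW w pr (x / ((∏ i, q i : ℕ) : ℝ)) (Real.log T ^ B)) := by
  obtain ⟨ε, hε, hε2, hψ⟩ := psiE_cont hI s c hδ
  obtain ⟨C1, hC1, hPN'⟩ := hPN w hw hw0 B ε hB hε
  obtain ⟨C2, hC2, hMe'⟩ := hMe 300 ε (by norm_num) hε
  have hev : ∀ᶠ T : ℝ in atTop, C1 ≤ T ∧ C2 ≤ T ∧ 1 < T ∧ 1 ≤ Real.log T ∧ 530 * Real.log 4 / (140 * ε) ≤ Real.log T := by
    filter_upwards [eventually_ge_atTop C1, eventually_ge_atTop C2, eventually_gt_atTop (1 : ℝ),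
      Real.tendsto_log_atTop.eventually_ge_atTop 1, Real.tendsto_log_atTop.eventually_ge_atTop (530 * Real.log 4 / (140 * ε))]
      with T h1 h2 h3 h4 h5
    exact ⟨h1, h2, h3, h4, h5⟩
  obtain ⟨C', hC'⟩ := eventually_atTop.1 hev
  refine ⟨max 1 C', le_max_left _ _, ?_⟩
  intro T x hT hx1 hx2
  obtain ⟨hT1, hT2, hTone, hL1, hL4⟩ := hC' T ((le_max_right _ _).trans hT)
  have hL0 : 0 < Real.log T := by linarith
  have hTp : 0 < T := by linarith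
  obtain ⟨T1, hT1def⟩ : ∃ T1 : ℝ, T1 = Real.log T ^ B := ⟨_, rfl⟩
  have hT11 : 1 ≤ T1 := by
    rw [hT1def]
    exact Real.one_le_rpow hL1 (by linarith)
  have hT10 : 0 < T1 := by linarith
  have hx0 : 0 < x := lt_of_lt_of_le (by positivity) hx1
  have hlx1 : 2 * Real.log T ≤ Real.log x := by
    have := Real.log_le_log (by positivity) hx1
    rw [Real.log_pow] at this
    exact_mod_cast this
  have hlx2 : Real.log x ≤ 2 * Real.log T + Real.log 4 := by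
    have := Real.log_le_log hx0 hx2
    rw [Real.log_mul (by norm_num) (by positivity), Real.log_pow] at this
    push_cast at this
    linarith
  have hl4 : 0 ≤ Real.log 4 := Real.log_nonneg (by norm_num)
  have hL4' : 530 * Real.log 4 ≤ 140 * ε * Real.log T := by
    rw [div_le_iff₀ (by positivity)] at hL4
    linarith
  rw [← hT1def]
  refine hψ.trans ?_
  obtain ⟨I', hI'⟩ : ∃ I' : ℝ, I' = max (Iw w - ε) 0 := ⟨_, rfl⟩
  have hI'0 : 0 ≤ I' := by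
    rw [hI']
    exact le_max_right _ _
  have key : ∀ a ∈ s, ∀ q ∈ Fintype.piFinset (fun i => cell T (c a i)),
      1 / ((∏ i, q i : ℕ) : ℝ) * (600 / (600 - ((∑ i, c a i : ℕ) : ℝ)) * (1 - ε) * I') ≤
        Real.log x * (T1 / x * SW w pr (x / ((∏ i, q i : ℕ) : ℝ)) T1) := by
    intro a ha q hq
    rw [Fintype.mem_piFinset] at hq
    have hqc := fun i => mem_cell hTone (hq i)
    have hP : 1 ≤ ∏ i, q i := Finset.prod_pos fun i _ => (hqc i).1.pos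
    have hP1 : (1 : ℝ) ≤ ((∏ i, q i : ℕ) : ℝ) := by exact_mod_cast hP
    have hP0 : (0 : ℝ) < ((∏ i, q i : ℕ) : ℝ) := by linarith
    have hlogP : Real.log ((∏ i, q i : ℕ) : ℝ) = ∑ i, Real.log (q i) := by
      push_cast
      exact Real.log_prod fun i _ => by exact_mod_cast (hqc i).1.ne_zero
    have hKm : ((∑ i, c a i : ℕ) : ℝ) + m ≤ 530 := by exact_mod_cast hs a ha
    have hm0 : (0 : ℝ) ≤ m := Nat.cast_nonneg m
    have hK0 : (0 : ℝ) ≤ ((∑ i, c a i : ℕ) : ℝ) := Nat.cast_nonneg _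
    have hlo : ((∑ i, c a i : ℕ) : ℝ) / 300 * Real.log T ≤ Real.log ((∏ i, q i : ℕ) : ℝ) := by
      rw [hlogP]
      push_cast
      rw [Finset.sum_div, Finset.sum_mul]
      exact Finset.sum_le_sum fun i _ => (hqc i).2.1.le
    have hup : Real.log ((∏ i, q i : ℕ) : ℝ) ≤ (((∑ i, c a i : ℕ) : ℝ) + m) / 300 * Real.log T := by
      rw [hlogP]
      have e : (((∑ i, c a i : ℕ) : ℝ) + m) / 300 * Real.log T = ∑ i : Fin m, ((c a i : ℝ) + 1) / 300 * Real.log T := by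
        push_cast
        rw [← Finset.sum_mul, ← Finset.sum_div, Finset.sum_add_distrib]
        simp
      rw [e]
      exact Finset.sum_le_sum fun i _ => (hqc i).2.2
    have hup' : Real.log ((∏ i, q i : ℕ) : ℝ) ≤ 530 / 300 * Real.log T := by
      refine hup.trans (mul_le_mul_of_nonneg_right ?_ hL0.le)
      linarith
    have hX0 : 0 < x / ((∏ i, q i : ℕ) : ℝ) := by positivity
    have hlX : Real.log (x / ((∏ i, q i : ℕ) : ℝ)) = Real.log x - Real.log ((∏ i, q i : ℕ) : ℝ) :=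
      Real.log_div hx0.ne' hP0.ne'
    have hX1 : T ^ ((1 : ℝ) / 5) ≤ x / ((∏ i, q i : ℕ) : ℝ) := by
      rw [← Real.log_le_log_iff (by positivity) hX0, Real.log_rpow hTp, hlX]
      linarith
    have hX2 : x / ((∏ i, q i : ℕ) : ℝ) ≤ 4 * T ^ 2 := (div_le_self hx0.le hP1).trans hx2
    have hℓ0 : 0 < Real.log (x / ((∏ i, q i : ℕ) : ℝ)) := by
      rw [hlX]
      linarith
    have h1 := (abs_le.1 (hPN' T (x / ((∏ i, q i : ℕ) : ℝ)) hT1 hX1 hX2)).1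
    rw [← hT1def] at h1
    have hS0 := SW_nonneg hw0 (x / ((∏ i, q i : ℕ) : ℝ)) T1
    have h2 : I' ≤ Real.log (x / ((∏ i, q i : ℕ) : ℝ)) * (T1 / (x / ((∏ i, q i : ℕ) : ℝ)) * SW w pr (x / ((∏ i, q i : ℕ) : ℝ)) T1) := by
      rw [hI']
      apply max_le
      · linarith
      · exact mul_nonneg hℓ0.le (mul_nonneg (div_nonneg hT10.le hX0.le) hS0)
    refine ar_one hx0 hP0 hT10 hℓ0 hI'0 (by linarith) ?_ h2
    apply ar_rho (by linarith) hε hε2 hL0 hlx1 hlx2 hL4'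
    rw [hlX]
    linarith
  have hsum : Real.log x * (T1 / x * ∑ a ∈ s, ∑ q ∈ Fintype.piFinset (fun i => cell T (c a i)), SW w pr (x / ((∏ i, q i : ℕ) : ℝ)) T1) =
      ∑ a ∈ s, ∑ q ∈ Fintype.piFinset (fun i => cell T (c a i)),
        Real.log x * (T1 / x * SW w pr (x / ((∏ i, q i : ℕ) : ℝ)) T1) := by
    rw [Finset.mul_sum, Finset.mul_sum]
    refine Finset.sum_congr rfl fun a _ => ?_
    rw [Finset.mul_sum, Finset.mul_sum]
  rw [hsum]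
  unfold psiE
  refine Finset.sum_le_sum fun a ha => ?_
  refine le_trans ?_ (Finset.sum_le_sum (key a ha))
  rw [← Finset.sum_mul, ← hI']
  have hKm : ((∑ i, c a i : ℕ) : ℝ) + m ≤ 530 := by exact_mod_cast hs a ha
  have hm0 : (0 : ℝ) ≤ m := Nat.cast_nonneg m
  apply mul_le_mul_of_nonneg_right
  · have e : ∑ q ∈ Fintype.piFinset (fun i => cell T (c a i)), 1 / ((∏ i, q i : ℕ) : ℝ) =
        ∏ i, ∑ p ∈ cell T (c a i), (1 : ℝ) / p := by
      rw [Finset.prod_univ_sum]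
      refine Finset.sum_congr rfl fun q _ => ?_
      push_cast
      rw [Finset.prod_div_distrib, Finset.prod_const_one]
    rw [e]
    apply Finset.prod_le_prod
    · intro i _
      exact le_max_right _ _
    · intro i _
      apply max_le
      · have h1 := (abs_le.1 (hMe' T (c a i) hT2 (by have := (h60 a ha i).1; omega) (by have := (h60 a ha i).2; omega))).1
        have e3 : ((300 : ℕ) : ℝ) = 300 := by norm_num
        rw [e3] at h1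
        unfold cell
        linarith
      · exact Finset.sum_nonneg fun p _ => by positivity
  · apply mul_nonneg (mul_nonneg (div_nonneg (by norm_num) (by linarith)) (by linarith)) hI'0

theorem b5 : ∀ a ∈ s5, (∀ i, 60 ≤ f5 a i ∧ f5 a i ≤ 600) ∧ ∑ i, f5 a i + 4 ≤ 530 := by
  rintro ⟨k2, k3, k4, k1⟩ ha
  simp only [s5, Finset.mem_filter, Finset.mem_product, Finset.mem_Icc] at ha
  constructor
  · intro i
    fin_cases i
    · show 60 ≤ k1 ∧ k1 ≤ 600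
      omega
    · show 60 ≤ k2 ∧ k2 ≤ 600
      omega
    · show 60 ≤ k3 ∧ k3 ≤ 600
      omega
    · show 60 ≤ k4 ∧ k4 ≤ 600
      omega
  · rw [Fin.sum_univ_four]
    show k1 + k2 + k3 + k4 + 4 ≤ 530
    omega

theorem b6 : ∀ a ∈ s6, (∀ i, 60 ≤ f6 a i ∧ f6 a i ≤ 600) ∧ ∑ i, f6 a i + 5 ≤ 530 := by
  rintro ⟨k2, k3, k4, k1, k5⟩ ha
  simp only [s6, Finset.mem_filter, Finset.mem_product, Finset.mem_Icc] at ha
  constructor
  · intro i
    fin_cases i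
    · show 60 ≤ k1 ∧ k1 ≤ 600
      omega
    · show 60 ≤ k2 ∧ k2 ≤ 600
      omega
    · show 60 ≤ k3 ∧ k3 ≤ 600
      omega
    · show 60 ≤ k4 ∧ k4 ≤ 600
      omega
    · show 60 ≤ k5 ∧ k5 ≤ 600
      omega
  · rw [Fin.sum_univ_five]
    show k1 + k2 + k3 + k4 + k5 + 5 ≤ 530
    omega

theorem b7 : ∀ a ∈ s7, (∀ i, 60 ≤ f6 a i ∧ f6 a i ≤ 600) ∧ ∑ i, f6 a i + 5 ≤ 530 := by
  rintro ⟨k2, k3, k4, k1, k5⟩ ha
  simp only [s7, Finset.mem_filter, Finset.mem_product, Finset.mem_Icc] at ha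
  constructor
  · intro i
    fin_cases i
    · show 60 ≤ k1 ∧ k1 ≤ 600
      omega
    · show 60 ≤ k2 ∧ k2 ≤ 600
      omega
    · show 60 ≤ k3 ∧ k3 ≤ 600
      omega
    · show 60 ≤ k4 ∧ k4 ≤ 600
      omega
    · show 60 ≤ k5 ∧ k5 ≤ 600
      omega
  · rw [Fin.sum_univ_five]
    show k1 + k2 + k3 + k4 + k5 + 5 ≤ 530
    omega

attribute [irreducible] s5 s6 s7

theorem b5a : ∀ a ∈ s5, ∀ i, 60 ≤ f5 a i ∧ f5 a i ≤ 600 := by
  intro a ha
  exact (b5 a ha).1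

theorem b5b : ∀ a ∈ s5, ∑ i, f5 a i + 4 ≤ 530 := by
  intro a ha
  exact (b5 a ha).2

theorem b6a : ∀ a ∈ s6, ∀ i, 60 ≤ f6 a i ∧ f6 a i ≤ 600 := by
  intro a ha
  exact (b6 a ha).1

theorem b6b : ∀ a ∈ s6, ∑ i, f6 a i + 5 ≤ 530 := by
  intro a ha
  exact (b6 a ha).2

theorem b7a : ∀ a ∈ s7, ∀ i, 60 ≤ f6 a i ∧ f6 a i ≤ 600 := by
  intro a ha
  exact (b7 a ha).1

theorem b7b : ∀ a ∈ s7, ∑ i, f6 a i + 5 ≤ 530 := by
  intro a ha
  exact (b7 a ha).2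

theorem f5_inj (a a' : ℕ × ℕ × ℕ × ℕ) (h : f5 a = f5 a') : a = a' := by
  obtain ⟨k2, k3, k4, k1⟩ := a
  obtain ⟨l2, l3, l4, l1⟩ := a'
  have h0 : k1 = l1 := congrFun h 0
  have h1 : k2 = l2 := congrFun h 1
  have h2 : k3 = l3 := congrFun h 2
  have h3 : k4 = l4 := congrFun h 3
  rw [h0, h1, h2, h3]

theorem f6_inj (a a' : ℕ × ℕ × ℕ × ℕ × ℕ) (h : f6 a = f6 a') : a = a' := by
  obtain ⟨k2, k3, k4, k1, k5⟩ := a
  obtain ⟨l2, l3, l4, l1, l5⟩ := a'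
  have h0 : k1 = l1 := congrFun h 0
  have h1 : k2 = l2 := congrFun h 1
  have h2 : k3 = l3 := congrFun h 2
  have h3 : k4 = l4 := congrFun h 3
  have h4 : k5 = l5 := congrFun h 4
  rw [h0, h1, h2, h3, h4]

end YLo_aux

open YLo_aux in
theorem iYLo (hPN : Pool.Agent.Work.MP_a8fbd7_nt.EX.ASM.StXPN) (hMe : StYMe) : StYLo := by
  intro w hw hw0 B δ κ1 hB hδ hκ hκ1
  obtain ⟨C0, hC0, _, hwin⟩ := Win.window w hw
  have hC00 : 0 < C0 := by linarith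
  obtain ⟨D, hD⟩ : ∃ D : ℝ, D = 1 + C0 := ⟨_, rfl⟩
  have hD1 : 1 ≤ D := by linarith
  have hI : 0 ≤ Iw w := by
    unfold Iw
    exact setIntegral_nonneg measurableSet_Ioi fun u hu => div_nonneg (hw0 u) (le_of_lt hu)
  have hδ3 : 0 < δ / 3 := by linarith
  obtain ⟨C5, hC5, h5⟩ := lemA hPN hMe hw hw0 hI hB s5 f5 b5a b5b hδ3
  obtain ⟨C6, hC6, h6⟩ := lemA hPN hMe hw hw0 hI hB s6 f6 b6a b6b hδ3
  obtain ⟨C7, hC7, h7⟩ := lemA hPN hMe hw hw0 hI hB s7 f6 b7a b7b hδ3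
  have hev : ∀ᶠ T : ℝ in atTop, C5 ≤ T ∧ C6 ≤ T ∧ C7 ≤ T ∧ 1 < T ∧ 1 ≤ Real.log T ∧ 3000 * Real.log C0 ≤ Real.log T := by
    filter_upwards [eventually_ge_atTop C5, eventually_ge_atTop C6, eventually_ge_atTop C7, eventually_gt_atTop (1 : ℝ),
      Real.tendsto_log_atTop.eventually_ge_atTop 1, Real.tendsto_log_atTop.eventually_ge_atTop (3000 * Real.log C0)]
      with T h1 h2 h3 h4 h5 h6
    exact ⟨h1, h2, h3, h4, h5, h6⟩
  obtain ⟨C', hC'⟩ := eventually_atTop.1 hev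
  refine ⟨max 1 C', le_max_left _ _, ?_⟩
  intro T x hT hx1 hx2
  obtain ⟨hT5, hT6, hT7, hTone, hL1, hLC⟩ := hC' T ((le_max_right _ _).trans hT)
  have g5 := h5 T x hT5 hx1 hx2
  have g6 := h6 T x hT6 hx1 hx2
  have g7 := h7 T x hT7 hx1 hx2
  have hL0 : 0 < Real.log T := by linarith
  have hTp : 0 < T := by linarith
  have hx0 : 0 < x := lt_of_lt_of_le (by positivity) hx1
  have hlx1 : 2 * Real.log T ≤ Real.log x := by
    have := Real.log_le_log (by positivity) hx1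
    rw [Real.log_pow] at this
    exact_mod_cast this
  obtain ⟨T1, hT1def⟩ : ∃ T1 : ℝ, T1 = Real.log T ^ B := ⟨_, rfl⟩
  rw [← hT1def] at g5 g6 g7
  rw [← hT1def]
  have hT11 : 1 ≤ T1 := by
    rw [hT1def]
    exact Real.one_le_rpow hL1 (by linarith)
  have hT10 : 0 < T1 := by linarith
  have hsup : ∀ x' : ℝ, 0 < x' → ∀ n : ℕ, w (((n : ℝ) / x') ^ T1) ≠ 0 → 0 < n ∧ (n : ℝ) ≤ D * x' := by
    intro x' hx' n hn
    obtain ⟨x1, h1, h2, h3⟩ := hwin x' T1 hx' hT11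
    obtain ⟨h4, h5⟩ := h3 n hn
    have h6 : 0 < x' / C0 := by positivity
    have h7 : (0 : ℝ) < n := by linarith
    refine ⟨by exact_mod_cast h7, ?_⟩
    have h8 : x' / T1 ≤ x' := div_le_self hx'.le hT11
    have h9 : C0 * (x' / T1) ≤ C0 * x' := mul_le_mul_of_nonneg_left h8 hC00.le
    rw [hD, add_mul, one_mul]
    linarith
  have hlo : ∀ n : ℕ, w (((n : ℝ) / x) ^ T1) ≠ 0 → 2 * Real.log T - Real.log T / 3000 ≤ Real.log (n : ℝ) := by
    intro n hn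
    obtain ⟨x1, h1, h2, h3⟩ := hwin x T1 hx0 hT11
    have h4 : x / C0 ≤ n := h1.trans (h3 n hn).1.le
    have h5 := Real.log_le_log (by positivity) h4
    rw [Real.log_div hx0.ne' hC00.ne'] at h5
    linarith
  have e5 := family hw0 hTone hx0 hD1 hsup s5 f5 (fun a _ a' _ h => f5_inj a a' h) Φ5 Ψ5 cls (1, 1) (ph (zz c2 T) T κ1)
    (ph_nonneg _ _ _) (fun a ha q hq p hp hne => fam5 hTone hκ hκ1 ha (Fintype.mem_piFinset.1 hq) hp (hlo _ hne))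
  have e6 := family hw0 hTone hx0 hD1 hsup s6 f6 (fun a _ a' _ h => f6_inj a a' h) Φ6 Ψ6 cls (2, 1) (ph (zz c2 T) T κ1)
    (ph_nonneg _ _ _) (fun a ha q hq p hp hne => fam6 hTone hκ hκ1 ha (Fintype.mem_piFinset.1 hq) hp (hlo _ hne))
  have e7 := family hw0 hTone hx0 hD1 hsup s7 f6 (fun a _ a' _ h => f6_inj a a' h) Φ7 Ψ7 cls (1, 2) (ph (zz c2 T) T κ1)
    (ph_nonneg _ _ _) (fun a ha q hq p hp hne => fam7 hTone hκ hκ1 ha (Fintype.mem_piFinset.1 hq) hp (hlo _ hne))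
  have e8 := three (Y := YY ⌊D * x⌋₊) (F := fun y => ph (zz c2 T) T κ1 y.2 * w (((y.1 : ℝ) / x) ^ T1))
    (fun y _ => mul_nonneg (ph_nonneg _ _ _ _) (hw0 _)) (fun y => cls y.2) (1, 1) (2, 1) (1, 2) (by decide) (by decide) (by decide)
  have e9 : SW w (F5 (zz c2 T) T κ1) x T1 = ∑ y ∈ YY ⌊D * x⌋₊, ph (zz c2 T) T κ1 y.2 * w (((y.1 : ℝ) / x) ^ T1) := by
    rw [SW_sum (hsup x hx0) _ (le_refl _)]
    unfold YY
    rw [Finset.sum_sigma]
    refine Finset.sum_congr rfl fun n _ => ?_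
    unfold F5
    rw [Finset.sum_mul]
    rfl
  rw [mass5_eq, mass6_eq, mass7_eq, e9]
  have hc : 0 ≤ Real.log x * (T1 / x) := mul_nonneg (by linarith) (by positivity)
  have e10 := mul_le_mul_of_nonneg_left (((add_le_add (add_le_add e5 e6) e7)).trans e8) hc
  have e11 : ∀ A B' C'' : ℝ, Real.log x * (T1 / x) * (A + B' + C'') =
      Real.log x * (T1 / x * A) + Real.log x * (T1 / x * B') + Real.log x * (T1 / x * C'') := fun A B' C'' => by ring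
  rw [e11] at e10
  have e12 : (dens s5 f5 + dens s6 f6 + dens s7 f6) * Iw w - δ =
      (dens s5 f5 * Iw w - δ / 3) + (dens s6 f6 * Iw w - δ / 3) + (dens s7 f6 * Iw w - δ / 3) := by ring
  rw [e12, ← mul_assoc]
  linarith

end Pool.Agent.Work.MP_a8fbd7_nt.EX.ASM2
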