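import Mathlib
import Pool.Agent.Work.MP_a8fbd7_nt.EX.ASM2.Stmts
import Pool.Agent.Work.MP_a8fbd7_nt.EX.ASM.I_XMe

/-!
MP_a8fbd7_nt, block EX, second wave, item YMe: Mertens' theorem in cells, two-sided (the lower bound is the mirror image of `EX/ASM/I_XMe.lean`, helper6).
Author: helper86.
-/

set_option autoImplicit false

open MeasureTheory Set Filter Topology

noncomputable section

namespace Pool.Agent.Work.MP_a8fbd7_nt.EX.ASM2

open Pool.Agent.Work.MP_a8fbd7_nt
open Pool.Agent.Work.MP_a8fbd7_nt.OX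
open Pool.Agent.Work.MP_a8fbd7_nt.OX.ASM
open Pool.Agent.Work.MP_a8fbd7_nt.OX.ASM.PN_aux (lint sum_pr il_cont lint_hd)
open Pool.Agent.Work.MP_a8fbd7_nt.EX
open Pool.Agent.Work.MP_a8fbd7_nt.EX.ASM.XMe_aux (GG GG_hd mertens)

namespace YMe_aux

/-- Mertens' theorem between `a` and `b`, lower bound -/
lemma mertens_lo {C a b : ℝ} (hC : 0 ≤ C) (ha : 2 ≤ a) (hab : a ≤ b)
    (hE : ∀ t : ℝ, 2 ≤ t → |(Nat.primeCounting ⌊t⌋₊ : ℝ) - lint t| ≤ C * t / Real.log t ^ 2) :
    Real.log (Real.log b) - Real.log (Real.log a) - C / Real.log a - 2 * (C / Real.log a ^ 2) ≤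
      ∑ k ∈ Finset.Ioc ⌊a⌋₊ ⌊b⌋₊, (1 / (k : ℝ)) * pr k := by
  have ha0 : 0 < a := by linarith
  have hb2 : 2 ≤ b := ha.trans hab
  have hb0 : 0 < b := by linarith
  have hla : 0 < Real.log a := Real.log_pos (by linarith)
  have hlb : 0 < Real.log b := Real.log_pos (by linarith)
  have hlab : Real.log a ≤ Real.log b := Real.log_le_log ha0 hab
  have uI : uIcc a b = Icc a b := uIcc_of_le hab
  have hg : ∀ t ∈ Icc a b, HasDerivAt (fun t : ℝ => 1 / t) (-(1 / t ^ 2)) t := by
    intro t ht
    have ht0 : t ≠ 0 := by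
      have := ht.1
      intro h
      linarith
    have h1 := hasDerivAt_inv ht0
    have h2 : (fun t : ℝ => 1 / t) = fun t => t⁻¹ := by
      funext t
      simp
    rw [h2]
    refine h1.congr_deriv ?_
    simp
  have hc : ContinuousOn (fun t : ℝ => -(1 / t ^ 2)) (Icc a b) := by
    intro t ht
    have ht0 : t ^ 2 ≠ 0 := by
      have := ht.1
      have : 0 < t := by linarith
      positivity
    exact ((continuousAt_const.div (continuousAt_id.pow 2) ht0).neg).continuousWithinAt
  have hd : ∀ t ∈ Icc a b, deriv (fun t : ℝ => 1 / t) t = -(1 / t ^ 2) := fun t ht => (hg t ht).deriv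
  have hi : IntegrableOn (deriv (fun t : ℝ => 1 / t)) (Icc a b) :=
    hc.integrableOn_Icc.congr_fun (fun t ht => (hd t ht).symm) measurableSet_Icc
  have h1 := sum_mul_eq_sub_sub_integral_mul pr (by linarith : (0 : ℝ) ≤ a) hab
    (fun t ht => (hg t ht).differentiableAt) hi
  have h3 : ∫ t in Ioc a b, deriv (fun t : ℝ => 1 / t) t * ∑ k ∈ Finset.Icc 0 ⌊t⌋₊, pr k =
      - ∫ t in a..b, (Nat.primeCounting ⌊t⌋₊ : ℝ) / t ^ 2 := by
    rw [intervalIntegral.integral_of_le hab, ← integral_neg]
    apply setIntegral_congr_fun measurableSet_Ioc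
    intro t ht
    dsimp only
    rw [hd t (Ioc_subset_Icc_self ht), sum_pr]
    ring
  rw [h3, sum_pr, sum_pr] at h1
  have hPm : Monotone (fun t : ℝ => (Nat.primeCounting ⌊t⌋₊ : ℝ)) := by
    intro a b hab
    dsimp only
    exact_mod_cast Nat.monotone_primeCounting (Nat.floor_le_floor hab)
  have j2 : IntervalIntegrable (fun t : ℝ => (Nat.primeCounting ⌊t⌋₊ : ℝ) / t ^ 2) volume a b := by
    have k1 : IntervalIntegrable (fun t : ℝ => (Nat.primeCounting ⌊t⌋₊ : ℝ)) volume a b := hPm.intervalIntegrable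
    have k2 := k1.continuousOn_mul (g := fun t : ℝ => -(1 / t ^ 2)) (by rw [uI]; exact hc)
    refine k2.neg.congr ?_
    intro t _
    simp only [Pi.neg_apply]
    ring
  have hLc : ContinuousOn lint (Icc a b) :=
    fun t ht => (lint_hd (ha.trans ht.1)).continuousAt.continuousWithinAt
  have j3 : IntervalIntegrable (fun t : ℝ => lint t / t ^ 2 + (-C) / (t * Real.log t ^ 2)) volume a b := by
    apply ContinuousOn.intervalIntegrable
    rw [uI]
    apply ContinuousOn.add
    · apply hLc.div (continuousOn_id.pow 2)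
      intro t ht
      have := ht.1
      have h0 : 0 < t := by linarith
      have h1 : 0 < t ^ 2 := by positivity
      exact h1.ne'
    · apply continuousOn_const.div
      · apply continuousOn_id.mul
        apply ContinuousOn.pow
        apply ContinuousOn.log continuousOn_id
        intro t ht
        have := ht.1
        simp only [id]
        intro h
        linarith
      · intro t ht
        have := ht.1
        have h0 : 0 < t := by linarith
        have hl : 0 < Real.log t := Real.log_pos (by linarith)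
        positivity
  have h4 : ∫ t in a..b, (lint t / t ^ 2 + (-C) / (t * Real.log t ^ 2)) ≤
      ∫ t in a..b, (Nat.primeCounting ⌊t⌋₊ : ℝ) / t ^ 2 := by
    apply intervalIntegral.integral_mono_on hab j3 j2
    intro t ht
    have ht2 : 2 ≤ t := ha.trans ht.1
    have ht0 : 0 < t := by linarith
    have hl : 0 < Real.log t := Real.log_pos (by linarith)
    have hE' := (abs_le.1 (hE t ht2)).1
    have h5 : (-C) / (t * Real.log t ^ 2) = (-(C * t / Real.log t ^ 2)) / t ^ 2 := by
      field_simp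
    rw [h5, ← add_div]
    apply div_le_div_of_nonneg_right _ (by positivity)
    linarith
  have h6 : ∫ t in a..b, (lint t / t ^ 2 + (-C) / (t * Real.log t ^ 2)) = GG (-C) b - GG (-C) a := by
    apply intervalIntegral.integral_eq_sub_of_hasDerivAt _ j3
    intro t ht
    rw [uI] at ht
    exact GG_hd (ha.trans ht.1)
  have hEb := (abs_le.1 (hE b hb2)).1
  have hEa := (abs_le.1 (hE a ha)).2
  have e1 : lint b / b - C / Real.log b ^ 2 ≤ 1 / b * (Nat.primeCounting ⌊b⌋₊ : ℝ) := by
    have : C / Real.log b ^ 2 = (C * b / Real.log b ^ 2) / b := by field_simp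
    rw [this, ← sub_div, one_div, inv_mul_eq_div]
    apply div_le_div_of_nonneg_right _ hb0.le
    linarith
  have e2 : 1 / a * (Nat.primeCounting ⌊a⌋₊ : ℝ) ≤ lint a / a + C / Real.log a ^ 2 := by
    have : C / Real.log a ^ 2 = (C * a / Real.log a ^ 2) / a := by field_simp
    rw [this, ← add_div, one_div, inv_mul_eq_div]
    apply div_le_div_of_nonneg_right _ ha0.le
    linarith
  have e3 : C / Real.log b ^ 2 ≤ C / Real.log a ^ 2 := by
    apply div_le_div_of_nonneg_left hC (by positivity)
    exact pow_le_pow_left₀ hla.le hlab 2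
  have e4 : 0 ≤ C / Real.log b := by positivity
  rw [h1]
  unfold GG at h6
  have e5 : -C / Real.log b = -(C / Real.log b) := by rw [neg_div]
  have e6 : -C / Real.log a = -(C / Real.log a) := by rw [neg_div]
  rw [e5, e6] at h6
  linarith

end YMe_aux

open Classical in
open YMe_aux in
/-- item YMe -/
theorem iYMe (hP : ZF.StPnt) : StYMe := by
  intro N δ hN hδ
  obtain ⟨C0, hC0, hP⟩ := hP 2 (by norm_num)
  have hE : ∀ t : ℝ, 2 ≤ t → |(Nat.primeCounting ⌊t⌋₊ : ℝ) - lint t| ≤ C0 * t / Real.log t ^ 2 := by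
    intro t ht
    have h := hP t ht
    rw [Real.rpow_two] at h
    exact h
  refine ⟨Real.exp (5 + 15 * C0 / δ), Real.one_le_exp (by positivity), ?_⟩
  intro T j hT hj1 _
  have hT0 : 0 < T := lt_of_lt_of_le (Real.exp_pos _) hT
  have hlT : 5 + 15 * C0 / δ ≤ Real.log T := by
    rw [Real.le_log_iff_exp_le hT0]
    exact hT
  have h15 : 0 ≤ 15 * C0 / δ := by positivity
  have hl5 : 5 ≤ Real.log T := by linarith
  have hlC : 15 * C0 ≤ δ * Real.log T := by
    have h1 : 15 * C0 / δ ≤ Real.log T := by linarith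
    rw [div_le_iff₀ hδ] at h1
    linarith
  have hN0 : (0 : ℝ) < N := by exact_mod_cast hN
  have hj : (N : ℝ) ≤ 5 * j := by exact_mod_cast hj1
  have hj0 : (0 : ℝ) < j := by linarith
  set a : ℝ := T ^ ((j : ℝ) / N) with ha
  set b : ℝ := T ^ (((j : ℝ) + 1) / N) with hb
  have hla : Real.log a = (j : ℝ) / N * Real.log T := Real.log_rpow hT0 _
  have hlb : Real.log b = ((j : ℝ) + 1) / N * Real.log T := Real.log_rpow hT0 _
  have ha0 : 0 < a := Real.rpow_pos_of_pos hT0 _
  have hla1 : 1 / 5 * Real.log T ≤ Real.log a := by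
    rw [hla]
    apply mul_le_mul_of_nonneg_right _ (by linarith)
    rw [le_div_iff₀ hN0]
    linarith
  have hla2 : 1 ≤ Real.log a := by linarith
  have ha2 : 2 ≤ a := by
    have h1 : Real.exp 1 ≤ a := by
      rw [← Real.le_log_iff_exp_le ha0]
      exact hla2
    have h2 := Real.exp_one_gt_d9
    linarith
  have hT1 : 1 ≤ T := by
    have h1 : Real.exp 0 ≤ T := by
      rw [← Real.le_log_iff_exp_le hT0]
      linarith
    rwa [Real.exp_zero] at h1
  have hab : a ≤ b := by
    apply Real.rpow_le_rpow_of_exponent_le hT1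
    apply div_le_div_of_nonneg_right _ hN0.le
    linarith
  have hm := mertens (by linarith : (0 : ℝ) ≤ C0) ha2 hab hE
  have hm' := mertens_lo (by linarith : (0 : ℝ) ≤ C0) ha2 hab hE
  have hsum : ∑ p ∈ (Finset.Ioc ⌊a⌋₊ ⌊b⌋₊).filter Nat.Prime, (1 : ℝ) / p =
      ∑ k ∈ Finset.Ioc ⌊a⌋₊ ⌊b⌋₊, (1 / (k : ℝ)) * pr k := by
    rw [Finset.sum_filter]
    apply Finset.sum_congr rfl
    intro k _
    unfold pr
    split_ifs <;> simp
  have hll : Real.log (Real.log b) - Real.log (Real.log a) = Lk j := by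
    unfold Lk
    rw [hla, hlb, ← Real.log_div (by positivity) (by positivity)]
    congr 1
    field_simp
  have hsq : C0 / Real.log a ^ 2 ≤ C0 / Real.log a := by
    apply div_le_div_of_nonneg_left (by linarith) (by linarith)
    nlinarith
  have hfin : 3 * (C0 / Real.log a) ≤ δ := by
    rw [mul_div_assoc', div_le_iff₀ (by linarith)]
    nlinarith
  rw [hsum, abs_le]
  rw [hll] at hm hm'
  constructor <;> linarith

end Pool.Agent.Work.MP_a8fbd7_nt.EX.ASM2
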