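import Mathlib
import Pool.Agent.Work.MP_a8fbd7_nt.EX.ASM2.Stmts
import Pool.Agent.Work.MP_a8fbd7_nt.OX.ASM.I_Mn

/-!
MP_a8fbd7_nt, block EX, part ASM2, item YMn: main theorem for smooth windows (lower bound for primes).
Statement: helper89.  Proof: helper5 (modelled on EX/ASM/I_YMn.lean by helper74).
-/

set_option autoImplicit false

open MeasureTheory Set Filter Topology

noncomputable section

namespace Pool.Agent.Work.MP_a8fbd7_nt.EX.ASM2

open Pool.Agent.Work.MP_56b8f5_nt.UC (IsWt Bl Dp Om psi eta Sep)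
open Pool.Agent.Work.MP_a8fbd7_nt.OX
open Pool.Agent.Work.MP_a8fbd7_nt.OX.ID (Rough roughOne pb rg)
open Pool.Agent.Work.MP_a8fbd7_nt.OX.ASM
open Pool.Agent.Work.MP_a8fbd7_nt.EX
open Pool.Agent.Work.MP_a8fbd7_nt.EX.CELL (r2 c2)
open Pool.Agent.Work.MP_a8fbd7_nt.EX.ASM (al bw sqr aJ)

namespace YMn_aux

open Pool.Agent.Work.MP_a8fbd7_nt.OX.ASM.Mn_aux (summable_SW SW_sum SW_abs_sub_le SW_nonneg pack_union pack_mono
  card_Bx LL_le pack_and isSv_mono)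

theorem cwX5_nonneg {S : ℕ} (v : Fin (5 * S) → Option ℕ) : 0 ≤ cwX5 v := by
  unfold cwX5
  exact mul_nonneg (by norm_num) (Finset.prod_nonneg fun i _ => by positivity)

theorem cwX5_le {S : ℕ} (v : Fin (5 * S) → Option ℕ) : cwX5 v ≤ 7 := by
  unfold cwX5
  have h : ∏ i, ((S - nsi5 v i).factorial : ℝ) / (S.factorial : ℝ) ≤ 1 := by
    refine Finset.prod_le_one (fun i _ => by positivity) fun i _ => ?_
    rw [div_le_one (by exact_mod_cast Nat.factorial_pos _)]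
    exact_mod_cast Nat.factorial_le (Nat.sub_le _ _)
  linarith

theorem dd_bound {w : ℝ → ℝ} (hw : IsWt w) (hw0 : ∀ u, 0 ≤ w u) {T x T1 : ℝ} (hx : 0 < x) (hT : 1 ≤ T) (hT1 : 1 ≤ T1)
    (f g : ℕ → ℝ) (F : Finset (Fin 5)) (e : Fin 5 → ℕ → ℝ)
    (h : ∀ n, |f n - g n| ≤ ∑ i ∈ F, e i n) :
    |DD w f x T T1| ≤ |DD w g x T T1| + ∑ i ∈ F, (|DD w (e i) x T T1| + 2 * (T1 / x * SW w (e i) x T1)) := by
  have a1 := SW_abs_sub_le hw hw0 f g (fun n => ∑ i ∈ F, e i n) hx hT h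
  have a2 := SW_abs_sub_le hw hw0 f g (fun n => ∑ i ∈ F, e i n) hx hT1 h
  rw [SW_sum hw F e hx hT] at a1
  rw [SW_sum hw F e hx hT1] at a2
  have hTx : 0 ≤ T / x := by positivity
  have hT1x : 0 ≤ T1 / x := by positivity
  have b : |DD w f x T T1 - DD w g x T T1| ≤ T / x * ∑ i ∈ F, SW w (e i) x T + T1 / x * ∑ i ∈ F, SW w (e i) x T1 := by
    unfold DD
    have : T / x * SW w f x T - T1 / x * SW w f x T1 - (T / x * SW w g x T - T1 / x * SW w g x T1) =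
      T / x * (SW w f x T - SW w g x T) - T1 / x * (SW w f x T1 - SW w g x T1) := by ring
    rw [this]
    calc _ ≤ |T / x * (SW w f x T - SW w g x T)| + |T1 / x * (SW w f x T1 - SW w g x T1)| := abs_sub _ _
      _ ≤ _ := by
        rw [abs_mul, abs_mul, abs_of_nonneg hTx, abs_of_nonneg hT1x]
        gcongr
  have c : T / x * ∑ i ∈ F, SW w (e i) x T + T1 / x * ∑ i ∈ F, SW w (e i) x T1 ≤
      ∑ i ∈ F, (|DD w (e i) x T T1| + 2 * (T1 / x * SW w (e i) x T1)) := by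
    rw [Finset.mul_sum, Finset.mul_sum, ← Finset.sum_add_distrib]
    refine Finset.sum_le_sum fun i _ => ?_
    have := le_abs_self (DD w (e i) x T T1)
    unfold DD at this ⊢
    linarith
  have d := abs_sub_abs_le_abs_sub (DD w f x T T1) (DD w g x T T1)
  linarith

theorem exists_s {κ' C3 C0 ε : ℝ} (hκ : 0 < κ') (hC3 : 1 ≤ C3) (hε : 0 < ε) :
    ∃ s : ℝ, 1 ≤ s ∧ C0 ≤ s ∧ (C3 / (κ' / s)) ^ 16 * Real.exp (-s) ≤ ε := by
  have h := Real.tendsto_pow_mul_exp_neg_atTop_nhds_zero 16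
  have hK : 0 < (C3 / κ') ^ 16 := by positivity
  have h2 := h.eventually (ge_mem_nhds (show (0 : ℝ) < ε / (C3 / κ') ^ 16 by positivity))
  obtain ⟨s, hs⟩ := (h2.and ((eventually_ge_atTop 1).and (eventually_ge_atTop C0))).exists
  refine ⟨s, hs.2.1, hs.2.2, ?_⟩
  have h3 : C3 / (κ' / s) = (C3 / κ') * s := by
    have : 0 < s := by linarith [hs.2.1]
    field_simp
  rw [h3, mul_pow, mul_assoc]
  have h4 := hs.1
  rw [le_div_iff₀ hK] at h4
  linarith [mul_comm (s ^ 16 * Real.exp (-s)) ((C3 / κ') ^ 16)]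

/-- the bad points of the conditions attached to a box -/
def Pb (w : ℝ → ℝ) (T T1 κ2 κ3 β A : ℝ) (y z S : ℕ) (lp lm : ℕ → ℝ) :
    ((Fin 5 → Option ℕ) × (Fin (5 * S) → Option ℕ)) × Option (Option (Fin 5)) → ℝ → Prop
  | ((u, v), none) => fun x => ((∀ i, ¬ Lg T κ2 (u i)) ∧ Gp T u ∧ T ^ β ≤ ∏ r, sc (v r)) ∧
      1 / Real.log T ^ A ≤ |DD w (BX5 y z u v) x T T1|
  | ((u, v), some none) => fun x => ((∃ i, Lg T κ2 (u i)) ∧ Gp T u) ∧
      1 / Real.log T ^ A ≤ |DD w (BXA5 y z T κ3 (fun _ => lp) u v) x T T1|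
  | ((u, v), some (some i)) => fun x => ((∃ i, Lg T κ2 (u i)) ∧ Gp T u) ∧
      1 / Real.log T ^ A ≤ |DD w (BXA5 y z T κ3 (Function.update (fun _ => lp) i (fun d => lp d - lm d)) u v) x T T1|

open Classical in
/-- deterministic part: sums over the boxes at a good point -/
theorem good_point {w : ℝ → ℝ} (hw : IsWt w) (hw0 : ∀ u, 0 ≤ w u) (hV1 : StYV1) (hCc : StYCc)
    {T T1 κ1 κ2 κ3 A D C0 E CR x : ℝ} {y z S : ℕ} {lp lm : ℕ → ℝ} (hT3 : 3 ≤ T) (hT1 : 1 ≤ T1) (hκ3 : 0 < κ3)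
    (hsv : IsSv y D C0 E lp lm) (hx1 : T ^ 2 ≤ x) (hL : 0 < Real.log T)
    (hRg : ∀ (u : Fin 5 → Option ℕ) (v : Fin (5 * S) → Option ℕ) (T' : ℝ), 1 ≤ T' → SW w (BX5 y z u v) x T' ≠ 0 →
      T ^ 2 / CR ≤ PX5 u v ∧ PX5 u v ≤ CR * T ^ 2)
    (hSh : ∀ (u : Fin 5 → Option ℕ) (v : Fin (5 * S) → Option ℕ), ccX5 T κ1 u v ≠ 0 → Gp T u ∧
      ((∀ i, ¬ Lg T κ2 (u i)) → T ^ 2 / CR ≤ PX5 u v → T ^ (κ1 / 2) ≤ ∏ r, sc (v r)))
    (hgood : ∀ u ∈ Bx 5 T, ∀ v ∈ Bx (5 * S) T, ∀ j, ¬ Pb w T T1 κ2 κ3 (κ1 / 2) A y z S lp lm ((u, v), j) x) :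
    ∑ u ∈ Bx 5 T, ∑ v ∈ Bx (5 * S) T, |ccX5 T κ1 u v| * |DD w (BX5 y z u v) x T T1| ≤
      ∑ _u ∈ Bx 5 T, ∑ _v ∈ Bx (5 * S) T, (7 : ℝ) * (6 / Real.log T ^ A) +
      2 * ∑ u ∈ Bx 5 T, ∑ v ∈ Bx (5 * S) T, cwX5 v * ∑ i ∈ Finset.univ.filter (fun i => Lg T κ3 (u i)),
        T1 / x * SW w (BXA5 y z T κ3 (Function.update (fun _ => lp) i (fun d => lp d - lm d)) u v) x T1 := by
  have hx : 0 < x := lt_of_lt_of_le (by positivity) hx1
  have hLA : 0 < Real.log T ^ A := Real.rpow_pos_of_pos hL _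
  rw [Finset.mul_sum, ← Finset.sum_add_distrib]
  refine Finset.sum_le_sum fun u hu => ?_
  rw [Finset.mul_sum, ← Finset.sum_add_distrib]
  refine Finset.sum_le_sum fun v hv => ?_
  have hcw := cwX5_nonneg v
  have hcw2 := cwX5_le v
  have hv1 := fun n => hV1 T κ3 D C0 E y z (5 * S) lp lm u v n hT3 hκ3 hsv
  set e : Fin 5 → ℕ → ℝ := fun i => ⇑(BXA5 y z T κ3 (Function.update (fun _ => lp) i (fun d => lp d - lm d)) u v) with he
  have hsum0 : 0 ≤ ∑ i ∈ Finset.univ.filter (fun i => Lg T κ3 (u i)), T1 / x * SW w (e i) x T1 := by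
    refine Finset.sum_nonneg fun i _ => mul_nonneg (by positivity) (SW_nonneg hw0 _ fun n => ?_)
    exact (hv1 n).2 i
  have h14 : 0 ≤ 6 / Real.log T ^ A := by positivity
  by_cases hB : ccX5 T κ1 u v = 0
  · rw [hB, abs_zero, zero_mul]
    positivity
  obtain ⟨hGp, hShu⟩ := hSh u v hB
  have key : |DD w (BX5 y z u v) x T T1| ≤ 6 / Real.log T ^ A +
      2 * ∑ i ∈ Finset.univ.filter (fun i => Lg T κ3 (u i)), T1 / x * SW w (e i) x T1 := by
    by_cases hB' : ∀ i, ¬ Lg T κ2 (u i)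
    · have h1 : |DD w (BX5 y z u v) x T T1| ≤ 1 / Real.log T ^ A := by
        by_cases h0 : SW w (BX5 y z u v) x T = 0 ∧ SW w (BX5 y z u v) x T1 = 0
        · unfold DD
          rw [h0.1, h0.2, mul_zero, mul_zero, sub_zero, abs_zero]
          positivity
        · have hrel : T ^ 2 / CR ≤ PX5 u v ∧ PX5 u v ≤ CR * T ^ 2 := by
            by_cases h2 : SW w (BX5 y z u v) x T = 0
            · exact hRg u v T1 hT1 fun h3 => h0 ⟨h2, h3⟩
            · exact hRg u v T (by linarith) h2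
          have hsh := hShu hB' hrel.1
          have := hgood u hu v hv none
          unfold Pb at this
          by_contra hcon
          rw [not_le] at hcon
          exact this ⟨⟨hB', hGp, hsh⟩, hcon.le⟩
      have h5 : 1 / Real.log T ^ A ≤ 6 / Real.log T ^ A := by gcongr; norm_num
      linarith
    · have hA : ∃ i, Lg T κ2 (u i) := by
        push Not at hB'; exact hB'
      have h0 : |DD w (BXA5 y z T κ3 (fun _ => lp) u v) x T T1| ≤ 1 / Real.log T ^ A := by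
        have := hgood u hu v hv (some none)
        unfold Pb at this
        by_contra hcon
        rw [not_le] at hcon
        exact this ⟨⟨hA, hGp⟩, hcon.le⟩
      have h1 : ∀ i, |DD w (e i) x T T1| ≤ 1 / Real.log T ^ A := by
        intro i
        have := hgood u hu v hv (some (some i))
        unfold Pb at this
        by_contra hcon
        rw [not_le] at hcon
        exact this ⟨⟨hA, hGp⟩, hcon.le⟩
      have h2 := dd_bound hw hw0 hx (show (1 : ℝ) ≤ T by linarith) hT1 (BX5 y z u v) (BXA5 y z T κ3 (fun _ => lp) u v)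
        (Finset.univ.filter (fun i => Lg T κ3 (u i))) e (fun n => (hv1 n).1)
      have h3 : ∑ i ∈ Finset.univ.filter (fun i => Lg T κ3 (u i)), (|DD w (e i) x T T1| + 2 * (T1 / x * SW w (e i) x T1)) ≤
          5 / Real.log T ^ A + 2 * ∑ i ∈ Finset.univ.filter (fun i => Lg T κ3 (u i)), T1 / x * SW w (e i) x T1 := by
        rw [Finset.sum_add_distrib, ← Finset.mul_sum]
        have : ∑ i ∈ Finset.univ.filter (fun i => Lg T κ3 (u i)), |DD w (e i) x T T1| ≤ 5 / Real.log T ^ A := by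
          calc _ ≤ ∑ i ∈ Finset.univ.filter (fun i => Lg T κ3 (u i)), 1 / Real.log T ^ A :=
                Finset.sum_le_sum fun i _ => h1 i
            _ ≤ ∑ i : Fin 5, 1 / Real.log T ^ A :=
                Finset.sum_le_sum_of_subset_of_nonneg (Finset.filter_subset _ _) fun _ _ _ => by positivity
            _ = 5 / Real.log T ^ A := by simp; ring
        linarith
      have h4 : 1 / Real.log T ^ A + 5 / Real.log T ^ A = 6 / Real.log T ^ A := by ring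
      linarith
  have hcc : |ccX5 T κ1 u v| ≤ cwX5 v := hCc T κ1 S u v
  calc |ccX5 T κ1 u v| * |DD w (BX5 y z u v) x T T1| ≤ cwX5 v * (6 / Real.log T ^ A +
      2 * ∑ i ∈ Finset.univ.filter (fun i => Lg T κ3 (u i)), T1 / x * SW w (e i) x T1) :=
        mul_le_mul hcc key (abs_nonneg _) hcw
    _ = cwX5 v * (6 / Real.log T ^ A) + 2 * (cwX5 v * ∑ i ∈ Finset.univ.filter (fun i => Lg T κ3 (u i)), T1 / x * SW w (e i) x T1) := by ring
    _ ≤ _ := by gcongr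

theorem pack_Pb {w : ℝ → ℝ} {T T1 κ1 κ2 κ3 κ' A C : ℝ} {y z S : ℕ} {lp lm : ℕ → ℝ} {C0 E D : ℝ}
    (hT0 : 0 < T) (hsv : IsSv y D C0 E lp lm) (hD : D ≤ T ^ κ') (hC : 0 ≤ C)
    (hBB : ∀ (u : Fin 5 → Option ℕ) (v : Fin (5 * S) → Option ℕ), (∀ i, ¬ Lg T κ2 (u i)) → Gp T u → T ^ (κ1 / 2) ≤ ∏ r, sc (v r) →
      PackLe T (fun x => 1 / Real.log T ^ A ≤ |DD w (BX5 y z u v) x T T1|) (C * T ^ r2))
    (hAA : ∀ (u : Fin 5 → Option ℕ) (v : Fin (5 * S) → Option ℕ) (lw : Fin 5 → ℕ → ℝ), (∃ i, Lg T κ2 (u i)) → Gp T u →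
      (∀ i d, |lw i d| ≤ 2) → (∀ i d, lw i d ≠ 0 → 1 ≤ d ∧ (d : ℝ) ≤ T ^ κ') →
      PackLe T (fun x => 1 / Real.log T ^ A ≤ |DD w (BXA5 y z T κ3 lw u v) x T T1|) (C * T ^ r2)) :
    ∀ p, PackLe T (Pb w T T1 κ2 κ3 (κ1 / 2) A y z S lp lm p) (C * T ^ r2) := by
  have hB : 0 ≤ C * T ^ r2 := mul_nonneg hC (Real.rpow_nonneg hT0.le _)
  have hlp1 : ∀ d, |lp d| ≤ 2 := fun d => (hsv.bdp d).trans (by norm_num)
  have hdif : ∀ d, |lp d - lm d| ≤ 2 := fun d => by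
    calc |lp d - lm d| ≤ |lp d| + |lm d| := abs_sub _ _
      _ ≤ 1 + 1 := add_le_add (hsv.bdp d) (hsv.bdm d)
      _ = 2 := by norm_num
  have hsp : ∀ d, lp d ≠ 0 → 1 ≤ d ∧ (d : ℝ) ≤ T ^ κ' := fun d hd => ⟨(hsv.supp d hd).1, (hsv.supp d hd).2.trans hD⟩
  have hsd : ∀ d, lp d - lm d ≠ 0 → 1 ≤ d ∧ (d : ℝ) ≤ T ^ κ' := by
    intro d hd
    by_cases h0 : lp d = 0
    · have : lm d ≠ 0 := by
        intro h1
        apply hd
        simp [h0, h1]
      exact ⟨(hsv.supm d this).1, (hsv.supm d this).2.trans hD⟩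
    · exact hsp d h0
  rintro ⟨⟨u, v⟩, j⟩
  rcases j with _ | _ | i
  · exact pack_and hB fun h => hBB u v h.1 h.2.1 h.2.2
  · exact pack_and hB fun h => hAA u v _ h.1 h.2 (fun _ => hlp1) (fun _ => hsp)
  · refine pack_and hB fun h => hAA u v _ h.1 h.2 ?_ ?_
    · intro i' d
      by_cases hi : i' = i
      · subst hi; simpa using hdif d
      · simpa [Function.update_of_ne hi] using hlp1 d
    · intro i' d
      by_cases hi : i' = i
      · subst hi; simpa using hsd d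
      · simpa [Function.update_of_ne hi] using hsp d

theorem num_box {T A : ℝ} {S : ℕ} (hA : A = ((10 * (S + 5) : ℕ) : ℝ)) (f1 : 12 ≤ Real.log T) :
    ∑ _u ∈ Bx 5 T, ∑ _v ∈ Bx (5 * S) T, (7 : ℝ) * (6 / Real.log T ^ A) ≤ 1 / Real.log T ^ 2 := by
  rw [Finset.sum_const, Finset.sum_const, nsmul_eq_mul, nsmul_eq_mul, card_Bx, card_Bx]
  have hLL := LL_le (T := T) (by linarith)
  have hLL0 : (0 : ℝ) ≤ (LL T : ℝ) + 1 := by positivity
  have hpow : Real.log T ^ A = Real.log T ^ (10 * (S + 5)) := by rw [hA, Real.rpow_natCast]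
  rw [hpow]
  have h1 : ((LL T : ℝ) + 1) ^ 5 * ((LL T : ℝ) + 1) ^ (5 * S) ≤ (4 * Real.log T) ^ (5 * S + 5) := by
    rw [← pow_add, add_comm 5 (5 * S)]
    exact pow_le_pow_left₀ hLL0 hLL _
  have h2 : (4 * Real.log T) ^ (5 * S + 5) * 42 ≤ Real.log T ^ (2 * (5 * S + 5) + 2) := by
    calc (4 * Real.log T) ^ (5 * S + 5) * 42 ≤ (Real.log T * Real.log T) ^ (5 * S + 5) * Real.log T ^ 2 := by
          gcongr
          · linarith
          · nlinarith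
      _ = Real.log T ^ (2 * (5 * S + 5) + 2) := by rw [← pow_two, ← pow_mul, pow_add]
  have h4 : (0 : ℝ) < Real.log T ^ (10 * (S + 5)) := by positivity
  calc ((LL T : ℝ) + 1) ^ 5 * (((LL T : ℝ) + 1) ^ (5 * S) * (7 * (6 / Real.log T ^ (10 * (S + 5))))) =
      (((LL T : ℝ) + 1) ^ 5 * ((LL T : ℝ) + 1) ^ (5 * S)) * 42 / Real.log T ^ (10 * (S + 5)) := by ring
    _ ≤ (4 * Real.log T) ^ (5 * S + 5) * 42 / Real.log T ^ (10 * (S + 5)) := by gcongr
    _ ≤ Real.log T ^ (2 * (5 * S + 5) + 2) / Real.log T ^ (10 * (S + 5)) := by gcongr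
    _ ≤ 1 / Real.log T ^ 2 := by
      rw [div_le_div_iff₀ h4 (by positivity), one_mul, ← pow_add]
      exact pow_le_pow_right₀ (by linarith) (by omega)

theorem num_card {T : ℝ} {S : ℕ} (f1 : 12 ≤ Real.log T) (f4 : (4 * Real.log T) ^ (5 * S + 5) ≤ T ^ (2 / 10000 : ℝ)) :
    ((((Bx 5 T ×ˢ Bx (5 * S) T) ×ˢ (Finset.univ : Finset (Option (Option (Fin 5))))).card : ℕ) : ℝ) ≤ 7 * T ^ (2 / 10000 : ℝ) := by
  rw [Finset.card_product, Finset.card_product]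
  push_cast
  rw [card_Bx, card_Bx]
  have hLL := LL_le (T := T) (by linarith)
  have hLL0 : (0 : ℝ) ≤ (LL T : ℝ) + 1 := by positivity
  have h1 : ((LL T : ℝ) + 1) ^ 5 * ((LL T : ℝ) + 1) ^ (5 * S) ≤ (4 * Real.log T) ^ (5 * S + 5) := by
    rw [← pow_add, add_comm 5 (5 * S)]
    exact pow_le_pow_left₀ hLL0 hLL _
  have h5 : ((Finset.univ : Finset (Option (Option (Fin 5)))).card : ℝ) = 7 := by simp
  rw [h5]
  linarith

theorem Iw_nonneg {w : ℝ → ℝ} (hw0 : ∀ u, 0 ≤ w u) : 0 ≤ Iw w := by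
  unfold Iw
  refine MeasureTheory.setIntegral_nonneg measurableSet_Ioi fun u hu => ?_
  exact div_nonneg (hw0 u) (le_of_lt hu)

theorem final_num {lx P P1 a3 a5 a6 a7 a8 f5 m2 m4 m5 m6 m7 mm I δ C1k F L CL CE S1 S2 Q : ℝ} (hL : 12 ≤ L) (hlx0 : 0 ≤ lx) (hlx : lx ≤ 3 * L)
    (hI : 0 ≤ I) (hδ : 0 < δ) (hCL : 1 ≤ CL) (hCE : 1 ≤ CE)
    (f2 : 4 * (6 * CL + 6 * CE + 3) / δ ≤ L) (hk0 : 0 ≤ C1k) (hF0 : 0 ≤ F)
    (hk : C1k ≤ δ / 100) (hF : F ≤ δ / 100)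
    (h1 : S1 ≤ P + C1k / L + CL / L ^ 2)
    (h2 : P1 - 11 / 18 * a3 - 47 / 18 * a5 - 170 / 3 * a6 - 8291 / 18 * a7 - 8260 / 3 * a8 + 47 / 108 * f5 - CL / L ^ 2 ≤ S2)
    (hS : S2 - Q ≤ S1) (hQ : Q ≤ 1 / L ^ 2 + 2 * (F / L + CE / L ^ 2))
    (hp : |lx * P1 - I| ≤ δ / 4)
    (h3 : lx * a3 ≤ m2 / 2 * I + δ / 20000) (h5 : lx * a5 ≤ m4 / 24 * I + δ / 20000) (h6 : lx * a6 ≤ m5 / 120 * I + δ / 20000)
    (h7 : lx * a7 ≤ m6 / 720 * I + δ / 20000) (h8 : lx * a8 ≤ m7 / 5040 * I + δ / 20000)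
    (hf5 : mm * I - δ / 20000 ≤ lx * f5)
    (hnu : 11 / 18 * (m2 / 2) + 47 / 18 * (m4 / 24) + 170 / 3 * (m5 / 120) + 8291 / 18 * (m6 / 720) + 8260 / 3 * (m7 / 5040) -
      47 / 108 * mm ≤ 99 / 100) :
    I / 100 - δ ≤ lx * P := by
  have hLpos : 0 < L := by linarith
  have e1 : P1 - 11 / 18 * a3 - 47 / 18 * a5 - 170 / 3 * a6 - 8291 / 18 * a7 - 8260 / 3 * a8 + 47 / 108 * f5 -
      (C1k / L + 2 * (CL / L ^ 2) + 1 / L ^ 2 + 2 * (F / L + CE / L ^ 2)) ≤ P := by linarith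
  have e2 := mul_le_mul_of_nonneg_left e1 hlx0
  have e3 : lx * (C1k / L + 2 * (CL / L ^ 2) + 1 / L ^ 2 + 2 * (F / L + CE / L ^ 2)) ≤
      3 * C1k + 6 * F + (6 * CL + 6 * CE + 3) / L := by
    have hnn : 0 ≤ C1k / L + 2 * (CL / L ^ 2) + 1 / L ^ 2 + 2 * (F / L + CE / L ^ 2) := by positivity
    calc _ ≤ (3 * L) * (C1k / L + 2 * (CL / L ^ 2) + 1 / L ^ 2 + 2 * (F / L + CE / L ^ 2)) :=
          mul_le_mul_of_nonneg_right hlx hnn
      _ = _ := by field_simp; ring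
  have hf2 : (6 * CL + 6 * CE + 3) / L ≤ δ / 4 := by
    rw [div_le_iff₀ hδ] at f2
    rw [div_le_iff₀ hLpos]
    linarith
  have hp1 := (abs_le.1 hp).1
  have hnuI := mul_le_mul_of_nonneg_right hnu hI
  have e4 : lx * (P1 - 11 / 18 * a3 - 47 / 18 * a5 - 170 / 3 * a6 - 8291 / 18 * a7 - 8260 / 3 * a8 + 47 / 108 * f5 -
      (C1k / L + 2 * (CL / L ^ 2) + 1 / L ^ 2 + 2 * (F / L + CE / L ^ 2))) =
      lx * P1 - 11 / 18 * (lx * a3) - 47 / 18 * (lx * a5) - 170 / 3 * (lx * a6) - 8291 / 18 * (lx * a7) - 8260 / 3 * (lx * a8) + 47 / 108 * (lx * f5) -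
      lx * (C1k / L + 2 * (CL / L ^ 2) + 1 / L ^ 2 + 2 * (F / L + CE / L ^ 2)) := by ring
  rw [e4] at e2
  have e5 : (11 / 18 * (m2 / 2) + 47 / 18 * (m4 / 24) + 170 / 3 * (m5 / 120) + 8291 / 18 * (m6 / 720) + 8260 / 3 * (m7 / 5040) -
      47 / 108 * mm) * I = 11 / 18 * (m2 / 2 * I) + 47 / 18 * (m4 / 24 * I) + 170 / 3 * (m5 / 120 * I) + 8291 / 18 * (m6 / 720 * I) +
      8260 / 3 * (m7 / 5040 * I) - 47 / 108 * (mm * I) := by ring
  rw [e5] at hnuI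
  linarith [e2, e3, hf2, hp1, hnuI, h3, h5, h6, h7, h8, hf5]

end YMn_aux

open YMn_aux

open Classical in
/-- ITEM YMn -/
theorem iYMn (hBB : StYBB) (hAA : StYAA) (hSh : StYSh) (hCc : StYCc) (hRg : StYRg) (hV1 : StYV1) (hSv : StSv) (hSE : StYSE)
    (hLi : StYLi) (hPN : Pool.Agent.Work.MP_a8fbd7_nt.EX.ASM.StXPN) (hAl : StYAl) (hLo : StYLo) (hNu : StYNu) : StYMn := by
  intro w hw hw0 δ hδ
  obtain ⟨C1, hC1, hLi⟩ := hLi w hw hw0
  obtain ⟨κ1, hκ1, hκ1'', hκ1δ⟩ : ∃ κ1 : ℝ, 0 < κ1 ∧ κ1 ≤ 1 / 2000 ∧ C1 * κ1 ≤ δ / 100 := by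
    refine ⟨min (1 / 2000) (δ / (100 * C1)), by positivity, min_le_left _ _, ?_⟩
    have := min_le_right (1 / 2000) (δ / (100 * C1))
    have hC1' : 0 < C1 := by linarith
    calc C1 * min (1 / 2000) (δ / (100 * C1)) ≤ C1 * (δ / (100 * C1)) := by gcongr
      _ = δ / 100 := by field_simp
  have hκ1' : κ1 ≤ 1 / 20 := by linarith
  obtain ⟨κ2, hκ2, hκ2', hBB⟩ := hBB (κ1 / 2) (by positivity) (by linarith)
  obtain ⟨κ3, κ', hκ3, hκ3', hκ', hκ'', hAA⟩ := hAA κ2 hκ2 (by linarith)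
  obtain ⟨C0, hC0, hSv⟩ := hSv
  obtain ⟨C3, hC3, hSE⟩ := hSE w hw hw0 C0 hC0
  obtain ⟨s, hs1, hs0, hsE⟩ := exists_s (C0 := C0) hκ' hC3 (show 0 < δ / 100 by positivity)
  set η : ℝ := κ' / s with hη
  have hs : 0 < s := by linarith
  have hη0 : 0 < η := by positivity
  have hηκ : η ≤ κ' := by rw [hη, div_le_iff₀ hs]; nlinarith
  have hη20 : η ≤ 1 / 20 := by linarith
  set S : ℕ := SS η with hS
  set A : ℝ := ((10 * (S + 5) : ℕ) : ℝ) with hA
  have hA0 : 0 < A := by rw [hA]; positivity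
  obtain ⟨B1, hB1, hBB⟩ := hBB w hw η A hη0 hη20 hA0
  obtain ⟨B2, hB2, hAA⟩ := hAA w hw η A hη0 hηκ hA0
  set B : ℝ := max B1 B2 with hB
  have hB1' : 1 ≤ B := hB1.trans (le_max_left _ _)
  obtain ⟨CB, hCB, hBB⟩ := hBB B (le_max_left _ _)
  obtain ⟨CA, hCA, hAA⟩ := hAA B (le_max_right _ _)
  obtain ⟨CR, hCR, hRg⟩ := hRg w hw (5 * S)
  set E : ℝ := Real.exp (-s) with hE
  have hE0 : 0 < E := Real.exp_pos _
  obtain ⟨CE, hCE, hSE⟩ := hSE η κ3 κ' E B hη0 hη20 hκ3 (by linarith) hκ' (by linarith) hE0 hB1'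
  obtain ⟨CL, hCL, hLi⟩ := hLi η κ1 hη0 hη20 hκ1 hκ1'
  obtain ⟨CP, hCP, hPN⟩ := hPN w hw hw0 B (δ / 4) hB1' (by positivity)
  obtain ⟨CM, hCM, hAl⟩ := hAl w hw hw0 B (δ / 20000) hB1' (by positivity)
  obtain ⟨CO, hCO, hLo⟩ := hLo w hw hw0 B (δ / 20000) κ1 hB1' (by positivity) hκ1 hκ1''
  -- large T
  have hlog : Tendsto (fun T : ℝ => Real.log T) atTop atTop := Real.tendsto_log_atTop
  have ev1 : ∀ᶠ T : ℝ in atTop, 12 ≤ Real.log T := hlog.eventually_ge_atTop 12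
  have ev2 : ∀ᶠ T : ℝ in atTop, 4 * (6 * CL + 6 * CE + 3) / δ ≤ Real.log T := hlog.eventually_ge_atTop _
  have ev3 : ∀ᶠ T : ℝ in atTop, Real.log T ^ B ≤ T := by
    have := (isLittleO_log_rpow_rpow_atTop B (zero_lt_one)).bound (zero_lt_one)
    filter_upwards [this, eventually_ge_atTop 3] with T h h3
    have hl : 0 ≤ Real.log T := Real.log_nonneg (by linarith)
    rw [Real.rpow_one, one_mul, Real.norm_eq_abs, Real.norm_eq_abs, abs_of_nonneg (by positivity), abs_of_nonneg (by linarith)] at h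
    exact h
  have ev4 : ∀ᶠ T : ℝ in atTop, (4 * Real.log T) ^ (5 * S + 5) ≤ T ^ (2 / 10000 : ℝ) := by
    have := (isLittleO_log_rpow_rpow_atTop ((5 * S + 5 : ℕ) : ℝ) (show (0 : ℝ) < 2 / 10000 by norm_num)).bound
      (show (0 : ℝ) < 1 / 4 ^ (5 * S + 5) by positivity)
    filter_upwards [this, eventually_ge_atTop 3] with T h h3
    have hl : 0 ≤ Real.log T := Real.log_nonneg (by linarith)
    have hT0 : 0 < T := by linarith
    rw [Real.norm_eq_abs, Real.norm_eq_abs, Real.rpow_natCast, abs_of_nonneg (by positivity), abs_of_nonneg (by positivity)] at h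
    rw [mul_pow]
    calc (4 : ℝ) ^ (5 * S + 5) * Real.log T ^ (5 * S + 5) ≤ 4 ^ (5 * S + 5) * (1 / 4 ^ (5 * S + 5) * T ^ (2 / 10000 : ℝ)) := by gcongr
      _ = T ^ (2 / 10000 : ℝ) := by field_simp
  have ev5 : ∀ᶠ T : ℝ in atTop, CR ≤ T ^ (κ1 / 100) := (tendsto_rpow_atTop (by positivity)).eventually_ge_atTop CR
  have ev7 : ∀ᶠ T : ℝ in atTop, 2 ≤ T ^ η := (tendsto_rpow_atTop hη0).eventually_ge_atTop 2
  obtain ⟨T0, hT0⟩ := (ev1.and (ev2.and (ev3.and (ev4.and (ev5.and ev7))))).exists_forall_of_atTop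
  refine ⟨max (max (max T0 3) (max CB CA)) (max (max (max CM CE) (max CL CP)) (max CO (7 * (CB + CA)))), ?_, ?_⟩
  · exact le_trans (by norm_num) (((le_max_right T0 3).trans (le_max_left _ _)).trans (le_max_left _ _))
  intro T hT
  simp only [max_le_iff] at hT
  obtain ⟨⟨⟨hTT0, hT3⟩, hTCB, hTCA⟩, ⟨⟨hTCM, hTCE⟩, hTCL, hTCP⟩, hTCO, hT5⟩ := hT
  obtain ⟨f1, f2, f3, f4, f5, f7⟩ := hT0 T hTT0
  have hTpos : 0 < T := by linarith
  have hLpos : 0 < Real.log T := by linarith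
  set T1 : ℝ := Real.log T ^ B with hT1
  have hT1' : 1 ≤ T1 := Real.one_le_rpow (by linarith) (by linarith)
  set y : ℕ := zz η T with hy
  set z : ℕ := zz c2 T with hz
  have hy2 : 2 ≤ y := by
    rw [hy]; unfold zz
    exact Nat.le_floor (by exact_mod_cast f7)
  obtain ⟨lp, lm, hsv⟩ := hSv s y hs0 hy2
  have hD : (y : ℝ) ^ s ≤ T ^ κ' := by
    have h1 : (y : ℝ) ≤ T ^ η := by
      rw [hy]; unfold zz
      exact Nat.floor_le (by positivity)
    calc (y : ℝ) ^ s ≤ (T ^ η) ^ s := Real.rpow_le_rpow (by positivity) h1 (by linarith)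
      _ = T ^ κ' := by rw [← Real.rpow_mul hTpos.le, hη]; congr 1; field_simp
  have hCAB : 0 ≤ CB + CA := by linarith
  -- packing
  have hpk := pack_Pb (w := w) (T := T) (T1 := T1) (κ1 := κ1) (κ2 := κ2) (κ3 := κ3) (κ' := κ') (A := A)
    (C := CB + CA) (y := y) (z := z) (S := S) hTpos hsv hD hCAB
    (fun u v h1 hg h2 => by
      intro S' hS' hx
      refine (hBB T u v hTCB h1 hg h2 S' hS' hx).trans ?_
      have : 0 ≤ T ^ r2 := Real.rpow_nonneg hTpos.le _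
      nlinarith)
    (fun u v lw h1 hg h2 h3 => by
      intro S' hS' hx
      refine (hAA T u v lw hTCA h1 hg h2 h3 S' hS' hx).trans ?_
      have : 0 ≤ T ^ r2 := Real.rpow_nonneg hTpos.le _
      nlinarith)
  set I := (Bx 5 T ×ˢ Bx (5 * S) T) ×ˢ (Finset.univ : Finset (Option (Option (Fin 5)))) with hI
  have hun := Mn_aux.pack_union I (Pb w T T1 κ2 κ3 (κ1 / 2) A y z S lp lm) (fun p _ => hpk p)
  refine Mn_aux.pack_mono hun ?_ ?_
  · -- good points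
    intro x hx1 hx2 hbad
    by_contra hcon
    have hgood : ∀ u ∈ Bx 5 T, ∀ v ∈ Bx (5 * S) T, ∀ j, ¬ Pb w T T1 κ2 κ3 (κ1 / 2) A y z S lp lm ((u, v), j) x := by
      intro u hu v hv j hP
      exact hcon ⟨((u, v), j), by simp [hI, hu, hv], hP⟩
    have hx : 0 < x := lt_of_lt_of_le (by positivity) hx1
    have hgp := good_point hw hw0 hV1 hCc (CR := CR) (κ1 := κ1) hT3 hT1' hκ3 hsv hx1 hLpos
      (fun u v T' hT' h => hRg T κ3 x T' y z (fun _ => lp) u v (by linarith) hT' hx1 hx2 (Or.inl h))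
      (fun u v h1 => by
        obtain ⟨g1, g2⟩ := hSh κ1 κ2 T S u v hκ1 hκ1' hκ2 (by linarith) (by linarith) h1
        refine ⟨g1, fun h2 h3 => g2 h2 ?_⟩
        refine le_trans ?_ h3
        have hCR0 : 0 < CR := by linarith
        rw [le_div_iff₀ hCR0]
        calc T ^ (2 - κ1 / 100) * CR ≤ T ^ (2 - κ1 / 100) * T ^ (κ1 / 100) := by gcongr
          _ = T ^ 2 := by
            rw [← Real.rpow_add hTpos, ← Real.rpow_natCast]; congr 1; push_cast; ring)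
      hgood
    have hse := hSE T x lp lm hTCE hx1 hx2 (Mn_aux.isSv_mono hsv hD)
    have hli1 := (hLi T T x hTCL (by linarith) le_rfl hx1 hx2).1
    have hli2 := (hLi T T1 x hTCL hT1' f3 hx1 hx2).2
    have hx15 : T ^ (1 / 5 : ℝ) ≤ x := by
      refine le_trans ?_ hx1
      rw [← Real.rpow_natCast]
      exact Real.rpow_le_rpow_of_exponent_le (by linarith) (by norm_num)
    have hpn := hPN T x hTCP hx15 hx2
    have hal := hAl T x hTCM hx1 hx2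
    have ha3 := hal 3 (by norm_num) (by norm_num)
    have ha5 := hal 5 (by norm_num) (by norm_num)
    have hlo := hLo T x hTCO hx1 hx2
    have ha6 := hal 6 (by norm_num) (by norm_num)
    have ha7 := hal 7 (by norm_num) (by norm_num)
    have ha8 := hal 8 (by norm_num) (by norm_num)
    have g2 : (((3 - 1 : ℕ).factorial : ℕ) : ℝ) = 2 := by norm_num [Nat.factorial]
    have g4 : (((5 - 1 : ℕ).factorial : ℕ) : ℝ) = 24 := by norm_num [Nat.factorial]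
    have g5 : (((6 - 1 : ℕ).factorial : ℕ) : ℝ) = 120 := by norm_num [Nat.factorial]
    have g6 : (((7 - 1 : ℕ).factorial : ℕ) : ℝ) = 720 := by norm_num [Nat.factorial]
    have g7 : (((8 - 1 : ℕ).factorial : ℕ) : ℝ) = 5040 := by norm_num [Nat.factorial]
    rw [g2] at ha3
    rw [g4] at ha5
    rw [g5] at ha6
    rw [g6] at ha7
    rw [g7] at ha8
    -- number of boxes
    have hbox := num_box (S := S) (A := A) hA f1
    have hlx0 : 0 ≤ Real.log x := Real.log_nonneg (by nlinarith)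
    have hlx : Real.log x ≤ 3 * Real.log T := by
      have h1 : Real.log x ≤ Real.log (4 * T ^ 2) := Real.log_le_log hx hx2
      have h2 : Real.log (4 * T ^ 2) = Real.log 4 + 2 * Real.log T := by
        rw [Real.log_mul (by norm_num) (by positivity), Real.log_pow]; push_cast; ring
      have h3 : Real.log 4 ≤ 4 := by
        have := Real.log_le_sub_one_of_pos (show (0 : ℝ) < 4 by norm_num)
        linarith
      linarith
    have hsum : |∑ u ∈ Bx 5 T, ∑ v ∈ Bx (5 * S) T, ccX5 T κ1 u v * (T / x * SW w (BX5 y z u v) x T) -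
        ∑ u ∈ Bx 5 T, ∑ v ∈ Bx (5 * S) T, ccX5 T κ1 u v * (T1 / x * SW w (BX5 y z u v) x T1)| ≤
        ∑ u ∈ Bx 5 T, ∑ v ∈ Bx (5 * S) T, |ccX5 T κ1 u v| * |DD w (BX5 y z u v) x T T1| := by
      rw [← Finset.sum_sub_distrib]
      refine (Finset.abs_sum_le_sum_abs _ _).trans (Finset.sum_le_sum fun u _ => ?_)
      rw [← Finset.sum_sub_distrib]
      refine (Finset.abs_sum_le_sum_abs _ _).trans (Finset.sum_le_sum fun v _ => ?_)
      rw [← mul_sub, abs_mul]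
      exact le_of_eq rfl
    have hSS := (abs_le.1 hsum).1
    have hfinal := final_num (C1k := C1 * κ1) (F := (C3 / η) ^ 16 * E) (CE := CE) (L := Real.log T)
      (Q := ∑ u ∈ Bx 5 T, ∑ v ∈ Bx (5 * S) T, |ccX5 T κ1 u v| * |DD w (BX5 y z u v) x T T1|)
      f1 hlx0 hlx (Iw_nonneg hw0) hδ hCL hCE f2 (by positivity) (by positivity) hκ1δ hsE hli1 hli2
      (by linarith) (by linarith [hgp, hbox, hse]) hpn ha3 ha5 ha6 ha7 ha8 hlo hNu
    exact absurd hbad (not_lt.2 hfinal)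
  · -- number of points
    have hcard : (I.card : ℝ) ≤ 7 * T ^ (2 / 10000 : ℝ) := num_card f1 f4
    have hr : T ^ (2 / 10000 : ℝ) * T ^ r2 = T ^ r12 := by
      rw [← Real.rpow_add hTpos]; congr 1; unfold r2 r12; norm_num
    have hr1 : 0 ≤ T ^ r12 := Real.rpow_nonneg hTpos.le _
    have hr0 : 0 ≤ T ^ r2 := Real.rpow_nonneg hTpos.le _
    calc (I.card : ℝ) * ((CB + CA) * T ^ r2) ≤ (7 * T ^ (2 / 10000 : ℝ)) * ((CB + CA) * T ^ r2) := by gcongr
      _ = 7 * (CB + CA) * (T ^ (2 / 10000 : ℝ) * T ^ r2) := by ring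
      _ = 7 * (CB + CA) * T ^ r12 := by rw [hr]
      _ ≤ _ := by
        gcongr
        exact (le_max_right _ _).trans ((le_max_right _ _).trans (le_max_right _ _))

end Pool.Agent.Work.MP_a8fbd7_nt.EX.ASM2
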