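import Mathlib
import Pool.Agent.Work.MP_a8fbd7_nt.EX.ASM.I_XNu
import Pool.Agent.Work.MP_a8fbd7_nt.EX.ASM2.Stmts

/-!
MP_a8fbd7_nt, block EX, second wave, part ASM2, item YNu: the numerical constant (Kronecker substitution), helper93.
-/

set_option autoImplicit false

open MeasureTheory Set Filter Topology

noncomputable section

namespace Pool.Agent.Work.MP_a8fbd7_nt.EX.ASM2

open Pool.Agent.Work.MP_a8fbd7_nt.EX.ASM.XNu_aux (key)

namespace YNu_aux

/-! ### Upper bounds for `mass2` -/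

/-- base of the Kronecker substitution -/
def B : ℕ := 2 ^ 400

/-- `10^12` times an upper bound for `log ((j+1)/j)` -/
def aa (j : ℕ) : ℕ := if j ≤ 798 then 1000000000000 * (2 * j + 1) / (2 * j * (j + 1)) + 1 else 0

/-- binary splitting: `∑_{k < 2^d} aa (lo + k) B^k` -/
def G : ℕ → ℕ → ℕ
  | 0, lo => aa lo
  | d + 1, lo => G d lo + B ^ (2 ^ d) * G d (lo + 2 ^ d)

/-- binary splitting: `∑_{k < 2^d} aa (lo + k)` -/
def H : ℕ → ℕ → ℕ
  | 0, lo => aa lo
  | d + 1, lo => H d lo + H d (lo + 2 ^ d)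

theorem G_eq (d : ℕ) : ∀ lo : ℕ, G d lo = ∑ k ∈ Finset.range (2 ^ d), aa (lo + k) * B ^ k := by
  induction d with
  | zero => intro lo; simp [G]
  | succ d ih =>
    intro lo
    rw [G, ih, ih, pow_succ, mul_two, Finset.sum_range_add, Finset.mul_sum]
    congr 1
    apply Finset.sum_congr rfl
    intro k _
    rw [pow_add, add_assoc]
    ring

theorem H_eq (d : ℕ) : ∀ lo : ℕ, H d lo = ∑ k ∈ Finset.range (2 ^ d), aa (lo + k) := by
  induction d with
  | zero => intro lo; simp [H]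
  | succ d ih =>
    intro lo
    rw [H, ih, ih, pow_succ, mul_two, Finset.sum_range_add]
    congr 1
    apply Finset.sum_congr rfl
    intro k _
    rw [add_assoc]

theorem Icc_eq : Finset.Icc (102 : ℕ) 798 = Finset.Ico 102 799 := by
  ext x; simp only [Finset.mem_Icc, Finset.mem_Ico]; omega

theorem sum_eq (g : ℕ → ℕ) (hg : ∀ j, 799 ≤ j → g j = 0) :
    ∑ j ∈ Finset.Icc (102 : ℕ) 798, g j = ∑ k ∈ Finset.range (2 ^ 10), g (102 + k) := by
  rw [Icc_eq, Finset.sum_Ico_eq_sum_range]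
  apply Finset.sum_subset
  · intro x hx
    simp only [Finset.mem_range] at hx ⊢
    omega
  · intro x _ hx
    simp only [Finset.mem_range] at hx
    exact hg _ (by omega)

theorem aa_zero (j : ℕ) (hj : 799 ≤ j) : aa j = 0 := by
  unfold aa; rw [if_neg (by omega)]

theorem sumB : ∑ j ∈ Finset.Icc (102 : ℕ) 798, aa j * B ^ j = B ^ 102 * G 10 102 := by
  rw [sum_eq (fun j => aa j * B ^ j) (fun j hj => by simp only [aa_zero j hj, zero_mul]), G_eq,
    Finset.mul_sum]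
  apply Finset.sum_congr rfl
  intro k _
  simp only [pow_add]
  ring

theorem sumA : ∑ j ∈ Finset.Icc (102 : ℕ) 798, aa j = H 10 102 := by
  rw [sum_eq aa aa_zero, H_eq]

theorem log_bd (j : ℕ) (h1 : 102 ≤ j) (h2 : j ≤ 798) : Lk j ≤ (aa j : ℝ) / 1000000000000 := by
  unfold Lk
  have hj : (0 : ℝ) < j := by
    have : 0 < j := by omega
    exact_mod_cast this
  have ht : (1 : ℝ) ≤ ((j : ℝ) + 1) / j := by
    rw [le_div_iff₀ hj]; linarith
  have ht0 : (0 : ℝ) < ((j : ℝ) + 1) / j := by positivity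
  have h3 : Real.log (((j : ℝ) + 1) / j) ≤ ((((j : ℝ) + 1) / j) - (((j : ℝ) + 1) / j)⁻¹) / 2 := by
    rw [← Real.sinh_log ht0]
    exact Real.self_le_sinh_iff.2 (Real.log_nonneg ht)
  refine h3.trans ?_
  have h4 : ((((j : ℝ) + 1) / j) - (((j : ℝ) + 1) / j)⁻¹) / 2 = (2 * j + 1) / (2 * j * (j + 1)) := by
    field_simp
    ring
  rw [h4, le_div_iff₀ (by norm_num)]
  unfold aa
  rw [if_pos h2]
  have h5 : 1000000000000 * (2 * j + 1) < (1000000000000 * (2 * j + 1) / (2 * j * (j + 1)) + 1) * (2 * j * (j + 1)) := by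
    have hpos : 0 < 2 * j * (j + 1) := by
      have : 0 < j := by omega
      positivity
    have := Nat.lt_mul_div_succ (1000000000000 * (2 * j + 1)) hpos
    rwa [mul_comm (2 * j * (j + 1)) _] at this
  have h6 : (1000000000000 : ℝ) * (2 * j + 1) ≤ ((1000000000000 * (2 * j + 1) / (2 * j * (j + 1)) + 1 : ℕ) : ℝ) * (2 * j * (j + 1)) := by
    exact_mod_cast h5.le
  rw [div_mul_eq_mul_div, div_le_iff₀ (by positivity)]
  linarith

theorem Lk_nonneg (j : ℕ) (h : 1 ≤ j) : 0 ≤ Lk j := by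
  unfold Lk
  have hj : (0 : ℝ) < j := by exact_mod_cast h
  apply Real.log_nonneg
  rw [le_div_iff₀ hj]; linarith

/-- the mass in terms of the sum of the coefficients -/
theorem mass_le (n : ℕ) (V : ℕ) (hlt : (H 10 102) ^ n < B - 1)
    (hV : ((B ^ 102 * G 10 102) ^ n % B ^ (798 + 1)) % (B - 1) = V) :
    mass2 n ≤ (V : ℝ) / 1000000000000 ^ n := by
  have h1 := key n aa B (by decide +kernel) (Finset.Icc (102 : ℕ) 798) 798 (by rw [sumA]; exact hlt)
  rw [sumB, hV] at h1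
  rw [← h1]
  unfold mass2
  push_cast
  rw [Finset.sum_div]
  apply Finset.sum_le_sum
  intro f hf
  rw [Finset.mem_filter, Fintype.mem_piFinset] at hf
  calc ∏ i, Lk (f i) ≤ ∏ i, ((aa (f i) : ℝ) / 1000000000000) := by
        apply Finset.prod_le_prod
        · intro i _
          have h2 := Finset.mem_Icc.1 (hf.1 i)
          exact Lk_nonneg _ (by omega)
        · intro i _
          have h2 := Finset.mem_Icc.1 (hf.1 i)
          exact log_bd (f i) h2.1 h2.2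
    _ = (∏ i, (aa (f i) : ℝ)) / 1000000000000 ^ n := by
        rw [Finset.prod_div_distrib, Finset.prod_const, Finset.card_univ, Fintype.card_fin]

theorem lt2 : (H 10 102) ^ 2 < B - 1 := by decide +kernel

theorem val2 : ((B ^ 102 * G 10 102) ^ 2 % B ^ (798 + 1)) % (B - 1) = 2858424347425742434501432 := by decide +kernel

theorem lt4 : (H 10 102) ^ 4 < B - 1 := by decide +kernel

theorem val4 : ((B ^ 102 * G 10 102) ^ 4 % B ^ (798 + 1)) % (B - 1) = 1254818121633744448128876660100345670977693046838 := by decide +kernel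

theorem lt5 : (H 10 102) ^ 5 < B - 1 := by decide +kernel

theorem val5 : ((B ^ 102 * G 10 102) ^ 5 % B ^ (798 + 1)) % (B - 1) = 276004352491397804759830437440830381737631806489182323904861 := by decide +kernel

theorem lt6 : (H 10 102) ^ 6 < B - 1 := by decide +kernel

theorem val6 : ((B ^ 102 * G 10 102) ^ 6 % B ^ (798 + 1)) % (B - 1) = 15453083631537946521109375768334453402495746015253227012158838590513869 := by decide +kernel

theorem lt7 : (H 10 102) ^ 7 < B - 1 := by decide +kernel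

theorem val7 : ((B ^ 102 * G 10 102) ^ 7 % B ^ (798 + 1)) % (B - 1) = 35375007344150954926620844104274670456161394890043663835285104808849369096480172 := by decide +kernel

/-! ### Lower bounds: digits -/

theorem cut {ι : Type*} (I : Finset ι) (c e : ι → ℕ) (C t : ℕ) (h : ∑ i ∈ I, c i < C) :
    (∑ i ∈ I, c i * C ^ e i) % C ^ t = ∑ i ∈ I.filter (fun i => e i < t), c i * C ^ e i := by
  rw [← Finset.sum_filter_add_sum_filter_not I (fun i => e i < t) (fun i => c i * C ^ e i)]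
  have h1 : C ^ t ∣ ∑ i ∈ I.filter (fun i => ¬ e i < t), c i * C ^ e i := by
    apply Finset.dvd_sum
    intro i hi
    rw [Finset.mem_filter] at hi
    exact Dvd.dvd.mul_left (pow_dvd_pow C (by omega)) _
  obtain ⟨M, hM⟩ := h1
  rw [hM, Nat.add_mul_mod_self_left]
  apply Nat.mod_eq_of_lt
  rcases Nat.eq_zero_or_pos t with ht | ht
  · subst ht
    simp
  · have h2 : ∑ i ∈ I.filter (fun i => e i < t), c i * C ^ e i ≤ (∑ i ∈ I, c i) * C ^ (t - 1) := by
      calc ∑ i ∈ I.filter (fun i => e i < t), c i * C ^ e i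
          ≤ ∑ i ∈ I.filter (fun i => e i < t), c i * C ^ (t - 1) := by
            apply Finset.sum_le_sum
            intro i hi
            rw [Finset.mem_filter] at hi
            exact Nat.mul_le_mul_left _ (Nat.pow_le_pow_right (by omega) (by omega))
        _ = (∑ i ∈ I.filter (fun i => e i < t), c i) * C ^ (t - 1) := by rw [Finset.sum_mul]
        _ ≤ _ := Nat.mul_le_mul_right _ (Finset.sum_le_sum_of_subset (Finset.filter_subset _ _))
    refine lt_of_le_of_lt h2 ?_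
    calc (∑ i ∈ I, c i) * C ^ (t - 1) < C * C ^ (t - 1) :=
          Nat.mul_lt_mul_of_pos_right h (by have : 0 < C := by omega
                                            positivity)
      _ = C ^ t := by rw [← pow_succ', Nat.sub_add_cancel ht]

theorem digit {ι : Type*} (I : Finset ι) (c e : ι → ℕ) (C t : ℕ) (h : ∑ i ∈ I, c i < C) :
    (∑ i ∈ I, c i * C ^ e i) / C ^ t % C = ∑ i ∈ I.filter (fun i => e i = t), c i := by
  have hC : 0 < C := by omega
  rw [← Nat.mod_mul_right_div_self, ← pow_succ, cut I c e C (t + 1) h]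
  have h1 : ∑ i ∈ I.filter (fun i => e i < t + 1), c i * C ^ e i =
      ∑ i ∈ I.filter (fun i => e i < t), c i * C ^ e i + C ^ t * ∑ i ∈ I.filter (fun i => e i = t), c i := by
    rw [Finset.mul_sum, ← Finset.sum_filter_add_sum_filter_not (I.filter (fun i => e i < t + 1)) (fun i => e i < t)
      (fun i => c i * C ^ e i), Finset.filter_filter, Finset.filter_filter]
    congr 1
    · apply Finset.sum_congr _ (fun _ _ => rfl)
      apply Finset.filter_congr
      intro i _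
      constructor
      · rintro ⟨_, h3⟩; exact h3
      · intro h3; exact ⟨by omega, h3⟩
    · apply Finset.sum_congr
      · apply Finset.filter_congr
        intro i _
        constructor
        · rintro ⟨h3, h4⟩; omega
        · intro h3; exact ⟨by omega, by omega⟩
      · intro i hi
        rw [Finset.mem_filter] at hi
        rw [hi.2, mul_comm]
  have h2 : ∑ i ∈ I.filter (fun i => e i < t), c i * C ^ e i < C ^ t := by
    rw [← cut I c e C t h]
    exact Nat.mod_lt _ (by positivity)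
  rw [h1, Nat.add_mul_div_left _ _ (by positivity), Nat.div_eq_of_lt h2, zero_add]

/-! ### Lower bounds: the numbers -/

/-- base of the Kronecker substitution for the lower bounds -/
def D : ℕ := 2 ^ 256

/-- `10^12` times a lower bound for `Lk k` -/
def a (k : ℕ) : ℕ := 2000000000000 / (2 * k + 1)

/-- `10^6` times a lower bound for `600/(600-r)` -/
def z (r : ℕ) : ℕ := 600000000 / (600 - r)

/-- sums as a recursion -/
def sm (f : ℕ → ℕ) : ℕ → ℕ
  | 0 => 0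
  | n + 1 => sm f n + f n

theorem sm_eq (f : ℕ → ℕ) (n : ℕ) : sm f n = ∑ i ∈ Finset.range n, f i := by
  induction n with
  | zero => rfl
  | succ n ih => rw [sm, ih, Finset.sum_range_succ]

/-- sums over `[68, m]` -/
theorem sum68 (f : ℕ → ℕ) (m : ℕ) : ∑ k ∈ Finset.Icc 68 m, f k = sm (fun i => f (68 + i)) (m - 67) := by
  have h1 : Finset.Icc 68 m = Finset.Ico 68 (m + 1) := by
    ext x; simp only [Finset.mem_Icc, Finset.mem_Ico]; omega
  rw [h1, Finset.sum_Ico_eq_sum_range, sm_eq, show m + 1 - 68 = m - 67 by omega]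

/-- the polynomial `∑_{68 ≤ k ≤ m} a_k X^k` at `D` -/
def PP (m : ℕ) : ℕ := sm (fun i => a (68 + i) * D ^ (68 + i)) (m - 67)

theorem PP_eq (m : ℕ) : PP m = ∑ k ∈ Finset.Icc 68 m, a k * D ^ k := by
  rw [sum68 (fun k => a k * D ^ k)]; rfl

/-- weights of `mass5a` and `mass6a` together, times `10^18` -/
def W (r : ℕ) : ℕ := 1000000000000 * z r + sm (fun i => a (68 + i) * z (r + (68 + i))) ((593 - r) / 2 - 67)

/-- a weight function as a number -/
def WW (w : ℕ → ℕ) : ℕ := sm (fun i => w (200 + i) * D ^ (400 - i)) 400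

/-- the box `[68, m]^3` -/
def Bx3 (m : ℕ) : Finset (ℕ × ℕ × ℕ) := Finset.Icc 68 m ×ˢ (Finset.Icc 68 m ×ˢ Finset.Icc 68 m)

/-- sum of the cells -/
def ss (x : ℕ × ℕ × ℕ) : ℕ := x.1 + x.2.1 + x.2.2

/-- product of the weights -/
def pp (x : ℕ × ℕ × ℕ) : ℕ := a x.1 * a x.2.1 * a x.2.2

theorem cube (f : ℕ → ℕ) (m : ℕ) :
    (∑ k ∈ Finset.Icc 68 m, f k) ^ 3 = ∑ x ∈ Bx3 m, f x.1 * f x.2.1 * f x.2.2 := by
  unfold Bx3
  rw [Finset.sum_product]
  simp only [Finset.sum_product]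
  rw [pow_three, Finset.sum_mul_sum, Finset.sum_mul]
  apply Finset.sum_congr rfl
  intro i _
  rw [Finset.mul_sum]
  apply Finset.sum_congr rfl
  intro j _
  rw [Finset.mul_sum]
  apply Finset.sum_congr rfl
  intro k _
  ring

/-- the digit which is evaluated -/
def EE (m t q w : ℕ) : ℕ := ((PP m) ^ 3 % D ^ (t + 1) * w / D ^ (600 - q)) % D

theorem Bx3_sub (m : ℕ) (hm : m ≤ 160) : Bx3 m ⊆ Bx3 160 := by
  intro x hx
  simp only [Bx3, Finset.mem_product, Finset.mem_Icc] at hx ⊢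
  omega

theorem EE_eq (m t q : ℕ) (w : ℕ → ℕ) (hm : m ≤ 160) (h1 : q + t < 600)
    (hlt : (sm (fun i => a (68 + i)) 93) ^ 3 * sm (fun i => w (200 + i)) 400 < D)
    (hw : 1 ≤ sm (fun i => w (200 + i)) 400) :
    EE m t q (WW w) = ∑ x ∈ (Bx3 m).filter (fun x => ss x ≤ t), pp x * w (q + ss x) := by
  have hs : ∑ x ∈ Bx3 160, pp x = (sm (fun i => a (68 + i)) 93) ^ 3 := by
    rw [show 93 = 160 - 67 by norm_num, ← sum68 a 160, cube]; rfl
  have hle : ∑ x ∈ Bx3 m, pp x ≤ ∑ x ∈ Bx3 160, pp x := Finset.sum_le_sum_of_subset (Bx3_sub m hm)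
  have hlt1 : ∑ x ∈ Bx3 m, pp x < D := by
    refine lt_of_le_of_lt hle ?_
    rw [hs]
    exact lt_of_le_of_lt (Nat.le_mul_of_pos_right _ hw) hlt
  have hP : (PP m) ^ 3 = ∑ x ∈ Bx3 m, pp x * D ^ ss x := by
    rw [PP_eq, cube]
    apply Finset.sum_congr rfl
    intro x _
    unfold pp ss
    rw [pow_add, pow_add]
    ring
  unfold EE
  rw [hP, cut _ _ _ _ _ hlt1, WW, sm_eq, Finset.sum_mul_sum, ← Finset.sum_product']
  have h2 : ∀ y ∈ (Bx3 m).filter (fun x => ss x < t + 1) ×ˢ Finset.range 400,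
      pp y.1 * D ^ ss y.1 * (w (200 + y.2) * D ^ (400 - y.2)) =
        (pp y.1 * w (200 + y.2)) * D ^ (ss y.1 + (400 - y.2)) := by
    intro y _
    rw [pow_add]; ring
  rw [Finset.sum_congr rfl h2]
  refine (digit _ (fun y : (ℕ × ℕ × ℕ) × ℕ => pp y.1 * w (200 + y.2)) (fun y => ss y.1 + (400 - y.2)) D (600 - q) ?_).trans ?_
  rotate_left
  · rw [Finset.sum_filter, Finset.sum_product]
    apply Finset.sum_congr
    · apply Finset.filter_congr
      intro x _
      omega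
    · intro x hx
      rw [Finset.mem_filter] at hx
      have hx1 : 204 ≤ ss x := by
        have := hx.1
        simp only [Bx3, Finset.mem_product, Finset.mem_Icc] at this
        unfold ss; omega
      rw [Finset.sum_eq_single (q + ss x - 200)]
      · dsimp only
        rw [if_pos (by omega), show 200 + (q + ss x - 200) = q + ss x by omega]
      · intro i hi hne
        rw [Finset.mem_range] at hi
        dsimp only
        rw [if_neg (by omega)]
      · intro hn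
        rw [Finset.mem_range] at hn
        exact absurd (by omega) hn
  · calc ∑ y ∈ (Bx3 m).filter (fun x => ss x < t + 1) ×ˢ Finset.range 400, pp y.1 * w (200 + y.2)
        = (∑ x ∈ (Bx3 m).filter (fun x => ss x < t + 1), pp x) * ∑ i ∈ Finset.range 400, w (200 + i) := by
          rw [Finset.sum_mul_sum, ← Finset.sum_product']
      _ ≤ (∑ x ∈ Bx3 160, pp x) * ∑ i ∈ Finset.range 400, w (200 + i) :=
          Nat.mul_le_mul_right _ ((Finset.sum_le_sum_of_subset (Finset.filter_subset _ _)).trans hle)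
      _ < D := by rw [hs, ← sm_eq (fun i => w (200 + i)) 400]; exact hlt

theorem ltW : (sm (fun i => a (68 + i)) 93) ^ 3 * sm (fun i => W (200 + i)) 400 < D := by decide +kernel

theorem ltz : (sm (fun i => a (68 + i)) 93) ^ 3 * sm (fun i => z (200 + i)) 400 < D := by decide +kernel

theorem oneW : 1 ≤ sm (fun i => W (200 + i)) 400 := by decide +kernel

theorem onez : 1 ≤ sm (fun i => z (200 + i)) 400 := by decide +kernel

/-- the main part: `q = 70 + i` is the cell `k1` -/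
def SA : ℕ := sm (fun i => a (70 + i) * EE (min (68 + i) 160) (min 296 (594 - 2 * (70 + i))) (70 + i) (WW W)) 126

/-- sum over the cells `(u - k5, k5)` -/
def UU (u : ℕ) : ℕ := sm (fun i => a (u - (68 + i)) * a (68 + i)) ((u - 1) / 2 - 67)

/-- the part `mass6b`: `u = 162 + i` is `k1 + k5` -/
def SB : ℕ := sm (fun i => UU (162 + i) * EE 160 (592 - 2 * (162 + i)) (162 + i) (WW z)) 33

theorem valA : 366890705099936685606686150816935655413907290964753238175454411000 ≤ SA := by decide +kernel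

theorem valB : 5800000000000000000000000000000000000000000000000000000000000000 ≤ SB := by decide +kernel

/-! ### Lower bounds: the masses -/

/-- membership in the box, as an opaque condition -/
structure InB (m : ℕ) (x : ℕ × ℕ × ℕ) : Prop where
  c1 : 68 ≤ x.1 ∧ x.1 ≤ m
  c2 : 68 ≤ x.2.1 ∧ x.2.1 ≤ m
  c3 : 68 ≤ x.2.2 ∧ x.2.2 ≤ m

theorem mem_Bx3 (m : ℕ) (x : ℕ × ℕ × ℕ) : x ∈ Bx3 m ↔ InB m x := by
  unfold Bx3
  rw [Finset.mem_product, Finset.mem_product, Finset.mem_Icc, Finset.mem_Icc, Finset.mem_Icc]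
  exact ⟨fun h => ⟨h.1, h.2.1, h.2.2⟩, fun h => ⟨h.c1, h.c2, h.c3⟩⟩

theorem sum_le_Bx3 (m : ℕ) (f g : ℕ × ℕ × ℕ → ℝ) (h : ∀ x, InB m x → f x ≤ g x) : ∑ x ∈ Bx3 m, f x ≤ ∑ x ∈ Bx3 m, g x :=
  Finset.sum_le_sum fun x hx => h x ((mem_Bx3 m x).1 hx)

theorem sum_Bx3 (m : ℕ) (g : ℕ × ℕ × ℕ → ℝ) :
    ∑ x ∈ Bx3 m, g x = ∑ i ∈ Finset.Icc 68 m, ∑ j ∈ Finset.Icc 68 m, ∑ k ∈ Finset.Icc 68 m, g (i, j, k) := by
  unfold Bx3
  rw [Finset.sum_product]
  apply Finset.sum_congr rfl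
  intro i _
  rw [Finset.sum_product]

theorem a_le (k : ℕ) (hk : 1 ≤ k) : (a k : ℝ) / 1000000000000 ≤ Lk k := by
  have hk0 : (0 : ℝ) < k := by exact_mod_cast hk
  have h1 : (a k : ℝ) * (2 * k + 1) ≤ 2000000000000 := by
    have : a k * (2 * k + 1) ≤ 2000000000000 := Nat.div_mul_le_self _ _
    exact_mod_cast this
  have h2 : (2 : ℝ) / (2 * k + 1) ≤ Lk k := by
    have h3 := Real.hasSum_log_one_add_inv hk0
    have h4 := h3.summable.sum_le_tsum (Finset.range 1) (fun i _ => by positivity)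
    rw [h3.tsum_eq] at h4
    simp only [Finset.range_one, Finset.sum_singleton] at h4
    unfold Lk
    rw [show ((k : ℝ) + 1) / k = 1 + (k : ℝ)⁻¹ by field_simp]
    refine le_trans (le_of_eq ?_) h4
    norm_num
    ring
  refine le_trans ?_ h2
  rw [div_le_div_iff₀ (by norm_num) (by positivity)]
  linarith

theorem z_le (r : ℕ) (hr : r < 600) : (z r : ℝ) / 1000000 ≤ 600 / (600 - (r : ℝ)) := by
  have hr0 : (0 : ℝ) < 600 - r := by
    have : (r : ℝ) < 600 := by exact_mod_cast hr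
    linarith
  have h1 : (z r : ℝ) * (600 - r) ≤ 600000000 := by
    have h2 : z r * (600 - r) ≤ 600000000 := Nat.div_mul_le_self _ _
    have h3 : ((z r * (600 - r) : ℕ) : ℝ) ≤ 600000000 := by exact_mod_cast h2
    rw [Nat.cast_mul, Nat.cast_sub hr.le] at h3
    exact_mod_cast h3
  rw [div_le_div_iff₀ (by norm_num) hr0]
  linarith

theorem pp_le (x : ℕ × ℕ × ℕ) (hx : InB 160 x) :
    (pp x : ℝ) / 1000000000000 ^ 3 ≤ Lk x.1 * Lk x.2.1 * Lk x.2.2 := by
  obtain ⟨b1, b2, b3⟩ := hx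
  have h1 := a_le x.1 (by omega)
  have h2 := a_le x.2.1 (by omega)
  have h3 := a_le x.2.2 (by omega)
  have e : (pp x : ℝ) / 1000000000000 ^ 3 =
      ((a x.1 : ℝ) / 1000000000000) * ((a x.2.1 : ℝ) / 1000000000000) * ((a x.2.2 : ℝ) / 1000000000000) := by
    unfold pp; push_cast; ring
  rw [e]
  have n1 : 0 ≤ (a x.1 : ℝ) / 1000000000000 := by positivity
  have n2 : 0 ≤ (a x.2.1 : ℝ) / 1000000000000 := by positivity
  have n3 : 0 ≤ (a x.2.2 : ℝ) / 1000000000000 := by positivity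
  exact mul_le_mul (mul_le_mul h1 h2 n2 (n1.trans h1)) h3 n3 (mul_nonneg (n1.trans h1) (n2.trans h2))

/-- the weight `W` as a real number -/
theorem W_le (r : ℕ) (hr : r ≤ 593) : (W r : ℝ) / 1000000000000000000 ≤ 600 / (600 - (r : ℝ)) +
    ∑ k ∈ Finset.Icc (68 : ℕ) 300, if r + 2 * k ≤ 593 then Lk k * (600 / (600 - ((r + k : ℕ) : ℝ))) else 0 := by
  have h1 : ∑ k ∈ Finset.Icc (68 : ℕ) 300, (if r + 2 * k ≤ 593 then Lk k * (600 / (600 - ((r + k : ℕ) : ℝ))) else 0) =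
      ∑ k ∈ Finset.Icc 68 ((593 - r) / 2), Lk k * (600 / (600 - ((r + k : ℕ) : ℝ))) := by
    rw [← Finset.sum_filter]
    apply Finset.sum_congr _ (fun _ _ => rfl)
    ext k
    simp only [Finset.mem_filter, Finset.mem_Icc]
    omega
  have h2 : sm (fun i => a (68 + i) * z (r + (68 + i))) ((593 - r) / 2 - 67) =
      ∑ k ∈ Finset.Icc 68 ((593 - r) / 2), a k * z (r + k) := (sum68 (fun k => a k * z (r + k)) _).symm
  have h3 : (W r : ℝ) / 1000000000000000000 = (z r : ℝ) / 1000000 +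
      ∑ k ∈ Finset.Icc 68 ((593 - r) / 2), ((a k : ℝ) / 1000000000000) * ((z (r + k) : ℝ) / 1000000) := by
    unfold W
    rw [h2]
    push_cast
    rw [add_div, Finset.sum_div]
    congr 1
    · ring
    · apply Finset.sum_congr rfl
      intro k _
      ring
  rw [h1, h3]
  refine add_le_add (z_le r (by omega)) (Finset.sum_le_sum fun k hk => ?_)
  rw [Finset.mem_Icc] at hk
  have h4 := a_le k (by omega)
  have h5 := z_le (r + k) (by omega)
  exact mul_le_mul h4 h5 (by positivity) (le_trans (by positivity) h4)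

/-- `max` of the cells -/
def mx (x : ℕ × ℕ × ℕ) : ℕ := max x.1 (max x.2.1 x.2.2)

/-- product of the logarithms -/
def LL (x : ℕ × ℕ × ℕ) : ℝ := Lk x.1 * Lk x.2.1 * Lk x.2.2

theorem LL_nonneg (x : ℕ × ℕ × ℕ) (hx : InB 160 x) : 0 ≤ LL x := by
  obtain ⟨b1, b2, b3⟩ := hx
  unfold LL
  exact mul_nonneg (mul_nonneg (Lk_nonneg _ (by omega)) (Lk_nonneg _ (by omega))) (Lk_nonneg _ (by omega))

/-- the summand of `mass5a` -/
def f5 (x : ℕ × ℕ × ℕ) (k1 : ℕ) : ℝ :=
  if x.1 + x.2.1 + x.2.2 ≤ 296 ∧ max x.1 (max x.2.1 x.2.2) + 2 ≤ k1 ∧ 2 * k1 + x.1 + x.2.1 + x.2.2 ≤ 594 then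
    Lk x.1 * Lk x.2.1 * Lk x.2.2 * Lk k1 * (600 / (600 - ((k1 + x.1 + x.2.1 + x.2.2 : ℕ) : ℝ))) else 0

/-- the summand of `mass6a` -/
def f6a (x : ℕ × ℕ × ℕ) (k1 k5 : ℕ) : ℝ :=
  if x.1 + x.2.1 + x.2.2 ≤ 296 ∧ max x.1 (max x.2.1 x.2.2) + 2 ≤ k1 ∧ 2 * k1 + x.1 + x.2.1 + x.2.2 ≤ 594 ∧
      k1 + x.1 + x.2.1 + x.2.2 + 2 * k5 ≤ 593 then
    Lk x.1 * Lk x.2.1 * Lk x.2.2 * Lk k1 * Lk k5 * (600 / (600 - ((k1 + x.1 + x.2.1 + x.2.2 + k5 : ℕ) : ℝ))) else 0

/-- the summand of `mass6b` -/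
def f6b (x : ℕ × ℕ × ℕ) (k1 k5 : ℕ) : ℝ :=
  if x.1 + x.2.1 + x.2.2 ≤ 296 ∧ max x.1 (max x.2.1 x.2.2) + 2 ≤ k1 + k5 ∧ k5 < k1 ∧
      2 * k1 + x.1 + x.2.1 + x.2.2 + 2 * k5 ≤ 592 then
    Lk x.1 * Lk x.2.1 * Lk x.2.2 * Lk k1 * Lk k5 * (600 / (600 - ((k1 + x.1 + x.2.1 + x.2.2 + k5 : ℕ) : ℝ))) else 0

theorem mass5a_eq : mass5a = ∑ x ∈ Bx3 160, ∑ k1 ∈ Finset.Icc (68 : ℕ) 300, f5 x k1 := by
  rw [sum_Bx3]; rfl

theorem mass6a_eq : mass6a = ∑ x ∈ Bx3 160, ∑ k1 ∈ Finset.Icc (68 : ℕ) 300, ∑ k5 ∈ Finset.Icc (68 : ℕ) 300, f6a x k1 k5 := by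
  rw [sum_Bx3]; rfl

theorem mass6b_eq : mass6b = ∑ x ∈ Bx3 160, ∑ k1 ∈ Finset.Icc (68 : ℕ) 300, ∑ k5 ∈ Finset.Icc (68 : ℕ) 300, f6b x k1 k5 := by
  rw [sum_Bx3]; rfl

theorem wt_nonneg (r : ℕ) (hr : r < 600) : (0 : ℝ) ≤ 600 / (600 - (r : ℝ)) := by
  have : (r : ℝ) < 600 := by exact_mod_cast hr
  exact div_nonneg (by norm_num) (by linarith)

theorem f5_nonneg (x : ℕ × ℕ × ℕ) (hx : InB 160 x) (k1 : ℕ) (h1 : 68 ≤ k1) : 0 ≤ f5 x k1 := by
  have hL := LL_nonneg x hx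
  unfold f5
  split_ifs with h
  · exact mul_nonneg (mul_nonneg hL (Lk_nonneg _ (by omega))) (wt_nonneg _ (by omega))
  · exact le_rfl

theorem f6a_nonneg (x : ℕ × ℕ × ℕ) (hx : InB 160 x) (k1 k5 : ℕ) (h1 : 68 ≤ k1)
    (h5 : 68 ≤ k5) : 0 ≤ f6a x k1 k5 := by
  have hL := LL_nonneg x hx
  unfold f6a
  split_ifs with h
  · exact mul_nonneg (mul_nonneg (mul_nonneg hL (Lk_nonneg _ (by omega))) (Lk_nonneg _ (by omega))) (wt_nonneg _ (by omega))
  · exact le_rfl

theorem f6b_nonneg (x : ℕ × ℕ × ℕ) (hx : InB 160 x) (k1 k5 : ℕ) (h1 : 68 ≤ k1)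
    (h5 : 68 ≤ k5) : 0 ≤ f6b x k1 k5 := by
  have hL := LL_nonneg x hx
  unfold f6b
  split_ifs with h
  · exact mul_nonneg (mul_nonneg (mul_nonneg hL (Lk_nonneg _ (by omega))) (Lk_nonneg _ (by omega))) (wt_nonneg _ (by omega))
  · exact le_rfl

/-- pointwise lower bound of the summands of `mass5a` and `mass6a` -/
theorem point (x : ℕ × ℕ × ℕ) (hx : InB 160 x) (q : ℕ) (hq : 70 ≤ q ∧ q ≤ 195) :
    (if mx x + 2 ≤ q ∧ ss x ≤ min 296 (594 - 2 * q) then ((a q * (pp x * W (q + ss x)) : ℕ) : ℝ) / 1000000 ^ 11 else 0) ≤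
      f5 x q + ∑ k5 ∈ Finset.Icc (68 : ℕ) 300, f6a x q k5 := by
  split_ifs with h
  · obtain ⟨h1, h2⟩ := h
    unfold mx ss at *
    have c1 : x.1 + x.2.1 + x.2.2 ≤ 296 := by omega
    have c2 : 2 * q + x.1 + x.2.1 + x.2.2 ≤ 594 := by omega
    have e5 : f5 x q = LL x * Lk q * (600 / (600 - ((q + (x.1 + x.2.1 + x.2.2) : ℕ) : ℝ))) := by
      unfold f5 LL
      rw [if_pos ⟨c1, h1, c2⟩, show q + x.1 + x.2.1 + x.2.2 = q + (x.1 + x.2.1 + x.2.2) by ring]
    have e6 : ∀ k5 : ℕ, f6a x q k5 = LL x * Lk q * (if q + (x.1 + x.2.1 + x.2.2) + 2 * k5 ≤ 593 then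
        Lk k5 * (600 / (600 - ((q + (x.1 + x.2.1 + x.2.2) + k5 : ℕ) : ℝ))) else 0) := by
      intro k5
      unfold f6a LL
      by_cases h6 : q + (x.1 + x.2.1 + x.2.2) + 2 * k5 ≤ 593
      · rw [if_pos h6, if_pos ⟨c1, h1, c2, by omega⟩, show q + x.1 + x.2.1 + x.2.2 + k5 = q + (x.1 + x.2.1 + x.2.2) + k5 by ring]
        ring
      · rw [if_neg h6, if_neg (by omega), mul_zero]
    rw [e5, Finset.sum_congr rfl (fun k5 _ => e6 k5), ← Finset.mul_sum, ← mul_add]
    have w1 := W_le (q + (x.1 + x.2.1 + x.2.2)) (by omega)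
    have p1 := pp_le x hx
    have a1 := a_le q (by omega)
    have e : ((a q * (pp x * W (q + (x.1 + x.2.1 + x.2.2))) : ℕ) : ℝ) / 1000000 ^ 11 =
        ((pp x : ℝ) / 1000000000000 ^ 3) * ((a q : ℝ) / 1000000000000) *
          ((W (q + (x.1 + x.2.1 + x.2.2)) : ℝ) / 1000000000000000000) := by
      push_cast
      ring
    rw [e]
    have n1 : 0 ≤ (pp x : ℝ) / 1000000000000 ^ 3 := by positivity
    have n2 : 0 ≤ (a q : ℝ) / 1000000000000 := by positivity
    exact mul_le_mul (mul_le_mul p1 a1 n2 (n1.trans p1)) w1 (by positivity)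
      (mul_nonneg (n1.trans p1) (n2.trans a1))
  · exact add_nonneg (f5_nonneg x hx q (by omega))
      (Finset.sum_nonneg fun k5 hk5 => f6a_nonneg x hx q k5 (by omega) (Finset.mem_Icc.1 hk5).1)

theorem sumT (M q t : ℕ) (F : ℕ × ℕ × ℕ → ℝ) :
    ∑ x ∈ Bx3 M, (if mx x + 2 ≤ q ∧ ss x ≤ t then F x else 0) =
      ∑ x ∈ (Bx3 (min (q - 2) M)).filter (fun x => ss x ≤ t), F x := by
  rw [← Finset.sum_filter]
  apply Finset.sum_congr _ (fun _ _ => rfl)
  ext x
  rw [Finset.mem_filter, Finset.mem_filter, mem_Bx3, mem_Bx3]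
  unfold mx
  constructor
  · rintro ⟨⟨b1, b2, b3⟩, h1, h2⟩
    exact ⟨⟨by omega, by omega, by omega⟩, h2⟩
  · rintro ⟨⟨b1, b2, b3⟩, h2⟩
    exact ⟨⟨by omega, by omega, by omega⟩, by omega, h2⟩

/-- splitting off pairs with a given sum -/
theorem fib_le (S U : Finset ℕ) (g : ℕ → ℕ → ℝ) (hg : ∀ i ∈ S, ∀ j ∈ S, 0 ≤ g i j) :
    ∑ u ∈ U, ∑ p ∈ (S ×ˢ S).filter (fun p => p.1 + p.2 = u), g p.1 p.2 ≤ ∑ i ∈ S, ∑ j ∈ S, g i j := by
  have h5 : ∑ i ∈ S, ∑ j ∈ S, g i j = ∑ p ∈ S ×ˢ S, g p.1 p.2 := by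
    rw [Finset.sum_product]
  rw [h5]
  have hnn : ∀ p ∈ S ×ˢ S, 0 ≤ g p.1 p.2 := by
    intro p hp
    rw [Finset.mem_product] at hp
    exact hg _ hp.1 _ hp.2
  apply Finset.sum_fiberwise_le_sum_of_sum_fiber_nonneg
  intro u _
  exact Finset.sum_nonneg fun p hp => hnn p (Finset.mem_filter.1 hp).1

theorem im_le (M u : ℕ) (hu : 162 ≤ u) (hM : u ≤ M) (g : ℕ → ℕ → ℝ)
    (hg : ∀ i ∈ Finset.Icc 68 M, ∀ j ∈ Finset.Icc 68 M, 0 ≤ g i j) :
    ∑ k ∈ Finset.Icc 68 ((u - 1) / 2), g (u - k) k ≤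
      ∑ p ∈ (Finset.Icc 68 M ×ˢ Finset.Icc 68 M).filter (fun p => p.1 + p.2 = u), g p.1 p.2 := by
  have hinj : Set.InjOn (fun k : ℕ => ((u - k, k) : ℕ × ℕ)) (Finset.Icc 68 ((u - 1) / 2) : Finset ℕ) := by
    intro k _ k' _ h
    exact (Prod.mk.inj h).2
  have h7 : ∑ k ∈ Finset.Icc 68 ((u - 1) / 2), g (u - k) k =
      ∑ p ∈ (Finset.Icc 68 ((u - 1) / 2)).image (fun k : ℕ => ((u - k, k) : ℕ × ℕ)), g p.1 p.2 := by
    rw [Finset.sum_image hinj]
  rw [h7]
  apply Finset.sum_le_sum_of_subset_of_nonneg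
  · intro p hp
    rw [Finset.mem_image] at hp
    obtain ⟨k, hk, rfl⟩ := hp
    rw [Finset.mem_Icc] at hk
    rw [Finset.mem_filter, Finset.mem_product, Finset.mem_Icc, Finset.mem_Icc]
    dsimp only
    omega
  · intro p hp _
    rw [Finset.mem_filter, Finset.mem_product] at hp
    exact hg _ hp.1.1 _ hp.1.2

theorem lowA : (SA : ℝ) / 1000000 ^ 11 ≤ mass5a + mass6a := by
  have h1 : (SA : ℝ) / 1000000 ^ 11 = ∑ q ∈ Finset.Icc (70 : ℕ) 195, ∑ x ∈ Bx3 160,
      (if mx x + 2 ≤ q ∧ ss x ≤ min 296 (594 - 2 * q) then ((a q * (pp x * W (q + ss x)) : ℕ) : ℝ) / 1000000 ^ 11 else 0) := by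
    have h2 : SA = ∑ q ∈ Finset.Icc (70 : ℕ) 195, a q * EE (min (q - 2) 160) (min 296 (594 - 2 * q)) q (WW W) := by
      have h3 : Finset.Icc (70 : ℕ) 195 = Finset.Ico 70 196 := by
        ext x; simp only [Finset.mem_Icc, Finset.mem_Ico]; omega
      rw [h3, Finset.sum_Ico_eq_sum_range, SA, sm_eq]
      apply Finset.sum_congr rfl
      intro i _
      rw [show 70 + i - 2 = 68 + i by omega]
    rw [h2, Nat.cast_sum, Finset.sum_div]
    apply Finset.sum_congr rfl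
    intro q hq
    rw [Finset.mem_Icc] at hq
    rw [sumT, EE_eq _ _ _ _ (by omega) (by omega) ltW oneW, Finset.mul_sum, Nat.cast_sum, Finset.sum_div]
  rw [h1, mass5a_eq, mass6a_eq, ← Finset.sum_add_distrib]
  rw [Finset.sum_comm]
  refine sum_le_Bx3 160 _ _ fun x hx => ?_
  rw [← Finset.sum_add_distrib]
  calc ∑ q ∈ Finset.Icc (70 : ℕ) 195,
      (if mx x + 2 ≤ q ∧ ss x ≤ min 296 (594 - 2 * q) then ((a q * (pp x * W (q + ss x)) : ℕ) : ℝ) / 1000000 ^ 11 else 0)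
      ≤ ∑ q ∈ Finset.Icc (70 : ℕ) 195, (f5 x q + ∑ k5 ∈ Finset.Icc (68 : ℕ) 300, f6a x q k5) :=
        Finset.sum_le_sum fun q hq => point x hx q (Finset.mem_Icc.1 hq)
    _ ≤ ∑ q ∈ Finset.Icc (68 : ℕ) 300, (f5 x q + ∑ k5 ∈ Finset.Icc (68 : ℕ) 300, f6a x q k5) := by
        apply Finset.sum_le_sum_of_subset_of_nonneg
        · exact Finset.Icc_subset_Icc (by norm_num) (by norm_num)
        · intro q hq _
          exact add_nonneg (f5_nonneg x hx q (Finset.mem_Icc.1 hq).1)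
            (Finset.sum_nonneg fun k5 hk5 => f6a_nonneg x hx q k5 (Finset.mem_Icc.1 hq).1 (Finset.mem_Icc.1 hk5).1)

/-- pointwise lower bound of the summands of `mass6b` -/
theorem pointB (x : ℕ × ℕ × ℕ) (hx : InB 160 x) (u : ℕ) (hu : 162 ≤ u ∧ u ≤ 194) (k : ℕ)
    (hk : 68 ≤ k ∧ k ≤ (u - 1) / 2) :
    (if mx x + 2 ≤ 162 ∧ ss x ≤ 592 - 2 * u then (((a (u - k) * a k) * (pp x * z (u + ss x)) : ℕ) : ℝ) / 1000000 ^ 11 else 0) ≤
      f6b x (u - k) k := by
  split_ifs with h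
  · obtain ⟨h1, h2⟩ := h
    unfold mx ss at *
    have e6 : f6b x (u - k) k = LL x * Lk (u - k) * Lk k * (600 / (600 - ((u + (x.1 + x.2.1 + x.2.2) : ℕ) : ℝ))) := by
      unfold f6b LL
      rw [if_pos ⟨by omega, by omega, by omega, by omega⟩,
        show u - k + x.1 + x.2.1 + x.2.2 + k = u + (x.1 + x.2.1 + x.2.2) by omega]
    rw [e6]
    have w1 := z_le (u + (x.1 + x.2.1 + x.2.2)) (by omega)
    have p1 := pp_le x hx
    have a1 := a_le (u - k) (by omega)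
    have a2 := a_le k (by omega)
    have e : (((a (u - k) * a k) * (pp x * z (u + (x.1 + x.2.1 + x.2.2))) : ℕ) : ℝ) / 1000000 ^ 11 =
        ((pp x : ℝ) / 1000000000000 ^ 3) * ((a (u - k) : ℝ) / 1000000000000) * ((a k : ℝ) / 1000000000000) *
          ((z (u + (x.1 + x.2.1 + x.2.2)) : ℝ) / 1000000) := by
      push_cast
      ring
    rw [e]
    have n1 : 0 ≤ (pp x : ℝ) / 1000000000000 ^ 3 := by positivity
    have n2 : 0 ≤ (a (u - k) : ℝ) / 1000000000000 := by positivity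
    have n3 : 0 ≤ (a k : ℝ) / 1000000000000 := by positivity
    exact mul_le_mul (mul_le_mul (mul_le_mul p1 a1 n2 (n1.trans p1)) a2 n3 (mul_nonneg (n1.trans p1) (n2.trans a1)))
      w1 (by positivity) (mul_nonneg (mul_nonneg (n1.trans p1) (n2.trans a1)) (n3.trans a2))
  · exact f6b_nonneg x hx _ _ (by omega) (by omega)

theorem lowB : (SB : ℝ) / 1000000 ^ 11 ≤ mass6b := by
  have h1 : (SB : ℝ) / 1000000 ^ 11 = ∑ u ∈ Finset.Icc (162 : ℕ) 194, ∑ x ∈ Bx3 160, ∑ k ∈ Finset.Icc 68 ((u - 1) / 2),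
      (if mx x + 2 ≤ 162 ∧ ss x ≤ 592 - 2 * u then (((a (u - k) * a k) * (pp x * z (u + ss x)) : ℕ) : ℝ) / 1000000 ^ 11 else 0) := by
    have h2 : SB = ∑ u ∈ Finset.Icc (162 : ℕ) 194, UU u * EE 160 (592 - 2 * u) u (WW z) := by
      have h3 : Finset.Icc (162 : ℕ) 194 = Finset.Ico 162 195 := by
        ext x; simp only [Finset.mem_Icc, Finset.mem_Ico]; omega
      rw [h3, Finset.sum_Ico_eq_sum_range, SB, sm_eq]
    rw [h2, Nat.cast_sum, Finset.sum_div]
    apply Finset.sum_congr rfl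
    intro u hu
    rw [Finset.mem_Icc] at hu
    have h4 : UU u = ∑ k ∈ Finset.Icc 68 ((u - 1) / 2), a (u - k) * a k :=
      (sum68 (fun k => a (u - k) * a k) _).symm
    rw [Finset.sum_comm, EE_eq _ _ _ _ (by omega) (by omega) ltz onez, h4, Finset.sum_mul, Nat.cast_sum, Finset.sum_div]
    apply Finset.sum_congr rfl
    intro k _
    rw [sumT, show min (162 - 2) 160 = 160 by norm_num, Finset.mul_sum, Nat.cast_sum, Finset.sum_div]
  rw [h1, mass6b_eq, Finset.sum_comm]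
  refine sum_le_Bx3 160 _ _ fun x hx => ?_
  have hg : ∀ i ∈ Finset.Icc (68 : ℕ) 300, ∀ j ∈ Finset.Icc (68 : ℕ) 300, 0 ≤ f6b x i j := fun i hi j hj =>
    f6b_nonneg x hx i j (Finset.mem_Icc.1 hi).1 (Finset.mem_Icc.1 hj).1
  refine le_trans (Finset.sum_le_sum fun u hu => ?_) (fib_le (Finset.Icc (68 : ℕ) 300) (Finset.Icc (162 : ℕ) 194) (f6b x) hg)
  have hu' := Finset.mem_Icc.1 hu
  clear hu
  refine (Finset.sum_le_sum fun k hk => pointB x hx u hu' k (Finset.mem_Icc.1 hk)).trans ?_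
  exact im_le 300 u (by omega) (by omega) (f6b x) hg

end YNu_aux

theorem iYNu : StYNu := by
  unfold StYNu
  have h2 := YNu_aux.mass_le 2 _ YNu_aux.lt2 YNu_aux.val2
  have h4 := YNu_aux.mass_le 4 _ YNu_aux.lt4 YNu_aux.val4
  have h5 := YNu_aux.mass_le 5 _ YNu_aux.lt5 YNu_aux.val5
  have h6 := YNu_aux.mass_le 6 _ YNu_aux.lt6 YNu_aux.val6
  have h7 := YNu_aux.mass_le 7 _ YNu_aux.lt7 YNu_aux.val7
  have hA : (0.3668 : ℝ) ≤ mass5a + mass6a := by
    refine le_trans ?_ YNu_aux.lowA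
    rw [le_div_iff₀ (by positivity)]
    have := YNu_aux.valA
    have h : ((366890705099936685606686150816935655413907290964753238175454411000 : ℕ) : ℝ) ≤ (YNu_aux.SA : ℝ) := by
      exact_mod_cast this
    refine le_trans ?_ h
    norm_num
  have hB : (0.0058 : ℝ) ≤ mass6b := by
    refine le_trans ?_ YNu_aux.lowB
    rw [le_div_iff₀ (by positivity)]
    have := YNu_aux.valB
    have h : ((5800000000000000000000000000000000000000000000000000000000000000 : ℕ) : ℝ) ≤ (YNu_aux.SB : ℝ) := by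
      exact_mod_cast this
    refine le_trans ?_ h
    norm_num
  norm_num at h2 h4 h5 h6 h7
  linarith

end Pool.Agent.Work.MP_a8fbd7_nt.EX.ASM2
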