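import Mathlib
import Pool.Agent.Work.MP_a8fbd7_nt.EX.ASM2.Stmts
import Pool.Agent.Work.MP_a8fbd7_nt.EX.ASM.I_XDr

/-!
MP_a8fbd7_nt, EX/ASM2, item YRo: rough numbers in short windows, weighted with `rg y ^ 5`.
Author: helper24.
-/

set_option autoImplicit false

open MeasureTheory Set Filter Topology

noncomputable section

namespace Pool.Agent.Work.MP_a8fbd7_nt.EX.ASM2

open Pool.Agent.Work.MP_56b8f5_nt.UC (IsWt Bl Dp Om psi eta Sep)
open Pool.Agent.Work.MP_a8fbd7_nt.OX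
open Pool.Agent.Work.MP_a8fbd7_nt.OX.ID (Rough roughOne pb rg rg_apply)
open Pool.Agent.Work.MP_a8fbd7_nt.OX.ASM
open Pool.Agent.Work.MP_a8fbd7_nt.EX
open Pool.Agent.Work.MP_a8fbd7_nt.EX.CELL (r2 c2)
open Pool.Agent.Work.MP_a8fbd7_nt.EX.ASM (al bw sqr aJ)

namespace YRo_aux

open Pool.Agent.Work.MP_a8fbd7_nt.EX.ASM.XDr_aux (TT mem_TT)

/-- `n` is a positive `z`-rough number -/
def PR (z : ℕ) (n : ℕ) : Prop := n ≠ 0 ∧ Rough z n

open Classical in
theorem rg_apply' (z n : ℕ) : rg z n = if PR z n then 1 else 0 := by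
  rw [rg_apply]
  by_cases h : n ≠ 0 ∧ Rough z n
  · rw [if_pos h, if_pos (show PR z n from h)]
  · rw [if_neg h, if_neg (show ¬ PR z n from h)]

theorem sum_rg_pow (z k : ℕ) (S : Finset ℕ) :
    ∑ n ∈ S, (rg z ^ k) n = ((TT (PR z) k S).card : ℝ) := by
  classical
  rw [TT, Finset.card_biUnion, Nat.cast_sum]
  · refine Finset.sum_congr rfl fun n _ => ?_
    rw [Win.pow_apply, Finset.card_filter, Nat.cast_sum]
    refine Finset.sum_congr rfl fun g _ => ?_
    simp only [rg_apply']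
    rw [Finset.prod_ite_zero, Finset.prod_const_one]
    by_cases h : ∀ i : Fin k, PR z (g i)
    · rw [if_pos (fun i _ => h i), if_pos h, Nat.cast_one]
    · rw [if_neg (fun h' => h fun i => h' i (Finset.mem_univ i)), if_neg h, Nat.cast_zero]
  · intro a _ b _ hab
    rw [Function.onFun, Finset.disjoint_left]
    intro g hg hg'
    rw [Finset.mem_filter, Nat.mem_finMulAntidiag] at hg hg'
    exact hab (hg.1.1.symm.trans hg'.1.1)

end YRo_aux

open YRo_aux Pool.Agent.Work.MP_a8fbd7_nt.EX.ASM.XDr_aux in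
theorem iYRo : StYRo := by
  intro w hw hw0 η hη hη'
  obtain ⟨Cw, hCw, hWb, hwin⟩ := Win.window w hw
  set K : ℕ := ⌈3 / η⌉₊ with hK
  have hKη : 3 ≤ η * (K + 1) := by
    have h1 : 3 / η ≤ K := Nat.le_ceil _
    rw [div_le_iff₀ hη] at h1
    nlinarith
  set D : ℝ := 4 * (1 + Cw) with hD
  have hD8 : 8 ≤ D := by linarith
  have hD0 : 0 < D := by linarith
  set C0 : ℝ := Cw ^ 2 * (3 * 5 ^ K * (2 / η)) with hC0
  refine ⟨max C0 (max (D * 2 ^ (K + 1)) (max 2 ((4 : ℝ) ^ (1 / η)))),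
    (show (1 : ℝ) ≤ 2 by norm_num).trans ((le_max_left _ _).trans ((le_max_right _ _).trans (le_max_right _ _))), ?_⟩
  intro T T' x hT hT' hTT hx1 hx2
  have hTb : D * 2 ^ (K + 1) ≤ T := ((le_max_left _ _).trans (le_max_right _ _)).trans hT
  have hTc : 2 ≤ T := ((le_max_left _ _).trans ((le_max_right _ _).trans (le_max_right _ _))).trans hT
  have hTd : (4 : ℝ) ^ (1 / η) ≤ T := ((le_max_right _ _).trans ((le_max_right _ _).trans (le_max_right _ _))).trans hT
  have hT0 : 0 < T := by linarith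
  have hT1 : 1 ≤ T := by linarith
  have hx0 : 0 < x := lt_of_lt_of_le (by positivity) hx1
  have hT'0 : 0 < T' := by linarith
  have hl0 : 0 < Real.log T := Real.log_pos (by linarith)
  -- the window
  obtain ⟨x1, hxa, hxb, hn⟩ := hwin x T' hx0 hT'
  have hx10 : 0 < x1 := lt_of_lt_of_le (by positivity) hxa
  set h : ℝ := Cw * (x / T') with hh
  have hxT : T ≤ x / T' := by
    rw [le_div_iff₀ hT'0]
    nlinarith
  have hhT : T ≤ h := by nlinarith
  have hh0 : 0 < h := by linarith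
  have hend : x1 + h ≤ D * T ^ 2 := by
    have h1 : x / T' ≤ x := div_le_self hx0.le hT'
    have h2 : h ≤ Cw * x := by rw [hh]; gcongr
    have h3 : x1 + h ≤ (1 + Cw) * x := by linarith
    calc x1 + h ≤ (1 + Cw) * x := h3
      _ ≤ (1 + Cw) * (4 * T ^ 2) := by gcongr
      _ = D * T ^ 2 := by rw [hD]; ring
  -- the level
  set y : ℕ := zz η T with hy
  have ht4 : (4 : ℝ) ≤ T ^ η := by
    have h1 : ((4 : ℝ) ^ (1 / η)) ^ η ≤ T ^ η := Real.rpow_le_rpow (by positivity) hTd hη.le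
    rwa [← Real.rpow_mul (by norm_num), one_div, inv_mul_cancel₀ hη.ne', Real.rpow_one] at h1
  have hyle : (y : ℝ) ≤ T ^ η := Nat.floor_le (by positivity)
  have hyge : T ^ η / 2 ≤ (y : ℝ) := by
    have : T ^ η < (y : ℝ) + 1 := Nat.lt_floor_add_one (T ^ η)
    linarith
  have hy2 : 2 ≤ y := by
    have : (2 : ℝ) ≤ y := by linarith
    exact_mod_cast this
  have hyR : (2 : ℝ) ≤ y := by exact_mod_cast hy2
  have hly0 : 0 < Real.log y := Real.log_pos (by linarith)
  have hly : η / 2 * Real.log T ≤ Real.log y := by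
    have h1 := Real.log_le_log (by positivity) hyge
    rw [Real.log_div (by positivity) (by norm_num), Real.log_rpow hT0] at h1
    have h2 := Real.log_le_log (by norm_num) ht4
    rw [Real.log_rpow hT0] at h2
    have h3 : Real.log 4 = 2 * Real.log 2 := by
      rw [show (4 : ℝ) = 2 ^ 2 by norm_num, Real.log_pow]
      norm_num
    rw [h3] at h2
    linarith
  have hcond1 : (y : ℝ) ^ 3 ≤ h := by
    calc (y : ℝ) ^ 3 ≤ (T ^ η) ^ 3 := by gcongr
      _ = T ^ (η * 3) := by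
        rw [← Real.rpow_natCast, ← Real.rpow_mul hT0.le]
        norm_num
      _ ≤ T ^ (1 : ℝ) := Real.rpow_le_rpow_of_exponent_le hT1 (by linarith)
      _ = T := Real.rpow_one T
      _ ≤ h := hhT
  have hcond2 : x1 + h ≤ (y : ℝ) ^ (K + 1) := by
    have h1 : (T ^ η / 2) ^ (K + 1) ≤ (y : ℝ) ^ (K + 1) := by gcongr
    have h2 : T ^ 3 ≤ (T ^ η) ^ (K + 1) := by
      rw [← Real.rpow_natCast (T ^ η), ← Real.rpow_mul hT0.le, ← Real.rpow_natCast T 3]
      apply Real.rpow_le_rpow_of_exponent_le hT1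
      push_cast
      exact hKη
    have h3 : D * T ^ 2 ≤ (T ^ η / 2) ^ (K + 1) := by
      rw [div_pow, le_div_iff₀ (by positivity)]
      calc D * T ^ 2 * 2 ^ (K + 1) = (D * 2 ^ (K + 1)) * T ^ 2 := by ring
        _ ≤ T * T ^ 2 := by gcongr
        _ = T ^ 3 := by ring
        _ ≤ (T ^ η) ^ (K + 1) := h2
    exact hend.trans (h3.trans h1)
  have hcard := Pool.Agent.Work.MP_a8fbd7_nt.OX.SV.all_tuples (k := 5) (z := y) (K := K) x1 h hy2 (by norm_num) hx10.le
    hcond1 hcond2 (TT (PR y) 5 (Win.Wn x1 h))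
    (fun f hf i => ((mem_TT hf).2 i).2)
    (fun f hf => (Win.mem_Wn hx10.le).1 (mem_TT hf).1)
  -- the total
  have hfin : ((TT (PR y) 5 (Win.Wn x1 h)).card : ℝ) ≤ 3 * 5 ^ K * (2 / η) * (h / Real.log T) := by
    refine hcard.trans ?_
    calc 3 * ((5 : ℕ) : ℝ) ^ K * h / Real.log y
        ≤ 3 * ((5 : ℕ) : ℝ) ^ K * h / (η / 2 * Real.log T) := by gcongr
      _ = 3 * 5 ^ K * (2 / η) * (h / Real.log T) := by
        push_cast
        field_simp
  have hSW := Win.SW_abs_le w (fun n => (rg y ^ 5) n) x T' x1 h Cw hx10.le hWb hn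
  have habs : ∑ n ∈ Win.Wn x1 h, |(rg y ^ 5) n| = ((TT (PR y) 5 (Win.Wn x1 h)).card : ℝ) := by
    rw [← sum_rg_pow]
    refine Finset.sum_congr rfl fun n _ => abs_of_nonneg ?_
    rw [Win.pow_apply]
    refine Finset.sum_nonneg fun g _ => Finset.prod_nonneg fun i _ => ?_
    rw [rg_apply']
    split_ifs <;> norm_num
  rw [habs] at hSW
  have h1 : SW w (fun n => (rg y ^ 5) n) x T' ≤ Cw * (3 * 5 ^ K * (2 / η) * (h / Real.log T)) :=
    (le_abs_self _).trans (hSW.trans (by gcongr))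
  calc T' / x * SW w (fun n => (rg y ^ 5) n) x T'
      ≤ T' / x * (Cw * (3 * 5 ^ K * (2 / η) * (h / Real.log T))) := by gcongr
    _ = C0 / Real.log T := by
      rw [hh, hC0]
      field_simp
    _ ≤ max C0 (max (D * 2 ^ (K + 1)) (max 2 ((4 : ℝ) ^ (1 / η)))) / Real.log T := by
      gcongr
      exact le_max_left _ _

end Pool.Agent.Work.MP_a8fbd7_nt.EX.ASM2
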