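import Mathlib
import Pool.Agent.Work.MP_a8fbd7_nt.OX.ASM.I_SE
import Pool.Agent.Work.MP_a8fbd7_nt.EX.ASM2.Stmts

/-!
MP_a8fbd7_nt, block EX, second wave, part ASM2, item YSE: the total sieve error with five `u`-slots
(copy of `EX/ASM/I_XSE.lean`, author helper85, adapted by helper32).
-/

set_option autoImplicit false

open Set Filter Topology

noncomputable section

namespace Pool.Agent.Work.MP_a8fbd7_nt.EX.ASM2

open Pool.Agent.Work.MP_56b8f5_nt.UC (IsWt psi eta)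
open Pool.Agent.Work.MP_a8fbd7_nt.OX
open Pool.Agent.Work.MP_a8fbd7_nt.OX.ID (Rough roughOne pb rg af_sum af_smul roughOne_apply)
open Pool.Agent.Work.MP_a8fbd7_nt.OX.ASM
open Pool.Agent.Work.MP_a8fbd7_nt.EX
open Pool.Agent.Work.MP_a8fbd7_nt.EX.CELL (r2 c2)
open Pool.Agent.Work.MP_a8fbd7_nt.EX.ASM (al bw sqr aJ)

namespace YSE_aux

open V1_aux (NN NN.mul NN.add nn_one nn_zero nn_prod psi_nn nn_pbl nn_rb nn_ps slot)
open SE_aux (mu mu_nonneg mu_mul_le mu_one_le mu_smul mu_sum nn_sum nn_pow nn_smul mu_pow_le ind ind_nonneg ind_sum mu_R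
  nn_pbt mu_pbt term_le swap4 log_rpow_le)

/-- product of the other slots -/
def Gi (y z : ℕ) (T κ : ℝ) (l : ℕ → ℝ) (i : Fin 5) (u : Fin 5 → Option ℕ) {n : ℕ} (v : Fin n → Option ℕ) :
    ArithmeticFunction ℝ :=
  (∏ j ∈ Finset.univ.erase i, msA y T κ l (u j)) * ∏ r, ps y z (v r)

theorem BXA5_split {y z : ℕ} {T κ : ℝ} (lp d : ℕ → ℝ) (i : Fin 5) (u : Fin 5 → Option ℕ) {n : ℕ} (v : Fin n → Option ℕ)
    {k : ℕ} (hk : u i = some k) (hlong : T ^ (1 / 2 + κ) < (2 : ℝ) ^ k) :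
    BXA5 y z T κ (Function.update (fun _ => lp) i d) u v = tb d k * Gi y z T κ lp i u v := by
  unfold BXA5 Gi
  rw [← Finset.mul_prod_erase Finset.univ _ (Finset.mem_univ i), mul_assoc]
  congr 1
  · rw [Function.update_self, hk]
    simp only [msA, if_pos hlong]
  · congr 1
    refine Finset.prod_congr rfl fun j hj => ?_
    rw [Function.update_of_ne (Finset.ne_of_mem_erase hj)]

/-- the sum over the slots of `u` -/
theorem sum_u (y : ℕ) (T κ : ℝ) (l : ℕ → ℝ) (i : Fin 5) (c : Option ℕ → ℝ) :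
    ∑ u ∈ Bx 5 T, c (u i) • ∏ j ∈ Finset.univ.erase i, msA y T κ l (u j) =
      (∑ o ∈ Finset.insertNone (Finset.range (LL T)), c o) •
        (∑ o ∈ Finset.insertNone (Finset.range (LL T)), msA y T κ l o) ^ 4 := by
  classical
  set I := Finset.insertNone (Finset.range (LL T)) with hI
  set g : Fin 5 → Option ℕ → ArithmeticFunction ℝ := fun j o => if j = i then c o • 1 else msA y T κ l o with hg
  have h1 : ∀ u : Fin 5 → Option ℕ, c (u i) • ∏ j ∈ Finset.univ.erase i, msA y T κ l (u j) = ∏ j, g j (u j) := by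
    intro u
    rw [← Finset.mul_prod_erase Finset.univ _ (Finset.mem_univ i)]
    have e1 : g i (u i) = c (u i) • 1 := by rw [hg]; simp
    have e2 : ∏ j ∈ Finset.univ.erase i, g j (u j) = ∏ j ∈ Finset.univ.erase i, msA y T κ l (u j) := by
      refine Finset.prod_congr rfl fun j hj => ?_
      rw [hg]
      simp only
      rw [if_neg (Finset.ne_of_mem_erase hj)]
    rw [e1, e2, smul_one_mul]
  rw [Finset.sum_congr rfl fun u _ => h1 u]
  unfold Bx
  rw [← Finset.prod_univ_sum (fun _ : Fin 5 => I) (fun j o => g j o),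
    ← Finset.mul_prod_erase Finset.univ _ (Finset.mem_univ i)]
  have e1 : ∑ o ∈ I, g i o = (∑ o ∈ I, c o) • 1 := by
    rw [Finset.sum_smul]
    refine Finset.sum_congr rfl fun o _ => ?_
    rw [hg]
    simp
  have e2 : ∏ j ∈ Finset.univ.erase i, ∑ o ∈ I, g j o = (∑ o ∈ I, msA y T κ l o) ^ 4 := by
    have h2 : ∀ j ∈ Finset.univ.erase i, ∑ o ∈ I, g j o = ∑ o ∈ I, msA y T κ l o := by
      intro j hj
      refine Finset.sum_congr rfl fun o _ => ?_
      rw [hg]
      simp only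
      rw [if_neg (Finset.ne_of_mem_erase hj)]
    rw [Finset.prod_congr rfl h2, Finset.prod_const, Finset.card_erase_of_mem (Finset.mem_univ i)]
    rfl
  rw [e1, e2, smul_one_mul]

/-! ### The prime slots -/

theorem nsi5_eq {S : ℕ} (v : Fin (5 * S) → Option ℕ) (i : Fin 5) :
    nsi5 v i = ns (fun s => v (finProdFinEquiv (i, s))) := by
  classical
  unfold nsi5 ns
  refine Finset.card_bij' (fun r _ => (finProdFinEquiv.symm r).2) (fun s _ => finProdFinEquiv (i, s)) ?_ ?_ ?_ ?_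
  · intro r hr
    rw [Finset.mem_filter] at hr ⊢
    refine ⟨Finset.mem_univ _, ?_⟩
    obtain ⟨_, h1, h2⟩ := hr
    have h3 : finProdFinEquiv (i, (finProdFinEquiv.symm r).2) = r := by
      rw [← h1]
      unfold own5
      rw [Prod.mk.eta]
      exact finProdFinEquiv.apply_symm_apply r
    show (v (finProdFinEquiv (i, (finProdFinEquiv.symm r).2))).isSome = true
    rw [h3]
    exact h2
  · intro s hs
    rw [Finset.mem_filter] at hs ⊢
    refine ⟨Finset.mem_univ _, ?_, hs.2⟩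
    unfold own5
    rw [Equiv.symm_apply_apply]
  · intro r hr
    rw [Finset.mem_filter] at hr
    obtain ⟨_, h1, h2⟩ := hr
    rw [← h1]
    unfold own5
    rw [Prod.mk.eta]
    exact finProdFinEquiv.apply_symm_apply r
  · intro s hs
    rw [Equiv.symm_apply_apply]

/-- the sum over the prime slots is a product over the variables -/
theorem sum_vX (y z S : ℕ) (T : ℝ) :
    ∑ v ∈ Bx (5 * S) T, (∏ i, ((S - nsi5 v i).factorial : ℝ) / (S.factorial : ℝ)) • ∏ r, ps y z (v r) =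
      (∑ s ∈ Finset.range (S + 1), ((1 : ℝ) ^ s / (s.factorial : ℝ)) • pbt y z (LL T) ^ s) ^ 5 := by
  classical
  set F : (Fin S → Option ℕ) → ArithmeticFunction ℝ := fun v => ((1 : ℝ) ^ ns v * ((S - ns v).factorial : ℝ) / (S.factorial : ℝ)) •
    ∏ r, ps y z (v r) with hF
  have h1 : (∑ v ∈ Bx S T, F v) ^ 5 = ∏ _i : Fin 5, ∑ v ∈ Bx S T, F v := by
    rw [Finset.prod_const, Finset.card_univ, Fintype.card_fin]
  rw [← sum_v y z S T 1, h1, Finset.prod_univ_sum]
  refine Finset.sum_bij' (fun v _ => fun (i : Fin 5) (s : Fin S) => v (finProdFinEquiv (i, s)))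
    (fun p _ => fun r => p (finProdFinEquiv.symm r).1 (finProdFinEquiv.symm r).2) ?_ ?_ ?_ ?_ ?_
  · intro v hv
    unfold Bx at hv ⊢
    rw [Fintype.mem_piFinset] at hv
    rw [Fintype.mem_piFinset]
    intro i
    rw [Fintype.mem_piFinset]
    intro s
    exact hv _
  · intro p hp
    unfold Bx at hp ⊢
    rw [Fintype.mem_piFinset] at hp
    rw [Fintype.mem_piFinset]
    intro r
    have := hp (finProdFinEquiv.symm r).1
    rw [Fintype.mem_piFinset] at this
    exact this _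
  · intro v _
    funext r
    show v (finProdFinEquiv ((finProdFinEquiv.symm r).1, (finProdFinEquiv.symm r).2)) = v r
    rw [Prod.mk.eta, Equiv.apply_symm_apply]
  · intro p _
    funext i s
    show p (finProdFinEquiv.symm (finProdFinEquiv (i, s))).1 (finProdFinEquiv.symm (finProdFinEquiv (i, s))).2 = p i s
    rw [Equiv.symm_apply_apply]
  · intro v _
    have e1 : ∏ i : Fin 5, F (fun s => v (finProdFinEquiv (i, s))) =
        (∏ i : Fin 5, ((1 : ℝ) ^ ns (fun s => v (finProdFinEquiv (i, s))) *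
          ((S - ns (fun s => v (finProdFinEquiv (i, s)))).factorial : ℝ) / (S.factorial : ℝ))) •
          ∏ i : Fin 5, ∏ s : Fin S, ps y z (v (finProdFinEquiv (i, s))) := by
      rw [hF]
      exact Finset.prod_smul _ _ _
    rw [e1]
    congr 1
    · refine Finset.prod_congr rfl fun i _ => ?_
      rw [nsi5_eq, one_pow, one_mul]
    · rw [← Fintype.prod_prod_type' (f := fun (i : Fin 5) (s : Fin S) => ps y z (v (finProdFinEquiv (i, s))))]
      exact (Equiv.prod_comp finProdFinEquiv (fun r => ps y z (v r))).symm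

theorem cwX5_nonneg {S : ℕ} (v : Fin (5 * S) → Option ℕ) : 0 ≤ cwX5 v := by
  unfold cwX5
  positivity

/-- mass of the prime slots with the weights `cwX5` -/
theorem mu_V (N y z S : ℕ) (T M : ℝ) (hM : ∑ p ∈ (Finset.Ioc y z).filter Nat.Prime, (1 : ℝ) / p ≤ M) :
    mu N (∑ v ∈ Bx (5 * S) T, cwX5 v • ∏ r, ps y z (v r)) ≤ 7 * Real.exp M ^ 5 := by
  set V1 := ∑ s ∈ Finset.range (S + 1), ((1 : ℝ) ^ s / (s.factorial : ℝ)) • pbt y z (LL T) ^ s with hV1
  have h1 : ∑ v ∈ Bx (5 * S) T, cwX5 v • ∏ r, ps y z (v r) = (7 : ℝ) • V1 ^ 5 := by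
    rw [hV1, ← sum_vX, Finset.smul_sum]
    refine Finset.sum_congr rfl fun v _ => ?_
    rw [smul_smul]
    rfl
  have hV1n : NN V1 := nn_sum _ _ fun s _ => nn_smul (nn_pow (nn_pbt _ _ _) s) (by positivity)
  rw [h1, mu_smul]
  have h0 : 0 ≤ mu N (pbt y z (LL T)) := mu_nonneg (nn_pbt _ _ _)
  have h2 : mu N V1 ≤ Real.exp M := by
    rw [hV1, mu_sum]
    have h2 : ∑ s ∈ Finset.range (S + 1), mu N (((1 : ℝ) ^ s / (s.factorial : ℝ)) • pbt y z (LL T) ^ s) ≤
        ∑ s ∈ Finset.range (S + 1), (mu N (pbt y z (LL T))) ^ s / (s.factorial : ℝ) := by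
      refine Finset.sum_le_sum fun s _ => ?_
      rw [mu_smul, one_pow]
      calc 1 / (s.factorial : ℝ) * mu N (pbt y z (LL T) ^ s) ≤ 1 / (s.factorial : ℝ) * mu N (pbt y z (LL T)) ^ s :=
            mul_le_mul_of_nonneg_left (mu_pow_le (nn_pbt _ _ _) s) (by positivity)
        _ = mu N (pbt y z (LL T)) ^ s / (s.factorial : ℝ) := by ring
    have h3 := Real.sum_le_exp_of_nonneg (x := mu N (pbt y z (LL T))) h0 (S + 1)
    have h4 : Real.exp (mu N (pbt y z (LL T))) ≤ Real.exp M := by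
      apply Real.exp_le_exp.2
      exact (mu_pbt N y z (LL T)).trans hM
    linarith
  have h3 : mu N (V1 ^ 5) ≤ Real.exp M ^ 5 :=
    (mu_pow_le hV1n 5).trans (pow_le_pow_left₀ (mu_nonneg hV1n) h2 5)
  linarith

/-- the sum over all boxes for fixed `i` and `P` -/
theorem sum_boxes (y z : ℕ) (T κ : ℝ) (l : ℕ → ℝ) (i : Fin 5) (c : Option ℕ → ℝ) (S P : ℕ) :
    ∑ u ∈ Bx 5 T, ∑ v ∈ Bx (5 * S) T, cwX5 v * (Gi y z T κ l i u v P * c (u i)) =
      (∑ o ∈ Finset.insertNone (Finset.range (LL T)), c o) *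
        ((∑ o ∈ Finset.insertNone (Finset.range (LL T)), msA y T κ l o) ^ 4 *
          ∑ v ∈ Bx (5 * S) T, cwX5 v • ∏ r, ps y z (v r)) P := by
  rw [← af_smul, ← smul_mul_assoc, ← sum_u y T κ l i c, Finset.sum_mul_sum, af_sum]
  refine Finset.sum_congr rfl fun u _ => ?_
  rw [af_sum]
  refine Finset.sum_congr rfl fun v _ => ?_
  rw [smul_mul_smul_comm, af_smul]
  unfold Gi
  ring

/-- the total over all boxes in terms of masses -/
theorem total_le (y z N S : ℕ) (T κ A c1 c2 x : ℝ) (lp : ℕ → ℝ) (hA : 0 ≤ A) (hc1 : 0 < c1) (hc2 : 0 < c2) (hx : 0 < x)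
    (hnn : ∀ o, NN (msA y T κ lp o)) :
    ∑ u ∈ Bx 5 T, ∑ v ∈ Bx (5 * S) T, cwX5 v * ∑ i : Fin 5, A * ∑ P ∈ Finset.Icc 1 N,
      Gi y z T κ lp i u v P / P * ind c1 c2 x P (u i) ≤
    5 * A * (c1 * c2 + 1) * (mu N (∑ o ∈ Finset.insertNone (Finset.range (LL T)), msA y T κ lp o) ^ 4 *
      mu N (∑ v ∈ Bx (5 * S) T, cwX5 v • ∏ r, ps y z (v r))) := by
  set R := ∑ o ∈ Finset.insertNone (Finset.range (LL T)), msA y T κ lp o with hR
  set V := ∑ v ∈ Bx (5 * S) T, cwX5 v • ∏ r, ps y z (v r) with hV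
  have hRn : NN R := nn_sum _ _ fun o _ => hnn o
  have hVn : NN V := nn_sum _ _ fun v _ => nn_smul (nn_prod _ _ fun r _ => nn_ps y z (v r)) (cwX5_nonneg v)
  have h1 : ∑ u ∈ Bx 5 T, ∑ v ∈ Bx (5 * S) T, cwX5 v * ∑ i : Fin 5, A * ∑ P ∈ Finset.Icc 1 N,
      Gi y z T κ lp i u v P / P * ind c1 c2 x P (u i) =
      ∑ i : Fin 5, ∑ P ∈ Finset.Icc 1 N, (A / P) * ∑ u ∈ Bx 5 T, ∑ v ∈ Bx (5 * S) T,
        cwX5 v * (Gi y z T κ lp i u v P * ind c1 c2 x P (u i)) := by
    simp only [Finset.mul_sum]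
    rw [swap4]
    refine Finset.sum_congr rfl fun i _ => Finset.sum_congr rfl fun P _ => Finset.sum_congr rfl fun u _ =>
      Finset.sum_congr rfl fun v _ => ?_
    ring
  rw [h1]
  have h2 : ∀ i : Fin 5, ∑ P ∈ Finset.Icc 1 N, (A / P) * ∑ u ∈ Bx 5 T, ∑ v ∈ Bx (5 * S) T,
        cwX5 v * (Gi y z T κ lp i u v P * ind c1 c2 x P (u i)) ≤ A * (c1 * c2 + 1) * (mu N R ^ 4 * mu N V) := by
    intro i
    have h3 : ∑ P ∈ Finset.Icc 1 N, (A / P) * ∑ u ∈ Bx 5 T, ∑ v ∈ Bx (5 * S) T,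
        cwX5 v * (Gi y z T κ lp i u v P * ind c1 c2 x P (u i)) ≤ A * (c1 * c2 + 1) * mu N (R ^ 4 * V) := by
      unfold mu
      rw [Finset.mul_sum]
      refine Finset.sum_le_sum fun P _ => ?_
      rw [sum_boxes y z T κ lp i (ind c1 c2 x P) S P]
      have h4 := ind_sum c1 c2 x P (LL T) hc1 hc2 hx
      have h5 : 0 ≤ (R ^ 4 * V) P := (nn_pow hRn 4).mul hVn P
      have h6 : 0 ≤ (R ^ 4 * V) P / P := div_nonneg h5 (Nat.cast_nonneg P)
      calc A / P * ((∑ o ∈ Finset.insertNone (Finset.range (LL T)), ind c1 c2 x P o) * (R ^ 4 * V) P)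
          = A * (∑ o ∈ Finset.insertNone (Finset.range (LL T)), ind c1 c2 x P o) * ((R ^ 4 * V) P / P) := by ring
        _ ≤ A * (c1 * c2 + 1) * ((R ^ 4 * V) P / P) := by gcongr
    refine h3.trans ?_
    have h4 : mu N (R ^ 4 * V) ≤ mu N R ^ 4 * mu N V := by
      refine (mu_mul_le (nn_pow hRn 4) hVn).trans ?_
      exact mul_le_mul_of_nonneg_right (mu_pow_le hRn 4) (mu_nonneg hVn)
    gcongr
  refine (Finset.sum_le_sum fun i _ => h2 i).trans (le_of_eq ?_)
  rw [Finset.sum_const, Finset.card_univ, Fintype.card_fin, nsmul_eq_mul]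
  push_cast
  ring

end YSE_aux

open YSE_aux V1_aux in
open SE_aux (mu mu_nonneg nn_sum nn_smul ind ind_nonneg mu_R term_le log_rpow_le) in
open Classical in
/-- **item YSE: total sieve error** -/
theorem iYSE (hMa : StMa) (hIn : StIn) (_hPd : StPd) (_hRg : StYRg) : StYSE := by
  intro w hw hw0 C0 hC0
  obtain ⟨Cw, hCw, -, hwin⟩ := Win.window w hw
  obtain ⟨CI, hCI, hIn'⟩ := hIn w hw hw0
  obtain ⟨CM, hCM, hM1, hM2, hM3⟩ := hMa
  set K : ℝ := (2 * Cw) * (2 * (1 + Cw)) + 1 with hK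
  have hCw0 : 0 < Cw := by linarith
  have hK1 : 1 ≤ K := by
    have : 0 < (2 * Cw) * (2 * (1 + Cw)) := by positivity
    linarith
  set C3 : ℝ := 5 * K * (6561 * CM ^ 4 * C0 ^ 4) * (7 * Real.exp (5 * CM) * 32) * (2 * CI) with hC3
  have hexp : 1 ≤ Real.exp (5 * CM) := Real.one_le_exp (by linarith)
  have hC31 : 1 ≤ C3 := by
    have h1 : 1 ≤ CM ^ 4 := one_le_pow₀ hCM
    have h2 : 1 ≤ C0 ^ 4 := one_le_pow₀ hC0
    have h3 : 1 ≤ 5 * K := by linarith
    have h4 : 1 ≤ 6561 * CM ^ 4 * C0 ^ 4 := by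
      have : 1 ≤ CM ^ 4 * C0 ^ 4 := one_le_mul_of_one_le_of_one_le h1 h2
      calc 1 ≤ CM ^ 4 * C0 ^ 4 := this
        _ ≤ 6561 * (CM ^ 4 * C0 ^ 4) := by linarith
        _ = 6561 * CM ^ 4 * C0 ^ 4 := by ring
    have h5 : 1 ≤ 7 * Real.exp (5 * CM) * 32 := by linarith
    have h6 : 1 ≤ 2 * CI := by linarith
    rw [hC3]
    exact one_le_mul_of_one_le_of_one_le (one_le_mul_of_one_le_of_one_le (one_le_mul_of_one_le_of_one_le h3 h4) h5) h6
  refine ⟨C3, hC31, ?_⟩
  intro η κ3 κ' E B hη hη' hκ3 hκ3' hκ' hκ'' hE hB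
  set Mη : ℝ := (9 * CM * C0 / η) ^ 4 * (7 * (Real.exp (5 * CM) * 32 / η ^ 5)) with hMη
  have hMη0 : 0 < Mη := by positivity
  set CB : ℝ := (20 * (B + 2) / 9) ^ (B + 2) with hCB
  have hCB0 : 0 < CB := by positivity
  set Cf : ℝ := 5 * K * Mη * CI * (2 * (1 + Cw)) * CB with hCf
  refine ⟨max (max 9 (4 ^ (1 / η))) Cf, le_trans (by norm_num) ((le_max_left _ _).trans (le_max_left _ _)), ?_⟩
  intro T x lp lm hT hx1 hx2 hS
  have hT9 : 9 ≤ T := ((le_max_left _ _).trans (le_max_left _ _)).trans hT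
  have hTE : (4 : ℝ) ^ (1 / η) ≤ T := ((le_max_right _ _).trans (le_max_left _ _)).trans hT
  have hT0 : 0 < T := by linarith
  have hT1 : 1 ≤ T := by linarith
  have hx0 : 0 < x := lt_of_lt_of_le (by positivity) hx1
  have hxone : 1 ≤ x := le_trans (one_le_pow₀ hT1) hx1
  have hl2 : 2 ≤ Real.log T := by
    rw [Real.le_log_iff_exp_le hT0]
    have h1 := Real.exp_one_lt_d9
    have h2 : Real.exp 2 = Real.exp 1 * Real.exp 1 := by rw [← Real.exp_add]; norm_num
    have h3 := Real.exp_pos 1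
    nlinarith
  have hl0 : 0 < Real.log T := by linarith
  set y : ℕ := zz η T with hy
  set z : ℕ := zz c2 T with hz
  have hTη : (4 : ℝ) ≤ T ^ η := by
    have h1 := Real.rpow_le_rpow (by positivity) hTE hη.le
    rwa [← Real.rpow_mul (by norm_num), one_div, inv_mul_cancel₀ hη.ne', Real.rpow_one] at h1
  have hyge : T ^ η / 2 ≤ (y : ℝ) := zz_ge hη.le hT1
  have hyle : (y : ℝ) ≤ T ^ η := Nat.floor_le (by positivity)
  have hy2 : 2 ≤ y := by
    have : (2 : ℝ) ≤ y := by linarith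
    exact_mod_cast this
  have hy0 : (0 : ℝ) < y := by exact_mod_cast (by omega : 0 < y)
  have hly : η / 2 * Real.log T ≤ Real.log y := by
    have h1 := Real.log_le_log (by positivity) hyge
    rw [Real.log_div (by positivity) (by norm_num), Real.log_rpow hT0] at h1
    have h2 := Real.log_le_log (by norm_num) hTη
    rw [Real.log_rpow hT0] at h2
    have h3 : Real.log 4 = 2 * Real.log 2 := by
      rw [show (4 : ℝ) = 2 ^ 2 by norm_num, Real.log_pow]
      push_cast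
      ring
    linarith
  have hly0 : 0 < Real.log y := lt_of_lt_of_le (by positivity) hly
  have hyz : y ≤ z := zz_mono (by unfold c2; linarith) hT1
  set D : ℝ := T ^ κ' with hD
  have hD1 : 1 ≤ D := Real.one_le_rpow hT1 hκ'.le
  have hD20 : D ≤ T ^ (1 / 20 : ℝ) := Real.rpow_le_rpow_of_exponent_le hT1 hκ''
  have hDly : D ^ 2 * Real.log y ≤ T ^ (1 / 2 + κ3) := by
    have h1 : D ^ 2 ≤ T ^ (1 / 10 : ℝ) := by
      calc D ^ 2 ≤ (T ^ (1 / 20 : ℝ)) ^ 2 := by gcongr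
        _ = T ^ (1 / 10 : ℝ) := by
          rw [← Real.rpow_natCast, ← Real.rpow_mul hT0.le]
          norm_num
    have h2 : Real.log y ≤ T ^ (2 / 5 : ℝ) := by
      have h3 := Real.log_le_log hy0 hyle
      rw [Real.log_rpow hT0] at h3
      have h4 := Real.log_le_rpow_div hT0.le (show (0 : ℝ) < 2 / 5 by norm_num)
      have h5 : 0 < T ^ (2 / 5 : ℝ) := by positivity
      calc Real.log y ≤ η * Real.log T := h3
        _ ≤ 1 / 20 * (T ^ (2 / 5 : ℝ) / (2 / 5)) := by gcongr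
        _ = 1 / 8 * T ^ (2 / 5 : ℝ) := by ring
        _ ≤ T ^ (2 / 5 : ℝ) := by linarith
    calc D ^ 2 * Real.log y ≤ T ^ (1 / 10 : ℝ) * T ^ (2 / 5 : ℝ) := by gcongr
      _ = T ^ (1 / 2 : ℝ) := by rw [← Real.rpow_add hT0]; norm_num
      _ ≤ T ^ (1 / 2 + κ3) := Real.rpow_le_rpow_of_exponent_le hT1 (by linarith)
  set T1 : ℝ := Real.log T ^ B with hT1def
  have hT1one : 1 ≤ T1 := Real.one_le_rpow (by linarith) (by linarith)
  have hT10 : 0 < T1 := by linarith
  -- the window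
  obtain ⟨x1, hxa, hxb, hn⟩ := hwin x T1 hx0 hT1one
  have hwin' : ∀ n : ℕ, w (((n : ℝ) / x) ^ T1) ≠ 0 → x / Cw ≤ n ∧ (n : ℝ) ≤ (1 + Cw) * x := by
    intro n h0
    obtain ⟨h1, h2⟩ := hn n h0
    refine ⟨by linarith, ?_⟩
    have h3 : x / T1 ≤ x := div_le_self hx0.le hT1one
    have h4 : Cw * (x / T1) ≤ Cw * x := by gcongr
    linarith
  set N : ℕ := ⌊(1 + Cw) * x⌋₊ with hN
  have hN' : ∀ n : ℕ, w (((n : ℝ) / x) ^ T1) ≠ 0 → 1 ≤ n ∧ n ≤ N := by
    intro n h0
    obtain ⟨h1, h2⟩ := hwin' n h0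
    refine ⟨?_, Nat.le_floor h2⟩
    have h3 : 0 < x / Cw := by positivity
    have h4 : (0 : ℝ) < n := by linarith
    exact_mod_cast h4
  set A : ℝ := CI * (E / Real.log y) + CI * D * T1 * (2 * (1 + Cw)) / T ^ (1 / 2 : ℝ) with hA
  have hA0 : 0 ≤ A := by positivity
  have hnn : ∀ o, NN (msA y T κ3 lp o) := fun o => (slot (by linarith) hκ3 hS o).1
  -- every term
  have hterm : ∀ (u : Fin 5 → Option ℕ) (v : Fin (5 * SS η) → Option ℕ) (i : Fin 5), Lg T κ3 (u i) →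
      T1 / x * SW w (⇑(BXA5 y z T κ3 (Function.update (fun _ => lp) i (fun d => lp d - lm d)) u v)) x T1 ≤
        A * ∑ P ∈ Finset.Icc 1 N, Gi y z T κ3 lp i u v P / P * ind (2 * Cw) (2 * (1 + Cw)) x P (u i) := by
    intro u v i hL
    obtain ⟨k, hk, hlong⟩ := hL
    have hG : NN (Gi y z T κ3 lp i u v) :=
      (nn_prod _ _ fun j _ => hnn (u j)).mul (nn_prod _ _ fun r _ => nn_ps y z (v r))
    rw [BXA5_split lp _ i u v hk hlong, hk]
    exact term_le hG hx0 hT1 hT10 hCw (by linarith) (by linarith) hκ3 hly0 hN' hwin' hlong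
      (fun P hP => hIn' y k P D C0 E x T1 lp lm hy2 hS hD1 hE hP hxone hT1one)
  have hstep : ∑ u ∈ Bx 5 T, ∑ v ∈ Bx (5 * SS η) T, cwX5 v * ∑ i ∈ Finset.univ.filter (fun i => Lg T κ3 (u i)),
      T1 / x * SW w (⇑(BXA5 y z T κ3 (Function.update (fun _ => lp) i (fun d => lp d - lm d)) u v)) x T1 ≤
      ∑ u ∈ Bx 5 T, ∑ v ∈ Bx (5 * SS η) T, cwX5 v * ∑ i : Fin 5, A * ∑ P ∈ Finset.Icc 1 N,
        Gi y z T κ3 lp i u v P / P * ind (2 * Cw) (2 * (1 + Cw)) x P (u i) := by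
    refine Finset.sum_le_sum fun u _ => Finset.sum_le_sum fun v _ => ?_
    apply mul_le_mul_of_nonneg_left _ (cwX5_nonneg v)
    have h1 : ∑ i ∈ Finset.univ.filter (fun i => Lg T κ3 (u i)),
      T1 / x * SW w (⇑(BXA5 y z T κ3 (Function.update (fun _ => lp) i (fun d => lp d - lm d)) u v)) x T1 ≤
      ∑ i ∈ Finset.univ.filter (fun i => Lg T κ3 (u i)), A * ∑ P ∈ Finset.Icc 1 N,
        Gi y z T κ3 lp i u v P / P * ind (2 * Cw) (2 * (1 + Cw)) x P (u i) :=
      Finset.sum_le_sum fun i hi => hterm u v i (Finset.mem_filter.1 hi).2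
    refine h1.trans ?_
    apply Finset.sum_le_sum_of_subset_of_nonneg (Finset.filter_subset _ _)
    intro i _ _
    apply mul_nonneg hA0
    refine Finset.sum_nonneg fun P _ => ?_
    have hG : NN (Gi y z T κ3 lp i u v) :=
      (nn_prod _ _ fun j _ => hnn (u j)).mul (nn_prod _ _ fun r _ => nn_ps y z (v r))
    exact mul_nonneg (div_nonneg (hG P) (Nat.cast_nonneg P)) (ind_nonneg _ _ _ _ _)
  refine hstep.trans ((total_le y z N (SS η) T κ3 A (2 * Cw) (2 * (1 + Cw)) x lp hA0 (by positivity) (by positivity)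
    hx0 hnn).trans ?_)
  rw [← hK]
  -- the masses
  have hR : mu N (∑ o ∈ Finset.insertNone (Finset.range (LL T)), msA y T κ3 lp o) ≤ 9 * CM * C0 / η := by
    refine (mu_R (by linarith) hκ3 hCM hC0 hy2 hS hDly (fun l => hM2 y l hy2)
      (fun l hl => hM3 y l D C0 E lp lm hy2 hS hD1 hl hC0)).trans ?_
    have hLL : (LL T : ℝ) ≤ 4 * Real.log T := by
      unfold LL
      push_cast
      have h1 := Nat.ceil_lt_add_one (show 0 ≤ 3 * Real.log T by linarith)
      linarith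
    have h1 : (LL T : ℝ) * (CM * C0 / Real.log y) ≤ 4 * Real.log T * (CM * C0 / (η / 2 * Real.log T)) := by
      gcongr
    have h2 : 4 * Real.log T * (CM * C0 / (η / 2 * Real.log T)) = 8 * CM * C0 / η := by
      field_simp
      ring
    have h3 : 1 ≤ CM * C0 / η := by
      rw [le_div_iff₀ hη]
      have : 1 ≤ CM * C0 := one_le_mul_of_one_le_of_one_le hCM hC0
      linarith
    calc 1 + (LL T : ℝ) * (CM * C0 / Real.log y) ≤ CM * C0 / η + 8 * CM * C0 / η := by linarith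
      _ = 9 * CM * C0 / η := by ring
  have hV : mu N (∑ v ∈ Bx (5 * SS η) T, cwX5 v • ∏ r, ps y z (v r)) ≤ 7 * (Real.exp (5 * CM) * 32 / η ^ 5) := by
    refine (mu_V N y z (SS η) T (Real.log (2 / η) + CM) ((hM1 y z hy2 hyz).trans ?_)).trans (le_of_eq ?_)
    · have hz0 : (0 : ℝ) < z := by exact_mod_cast (by omega : 0 < z)
      have hyz' : (y : ℝ) ≤ z := by exact_mod_cast hyz
      have h1 : Real.log z ≤ Real.log T := by
        apply Real.log_le_log hz0
        calc (z : ℝ) ≤ T ^ c2 := Nat.floor_le (by positivity)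
          _ ≤ T ^ (1 : ℝ) := Real.rpow_le_rpow_of_exponent_le hT1 (by unfold c2; norm_num)
          _ = T := Real.rpow_one T
      have h2 : Real.log z / Real.log y ≤ 2 / η := by
        rw [div_le_div_iff₀ hly0 hη]
        have : η * Real.log T ≤ 2 * Real.log y := by linarith
        calc Real.log z * η ≤ Real.log T * η := by gcongr
          _ ≤ 2 * Real.log y := by linarith
      have h3 : 0 < Real.log z := lt_of_lt_of_le hly0 (Real.log_le_log hy0 hyz')
      have h4 := Real.log_le_log (by positivity) h2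
      linarith
    · congr 1
      rw [← Real.exp_nat_mul, show ((5 : ℕ) : ℝ) * (Real.log (2 / η) + CM) = Real.log ((2 / η) ^ 5) + 5 * CM by
        rw [Real.log_pow]; push_cast; ring, Real.exp_add, Real.exp_log (by positivity)]
      field_simp
      norm_num
  have hRn : 0 ≤ mu N (∑ o ∈ Finset.insertNone (Finset.range (LL T)), msA y T κ3 lp o) :=
    mu_nonneg (nn_sum _ _ fun o _ => hnn o)
  have hVn : 0 ≤ mu N (∑ v ∈ Bx (5 * SS η) T, cwX5 v • ∏ r, ps y z (v r)) :=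
    mu_nonneg (nn_sum _ _ fun v _ => nn_smul (nn_prod _ _ fun r _ => nn_ps y z (v r)) (cwX5_nonneg v))
  have hmass : mu N (∑ o ∈ Finset.insertNone (Finset.range (LL T)), msA y T κ3 lp o) ^ 4 *
      mu N (∑ v ∈ Bx (5 * SS η) T, cwX5 v • ∏ r, ps y z (v r)) ≤ Mη := by
    rw [hMη]
    gcongr
  have hK0 : 0 < K := by linarith
  refine (mul_le_mul_of_nonneg_left hmass (by positivity)).trans ?_
  -- the two parts
  have hA1 : CI * (E / Real.log y) ≤ 2 * CI / η * (E / Real.log T) := by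
    have h1 : E / Real.log y ≤ E / (η / 2 * Real.log T) := by gcongr
    calc CI * (E / Real.log y) ≤ CI * (E / (η / 2 * Real.log T)) := by gcongr
      _ = 2 * CI / η * (E / Real.log T) := by field_simp
  have hA2 : CI * D * T1 * (2 * (1 + Cw)) / T ^ (1 / 2 : ℝ) ≤ CI * (2 * (1 + Cw)) * CB / Real.log T ^ 2 := by
    have h1 := log_rpow_le (show 0 < B + 2 by linarith) hT1
    rw [Real.rpow_add hl0, ← hCB] at h1
    have h2 : Real.log T ^ (2 : ℝ) = Real.log T ^ 2 := by exact_mod_cast Real.rpow_natCast (Real.log T) 2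
    rw [h2, ← hT1def] at h1
    rw [div_le_div_iff₀ (by positivity) (by positivity)]
    calc CI * D * T1 * (2 * (1 + Cw)) * Real.log T ^ 2 = CI * (2 * (1 + Cw)) * D * (T1 * Real.log T ^ 2) := by ring
      _ ≤ CI * (2 * (1 + Cw)) * T ^ (1 / 20 : ℝ) * (CB * T ^ (9 / 20 : ℝ)) := by gcongr
      _ = CI * (2 * (1 + Cw)) * CB * (T ^ (1 / 20 : ℝ) * T ^ (9 / 20 : ℝ)) := by ring
      _ = CI * (2 * (1 + Cw)) * CB * T ^ (1 / 2 : ℝ) := by
        rw [← Real.rpow_add hT0]
        norm_num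
  calc 5 * A * K * Mη ≤ 5 * (2 * CI / η * (E / Real.log T) + CI * (2 * (1 + Cw)) * CB / Real.log T ^ 2) * K * Mη := by
        rw [hA]
        gcongr
    _ = C3 / η ^ 10 * E / Real.log T + Cf / Real.log T ^ 2 := by
        rw [hC3, hCf, hMη]
        field_simp
        ring
    _ ≤ (C3 / η) ^ 16 * E / Real.log T + max (max 9 (4 ^ (1 / η))) Cf / Real.log T ^ 2 := by
        have h1 : C3 / η ^ 10 ≤ (C3 / η) ^ 16 := by
          rw [div_pow]
          apply div_le_div₀ (by positivity) (le_self_pow₀ hC31 (by norm_num)) (by positivity)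
          exact pow_le_pow_of_le_one hη.le (by linarith) (by norm_num)
        have h2 : Cf ≤ max (max 9 (4 ^ (1 / η))) Cf := le_max_right _ _
        gcongr

end Pool.Agent.Work.MP_a8fbd7_nt.EX.ASM2
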