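import Pool.Agent.Work.MP_a8fbd7_nt.EX.ASM2.Stmts

/-!
MP_a8fbd7_nt, block EX, second wave, part ASM2, item YSh: the boxes with non-zero coefficient.
-/

set_option autoImplicit false

open MeasureTheory Set Filter Topology

noncomputable section

namespace Pool.Agent.Work.MP_a8fbd7_nt.EX.ASM2

open Pool.Agent.Work.MP_a8fbd7_nt.OX
open Pool.Agent.Work.MP_a8fbd7_nt.OX.ID (Rough roughOne pb rg)
open Pool.Agent.Work.MP_a8fbd7_nt.OX.ASM
open Pool.Agent.Work.MP_a8fbd7_nt.EX
open Pool.Agent.Work.MP_a8fbd7_nt.EX.CELL (r2 c2)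
open Pool.Agent.Work.MP_a8fbd7_nt.EX.ASM (al bw sqr aJ)

namespace YSh_aux

lemma sc_one_le (o : Option ℕ) : 1 ≤ sc o := by
  cases o with
  | none => simp [sc]
  | some l => simpa [sc] using one_le_pow₀ (by norm_num : (1 : ℝ) ≤ 2)

lemma sc_pos (o : Option ℕ) : 0 < sc o := lt_of_lt_of_le one_pos (sc_one_le o)

lemma prod_one_le {ι : Type*} (s : Finset ι) (f : ι → ℝ) (hf : ∀ i ∈ s, 1 ≤ f i) :
    1 ≤ ∏ i ∈ s, f i := by
  classical
  induction s using Finset.induction_on with
  | empty => simp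
  | insert a s ha ih =>
    rw [Finset.prod_insert ha]
    exact one_le_mul_of_one_le_of_one_le (hf a (Finset.mem_insert_self a s))
      (ih fun i hi => hf i (Finset.mem_insert_of_mem hi))

lemma prod_le_pow {ι : Type*} (s : Finset ι) (f : ι → ℝ) (b : ℝ) (h0 : ∀ i ∈ s, 0 ≤ f i)
    (hf : ∀ i ∈ s, f i ≤ b) : ∏ i ∈ s, f i ≤ b ^ s.card := by
  rw [← Finset.prod_const]
  exact Finset.prod_le_prod h0 hf

lemma sc_le_of_not_Lg {T κ : ℝ} (hT : 1 ≤ T) (hκ : 0 < κ) {o : Option ℕ} (h : ¬ Lg T κ o) :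
    sc o ≤ T ^ (1 / 2 + κ) := by
  cases o with
  | none =>
    simp only [sc]
    exact Real.one_le_rpow hT (by linarith)
  | some l =>
    simp only [sc]
    by_contra hc
    exact h ⟨l, rfl, lt_of_not_ge hc⟩

lemma clip_pos {t : ℝ} (h : clip t ≠ 0) : 0 < t := by
  by_contra hc
  apply h
  unfold clip
  have h1 : min 1 t ≤ 0 := (min_le_right _ _).trans (not_lt.mp hc)
  exact max_eq_left h1

variable {S : ℕ} (u : Fin 5 → Option ℕ) (v : Fin (5 * S) → Option ℕ)

lemma fprod_one_le (i : Fin 5) :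
    1 ≤ ∏ r ∈ Finset.univ.filter (fun r => own5 r = i), sc (v r) :=
  prod_one_le _ _ fun r _ => sc_one_le _

lemma fprod_le (i : Fin 5) :
    ∏ r ∈ Finset.univ.filter (fun r => own5 r = i), sc (v r) ≤ ∏ r, sc (v r) := by
  rw [← Finset.prod_filter_mul_prod_filter_not Finset.univ (fun r => own5 r = i) (fun r => sc (v r))]
  have := fprod_one_le v i
  exact le_mul_of_one_le_right (by linarith) (prod_one_le _ _ fun r _ => sc_one_le _)

lemma sc_le_svr (i : Fin 5) : sc (u i) ≤ svr5 u v i := by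
  unfold svr5
  exact le_mul_of_one_le_right (sc_pos _).le (by
    have := fprod_one_le v i
    convert this)

lemma svr_one_le (i : Fin 5) : 1 ≤ svr5 u v i := (sc_one_le _).trans (sc_le_svr u v i)

lemma svr_triv {i : Fin 5} (h : triv5 u v i) : svr5 u v i = 1 := by
  unfold svr5
  rw [h.1]
  have : ∀ r ∈ Finset.univ.filter (fun r => own5 r = i), sc (v r) = 1 := by
    intro r hr
    rw [Finset.mem_filter] at hr
    rw [h.2 r hr.2]
    rfl
  rw [Finset.prod_eq_one this]
  simp [sc]

end YSh_aux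

open YSh_aux in
theorem iYSh : StYSh := by
  classical
  intro κ1 κ2 T S u v h1 h1' h2 h2' hT hcc
  have hT1 : 1 ≤ T := hT.le
  have hT0 : 0 < T := by linarith
  have hlog : 0 < Real.log T := Real.log_pos hT
  by_cases hW : Wf κ1 (fun i => Real.log (svr5 u v i) / Real.log T) = 0
  · -- no five-variable weight
    have hbr : (∀ i : Fin 5, 1 ≤ i.val → triv5 u v i) ∨ (∀ i : Fin 5, 2 ≤ i.val → triv5 u v i) ∨
        (∀ i : Fin 5, 3 ≤ i.val → triv5 u v i) ∨ (kept5 T κ1 u v ∧ triv5 u v 4) := by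
      by_contra hc
      push Not at hc
      obtain ⟨c1, c2', c3, c4⟩ := hc
      apply hcc
      unfold ccX5
      rw [hW, if_neg (by push Not; exact c1), if_neg (by push Not; exact c2'),
        if_neg (by push Not; exact c3), if_neg (by push Not; exact c4)]
      simp
    have hlow : ∀ i : Fin 5, triv5 u v i → ¬ T ^ (1 / 2 - κ1) ≤ svr5 u v i := by
      intro i hi hle
      rw [svr_triv u v hi] at hle
      have := Real.one_lt_rpow hT (by linarith : (0 : ℝ) < 1 / 2 - κ1)
      linarith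
    have h4 : triv5 u v 4 := by
      rcases hbr with h | h | h | h
      · exact h 4 (by decide)
      · exact h 4 (by decide)
      · exact h 4 (by decide)
      · exact h.2
    have hkept : kept5 T κ1 u v := by
      rcases hbr with h | h | h | h
      · intro hall
        exact hlow 3 (h 3 (by decide)) (hall 3 (by decide)).1
      · intro hall
        exact hlow 3 (h 3 (by decide)) (hall 3 (by decide)).1
      · intro hall
        exact hlow 3 (h 3 (by decide)) (hall 3 (by decide)).1
      · exact h.1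
    refine ⟨Or.inl h4.1, ?_⟩
    intro hu hPX
    by_contra hcon
    have hP : ∏ r, sc (v r) < T ^ (κ1 / 2) := lt_of_not_ge hcon
    apply hkept
    intro i hi4
    have hi : i ≠ 4 := by
      rintro rfl
      exact absurd hi4 (by decide)
    have hb : ∀ j, sc (u j) ≤ T ^ (1 / 2 + κ2) := fun j => sc_le_of_not_Lg hT1 h2 (hu j)
    have hs4 : sc (u 4) = 1 := by rw [h4.1]; rfl
    have hmem : (4 : Fin 5) ∈ Finset.univ.erase i :=
      Finset.mem_erase.mpr ⟨hi.symm, Finset.mem_univ _⟩
    have hrest : ∏ j ∈ Finset.univ.erase i, sc (u j) ≤ T ^ (3 / 2 + 3 * κ2) := by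
      rw [← Finset.mul_prod_erase _ (fun j => sc (u j)) hmem]
      simp only [hs4, one_mul]
      have h3 := prod_le_pow ((Finset.univ.erase i).erase 4) (fun j => sc (u j)) (T ^ (1 / 2 + κ2))
        (fun j _ => (sc_pos _).le) (fun j _ => hb j)
      have hc : ((Finset.univ.erase i).erase 4).card = 3 := by
        rw [Finset.card_erase_of_mem hmem, Finset.card_erase_of_mem (Finset.mem_univ i)]; simp
      rw [hc, ← Real.rpow_natCast, ← Real.rpow_mul hT0.le] at h3
      have he : (1 / 2 + κ2) * ((3 : ℕ) : ℝ) = 3 / 2 + 3 * κ2 := by push_cast; ring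
      rwa [he] at h3
    have hsplit : ∏ j, sc (u j) = sc (u i) * ∏ j ∈ Finset.univ.erase i, sc (u j) :=
      (Finset.mul_prod_erase Finset.univ (fun j => sc (u j)) (Finset.mem_univ i)).symm
    have hPpos : 0 < ∏ r, sc (v r) := Finset.prod_pos fun r _ => sc_pos _
    have hrpos : 0 < ∏ j ∈ Finset.univ.erase i, sc (u j) := Finset.prod_pos fun r _ => sc_pos _
    have hlow : T ^ (1 / 2 - κ1) ≤ sc (u i) := by
      have e1 : T ^ (2 - κ1 / 100) ≤ sc (u i) * T ^ (3 / 2 + 3 * κ2) * T ^ (κ1 / 2) := by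
        calc T ^ (2 - κ1 / 100) ≤ PX5 u v := hPX
          _ = sc (u i) * (∏ j ∈ Finset.univ.erase i, sc (u j)) * ∏ r, sc (v r) := by
              unfold PX5; rw [hsplit]
          _ ≤ sc (u i) * T ^ (3 / 2 + 3 * κ2) * T ^ (κ1 / 2) := by
              apply mul_le_mul (mul_le_mul_of_nonneg_left hrest (sc_pos _).le) hP.le hPpos.le
              exact mul_nonneg (sc_pos _).le (Real.rpow_nonneg hT0.le _)
      have e2 : T ^ (1 / 2 - κ1) * (T ^ (3 / 2 + 3 * κ2) * T ^ (κ1 / 2)) ≤ T ^ (2 - κ1 / 100) := by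
        rw [← Real.rpow_add hT0, ← Real.rpow_add hT0]
        apply Real.rpow_le_rpow_of_exponent_le hT1
        linarith
      have hpos : 0 < T ^ (3 / 2 + 3 * κ2) * T ^ (κ1 / 2) :=
        mul_pos (Real.rpow_pos_of_pos hT0 _) (Real.rpow_pos_of_pos hT0 _)
      have e3 : T ^ (1 / 2 - κ1) * (T ^ (3 / 2 + 3 * κ2) * T ^ (κ1 / 2)) ≤
          sc (u i) * (T ^ (3 / 2 + 3 * κ2) * T ^ (κ1 / 2)) := by
        rw [← mul_assoc (sc (u i))]
        exact e2.trans e1
      exact le_of_mul_le_mul_right e3 hpos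
    refine ⟨hlow.trans (sc_le_svr u v i), ?_⟩
    unfold svr5
    calc sc (u i) * ∏ r ∈ Finset.univ.filter (fun r => own5 r = i), sc (v r)
        ≤ T ^ (1 / 2 + κ2) * T ^ (κ1 / 2) := by
          apply mul_le_mul (hb i) ((fprod_le v i).trans hP.le) (by
            have := fprod_one_le v i
            linarith)
          exact Real.rpow_nonneg hT0.le _
      _ ≤ T ^ (1 / 2 + κ1) := by
          rw [← Real.rpow_add hT0]
          apply Real.rpow_le_rpow_of_exponent_le hT1
          linarith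
  · -- the weight is not zero
    unfold Wf at hW
    have n1 := mul_ne_zero_iff.mp (mul_ne_zero_iff.mp (mul_ne_zero_iff.mp (mul_ne_zero_iff.mp hW).1).1).1
    have hsz : 0 < (1 - Real.log (svr5 u v 2) / Real.log T - Real.log (svr5 u v 3) / Real.log T -
        Real.log (svr5 u v 4) / Real.log T) / κ1 := clip_pos (mul_ne_zero_iff.mp n1.1).2
    have h0z : 0 < (Real.log (svr5 u v 0) / Real.log T - 1 / 2 - κ1) / κ1 := clip_pos n1.2
    have hp : ∀ i, 0 < svr5 u v i := fun i => lt_of_lt_of_le one_pos (svr_one_le u v i)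
    have hsz' : Real.log (svr5 u v 2) + Real.log (svr5 u v 3) + Real.log (svr5 u v 4) <
        Real.log T := by
      have h3 : 0 < 1 - Real.log (svr5 u v 2) / Real.log T - Real.log (svr5 u v 3) / Real.log T -
        Real.log (svr5 u v 4) / Real.log T := by
        by_contra hc
        exact absurd hsz (not_lt.mpr (div_nonpos_of_nonpos_of_nonneg (not_lt.mp hc) h1.le))
      have h5 : (Real.log (svr5 u v 2) + Real.log (svr5 u v 3) + Real.log (svr5 u v 4)) /
        Real.log T < 1 := by
        have e : (Real.log (svr5 u v 2) + Real.log (svr5 u v 3) + Real.log (svr5 u v 4)) /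
          Real.log T = Real.log (svr5 u v 2) / Real.log T + Real.log (svr5 u v 3) / Real.log T +
          Real.log (svr5 u v 4) / Real.log T := by ring
        rw [e]; linarith
      rwa [div_lt_one hlog] at h5
    have hprod : svr5 u v 2 * svr5 u v 3 * svr5 u v 4 ≤ T := by
      rw [← Real.log_mul (hp 2).ne' (hp 3).ne', ← Real.log_mul (mul_pos (hp 2) (hp 3)).ne'
        (hp 4).ne'] at hsz'
      exact ((Real.log_lt_log_iff (mul_pos (mul_pos (hp 2) (hp 3)) (hp 4)) hT0).mp hsz').le
    refine ⟨Or.inr ?_, ?_⟩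
    · refine le_trans ?_ hprod
      apply mul_le_mul (mul_le_mul (sc_le_svr u v 2) (sc_le_svr u v 3) (sc_pos _).le (hp 2).le)
        (sc_le_svr u v 4) (sc_pos _).le (mul_pos (hp 2) (hp 3)).le
    · intro hu _
      have hx : 1 / 2 + κ1 < Real.log (svr5 u v 0) / Real.log T := by
        by_contra hc
        exact absurd h0z (not_lt.mpr (div_nonpos_of_nonpos_of_nonneg (by linarith [not_lt.mp hc])
          h1.le))
      have hbig : T ^ (1 / 2 + κ1) < svr5 u v 0 := by
        rw [lt_div_iff₀ hlog] at hx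
        rw [Real.rpow_def_of_pos hT0]
        rw [← Real.lt_log_iff_exp_lt (hp 0)]
        linarith
      have hb : sc (u 0) ≤ T ^ (1 / 2 + κ2) := sc_le_of_not_Lg hT1 h2 (hu 0)
      have hchain : T ^ (1 / 2 + κ2) * T ^ (κ1 / 2) ≤ T ^ (1 / 2 + κ2) * ∏ r, sc (v r) := by
        calc T ^ (1 / 2 + κ2) * T ^ (κ1 / 2) ≤ T ^ (1 / 2 + κ1) := by
              rw [← Real.rpow_add hT0]
              apply Real.rpow_le_rpow_of_exponent_le hT1
              linarith
          _ ≤ svr5 u v 0 := hbig.le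
          _ ≤ T ^ (1 / 2 + κ2) * ∏ r, sc (v r) := by
              unfold svr5
              apply mul_le_mul hb (fprod_le v 0) (by
                have := fprod_one_le v 0
                linarith) (Real.rpow_nonneg hT0.le _)
      exact le_of_mul_le_mul_left hchain (Real.rpow_pos_of_pos hT0 _)

end Pool.Agent.Work.MP_a8fbd7_nt.EX.ASM2
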