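import Pool.Agent.Work.MP_a8fbd7_nt.EX.ASM2.Stmts
import Pool.Agent.Work.MP_a8fbd7_nt.OX.ASM.I_V1

/-!
MP_a8fbd7_nt, block EX, second wave, part ASM2, item YV1: the vector sieve sandwich (five `u`-slots).
-/

set_option autoImplicit false

open MeasureTheory Set Filter Topology

noncomputable section

namespace Pool.Agent.Work.MP_a8fbd7_nt.EX.ASM2

open Pool.Agent.Work.MP_56b8f5_nt.UC (IsWt Bl Dp Om psi eta Sep)
open Pool.Agent.Work.MP_a8fbd7_nt.OX
open Pool.Agent.Work.MP_a8fbd7_nt.OX.ID (Rough roughOne pb rg)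
open Pool.Agent.Work.MP_a8fbd7_nt.OX.ASM
open Pool.Agent.Work.MP_a8fbd7_nt.OX.ASM.V1_aux
open Pool.Agent.Work.MP_a8fbd7_nt.EX
open Pool.Agent.Work.MP_a8fbd7_nt.EX.CELL (r2 c2)
open Pool.Agent.Work.MP_a8fbd7_nt.EX.ASM (al bw sqr aJ)

namespace YV1_aux

/-- one more slot: upper side -/
theorem step_up {P Q U G F X : ArithmeticFunction ℝ} (hU : NN (U - (P - Q))) (hPQ : NN (P - Q)) (hP : NN P)
    (hG : NN G) (hX : NN (X - (G - F))) (hd : NN (G - F)) : NN (U * G + P * X - (P * G - Q * F)) := by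
  have key : U * G + P * X - (P * G - Q * F) =
      (U - (P - Q)) * G + (X - (G - F)) * P + (P - Q) * (G - F) := by ring
  rw [key]
  exact ((hU.mul hG).add (hX.mul hP)).add (hPQ.mul hd)

/-- one more slot: lower side -/
theorem step_low {P Q G F : ArithmeticFunction ℝ} (hPQ : NN (P - Q)) (hQ : NN Q)
    (hG : NN G) (hd : NN (G - F)) : NN (P * G - Q * F) := by
  have key : P * G - Q * F = (P - Q) * G + Q * (G - F) := by ring
  rw [key]
  exact (hPQ.mul hG).add (hQ.mul hd)

end YV1_aux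

open YV1_aux

theorem iYV1 : StYV1 := by
  classical
  intro T κ D C0 E y z n0 lp lm u v n hT hκ hS
  set V : ArithmeticFunction ℝ := ∏ r, ps y z (v r) with hV
  have hVnn : NN V := nn_prod _ _ (fun r _ => nn_ps y z (v r))
  obtain ⟨g0, d0, x0, e0⟩ := slot hT hκ hS (u 0)
  obtain ⟨g1, d1, x1, e1⟩ := slot hT hκ hS (u 1)
  obtain ⟨g2, d2, x2, e2⟩ := slot hT hκ hS (u 2)
  obtain ⟨g3, d3, x3, e3⟩ := slot hT hκ hS (u 3)
  obtain ⟨g4, d4, x4, e4⟩ := slot hT hκ hS (u 4)
  have f0 := nn_ms y (u 0)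
  have f1 := nn_ms y (u 1)
  have f2 := nn_ms y (u 2)
  have f3 := nn_ms y (u 3)
  have f4 := nn_ms y (u 4)
  set G0 := msA y T κ lp (u 0) with hG0
  set G1 := msA y T κ lp (u 1) with hG1
  set G2 := msA y T κ lp (u 2) with hG2
  set G3 := msA y T κ lp (u 3) with hG3
  set G4 := msA y T κ lp (u 4) with hG4
  set F0 := ms y (u 0) with hF0
  set F1 := ms y (u 1) with hF1
  set F2 := ms y (u 2) with hF2
  set F3 := ms y (u 3) with hF3
  set F4 := ms y (u 4) with hF4
  set M0 := msA y T κ (fun d => lp d - lm d) (u 0) with hM0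
  set M1 := msA y T κ (fun d => lp d - lm d) (u 1) with hM1
  set M2 := msA y T κ (fun d => lp d - lm d) (u 2) with hM2
  set M3 := msA y T κ (fun d => lp d - lm d) (u 3) with hM3
  set M4 := msA y T κ (fun d => lp d - lm d) (u 4) with hM4
  have b0 : BXA5 y z T κ (Function.update (fun _ => lp) 0 (fun d => lp d - lm d)) u v = M0 * G1 * G2 * G3 * G4 * V := by
    unfold BXA5
    rw [Fin.prod_univ_five]
    simp [Function.update, hM0, hG1, hG2, hG3, hG4, hV]
  have b1 : BXA5 y z T κ (Function.update (fun _ => lp) 1 (fun d => lp d - lm d)) u v = G0 * M1 * G2 * G3 * G4 * V := by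
    unfold BXA5
    rw [Fin.prod_univ_five]
    simp [Function.update, hM1, hG0, hG2, hG3, hG4, hV]
  have b2 : BXA5 y z T κ (Function.update (fun _ => lp) 2 (fun d => lp d - lm d)) u v = G0 * G1 * M2 * G3 * G4 * V := by
    unfold BXA5
    rw [Fin.prod_univ_five]
    simp [Function.update, hM2, hG0, hG1, hG3, hG4, hV]
  have b3 : BXA5 y z T κ (Function.update (fun _ => lp) 3 (fun d => lp d - lm d)) u v = G0 * G1 * G2 * M3 * G4 * V := by
    unfold BXA5
    rw [Fin.prod_univ_five]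
    simp [Function.update, hM3, hG0, hG1, hG2, hG4, hV]
  have b4 : BXA5 y z T κ (Function.update (fun _ => lp) 4 (fun d => lp d - lm d)) u v = G0 * G1 * G2 * G3 * M4 * V := by
    unfold BXA5
    rw [Fin.prod_univ_five]
    simp [Function.update, hM4, hG0, hG1, hG2, hG3, hV]
  have bF : BX5 y z u v = F0 * F1 * F2 * F3 * F4 * V := by
    unfold BX5
    rw [Fin.prod_univ_five]
  have bG : BXA5 y z T κ (fun _ => lp) u v = G0 * G1 * G2 * G3 * G4 * V := by
    unfold BXA5
    rw [Fin.prod_univ_five]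
  constructor
  · set X0 : ArithmeticFunction ℝ := (if Lg T κ (u 0) then M0 else 0) with hX0
    set X1 : ArithmeticFunction ℝ := (if Lg T κ (u 1) then M1 else 0) with hX1
    set X2 : ArithmeticFunction ℝ := (if Lg T κ (u 2) then M2 else 0) with hX2
    set X3 : ArithmeticFunction ℝ := (if Lg T κ (u 3) then M3 else 0) with hX3
    set X4 : ArithmeticFunction ℝ := (if Lg T κ (u 4) then M4 else 0) with hX4
    have p1 : NN (X0 * G1 + G0 * X1 - (G0 * G1 - F0 * F1)) := step_up x0 d0 g0 g1 x1 d1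
    have q1 : NN (G0 * G1 - F0 * F1) := step_low d0 f0 g1 d1
    have p2 := step_up p1 q1 (g0.mul g1) g2 x2 d2
    have q2 := step_low q1 (f0.mul f1) g2 d2
    have p3 := step_up p2 q2 ((g0.mul g1).mul g2) g3 x3 d3
    have q3 := step_low q2 ((f0.mul f1).mul f2) g3 d3
    have p4 := step_up p3 q3 (((g0.mul g1).mul g2).mul g3) g4 x4 d4
    have q4 := step_low q3 (((f0.mul f1).mul f2).mul f3) g4 d4
    have hup : NN ((((((X0 * G1 + G0 * X1) * G2 + G0 * G1 * X2) * G3 + G0 * G1 * G2 * X3) * G4 + G0 * G1 * G2 * G3 * X4) * V) -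
        (G0 * G1 * G2 * G3 * G4 * V - F0 * F1 * F2 * F3 * F4 * V)) := by
      have := p4.mul hVnn
      rw [sub_mul, sub_mul] at this
      exact this
    have hlow : NN (G0 * G1 * G2 * G3 * G4 * V - F0 * F1 * F2 * F3 * F4 * V) := by
      have := q4.mul hVnn
      rw [sub_mul] at this
      exact this
    have h1 := hup n
    have h2 := hlow n
    rw [sub_apply', sub_apply'] at h1
    rw [sub_apply'] at h2
    rw [bF, bG, abs_sub_comm, abs_of_nonneg h2, Finset.sum_filter, Fin.sum_univ_five, b0, b1, b2, b3, b4]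
    have hsum : ((if Lg T κ (u 0) then (M0 * G1 * G2 * G3 * G4 * V) n else 0) + (if Lg T κ (u 1) then (G0 * M1 * G2 * G3 * G4 * V) n else 0) +
        (if Lg T κ (u 2) then (G0 * G1 * M2 * G3 * G4 * V) n else 0) + (if Lg T κ (u 3) then (G0 * G1 * G2 * M3 * G4 * V) n else 0) +
        (if Lg T κ (u 4) then (G0 * G1 * G2 * G3 * M4 * V) n else 0)) =
        (((((X0 * G1 + G0 * X1) * G2 + G0 * G1 * X2) * G3 + G0 * G1 * G2 * X3) * G4 + G0 * G1 * G2 * G3 * X4) * V) n := by
      have key : ((((X0 * G1 + G0 * X1) * G2 + G0 * G1 * X2) * G3 + G0 * G1 * G2 * X3) * G4 + G0 * G1 * G2 * G3 * X4) * V =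
          X0 * G1 * G2 * G3 * G4 * V + G0 * X1 * G2 * G3 * G4 * V + G0 * G1 * X2 * G3 * G4 * V + G0 * G1 * G2 * X3 * G4 * V +
            G0 * G1 * G2 * G3 * X4 * V := by ring
      rw [key, ArithmeticFunction.add_apply, ArithmeticFunction.add_apply, ArithmeticFunction.add_apply, ArithmeticFunction.add_apply]
      congr 1
      · congr 1
        · congr 1
          · congr 1
            · rw [hX0]; split_ifs <;> simp
            · rw [hX1]; split_ifs <;> simp
          · rw [hX2]; split_ifs <;> simp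
        · rw [hX3]; split_ifs <;> simp
      · rw [hX4]; split_ifs <;> simp
    rw [hsum]
    linarith
  · intro i
    fin_cases i
    · show 0 ≤ BXA5 y z T κ (Function.update (fun _ => lp) 0 (fun d => lp d - lm d)) u v n
      rw [b0]
      exact ((((e0.mul g1).mul g2).mul g3).mul g4).mul hVnn n
    · show 0 ≤ BXA5 y z T κ (Function.update (fun _ => lp) 1 (fun d => lp d - lm d)) u v n
      rw [b1]
      exact ((((g0.mul e1).mul g2).mul g3).mul g4).mul hVnn n
    · show 0 ≤ BXA5 y z T κ (Function.update (fun _ => lp) 2 (fun d => lp d - lm d)) u v n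
      rw [b2]
      exact ((((g0.mul g1).mul e2).mul g3).mul g4).mul hVnn n
    · show 0 ≤ BXA5 y z T κ (Function.update (fun _ => lp) 3 (fun d => lp d - lm d)) u v n
      rw [b3]
      exact ((((g0.mul g1).mul g2).mul e3).mul g4).mul hVnn n
    · show 0 ≤ BXA5 y z T κ (Function.update (fun _ => lp) 4 (fun d => lp d - lm d)) u v n
      rw [b4]
      exact ((((g0.mul g1).mul g2).mul g3).mul e4).mul hVnn n

end Pool.Agent.Work.MP_a8fbd7_nt.EX.ASM2
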