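import Pool.Agent.Work.MP_a8fbd7_nt.OX.ASM.All
import Pool.Agent.Work.MP_a8fbd7_nt.OX.LV.All
import Pool.Agent.Work.MP_a8fbd7_nt.ZF.All
import Pool.Agent.Work.MP_a8fbd7_nt.EX.CELL.All2
import Pool.Agent.Work.MP_a8fbd7_nt.EX.ASM.I_XSq
import Pool.Agent.Work.MP_a8fbd7_nt.EX.ASM.I_XBd
import Pool.Agent.Work.MP_a8fbd7_nt.EX.ASM.I_XPN
import Pool.Agent.Work.MP_a8fbd7_nt.EX.ASM2.I_YRg
import Pool.Agent.Work.MP_a8fbd7_nt.EX.ASM2.I_YBB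
import Pool.Agent.Work.MP_a8fbd7_nt.EX.ASM2.I_YAA
import Pool.Agent.Work.MP_a8fbd7_nt.EX.ASM2.I_YV1
import Pool.Agent.Work.MP_a8fbd7_nt.EX.ASM2.I_YSE
import Pool.Agent.Work.MP_a8fbd7_nt.EX.ASM2.I_YSh
import Pool.Agent.Work.MP_a8fbd7_nt.EX.ASM2.I_YCc
import Pool.Agent.Work.MP_a8fbd7_nt.EX.ASM2.I_YEx
import Pool.Agent.Work.MP_a8fbd7_nt.EX.ASM2.I_YPw
import Pool.Agent.Work.MP_a8fbd7_nt.EX.ASM2.I_YF5
import Pool.Agent.Work.MP_a8fbd7_nt.EX.ASM2.I_YDr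
import Pool.Agent.Work.MP_a8fbd7_nt.EX.ASM2.I_YRo
import Pool.Agent.Work.MP_a8fbd7_nt.EX.ASM2.I_YLi
import Pool.Agent.Work.MP_a8fbd7_nt.EX.ASM2.I_YMe
import Pool.Agent.Work.MP_a8fbd7_nt.EX.ASM2.I_YAl
import Pool.Agent.Work.MP_a8fbd7_nt.EX.ASM2.I_YLo
import Pool.Agent.Work.MP_a8fbd7_nt.EX.ASM2.I_YNu
import Pool.Agent.Work.MP_a8fbd7_nt.EX.ASM2.I_YMn
import Pool.Agent.Work.MP_a8fbd7_nt.EX.ASM2.I_YCo
import Pool.Agent.Work.MP_a8fbd7_nt.EX.ASM2.I_YGa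

/-!
# MP_a8fbd7_nt, block EX, second wave: everything together
-/

set_option autoImplicit false

namespace Pool.Agent.Work.MP_a8fbd7_nt.EX.ASM2

open Pool.Agent.Work.MP_a8fbd7_nt.OX
open Pool.Agent.Work.MP_a8fbd7_nt.OX.ASM
open Pool.Agent.Work.MP_a8fbd7_nt.EX
open Pool.Agent.Work.MP_a8fbd7_nt.EX.CELL (r2 c2)

theorem cXA : StCellXA r2 c2 := EX.CELL.cellXA2 lv_Pf lv_Mv lv_Hx lv_G lv_J

theorem cXB : StCellXB r2 c2 :=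
  EX.CELL.cellXB2 lv_Pf lv_Mv lv_Hx lv_G lv_J Pool.Agent.Work.MP_a8fbd7_nt.ZF.all_HM

theorem all_XPN : EX.ASM.StXPN := EX.ASM.iXPN Pool.Agent.Work.MP_a8fbd7_nt.ZF.all_Pnt

theorem all_YMe : StYMe := iYMe Pool.Agent.Work.MP_a8fbd7_nt.ZF.all_Pnt

theorem all_YRg : StYRg := iYRg iPd

theorem all_YSE : StYSE := iYSE iMa iIn iPd all_YRg

theorem all_YLi : StYLi := iYLi iYEx iYPw iYF5 EX.ASM.iXSq iYDr EX.ASM.iXBd iYRo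

theorem all_YAl : StYAl := iYAl all_XPN all_YMe EX.ASM.iXSq

theorem all_YLo : StYLo := iYLo all_XPN all_YMe

theorem all_YBB : StYBB := iYBB cXB all_F4 iPd all_YRg all_Sa

theorem all_YAA : StYAA := iYAA cXA all_F4 iPd all_YRg all_Rp iTb Uc.u_Kp

theorem all_YMn : StYMn :=
  iYMn all_YBB all_YAA iYSh iYCc all_YRg iYV1 iSv all_YSE all_YLi all_XPN all_YAl all_YLo iYNu

theorem all_YCo : StYCo := iYCo all_YMn iWt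

theorem all_YGa : StYGa := iYGa all_YMn iWt

end Pool.Agent.Work.MP_a8fbd7_nt.EX.ASM2
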