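import Mathlib
import Pool.Agent.Work.MP_a8fbd7_nt.EX.ASM.I_XGa
import Pool.Agent.Work.MP_a8fbd7_nt.EX.ASM2.Stmts

/-!
MP_a8fbd7_nt, block EX, second wave, part ASM2: item YGa (gaps between primes, exponents `21/400` and `221/400`).
Copy of `EX/ASM/I_XGa.lean`: the estimate in one block (`XGa_aux.block`, `XGa_aux.block_triv`, `XGa_aux.SW_zero`) does not depend on the exponent and is reused; new exponent `r12 = 1049/10000`,
`r12 / 2 + 1 / 20000 = 21 / 400`, `(1 + r12) / 2 + 1 / 20000 = 221 / 400`.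
-/

set_option autoImplicit false

open MeasureTheory Set Filter Topology

noncomputable section

namespace Pool.Agent.Work.MP_a8fbd7_nt.EX.ASM2

open Pool.Agent.Work.MP_56b8f5_nt.UC (IsWt Bl Dp Om psi eta Sep)
open Pool.Agent.Work.MP_a8fbd7_nt.OX
open Pool.Agent.Work.MP_a8fbd7_nt.OX.ID (Rough roughOne pb rg)
open Pool.Agent.Work.MP_a8fbd7_nt.OX.ASM
open Pool.Agent.Work.MP_a8fbd7_nt.EX
open Pool.Agent.Work.MP_a8fbd7_nt.EX.CELL (r2 c2)
open Pool.Agent.Work.MP_a8fbd7_nt.EX.ASM (al bw sqr aJ)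

namespace YGa_aux

open Pool.Agent.Work.MP_a8fbd7_nt.EX.ASM.XGa_aux

/-- bound for every block -/
lemma block_all (hMn : StYMn) (hWt : StWt) {lam : ℝ} (hlam : 0 < lam) (hlam1 : lam ≤ 1) : ∃ C : ℝ, 1 ≤ C ∧ ∀ T : ℝ, 1 ≤ T →
    ∀ G : Finset (ℕ × ℕ), (∀ g ∈ G, CP g ∧ T ^ 2 ≤ g.1 ∧ (g.1 : ℝ) ≤ 2 * T ^ 2 ∧ lam * T ≤ (g.2 : ℝ) - g.1) →
    (G.card : ℝ) ≤ C * T ^ r12 ∧ ∑ g ∈ G, ((g.2 : ℝ) - g.1) ≤ C * T ^ (1 + r12) := by
  obtain ⟨w, hw, hw01, -, hsupp, hI, -⟩ := hWt (lam / 256) (lam / 128) (lam / 256) (by linarith) (by positivity)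
  have hIpos : 0 < Iw w := by linarith
  have hsupp' : ∀ u, w u ≠ 0 → 1 ≤ u ∧ u ≤ Real.exp (lam / 64) := by
    intro u hu
    obtain ⟨h1, h2⟩ := hsupp u hu
    refine ⟨?_, h2.trans (Real.exp_le_exp.2 (by linarith))⟩
    simpa using h1
  obtain ⟨C, hC1, hC⟩ := hMn w hw (fun u => (hw01 u).1) (Iw w / 200) (by linarith)
  set m : ℝ := (⌈32 / lam⌉₊ : ℝ) with hm_def
  have hm0 : 0 ≤ m := Nat.cast_nonneg _
  have hr : (0 : ℝ) ≤ r12 := by unfold r12; norm_num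
  refine ⟨m * C + (2 * C ^ 2 + 1) * (2 * C ^ 2) + (2 * C ^ 2 + 1), ?_, ?_⟩
  · have h1 : 0 ≤ m * C := by positivity
    have h2 : 0 ≤ (2 * C ^ 2 + 1) * (2 * C ^ 2) := by positivity
    have h3 : 0 ≤ C ^ 2 := by positivity
    linarith
  intro T hT G hG
  have hT0 : 0 < T := by linarith
  have hTr : 1 ≤ T ^ r12 := Real.one_le_rpow hT hr
  have hTr' : 1 ≤ T ^ (1 + r12) := Real.one_le_rpow hT (by linarith)
  have hTe : T ^ (1 + r12) = T * T ^ r12 := by rw [Real.rpow_add hT0, Real.rpow_one]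
  rcases le_or_gt C T with hCT | hCT
  · have h1 := block hlam hlam1 hT (hC T hCT) G hG (by
      intro g hg x hx hx4 hq
      have h2 : SW w pr x T = 0 := SW_zero (hG g hg).1 hsupp' (by positivity) (by linarith) hT hx hx4
        (by linarith)
      rw [h2]
      simp only [mul_zero]
      linarith)
    obtain ⟨h2, h3⟩ := h1
    have h4 : (0 : ℝ) ≤ ((2 * C ^ 2 + 1) * (2 * C ^ 2) + (2 * C ^ 2 + 1)) * T ^ r12 := by positivity
    have h5 : (0 : ℝ) ≤ ((2 * C ^ 2 + 1) * (2 * C ^ 2) + (2 * C ^ 2 + 1)) * T ^ (1 + r12) := by positivity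
    constructor
    · linarith
    · calc ∑ g ∈ G, ((g.2 : ℝ) - g.1) ≤ T * (m * (C * T ^ r12)) := h3
        _ = m * C * T ^ (1 + r12) := by rw [hTe]; ring
        _ ≤ _ := by linarith
  · have h1 := block_triv (T := T) G (fun g hg => ⟨(hG g hg).1, (hG g hg).2.2.1⟩)
    have hT2 : T ^ 2 ≤ C ^ 2 := by nlinarith
    have hmC : 0 ≤ m * C := by positivity
    have hA : 0 ≤ (2 * C ^ 2 + 1) * (2 * C ^ 2) := by positivity
    have hB : 0 ≤ 2 * C ^ 2 + 1 := by positivity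
    have hT20 : 0 ≤ T ^ 2 := by positivity
    constructor
    · have h2 : (G.card : ℝ) ≤ 2 * C ^ 2 + 1 := by linarith [h1.1]
      have h3 : (2 * C ^ 2 + 1) * 1 ≤ (m * C + (2 * C ^ 2 + 1) * (2 * C ^ 2) + (2 * C ^ 2 + 1)) * T ^ r12 :=
        mul_le_mul (by linarith) hTr (by norm_num) (by linarith)
      linarith
    · have h2 : (2 * T ^ 2 + 1) * (2 * T ^ 2) ≤ (2 * C ^ 2 + 1) * (2 * C ^ 2) :=
        mul_le_mul (by linarith) (by linarith) (by positivity) hB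
      have h3 : (2 * C ^ 2 + 1) * (2 * C ^ 2) * 1 ≤
          (m * C + (2 * C ^ 2 + 1) * (2 * C ^ 2) + (2 * C ^ 2 + 1)) * T ^ (1 + r12) :=
        mul_le_mul (by linarith) hTr' (by norm_num) (by linarith)
      linarith [h1.2]

/-- number of dyadic blocks -/
lemma num_blocks (X : ℕ) (hX : 1 ≤ X) : ((Nat.log 2 X + 1 : ℕ) : ℝ) ≤ 40001 * (X : ℝ) ^ (1 / 20000 : ℝ) := by
  have hX0 : (1 : ℝ) ≤ X := by exact_mod_cast hX
  have h1 : ((2 : ℝ)) ^ (Nat.log 2 X) ≤ X := by exact_mod_cast Nat.pow_log_le_self 2 (by omega)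
  have h2 : (Nat.log 2 X : ℝ) * Real.log 2 ≤ Real.log X := by
    have h3 := Real.log_le_log (by positivity) h1
    rwa [Real.log_pow] at h3
  have h3 := Real.log_two_gt_d9
  have h4 : Real.log X ≤ (X : ℝ) ^ (1 / 20000 : ℝ) / (1 / 20000) :=
    Real.log_le_rpow_div (by linarith) (by norm_num)
  have h5 : 1 ≤ (X : ℝ) ^ (1 / 20000 : ℝ) := Real.one_le_rpow hX0 (by norm_num)
  have h6 : (Nat.log 2 X : ℝ) * (1 / 2) ≤ (Nat.log 2 X : ℝ) * Real.log 2 :=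
    mul_le_mul_of_nonneg_left (by linarith) (Nat.cast_nonneg _)
  push_cast
  linarith

end YGa_aux

open Pool.Agent.Work.MP_a8fbd7_nt.EX.ASM.XGa_aux YGa_aux in
theorem iYGa (hMn : StYMn) (hWt : StWt) : StYGa := by
  intro lam hlam hlam1
  obtain ⟨C, hC1, hC⟩ := YGa_aux.block_all hMn hWt hlam hlam1
  refine ⟨40001 * C, by linarith, ?_⟩
  intro X hX G hG
  have hX0 : (1 : ℝ) ≤ X := by exact_mod_cast hX
  have hXpos : (0 : ℝ) < X := by linarith
  have hCP : ∀ g ∈ G, CP g := fun g hg => ⟨(hG g hg).1, (hG g hg).2.1, (hG g hg).2.2.1, (hG g hg).2.2.2.2.1⟩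
  have hr : (0 : ℝ) ≤ r12 := by unfold r12; norm_num
  -- the blocks
  have hmaps : ∀ g ∈ G, Nat.log 2 g.1 ∈ Finset.range (Nat.log 2 X + 1) := by
    intro g hg
    rw [Finset.mem_range, Nat.lt_succ_iff]
    exact Nat.log_mono_right (hG g hg).2.2.2.1
  have hblock : ∀ k ∈ Finset.range (Nat.log 2 X + 1),
      ((G.filter (fun g => Nat.log 2 g.1 = k)).card : ℝ) ≤ C * (X : ℝ) ^ (r12 / 2) ∧
      ∑ g ∈ G.filter (fun g => Nat.log 2 g.1 = k), ((g.2 : ℝ) - g.1) ≤ C * (X : ℝ) ^ ((1 + r12) / 2) := by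
    intro k hk
    rw [Finset.mem_range, Nat.lt_succ_iff] at hk
    set T : ℝ := Real.sqrt (2 ^ k) with hT_def
    have hT2 : T ^ 2 = 2 ^ k := Real.sq_sqrt (by positivity)
    have h2k : (1 : ℝ) ≤ 2 ^ k := one_le_pow₀ (by norm_num)
    have hT1 : 1 ≤ T := by
      rw [hT_def]
      exact Real.one_le_sqrt.2 h2k
    have h2X : ((2 : ℝ)) ^ k ≤ X := by
      have h1 : (2 : ℕ) ^ k ≤ 2 ^ (Nat.log 2 X) := Nat.pow_le_pow_right (by norm_num) hk
      have h2 : 2 ^ (Nat.log 2 X) ≤ X := Nat.pow_log_le_self 2 (by omega)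
      exact_mod_cast h1.trans h2
    have hTX : T ≤ (X : ℝ) ^ (1 / 2 : ℝ) := by
      rw [hT_def, ← Real.sqrt_eq_rpow]
      exact Real.sqrt_le_sqrt h2X
    obtain ⟨h1, h2⟩ := hC T hT1 (G.filter (fun g => Nat.log 2 g.1 = k)) (by
      intro g hg
      obtain ⟨hg1, hg2⟩ := Finset.mem_filter.1 hg
      have hp0 : g.1 ≠ 0 := (hG g hg1).1.ne_zero
      have h3 : 2 ^ k ≤ g.1 := by
        rw [← hg2]
        exact Nat.pow_log_le_self 2 hp0
      have h4 : g.1 < 2 ^ (k + 1) := by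
        rw [← hg2]
        exact Nat.lt_pow_succ_log_self (by norm_num) _
      have h3' : ((2 : ℝ)) ^ k ≤ g.1 := by exact_mod_cast h3
      have h4' : (g.1 : ℝ) ≤ 2 ^ (k + 1) := by exact_mod_cast h4.le
      refine ⟨hCP g hg1, by rw [hT2]; exact h3', ?_, ?_⟩
      · rw [hT2]
        rw [pow_succ] at h4'
        linarith
      · have h5 := (hG g hg1).2.2.2.2.2
        have h6 : T ≤ Real.sqrt g.1 := by
          rw [hT_def]
          exact Real.sqrt_le_sqrt h3'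
        exact (mul_le_mul_of_nonneg_left h6 hlam.le).trans h5)
    have hpow : ∀ a : ℝ, 0 ≤ a → T ^ a ≤ (X : ℝ) ^ (a / 2) := by
      intro a ha
      calc T ^ a ≤ ((X : ℝ) ^ (1 / 2 : ℝ)) ^ a := Real.rpow_le_rpow (by linarith) hTX ha
        _ = (X : ℝ) ^ (a / 2) := by
          rw [← Real.rpow_mul hXpos.le]
          congr 1
          ring
    exact ⟨h1.trans (mul_le_mul_of_nonneg_left (hpow _ hr) (by linarith)),
      h2.trans (mul_le_mul_of_nonneg_left (hpow _ (by linarith)) (by linarith))⟩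
  have hnum := YGa_aux.num_blocks X hX
  have hfin : ∀ a b : ℝ, a + 1 / 20000 = b →
      ((Nat.log 2 X + 1 : ℕ) : ℝ) * (C * (X : ℝ) ^ a) ≤ 40001 * C * (X : ℝ) ^ b := by
    intro a b hab
    have h1 : (0 : ℝ) ≤ C * (X : ℝ) ^ a := by positivity
    calc ((Nat.log 2 X + 1 : ℕ) : ℝ) * (C * (X : ℝ) ^ a) ≤ 40001 * (X : ℝ) ^ (1 / 20000 : ℝ) * (C * (X : ℝ) ^ a) :=
          mul_le_mul_of_nonneg_right hnum h1
      _ = 40001 * C * ((X : ℝ) ^ a * (X : ℝ) ^ (1 / 20000 : ℝ)) := by ring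
      _ = 40001 * C * (X : ℝ) ^ b := by rw [← Real.rpow_add hXpos, hab]
  constructor
  · have h1 : G.card = ∑ k ∈ Finset.range (Nat.log 2 X + 1), (G.filter (fun g => Nat.log 2 g.1 = k)).card :=
      Finset.card_eq_sum_card_fiberwise (fun g hg => hmaps g hg)
    rw [h1]
    push_cast
    calc ∑ k ∈ Finset.range (Nat.log 2 X + 1), ((G.filter (fun g => Nat.log 2 g.1 = k)).card : ℝ)
        ≤ ∑ _k ∈ Finset.range (Nat.log 2 X + 1), C * (X : ℝ) ^ (r12 / 2) :=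
          Finset.sum_le_sum (fun k hk => (hblock k hk).1)
      _ = ((Nat.log 2 X + 1 : ℕ) : ℝ) * (C * (X : ℝ) ^ (r12 / 2)) := by
          rw [Finset.sum_const, Finset.card_range, nsmul_eq_mul]
      _ ≤ _ := hfin _ _ (by unfold r12; norm_num)
  · rw [← Finset.sum_fiberwise_of_maps_to hmaps]
    calc ∑ k ∈ Finset.range (Nat.log 2 X + 1), ∑ g ∈ G.filter (fun g => Nat.log 2 g.1 = k), ((g.2 : ℝ) - g.1)
        ≤ ∑ _k ∈ Finset.range (Nat.log 2 X + 1), C * (X : ℝ) ^ ((1 + r12) / 2) :=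
          Finset.sum_le_sum (fun k hk => (hblock k hk).2)
      _ = ((Nat.log 2 X + 1 : ℕ) : ℝ) * (C * (X : ℝ) ^ ((1 + r12) / 2)) := by
          rw [Finset.sum_const, Finset.card_range, nsmul_eq_mul]
      _ ≤ _ := hfin _ _ (by unfold r12; norm_num)

end Pool.Agent.Work.MP_a8fbd7_nt.EX.ASM2
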